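import Pool.Agent.Helper38.ED.Calc0A

/-! The discriminant of `V`: the main computation. -/

namespace Pool.Agent.Helper38.ED

open MvPowerSeries Pool.Agent.Helper38.EQ

variable {m : ℕ} {K : Type} [Field K] {z x1 x2 x3 a0 a1 : MvPowerSeries (Fin (m + 1)) K}

private theorem calc0b_P {R : Type} [CommRing R] {b ρ u v y M g t0 : R} (huv : u * v = 1)
    (hz : (u + b ^ 2 * ρ * t0) * (b ^ 2 * ρ) = (b + b ^ 2 * ρ * y) ^ 2 * (M + b ^ 2 * ρ * g)) :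
    ∃ P, b ^ 2 * ρ = b ^ 2 * (v * M + b * P) := by
  refine ⟨v * ((2 * ρ * y + b * ρ ^ 2 * y ^ 2) * (M + b ^ 2 * ρ * g) + b * ρ * g)
    - v * b * ρ ^ 2 * t0, ?_⟩
  linear_combination v * hz - b ^ 2 * ρ * huv

private theorem calc0b_X {R : Type} [CommRing R] {b ρ v M P e t : R}
    (hP : b ^ 2 * ρ = b ^ 2 * (v * M + b * P)) :
    ∃ Q, b ^ 2 * ρ * (e + b ^ 2 * ρ * t) = b ^ 2 * (v * M * e) + b ^ 3 * Q := by
  refine ⟨P * (e + b ^ 2 * ρ * t) + v * M * b * ρ * t, ?_⟩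
  linear_combination (e + b ^ 2 * ρ * t) * hP

private theorem calc0b_main {R : Type} [CommRing R] {a b c' a0 a1 v e1 e2 : R}
    {X1 X2 X3 Q1 Q2 Q3 Y1 Y2 Y3 Y4 T1 T2 T3 T4 : R}
    (h1 : X1 = a + b ^ 2 * (v * 1 * e1) + b ^ 3 * Q1)
    (h2 : X2 = b + b ^ 2 * (v * 1 * e2) + b ^ 3 * Q2)
    (h3 : X3 = c' + b ^ 2 * Q3)
    (k1 : Y1 = a + b ^ 2 * (v * (2 + a1) * e1) + b ^ 3 * T1)
    (k2 : Y2 = b + b ^ 2 * (v * (2 + a1) * e2) + b ^ 3 * T2)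
    (k3 : Y3 = c' + b ^ 2 * T3)
    (k4 : Y4 = a0 + b ^ 2 * T4) :
    ∃ c d : R, X1 + X2 * X3 = a + b * c ∧
      Y1 + 2 * Y2 * Y3 + Y4 * Y2 ^ 2 = a + 2 * b * c + b ^ 2 * d ∧
      b ∣ c - c' ∧ d - (a0 + v * e1 * a1) ∈ Ideal.span {b, c'} := by
  subst h1 h2 h3 k1 k2 k3 k4
  set N := v * (2 + a1) with hN
  refine ⟨c' + b * (v * e1 + v * e2 * c') + b ^ 2 * (Q1 + Q3 + Q2 * c') + b ^ 3 * (v * e2 * Q3)
      + b ^ 4 * (Q2 * Q3),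
    N * e1 + b * T1 + 2 * b * T3 + 2 * N * e2 * c' + 2 * b ^ 2 * N * e2 * T3 + 2 * b * T2 * c'
      + 2 * b ^ 3 * T2 * T3 + (a0 + b ^ 2 * T4) * (1 + b * (N * e2 + b * T2)) ^ 2
      - 2 * (v * e1 + v * e2 * c') - 2 * b * (Q1 + Q3 + Q2 * c') - 2 * b ^ 2 * v * e2 * Q3
      - 2 * b ^ 3 * Q2 * Q3, ?_, ?_, ?_, ?_⟩
  · ring
  · ring
  · exact ⟨(v * e1 + v * e2 * c') + b * (Q1 + Q3 + Q2 * c') + b ^ 2 * (v * e2 * Q3)
      + b ^ 3 * (Q2 * Q3), by ring⟩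
  · rw [Ideal.mem_span_pair]
    refine ⟨T1 + 2 * T3 + 2 * b * N * e2 * T3 + 2 * T2 * c' + 2 * b ^ 2 * T2 * T3
      + (a0 * (2 * (N * e2 + b * T2) + b * (N * e2 + b * T2) ^ 2)
        + b * T4 * (1 + b * (N * e2 + b * T2)) ^ 2)
      - 2 * (Q1 + Q3 + Q2 * c') - 2 * b * v * e2 * Q3 - 2 * b ^ 2 * Q2 * Q3,
      2 * N * e2 - 2 * v * e2, ?_⟩
    rw [hN]
    ring

/-- The main computation, from the divisibility of the differences of the roots. -/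
theorem calc0B_gen (p : Proj m K) (s : ∀ i, Sec p (comps0 z x1 x2 x3 a0 a1 i))
    (hd2 : (s 0).pull x2 ^ 2 ∣ (s 2).r - (s 0).r) (hd4 : (s 0).pull x2 ^ 2 ∣ (s 4).r - (s 0).r) :
    ∃ (c d w : R1 m K) (q : PowerSeries (R1 m K)),
      (s 2).pull (x1 + x2 * x3) = (s 0).pull x1 + (s 0).pull x2 * c ∧
      (s 4).pull (x1 + 2 * x2 * x3 + a0 * x2 ^ 2) =
        (s 0).pull x1 + 2 * (s 0).pull x2 * c + (s 0).pull x2 ^ 2 * d ∧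
      (s 0).pull x2 ∣ c - (s 0).pull x3 ∧
      p.σ (ex x1) = PowerSeries.C ((s 0).pull x1) + (PowerSeries.X - PowerSeries.C (s 0).r) * q ∧
      w * (s 0).ε (s 0).U = (s 0).ε q ∧
      d - ((s 0).pull a0 + w * (s 0).pull a1) ∈
        Ideal.span {(s 0).pull x2, (s 0).pull x3} := by
  obtain ⟨ρ2, hρ2⟩ := hd2
  obtain ⟨ρ4, hρ4⟩ := hd4
  have key : ∀ (f : MvPowerSeries (Fin (m + 1)) K), ∃ q : PowerSeries (R1 m K),
      p.σ (ex f) = PowerSeries.C ((s 0).pull f) +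
        (PowerSeries.X - PowerSeries.C (s 0).r) * q := fun f => (s 0).ε_dvd (p.σ (ex f))
  obtain ⟨q1, hq1⟩ := key x1
  obtain ⟨q2, hq2⟩ := key x2
  obtain ⟨q3, hq3⟩ := key x3
  obtain ⟨qa0, hqa0⟩ := key a0
  obtain ⟨qa1, hqa1⟩ := key a1
  have ev : ∀ (i : Fin 6) (f : MvPowerSeries (Fin (m + 1)) K) (q : PowerSeries (R1 m K)),
      p.σ (ex f) = PowerSeries.C ((s 0).pull f) +
        (PowerSeries.X - PowerSeries.C (s 0).r) * q →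
      ∃ t, (s i).pull f = (s 0).pull f +
        ((s i).r - (s 0).r) * ((s 0).ε q + ((s i).r - (s 0).r) * t) ∧
        (s i).ε q = (s 0).ε q + ((s i).r - (s 0).r) * t := by
    intro i f q hq
    obtain ⟨t, ht⟩ := (s 0).ε_sub_dvd (s i) q
    have h1 : (s i).ε q = (s 0).ε q + ((s i).r - (s 0).r) * t := by
      linear_combination ht
    have h2 : (s i).ev (ex f) = (s 0).ev (ex f) + ((s i).r - (s 0).r) * (s i).ε q :=
      Sec.ev_eq (s 0) (s i) hq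
    rw [Sec.ev_ex, Sec.ev_ex, h1] at h2
    exact ⟨t, h2, h1⟩
  -- the unit
  have hU : IsUnit ((s 0).ε (s 0).U) := (s 0).ε_unit (s 0).isUnit
  obtain ⟨v, hv⟩ := hU.exists_right_inv
  -- the values of `z`
  have hz : ∀ i : Fin 6, (s i).pull z = (s i).ε (s 0).U * ((s i).r - (s 0).r) :=
    fun i => Sec.pull_eq (s i) (s 0)
  have hz2 : (s 2).pull z = (s 2).pull x2 ^ 2 := by
    have h0 : (s 2).pull (z - x2 ^ 2) = 0 := Sec.pull_self (s 2)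
    rw [map_sub, map_pow] at h0
    linear_combination h0
  have hz4 : (s 4).pull z = (s 4).pull x2 ^ 2 * (2 + (s 4).pull a1) := by
    have h0 : (s 4).pull (z - x2 ^ 2 * (2 + a1)) = 0 := Sec.pull_self (s 4)
    rw [map_sub, map_mul, map_pow, map_add, map_ofNat] at h0
    linear_combination h0
  obtain ⟨w2, hw2⟩ := (s 0).ε_sub_dvd (s 2) (s 0).U
  obtain ⟨w4, hw4⟩ := (s 0).ε_sub_dvd (s 4) (s 0).U
  obtain ⟨t21, e21, -⟩ := ev 2 x1 q1 hq1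
  obtain ⟨t22, e22, -⟩ := ev 2 x2 q2 hq2
  obtain ⟨t23, e23, -⟩ := ev 2 x3 q3 hq3
  obtain ⟨t41, e41, -⟩ := ev 4 x1 q1 hq1
  obtain ⟨t42, e42, -⟩ := ev 4 x2 q2 hq2
  obtain ⟨t43, e43, -⟩ := ev 4 x3 q3 hq3
  obtain ⟨t44, e44, -⟩ := ev 4 a0 qa0 hqa0
  obtain ⟨t45, e45, -⟩ := ev 4 a1 qa1 hqa1
  rw [hρ2] at hw2 e21 e22 e23
  rw [hρ4] at hw4 e41 e42 e43 e44 e45
  have hz2' := hz 2
  have hz4' := hz 4
  rw [hρ2, hz2] at hz2'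
  rw [hρ4, hz4] at hz4'
  set b := (s 0).pull x2 with hb
  set u := (s 0).ε (s 0).U with hu
  obtain ⟨P2, hP2⟩ := calc0b_P (b := b) (ρ := ρ2) (u := u) (v := v)
    (y := (s 0).ε q2 + b ^ 2 * ρ2 * t22) (M := 1) (g := 0) (t0 := w2) hv (by
      rw [e22] at hz2'
      linear_combination -hz2' - (b ^ 2 * ρ2) * hw2)
  obtain ⟨P4, hP4⟩ := calc0b_P (b := b) (ρ := ρ4) (u := u) (v := v)
    (y := (s 0).ε q2 + b ^ 2 * ρ4 * t42) (M := 2 + (s 0).pull a1)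
    (g := (s 0).ε qa1 + b ^ 2 * ρ4 * t45) (t0 := w4) hv (by
      rw [e42, e45] at hz4'
      linear_combination -hz4' - (b ^ 2 * ρ4) * hw4)
  obtain ⟨Q1, hQ1⟩ := calc0b_X (e := (s 0).ε q1) (t := t21) hP2
  obtain ⟨Q2, hQ2⟩ := calc0b_X (e := (s 0).ε q2) (t := t22) hP2
  obtain ⟨T1, hT1⟩ := calc0b_X (e := (s 0).ε q1) (t := t41) hP4
  obtain ⟨T2, hT2⟩ := calc0b_X (e := (s 0).ε q2) (t := t42) hP4
  obtain ⟨c, d, r1, r2, r3, r4⟩ := calc0b_main (a := (s 0).pull x1) (b := b)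
    (c' := (s 0).pull x3) (a0 := (s 0).pull a0) (a1 := (s 0).pull a1) (v := v)
    (e1 := (s 0).ε q1) (e2 := (s 0).ε q2)
    (X1 := (s 2).pull x1) (X2 := (s 2).pull x2) (X3 := (s 2).pull x3)
    (Q1 := Q1) (Q2 := Q2) (Q3 := ρ2 * ((s 0).ε q3 + b ^ 2 * ρ2 * t23))
    (Y1 := (s 4).pull x1) (Y2 := (s 4).pull x2) (Y3 := (s 4).pull x3)
    (Y4 := (s 4).pull a0) (T1 := T1) (T2 := T2)
    (T3 := ρ4 * ((s 0).ε q3 + b ^ 2 * ρ4 * t43))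
    (T4 := ρ4 * ((s 0).ε qa0 + b ^ 2 * ρ4 * t44))
    (by linear_combination e21 + hQ1) (by linear_combination e22 + hQ2)
    (by linear_combination e23)
    (by linear_combination e41 + hT1) (by linear_combination e42 + hT2)
    (by linear_combination e43) (by linear_combination e44)
  refine ⟨c, d, v * (s 0).ε q1, q1, ?_, ?_, r3, hq1, ?_, r4⟩
  · rw [map_add, map_mul, r1]
  · rw [map_add, map_add, map_mul, map_mul, map_mul, map_pow, map_ofNat, r2]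
  · linear_combination (s 0).ε q1 * hv

/-- The main computation. Let `ι_i = (s i).pull`, `a = ι_0 x1`, `b = ι_0 x2`, `c' = ι_0 x3`,
`a0' = ι_0 a0`, `a1' = ι_0 a1`; for `h` let `σ (ex h) = C (ι_0 h) + (X - C r_0) q_h` (`Sec.ε_dvd`);
let `q = q_{x1}`, `u = ε_0 U_0` (a unit), `w = ε_0 q / u`, `w2 = ε_0 q_{x2} / u`.
By `Sec.ev_eq`, `ι_i h = ι_0 h + (r_i - r_0) ε_i (q_h)`. Modulo `b ^ 2`, `ε_i φ ≡ ε_0 φ`
(`ε_sub_dvd`, as `b ^ 2 ∣ r_i - r_0`). By `Sec.pull_eq` (for `s = s_i`, `s' = s_0`, `e' = z`),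
`ι_i z = ε_i U_0 * (r_i - r_0)`, and `ι_i z = (ι_i x2) ^ 2 ι_i m_i`. Here `m_2 = 1`,
`m_4 = 2 + a1`, and `(ι_i x2) ^ 2 ≡ b ^ 2` modulo `b ^ 3`. Hence modulo `b ^ 3`
`u (r_2 - r_0) ≡ b ^ 2`, `u (r_4 - r_0) ≡ b ^ 2 (2 + a1')`,
`ι_2 x1 ≡ a + b ^ 2 w`, `ι_4 x1 ≡ a + b ^ 2 (2 + a1') w`,
`ι_2 x2 ≡ b + b ^ 2 w2`, `ι_4 x2 ≡ b + b ^ 2 (2 + a1') w2`, and modulo `b ^ 2`
`ι_2 x3 ≡ ι_4 x3 ≡ c'`, `ι_4 a0 ≡ a0'`. So modulo `b ^ 3`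
`ι_2 (x1 + x2 x3) ≡ a + b (c' + b w + b w2 c')` and
`ι_4 (x1 + 2 x2 x3 + a0 x2 ^ 2) ≡ a + 2 b c' + b ^ 2 ((2 + a1') w + 2 (2 + a1') w2 c' + a0')`.
Let `c` be such that the first is exactly `a + b c`; then `c ≡ c'` modulo `b`, and modulo `b ^ 3`
`ι_4 (...) - a - 2 b c ≡ b ^ 2 (a0' + a1' w + (2 + 2 a1') w2 c')`; this gives `d`. -/
theorem calc0_main [CharZero K] (h : Good z x1 x2 x3 a0 a1) (p : Proj m K)
    (s : ∀ i, Sec p (comps0 z x1 x2 x3 a0 a1 i)) :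
    ∃ (c d w : R1 m K) (q : PowerSeries (R1 m K)),
      (s 2).pull (x1 + x2 * x3) = (s 0).pull x1 + (s 0).pull x2 * c ∧
      (s 4).pull (x1 + 2 * x2 * x3 + a0 * x2 ^ 2) =
        (s 0).pull x1 + 2 * (s 0).pull x2 * c + (s 0).pull x2 ^ 2 * d ∧
      (s 0).pull x2 ∣ c - (s 0).pull x3 ∧
      p.σ (ex x1) = PowerSeries.C ((s 0).pull x1) + (PowerSeries.X - PowerSeries.C (s 0).r) * q ∧
      w * (s 0).ε (s 0).U = (s 0).ε q ∧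
      d - ((s 0).pull a0 + w * (s 0).pull a1) ∈
        Ideal.span {(s 0).pull x2, (s 0).pull x3} :=
  calc0B_gen p s (h.x2_assoc p s 2).2 (h.x2_assoc p s 4).2

end Pool.Agent.Helper38.ED
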