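import Pool.Agent.Helper38.ED.Calc1

/-! The equation of the critical variety of `V` is radical. -/

namespace Pool.Agent.Helper38.ED

open MvPowerSeries Pool.Agent.Helper38.EQ

private theorem Calc0D_mul {n : ℕ} {K : Type} [Field K] {x y : MvPowerSeries (Fin n) K}
    (hx : x ∈ IsLocalRing.maximalIdeal (MvPowerSeries (Fin n) K))
    (hy : y ∈ IsLocalRing.maximalIdeal (MvPowerSeries (Fin n) K)) :
    x * y ∈ IsLocalRing.maximalIdeal (MvPowerSeries (Fin n) K) ^ 2 := by
  rw [pow_two]
  exact Ideal.mul_mem_mul hx hy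

/-- If `p ∣ q`, the linear part of `q` is a multiple of the linear part of `p`. -/
private theorem Calc0D_dvd {n : ℕ} {K : Type} [Field K] {g : Fin 4 → MvPowerSeries (Fin n) K}
    (h : LI g) {p q : MvPowerSeries (Fin n) K} {P Q : Fin 4 → K}
    (hp : p ∈ IsLocalRing.maximalIdeal (MvPowerSeries (Fin n) K))
    (hP : p - ∑ i, C (P i) * g i ∈ IsLocalRing.maximalIdeal (MvPowerSeries (Fin n) K) ^ 2)
    (hQ : q - ∑ i, C (Q i) * g i ∈ IsLocalRing.maximalIdeal (MvPowerSeries (Fin n) K) ^ 2)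
    (hd : p ∣ q) : ∃ t : K, ∀ i, Q i = t * P i := by
  obtain ⟨s, hs⟩ := hd
  refine ⟨constantCoeff s, fun i => ?_⟩
  have h1 : s - C (constantCoeff s) ∈ IsLocalRing.maximalIdeal (MvPowerSeries (Fin n) K) := by
    rw [mem_maximalIdeal_iff_constantCoeff, map_sub, constantCoeff_C, sub_self]
  have h2 := Calc0D_mul hp h1
  have h3 := ((LI_iff g).1 h).2 (fun i => Q i - constantCoeff s * P i) (by
    have h4 : ∑ i, C (Q i - constantCoeff s * P i) * g i =
        (p * (s - C (constantCoeff s)) +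
          C (constantCoeff s) * (p - ∑ i, C (P i) * g i)) - (q - ∑ i, C (Q i) * g i) := by
      have h5 : ∑ i, C (Q i - constantCoeff s * P i) * g i =
          (∑ i, C (Q i) * g i) - C (constantCoeff s) * ∑ i, C (P i) * g i := by
        rw [Finset.mul_sum, ← Finset.sum_sub_distrib]
        refine Finset.sum_congr rfl fun i _ => ?_
        rw [map_sub, map_mul]
        ring
      rw [h5, hs]
      ring
    rw [h4]
    exact Ideal.sub_mem _ (Ideal.add_mem _ h2 (Ideal.mul_mem_left _ _ hP)) hQ)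
  exact sub_eq_zero.1 (congrFun h3 i)

/-- `b a (a + b c) (a + 2 b c + b ^ 2 d)` is radical: the factors are prime, and pairwise
nonassociated (as in `rad_comps2`: `a ∣ a + b c` gives `a ∣ b` or `a ∣ c`;
`a ∣ a + 2 b c + b ^ 2 d` gives `a ∣ b` or `a ∣ 2 c + b d`; `a + b c ∣ a + 2 b c + b ^ 2 d` gives
`a + b c ∣ b` or `a + b c ∣ c + b d`, etc.). -/
theorem rad_comps1 {n : ℕ} {K : Type} [Field K] [CharZero K]
    {a b c d : MvPowerSeries (Fin n) K} (h : LI ![a, b, c, d]) :
    Rad (∏ i, comps1 a b c d i) := by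
  have ha : a ∈ IsLocalRing.maximalIdeal (MvPowerSeries (Fin n) K) := h.mem 0
  have hb : b ∈ IsLocalRing.maximalIdeal (MvPowerSeries (Fin n) K) := h.mem 1
  have hc : c ∈ IsLocalRing.maximalIdeal (MvPowerSeries (Fin n) K) := h.mem 2
  have hbc := Calc0D_mul hb hc
  have hb2 : b ^ 2 ∈ IsLocalRing.maximalIdeal (MvPowerSeries (Fin n) K) ^ 2 :=
    Ideal.pow_mem_pow hb 2
  have hle : IsLocalRing.maximalIdeal (MvPowerSeries (Fin n) K) ^ 2 ≤
      IsLocalRing.maximalIdeal (MvPowerSeries (Fin n) K) := Ideal.pow_le_self two_ne_zero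
  have hr3 : 2 * b * c + b ^ 2 * d ∈ IsLocalRing.maximalIdeal (MvPowerSeries (Fin n) K) ^ 2 := by
    refine Ideal.add_mem _ ?_ (Ideal.mul_mem_right _ _ hb2)
    rw [mul_assoc]
    exact Ideal.mul_mem_left _ _ hbc
  have hd' : d ∈ IsLocalRing.maximalIdeal (MvPowerSeries (Fin n) K) := h.mem 3
  have hbd := Calc0D_mul hb hd'
  have he2 : a + b * c ∈ IsLocalRing.maximalIdeal (MvPowerSeries (Fin n) K) :=
    Ideal.add_mem _ ha (hle hbc)
  have he3 : a + 2 * b * c + b ^ 2 * d ∈ IsLocalRing.maximalIdeal (MvPowerSeries (Fin n) K) := by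
    rw [add_assoc]
    exact Ideal.add_mem _ ha (hle hr3)
  -- the linear parts
  have la : a - ∑ i, C ((![1, 0, 0, 0] : Fin 4 → K) i) * (![a, b, c, d]) i ∈
      IsLocalRing.maximalIdeal (MvPowerSeries (Fin n) K) ^ 2 := by
    simp [Fin.sum_univ_four]
  have lb : b - ∑ i, C ((![0, 1, 0, 0] : Fin 4 → K) i) * (![a, b, c, d]) i ∈
      IsLocalRing.maximalIdeal (MvPowerSeries (Fin n) K) ^ 2 := by
    simp [Fin.sum_univ_four]
  have lc : c - ∑ i, C ((![0, 0, 1, 0] : Fin 4 → K) i) * (![a, b, c, d]) i ∈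
      IsLocalRing.maximalIdeal (MvPowerSeries (Fin n) K) ^ 2 := by
    simp [Fin.sum_univ_four]
  have le2 : (a + b * c) - ∑ i, C ((![1, 0, 0, 0] : Fin 4 → K) i) * (![a, b, c, d]) i ∈
      IsLocalRing.maximalIdeal (MvPowerSeries (Fin n) K) ^ 2 := by
    simpa [Fin.sum_univ_four] using hbc
  have le3 : (a + 2 * b * c + b ^ 2 * d) -
      ∑ i, C ((![1, 0, 0, 0] : Fin 4 → K) i) * (![a, b, c, d]) i ∈
      IsLocalRing.maximalIdeal (MvPowerSeries (Fin n) K) ^ 2 := by
    have : (a + 2 * b * c + b ^ 2 * d) -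
      ∑ i, C ((![1, 0, 0, 0] : Fin 4 → K) i) * (![a, b, c, d]) i = 2 * b * c + b ^ 2 * d := by
      simp [Fin.sum_univ_four]
      ring
    rw [this]
    exact hr3
  have lx : (2 * c + b * d) - ∑ i, C ((![0, 0, 2, 0] : Fin 4 → K) i) * (![a, b, c, d]) i ∈
      IsLocalRing.maximalIdeal (MvPowerSeries (Fin n) K) ^ 2 := by
    have e2 : (C (2 : K) : MvPowerSeries (Fin n) K) = 2 := map_ofNat _ 2
    have e : (2 * c + b * d) - ∑ i, C ((![0, 0, 2, 0] : Fin 4 → K) i) * (![a, b, c, d]) i =
        b * d := by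
      simp [Fin.sum_univ_four, e2]
    rw [e]
    exact hbd
  have ly : (c + b * d) - ∑ i, C ((![0, 0, 1, 0] : Fin 4 → K) i) * (![a, b, c, d]) i ∈
      IsLocalRing.maximalIdeal (MvPowerSeries (Fin n) K) ^ 2 := by
    simpa [Fin.sum_univ_four] using hbd
  -- divisibilities of the linear parts
  have n10 : ¬ b ∣ a := fun hh => by
    obtain ⟨t, ht⟩ := Calc0D_dvd h hb lb la hh
    simpa using ht 0
  have nb2 : ¬ b ∣ a + b * c := fun hh => n10 ((dvd_add_left (dvd_mul_right b c)).1 hh)
  have nb3 : ¬ b ∣ a + 2 * b * c + b ^ 2 * d := fun hh => by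
    obtain ⟨t, ht⟩ := Calc0D_dvd h hb lb le3 hh
    simpa using ht 0
  have n01 : ¬ a ∣ b := fun hh => by
    obtain ⟨t, ht⟩ := Calc0D_dvd h ha la lb hh
    simpa using ht 1
  have n21 : ¬ a + b * c ∣ b := fun hh => by
    obtain ⟨t, ht⟩ := Calc0D_dvd h he2 le2 lb hh
    simpa using ht 1
  have n31 : ¬ a + 2 * b * c + b ^ 2 * d ∣ b := fun hh => by
    obtain ⟨t, ht⟩ := Calc0D_dvd h he3 le3 lb hh
    simpa using ht 1
  have nac : ¬ a ∣ c := fun hh => by
    obtain ⟨t, ht⟩ := Calc0D_dvd h ha la lc hh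
    simpa using ht 2
  have n2c : ¬ a + b * c ∣ c := fun hh => by
    obtain ⟨t, ht⟩ := Calc0D_dvd h he2 le2 lc hh
    simpa using ht 2
  have nax : ¬ a ∣ 2 * c + b * d := fun hh => by
    obtain ⟨t, ht⟩ := Calc0D_dvd h ha la lx hh
    simpa using ht 2
  have n3x : ¬ a + 2 * b * c + b ^ 2 * d ∣ 2 * c + b * d := fun hh => by
    obtain ⟨t, ht⟩ := Calc0D_dvd h he3 le3 lx hh
    simpa using ht 2
  have n2y : ¬ a + b * c ∣ c + b * d := fun hh => by
    obtain ⟨t, ht⟩ := Calc0D_dvd h he2 le2 ly hh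
    simpa using ht 2
  have n3y : ¬ a + 2 * b * c + b ^ 2 * d ∣ c + b * d := fun hh => by
    obtain ⟨t, ht⟩ := Calc0D_dvd h he3 le3 ly hh
    simpa using ht 2
  -- primes
  have m4 := ((LI_iff _).1 h).2
  have hna : a ∉ IsLocalRing.maximalIdeal (MvPowerSeries (Fin n) K) ^ 2 := fun hh => by
    have := m4 ![1, 0, 0, 0] (by simpa [Fin.sum_univ_four] using hh)
    simpa using congrFun this 0
  have hnb : b ∉ IsLocalRing.maximalIdeal (MvPowerSeries (Fin n) K) ^ 2 := fun hh => by
    have := m4 ![0, 1, 0, 0] (by simpa [Fin.sum_univ_four] using hh)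
    simpa using congrFun this 1
  have pa : Prime a := prime_of_notMem_sq ha hna
  have pb : Prime b := prime_of_notMem_sq hb hnb
  have p2 : Prime (a + b * c) := prime_of_notMem_sq he2 (fun hh => hna (by
    have := Ideal.sub_mem _ hh hbc
    rwa [add_sub_cancel_right] at this))
  have p3 : Prime (a + 2 * b * c + b ^ 2 * d) := prime_of_notMem_sq he3 (fun hh => hna (by
    have := Ideal.sub_mem _ hh hr3
    have e : a + 2 * b * c + b ^ 2 * d - (2 * b * c + b ^ 2 * d) = a := by ring
    rwa [e] at this))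
  refine Rad.prod (comps1 a b c d) ?_ ?_
  · intro i
    fin_cases i
    · exact pa
    · exact pb
    · exact p2
    · exact p3
  · intro i j hij
    fin_cases i <;> fin_cases j
    · exact absurd rfl hij
    · exact n01
    · intro hh
      have hh' : a ∣ a + b * c := hh
      rcases pa.dvd_or_dvd ((dvd_add_right (dvd_refl a)).1 hh') with h1 | h1
      · exact n01 h1
      · exact nac h1
    · intro hh
      have hh' : a ∣ a + 2 * b * c + b ^ 2 * d := hh
      have h2 : a ∣ b * (2 * c + b * d) := by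
        have e : b * (2 * c + b * d) = (a + 2 * b * c + b ^ 2 * d) - a := by ring
        rw [e]
        exact dvd_sub hh' (dvd_refl a)
      rcases pa.dvd_or_dvd h2 with h1 | h1
      · exact n01 h1
      · exact nax h1
    · exact n10
    · exact absurd rfl hij
    · exact nb2
    · exact nb3
    · intro hh
      have hh' : a + b * c ∣ a := hh
      have h2 : a + b * c ∣ b * c := by
        have e : b * c = (a + b * c) - a := by ring
        have h3 := dvd_sub (dvd_refl (a + b * c)) hh'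
        rwa [← e] at h3
      rcases p2.dvd_or_dvd h2 with h1 | h1
      · exact n21 h1
      · exact n2c h1
    · exact n21
    · exact absurd rfl hij
    · intro hh
      have hh' : a + b * c ∣ a + 2 * b * c + b ^ 2 * d := hh
      have h2 : a + b * c ∣ b * (c + b * d) := by
        have e : b * (c + b * d) = (a + 2 * b * c + b ^ 2 * d) - (a + b * c) := by ring
        rw [e]
        exact dvd_sub hh' (dvd_refl _)
      rcases p2.dvd_or_dvd h2 with h1 | h1
      · exact n21 h1
      · exact n2y h1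
    · intro hh
      have hh' : a + 2 * b * c + b ^ 2 * d ∣ a := hh
      have h2 : a + 2 * b * c + b ^ 2 * d ∣ b * (2 * c + b * d) := by
        have h3 := dvd_sub (dvd_refl (a + 2 * b * c + b ^ 2 * d)) hh'
        have e : (a + 2 * b * c + b ^ 2 * d) - a = b * (2 * c + b * d) := by ring
        rwa [e] at h3
      rcases p3.dvd_or_dvd h2 with h1 | h1
      · exact n31 h1
      · exact n3x h1
    · exact n31
    · intro hh
      have hh' : a + 2 * b * c + b ^ 2 * d ∣ a + b * c := hh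
      have h2 : a + 2 * b * c + b ^ 2 * d ∣ b * (c + b * d) := by
        have h3 := dvd_sub (dvd_refl (a + 2 * b * c + b ^ 2 * d)) hh'
        have e : (a + 2 * b * c + b ^ 2 * d) - (a + b * c) = b * (c + b * d) := by ring
        rwa [e] at h3
      rcases p3.dvd_or_dvd h2 with h1 | h1
      · exact n31 h1
      · exact n3y h1
    · exact absurd rfl hij

end Pool.Agent.Helper38.ED
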