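import Pool.Agent.Helper38.ED.Calc0A
import Pool.Agent.Helper38.ED.Calc0B
import Pool.Agent.Helper38.ED.Calc0C
import Pool.Agent.Helper38.ED.Calc0D

/-! The discriminant of `V`. -/

namespace Pool.Agent.Helper38.ED

open MvPowerSeries Pool.Agent.Helper38.EQ

variable {m : ℕ} {K : Type} [Field K] {z x1 x2 x3 a0 a1 : MvPowerSeries (Fin (m + 1)) K}

/-- The products of the restrictions, abstractly: `A i j` is associated to `b ^ 2`, except for
`A 0 1 ~ b ^ 2 a`, `A 2 3 ~ b ^ 2 e`, `A 4 5 ~ b ^ 2 f`. -/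
private theorem calc0_abs {R : Type} [CommRing R] {a b e f : R} (A : Fin 6 → Fin 6 → R)
    (h01 : Associated (A 0 1) (b ^ 2 * a)) (h23 : Associated (A 2 3) (b ^ 2 * e))
    (h45 : Associated (A 4 5) (b ^ 2 * f))
    (hA : ∀ i j, i < j → ¬ (i = 0 ∧ j = 1) → ¬ (i = 2 ∧ j = 3) → ¬ (i = 4 ∧ j = 5) →
      Associated (A i j) (b ^ 2)) :
    (∀ i j, i < j → A i j ∣ (a * b * e * f) ^ 2) ∧
    (a * b * e * f ∣ ∏ i, ∏ j ∈ Finset.univ.filter (fun j => i < j), A i j) ∧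
    ∀ i j, i < j → b ∣ A i j := by
  have key : ∀ i j, i < j → A i j ∣ (a * b * e * f) ^ 2 ∧ b ∣ A i j := by
    intro i j hij
    by_cases c1 : i = 0 ∧ j = 1
    · obtain ⟨rfl, rfl⟩ := c1
      exact ⟨h01.dvd.trans ⟨a * e ^ 2 * f ^ 2, by ring⟩,
        Dvd.dvd.trans ⟨b * a, by ring⟩ h01.symm.dvd⟩
    by_cases c2 : i = 2 ∧ j = 3
    · obtain ⟨rfl, rfl⟩ := c2
      exact ⟨h23.dvd.trans ⟨a ^ 2 * e * f ^ 2, by ring⟩,
        Dvd.dvd.trans ⟨b * e, by ring⟩ h23.symm.dvd⟩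
    by_cases c3 : i = 4 ∧ j = 5
    · obtain ⟨rfl, rfl⟩ := c3
      exact ⟨h45.dvd.trans ⟨a ^ 2 * e ^ 2 * f, by ring⟩,
        Dvd.dvd.trans ⟨b * f, by ring⟩ h45.symm.dvd⟩
    have h1 := hA i j hij c1 c2 c3
    exact ⟨h1.dvd.trans ⟨a ^ 2 * e ^ 2 * f ^ 2, by ring⟩,
      Dvd.dvd.trans ⟨b, by ring⟩ h1.symm.dvd⟩
  refine ⟨fun i j hij => (key i j hij).1, ?_, fun i j hij => (key i j hij).2⟩
  have h1 : a * b * e * f ∣ A 0 1 * (A 2 3 * A 4 5) := by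
    refine Dvd.dvd.trans ?_ (mul_dvd_mul h01.symm.dvd (mul_dvd_mul h23.symm.dvd h45.symm.dvd))
    exact ⟨b ^ 5, by ring⟩
  have h2 : ∀ i j, i < j → A i j ∣ ∏ j ∈ Finset.univ.filter (fun j => i < j), A i j := by
    intro i j hij
    exact Finset.dvd_prod_of_mem (fun j => A i j) (Finset.mem_filter.2 ⟨Finset.mem_univ j, hij⟩)
  refine h1.trans ((mul_dvd_mul (h2 0 1 (by decide))
    (mul_dvd_mul (h2 2 3 (by decide)) (h2 4 5 (by decide)))).trans ?_)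
  have h3 := Finset.prod_dvd_prod_of_subset ({0, 2, 4} : Finset (Fin 6)) Finset.univ
    (fun i => ∏ j ∈ Finset.univ.filter (fun j => i < j), A i j) (Finset.subset_univ _)
  rw [Finset.prod_insert (by decide), Finset.prod_insert (by decide), Finset.prod_singleton] at h3
  exact h3

/-- Everything together: the critical variety of `V` is of the type `comps1`. -/
theorem calc0 [CharZero K] (h : Good z x1 x2 x3 a0 a1) (p : Proj m K)
    (s : ∀ i, Sec p (comps0 z x1 x2 x3 a0 a1 i)) :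
    ∃ (c d w : R1 m K) (q : PowerSeries (R1 m K)),
      LI ![(s 0).pull x1, (s 0).pull x2, c, d] ∧
      IsDisc s (∏ i, comps1 ((s 0).pull x1) ((s 0).pull x2) c d i) ∧
      (∀ i j, i < j → (s 0).pull x2 ∣ (s i).pull (comps0 z x1 x2 x3 a0 a1 j)) ∧
      (s 0).pull x2 ∣ c - (s 0).pull x3 ∧
      p.σ (ex x1) = PowerSeries.C ((s 0).pull x1) + (PowerSeries.X - PowerSeries.C (s 0).r) * q ∧
      w * (s 0).ε (s 0).U = (s 0).ε q ∧
      d - ((s 0).pull a0 + w * (s 0).pull a1) ∈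
        Ideal.span {(s 0).pull x2, (s 0).pull x3} := by
  have := charZero_gen m K
  obtain ⟨c, d, w, q, h1, h2, h3, h4, h5, h6⟩ := calc0_main h p s
  have hLI : LI ![(s 0).pull x1, (s 0).pull x2, c, d] := calc0_LI h p (s 0) h3 h6
  obtain ⟨k01, k23, k45, kk⟩ := h.pull_assoc p s
  rw [h1] at k23
  rw [h2] at k45
  obtain ⟨r1, r2, r3⟩ := calc0_abs (fun i j => (s i).pull (comps0 z x1 x2 x3 a0 a1 j))
    k01 k23 k45 kk
  have hP : ∏ i, comps1 ((s 0).pull x1) ((s 0).pull x2) c d i =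
      (s 0).pull x1 * (s 0).pull x2 * ((s 0).pull x1 + (s 0).pull x2 * c) *
        ((s 0).pull x1 + 2 * (s 0).pull x2 * c + (s 0).pull x2 ^ 2 * d) := by
    rw [Fin.prod_univ_four]
    rfl
  refine ⟨c, d, w, q, hLI, ⟨rad_comps1 hLI, fun i j hij => ⟨2, ?_⟩, ⟨1, ?_⟩⟩, r3, h3, h4, h5, h6⟩
  · rw [hP]
    exact r1 i j hij
  · rw [hP, pow_one]
    exact r2

end Pool.Agent.Helper38.ED
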