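import Pool.Agent.Helper38.ED.Comps

/-! The discriminant of `b d = 0`. -/

namespace Pool.Agent.Helper38.ED

open MvPowerSeries Pool.Agent.Helper38.EQ

private theorem Calc3_LI {n : ℕ} {K : Type} [Field K] {p : Proj n K}
    {b d : MvPowerSeries (Fin (n + 1)) K} (h : LI ![b, d]) (s0 : Sec p b) :
    LI ![s0.pull d] := by
  have h3 : LI (Fin.cons b ![d] : Fin 2 → MvPowerSeries (Fin (n + 1)) K) := h
  have h4 := s0.LI_pull ![d] h3
  have e : (fun i => s0.pull ((![d] : Fin 1 → MvPowerSeries (Fin (n + 1)) K) i)) =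
      ![s0.pull d] := by
    funext i
    fin_cases i
    rfl
  rwa [e] at h4

/-- The critical variety of `b d = 0` is smooth: its equation is the restriction `π` of `d` to
`b = 0`. Here `π ∈ 𝔪`, `π ∉ 𝔪 ^ 2` (by `Sec.LI_pull`), so `π` is prime and radical; the only pair
is `(0, 1)`. -/
theorem calc3 {n : ℕ} {K : Type} [Field K] (p : Proj n K)
    {b d : MvPowerSeries (Fin (n + 1)) K} (h : LI ![b, d])
    (s : ∀ i, Sec p (comps3 b d i)) :
    IsDisc s ((s 0).pull d) ∧
    (s 0).pull d ∈ IsLocalRing.maximalIdeal (R1 n K) ∧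
    (s 0).pull d ∉ IsLocalRing.maximalIdeal (R1 n K) ^ 2 := by
  have hLI : LI ![(s 0).pull d] := Calc3_LI h (s 0)
  have h1 : (s 0).pull d ∈ IsLocalRing.maximalIdeal (R1 n K) := hLI.mem 0
  have h2 : (s 0).pull d ∉ IsLocalRing.maximalIdeal (R1 n K) ^ 2 := hLI.notMem_sq 0
  refine ⟨⟨fun y N hy => (prime_of_notMem_sq h1 h2).dvd_of_dvd_pow hy, fun i j hij => ⟨1, ?_⟩,
    ⟨1, ?_⟩⟩, h1, h2⟩
  · rw [pow_one]
    fin_cases i <;> fin_cases j
    · exact absurd hij (by decide)
    · exact dvd_refl _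
    · exact absurd hij (by decide)
    · exact absurd hij (by decide)
  · rw [pow_one]
    have h5 : (s 0).pull d ∣ (s 0).pull (comps3 b d 1) := dvd_refl _
    refine h5.trans ?_
    refine Dvd.dvd.trans ?_ (Finset.dvd_prod_of_mem
      (fun i => ∏ j ∈ Finset.univ.filter (fun j => i < j), (s i).pull (comps3 b d j))
      (Finset.mem_univ (0 : Fin 2)))
    exact Finset.dvd_prod_of_mem (fun j => (s 0).pull (comps3 b d j))
      (Finset.mem_filter.2 ⟨Finset.mem_univ (1 : Fin 2), by decide⟩)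

end Pool.Agent.Helper38.ED
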