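import Pool.Agent.Helper38.ED.Term

/-! The discriminant of `a b (a + b c) (a + 2 b c + b ^ 2 d) = 0`, where `c` is a unit. -/

namespace Pool.Agent.Helper38.ED

open MvPowerSeries Pool.Agent.Helper38.EQ

variable {n : ℕ} {K : Type} [Field K] [CharZero K]

private theorem CalcU1_two : IsUnit (2 : MvPowerSeries (Fin n) K) := by
  have h1 := isUnit_natCast_add (K := K) (n := n) (m := 2) (by norm_num)
    (h := 0) (Ideal.zero_mem _)
  simpa using h1

omit [CharZero K] in
/-- The linear part of `a + b c` is not zero. -/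
private theorem CalcU1_notMem {a b : MvPowerSeries (Fin n) K} (h : LI ![a, b])
    (c e : MvPowerSeries (Fin n) K)
    (he : e ∈ IsLocalRing.maximalIdeal (MvPowerSeries (Fin n) K) ^ 2) :
    a + b * c + e ∉ IsLocalRing.maximalIdeal (MvPowerSeries (Fin n) K) ^ 2 := by
  intro h1
  have hb : b ∈ IsLocalRing.maximalIdeal (MvPowerSeries (Fin n) K) := h.mem 1
  have h2 := ((LI_iff _).mp h).2 ![1, constantCoeff c]
  have h3 : b * (c - C (constantCoeff c)) ∈
      IsLocalRing.maximalIdeal (MvPowerSeries (Fin n) K) ^ 2 := by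
    rw [pow_two]
    refine Ideal.mul_mem_mul hb ?_
    rw [mem_maximalIdeal_iff_constantCoeff, map_sub, constantCoeff_C, sub_self]
  have h4 : (![1, constantCoeff c] : Fin 2 → K) = 0 := by
    apply h2
    rw [Fin.sum_univ_two]
    change C (1 : K) * a + C (constantCoeff c) * b ∈ _
    have h5 : C (1 : K) * a + C (constantCoeff c) * b =
        (a + b * c + e) - b * (c - C (constantCoeff c)) - e := by
      rw [map_one]
      ring
    rw [h5]
    exact Ideal.sub_mem _ (Ideal.sub_mem _ h1 h3) he
  have h6 := congrFun h4 0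
  simp at h6

omit [CharZero K] in
private theorem CalcU1_swap {a b : MvPowerSeries (Fin n) K} (h : LI ![a, b]) : LI ![b, a] := by
  have h1 := h.comp (![1, 0] : Fin 2 → Fin 2) (by
    intro i j hij
    fin_cases i <;> fin_cases j
    · rfl
    · exact absurd hij (by decide)
    · exact absurd hij (by decide)
    · rfl)
  have h2 : (fun i => (![a, b] : Fin 2 → MvPowerSeries (Fin n) K)
      ((![1, 0] : Fin 2 → Fin 2) i)) = ![b, a] := by
    funext i
    fin_cases i <;> rfl
  rwa [h2] at h1

theorem comps1u_smooth {a b c d : MvPowerSeries (Fin n) K}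
    (h : LI ![a, b]) (i : Fin 4) :
    comps1 a b c d i ∈ IsLocalRing.maximalIdeal (MvPowerSeries (Fin n) K) ∧
      comps1 a b c d i ∉ IsLocalRing.maximalIdeal (MvPowerSeries (Fin n) K) ^ 2 := by
  have ha : a ∈ IsLocalRing.maximalIdeal (MvPowerSeries (Fin n) K) := h.mem 0
  have hb : b ∈ IsLocalRing.maximalIdeal (MvPowerSeries (Fin n) K) := h.mem 1
  have hb2 : b ^ 2 * d ∈ IsLocalRing.maximalIdeal (MvPowerSeries (Fin n) K) ^ 2 :=
    Ideal.mul_mem_right _ _ (Ideal.pow_mem_pow hb 2)
  fin_cases i
  · exact ⟨ha, h.notMem_sq 0⟩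
  · exact ⟨hb, h.notMem_sq 1⟩
  · refine ⟨Ideal.add_mem _ ha (Ideal.mul_mem_right _ _ hb), ?_⟩
    have h1 := CalcU1_notMem h c 0 (Ideal.zero_mem _)
    rwa [add_zero] at h1
  · refine ⟨Ideal.add_mem _ (Ideal.add_mem _ ha ?_) ?_, ?_⟩
    · exact Ideal.mul_mem_right _ _ (Ideal.mul_mem_left _ _ hb)
    · exact Ideal.mul_mem_right _ _ (Ideal.pow_mem_of_mem _ hb 2 (by norm_num))
    · have h1 := CalcU1_notMem h (2 * c) (b ^ 2 * d) hb2
      have h2 : a + b * (2 * c) + b ^ 2 * d = comps1 a b c d 3 := by
        change _ = a + 2 * b * c + b ^ 2 * d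
        ring
      rw [h2] at h1
      exact h1

/-- `a b (a + b c) (a + 2 b c + b ^ 2 d)` is radical if `c` is a unit: the linear parts of the
factors are `a, b, a + c₀ b, a + 2 c₀ b`, pairwise independent. Use `prime_of_notMem_sq`,
`Rad.prod`, `LI.not_dvd`. -/
theorem rad_comps1u {a b c d : MvPowerSeries (Fin n) K}
    (h : LI ![a, b]) (hc : IsUnit c) : Rad (∏ i, comps1 a b c d i) := by
  have hb : b ∈ IsLocalRing.maximalIdeal (MvPowerSeries (Fin n) K) := h.mem 1
  have P : ∀ i, Prime (comps1 a b c d i) := fun i =>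
    prime_of_notMem_sq (comps1u_smooth h i).1 (comps1u_smooth h i).2
  have hab : ¬ a ∣ b := LI.not_dvd h
  have hba : ¬ b ∣ a := LI.not_dvd (CalcU1_swap h)
  have hbd : b * d ∈ IsLocalRing.maximalIdeal (MvPowerSeries (Fin n) K) :=
    Ideal.mul_mem_right _ _ hb
  have u2c : IsUnit (2 * c + b * d) := by
    rw [MvPowerSeries.isUnit_iff_constantCoeff]
    rw [mem_maximalIdeal_iff_constantCoeff] at hbd
    rw [map_add, hbd, add_zero, ← MvPowerSeries.isUnit_iff_constantCoeff]
    exact CalcU1_two.mul hc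
  have uc : IsUnit (c + b * d) := by
    rw [MvPowerSeries.isUnit_iff_constantCoeff]
    rw [mem_maximalIdeal_iff_constantCoeff] at hbd
    rw [map_add, hbd, add_zero, ← MvPowerSeries.isUnit_iff_constantCoeff]
    exact hc
  have E3 : comps1 a b c d 3 = a + b * (2 * c + b * d) := by
    change a + 2 * b * c + b ^ 2 * d = _
    ring
  have h02 : ¬ a ∣ a + b * c := by
    intro h1
    rw [dvd_add_right (dvd_refl a), hc.dvd_mul_right] at h1
    exact hab h1
  have h03 : ¬ a ∣ a + b * (2 * c + b * d) := by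
    intro h1
    rw [dvd_add_right (dvd_refl a), u2c.dvd_mul_right] at h1
    exact hab h1
  have h12 : ¬ b ∣ a + b * c := by
    intro h1
    rw [dvd_add_left (dvd_mul_right b c)] at h1
    exact hba h1
  have h13 : ¬ b ∣ a + b * (2 * c + b * d) := by
    intro h1
    rw [dvd_add_left (dvd_mul_right b _)] at h1
    exact hba h1
  have h23 : ¬ a + b * c ∣ a + b * (2 * c + b * d) := by
    intro h1
    have h2 : a + b * (2 * c + b * d) = (a + b * c) + b * (c + b * d) := by ring
    rw [h2, dvd_add_right (dvd_refl _), uc.dvd_mul_right] at h1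
    exact h12 (((P 2).associated_of_dvd (P 1) h1).symm.dvd)
  have key : ∀ i j, i < j → ¬ comps1 a b c d i ∣ comps1 a b c d j := by
    intro i j hij
    fin_cases i <;> fin_cases j
    all_goals first | exact absurd hij (by decide) | skip
    · exact hab
    · exact h02
    · change ¬ a ∣ comps1 a b c d 3
      rw [E3]
      exact h03
    · exact h12
    · change ¬ b ∣ comps1 a b c d 3
      rw [E3]
      exact h13
    · change ¬ a + b * c ∣ comps1 a b c d 3
      rw [E3]
      exact h23
  refine Rad.prod _ P fun i j hij h3 => ?_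
  rcases lt_or_gt_of_ne hij with hlt | hlt
  · exact key i j hlt h3
  · exact key j i hlt ((P i).associated_of_dvd (P j) h3).symm.dvd

/-- The critical variety is smooth, with equation `β = ι_0 b`: see `calc1` for the restrictions
(with `γ = ι_0 c` now a unit, they are all `β` up to units). -/
theorem calcU1 (p : Proj n K) {a b c d : MvPowerSeries (Fin (n + 1)) K}
    (h : LI ![a, b]) (hc : IsUnit c)
    (s : ∀ i, Sec p (comps1 a b c d i)) :
    IsDisc s ((s 0).pull b) ∧
    (s 0).pull b ∈ IsLocalRing.maximalIdeal (R1 n K) ∧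
    (s 0).pull b ∉ IsLocalRing.maximalIdeal (R1 n K) ^ 2 ∧
    ∀ i j, i < j → (s 0).pull b ∣ (s i).pull (comps1 a b c d j) := by
  have := charZero_gen n K
  have hb : b ∈ IsLocalRing.maximalIdeal (MvPowerSeries (Fin (n + 1)) K) := h.mem 1
  have hLI : LI (fun i : Fin 1 => (s 0).pull ((![b] : Fin 1 → MvPowerSeries (Fin (n + 1)) K) i)) := by
    have h1 : LI (Fin.cons (comps1 a b c d 0) ![b] :
        Fin 2 → MvPowerSeries (Fin (n + 1)) K) := h
    exact (s 0).LI_pull ![b] h1
  have hβ1 : (s 0).pull b ∈ IsLocalRing.maximalIdeal (R1 n K) := hLI.mem 0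
  have hβ2 : (s 0).pull b ∉ IsLocalRing.maximalIdeal (R1 n K) ^ 2 := hLI.notMem_sq 0
  have Pβ : Prime ((s 0).pull b) := prime_of_notMem_sq hβ1 hβ2
  have hγ : ∀ i, IsUnit ((s i).pull c) := fun i => hc.map (s i).pull
  have h00 : (s 0).pull a = 0 := (s 0).pull_self
  have h11 : (s 1).pull b = 0 := (s 1).pull_self
  have h22 : (s 2).pull (a + b * c) = 0 := (s 2).pull_self
  have E01 : (s 0).pull (comps1 a b c d 1) = (s 0).pull b := rfl
  have E02 : (s 0).pull (comps1 a b c d 2) = (s 0).pull b * (s 0).pull c := by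
    change (s 0).pull (a + b * c) = _
    rw [map_add, map_mul, h00, zero_add]
  have E03 : (s 0).pull (comps1 a b c d 3) =
      (s 0).pull b * (2 * (s 0).pull c + (s 0).pull b * (s 0).pull d) := by
    change (s 0).pull (a + 2 * b * c + b ^ 2 * d) = _
    simp only [map_add, map_mul, map_pow, map_ofNat]
    rw [h00]
    ring
  have E12 : (s 1).pull (comps1 a b c d 2) = (s 1).pull a := by
    change (s 1).pull (a + b * c) = _
    rw [map_add, map_mul, h11, zero_mul, add_zero]
  have E13 : (s 1).pull (comps1 a b c d 3) = (s 1).pull a := by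
    change (s 1).pull (a + 2 * b * c + b ^ 2 * d) = _
    simp only [map_add, map_mul, map_pow, map_ofNat]
    rw [h11]
    ring
  have E23 : (s 2).pull (comps1 a b c d 3) =
      (s 2).pull b * ((s 2).pull c + (s 2).pull b * (s 2).pull d) := by
    have h1 : comps1 a b c d 3 = (a + b * c) + b * (c + b * d) := by
      change a + 2 * b * c + b ^ 2 * d = _
      ring
    rw [h1, map_add, h22, zero_add, map_mul, map_add, map_mul]
  have flip : ∀ i j, Associated ((s i).r - (s j).r) ((s j).r - (s i).r) := by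
    intro i j
    rw [← neg_sub]
    exact Associated.neg_left (Associated.refl _)
  have A01 : Associated ((s 0).pull b) ((s 1).r - (s 0).r) :=
    ((s 0).assoc (s 1)).trans (flip 0 1)
  have A1 : Associated ((s 1).pull a) ((s 0).pull b) := by
    have h1 : Associated ((s 1).pull a) ((s 1).r - (s 0).r) := (s 1).assoc (s 0)
    exact h1.trans A01.symm
  have A2 : Associated ((s 2).pull b) ((s 0).pull b) := by
    have h1 : (s 2).pull a = (s 2).pull b * (-(s 2).pull c) := by
      have h2 := h22
      rw [map_add, map_mul] at h2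
      linear_combination h2
    have h2 : Associated ((s 2).pull b) ((s 2).pull a) := by
      rw [h1]
      exact (associated_mul_unit_left _ _ (hγ 2).neg).symm
    have h3 : Associated ((s 2).pull a) ((s 2).r - (s 0).r) := (s 2).assoc (s 0)
    have h4 : Associated ((s 0).pull b * (s 0).pull c) ((s 0).r - (s 2).r) := by
      rw [← E02]
      exact (s 0).assoc (s 2)
    have h5 : Associated ((s 0).pull b * (s 0).pull c) ((s 0).pull b) :=
      associated_mul_unit_left _ _ (hγ 0)
    exact h2.trans (h3.trans ((flip 2 0).trans (h4.symm.trans h5)))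
  have hu : ∀ (i : Fin 4) (x : R1 n K), IsUnit x →
      IsUnit (x + (s i).pull b * (s i).pull d) := by
    intro i x hx
    have h1 : (s i).pull b * (s i).pull d ∈ IsLocalRing.maximalIdeal (R1 n K) :=
      Ideal.mul_mem_right _ _ ((s i).pull_mem hb)
    rw [MvPowerSeries.isUnit_iff_constantCoeff]
    rw [mem_maximalIdeal_iff_constantCoeff] at h1
    rw [map_add, h1, add_zero, ← MvPowerSeries.isUnit_iff_constantCoeff]
    exact hx
  have B02 : Associated ((s 0).pull (comps1 a b c d 2)) ((s 0).pull b) := by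
    rw [E02]
    exact associated_mul_unit_left _ _ (hγ 0)
  have B03 : Associated ((s 0).pull (comps1 a b c d 3)) ((s 0).pull b) := by
    rw [E03]
    exact associated_mul_unit_left _ _ (hu 0 _ (CalcU1_two.mul (hγ 0)))
  have B12 : Associated ((s 1).pull (comps1 a b c d 2)) ((s 0).pull b) := by
    rw [E12]
    exact A1
  have B13 : Associated ((s 1).pull (comps1 a b c d 3)) ((s 0).pull b) := by
    rw [E13]
    exact A1
  have B23 : Associated ((s 2).pull (comps1 a b c d 3)) ((s 0).pull b) := by
    rw [E23]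
    exact (associated_mul_unit_left _ _ (hu 2 _ (hγ 2))).trans A2
  have key : ∀ i j, i < j → Associated ((s i).pull (comps1 a b c d j)) ((s 0).pull b) := by
    intro i j hij
    fin_cases i <;> fin_cases j
    all_goals first | exact absurd hij (by decide) | skip
    · exact Associated.refl _
    · exact B02
    · exact B03
    · exact B12
    · exact B13
    · exact B23
  refine ⟨⟨?_, fun i j hij => ⟨1, ?_⟩, ⟨1, ?_⟩⟩, hβ1, hβ2, fun i j hij => (key i j hij).symm.dvd⟩
  · have h1 := Rad.prod (fun _ : Fin 1 => (s 0).pull b) (fun _ => Pβ)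
      (fun i j hij => absurd (Subsingleton.elim i j) hij)
    rwa [Fin.prod_univ_one] at h1
  · rw [pow_one]
    exact (key i j hij).dvd
  · rw [pow_one]
    have h1 : (s 0).pull (comps1 a b c d 1) ∣
        ∏ j ∈ Finset.univ.filter (fun j : Fin 4 => (0 : Fin 4) < j),
          (s 0).pull (comps1 a b c d j) :=
      Finset.dvd_prod_of_mem (fun j => (s 0).pull (comps1 a b c d j))
        (Finset.mem_filter.mpr ⟨Finset.mem_univ 1, by decide⟩)
    have h2 := Finset.dvd_prod_of_mem
      (fun i : Fin 4 => ∏ j ∈ Finset.univ.filter (fun j : Fin 4 => i < j),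
        (s i).pull (comps1 a b c d j)) (Finset.mem_univ (0 : Fin 4))
    exact h1.trans h2

/-- Positive direction: `pos_disc`. -/
theorem pos1u {B : BasisClass} (hB : HasStd B)
    {a b c d f : MvPowerSeries (Fin (n + 1)) K}
    (h : LI ![a, b]) (hc : IsUnit c) (hf : Associated f (∏ i, comps1 a b c d i))
    {I : Ideal (MvPowerSeries (Fin (n + 1)) K)} (hI : I ≠ ⊤) (ha : a ∈ I) (hb : b ∈ I) :
    EqLen B 1 (n + 1) K f I := by
  refine pos_disc hB (fun i => comps1u_smooth h i) (by norm_num) hf hI ?_ fun p s =>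
    ⟨(s 0).pull b, (calcU1 p h hc s).1, (calcU1 p h hc s).2.1, (calcU1 p h hc s).2.2.1⟩
  intro i
  fin_cases i
  · exact ha
  · exact hb
  · exact I.add_mem ha (I.mul_mem_right _ hb)
  · exact I.add_mem (I.add_mem ha (I.mul_mem_right _ (I.mul_mem_left _ hb)))
      (I.mul_mem_right _ (Ideal.pow_mem_of_mem _ hb 2 (by norm_num)))

/-- Negative direction: `neg_disc`. -/
theorem neg1u {B : BasisClass} {k : ℕ}
    {a b c d f : MvPowerSeries (Fin (n + 1)) K}
    (h : LI ![a, b]) (hc : IsUnit c) (hf : Associated f (∏ i, comps1 a b c d i))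
    {I : Ideal (MvPowerSeries (Fin (n + 1)) K)} (hI : I.IsRadical)
    (hE : EqLen B k (n + 1) K f I) : a ∈ I ∧ b ∈ I := by
  have key := neg_disc (fun i => comps1u_smooth h i) (by norm_num) hf hI hE fun p s =>
    ⟨(s 0).pull b, (calcU1 p h hc s).1, (calcU1 p h hc s).2.2.2⟩
  exact ⟨key 0, key 1⟩

end Pool.Agent.Helper38.ED
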