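import Pool.Agent.Helper38.ED.Term

/-! The discriminant of `b c (2 c + b d) ((1 + b θ) c + b d) = 0`, where `d` is a unit. -/

namespace Pool.Agent.Helper38.ED

open MvPowerSeries Pool.Agent.Helper38.EQ

variable {n : ℕ} {K : Type} [Field K] [CharZero K]

private theorem CalcU2_lin {n : ℕ} {K : Type} [Field K] {b c x y : MvPowerSeries (Fin n) K}
    (h : LI ![b, c]) (p q r s : K)
    (hx : x - (C p * b + C q * c) ∈ IsLocalRing.maximalIdeal (MvPowerSeries (Fin n) K) ^ 2)
    (hy : y - (C r * b + C s * c) ∈ IsLocalRing.maximalIdeal (MvPowerSeries (Fin n) K) ^ 2)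
    (hdet : p * s - q * r ≠ 0) : LI ![x, y] := by
  have h0 : LI ![C p * b + C q * c, C r * b + C s * c] := by
    have hb : constantCoeff b = 0 := h.1 0
    have hc : constantCoeff c = 0 := h.1 1
    refine ⟨fun i => ?_, ?_⟩
    · fin_cases i
      · show constantCoeff (C p * b + C q * c) = 0
        rw [map_add, map_mul, map_mul, hb, hc, mul_zero, mul_zero, add_zero]
      · show constantCoeff (C r * b + C s * c) = 0
        rw [map_add, map_mul, map_mul, hb, hc, mul_zero, mul_zero, add_zero]
    · have h1 := h.2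
      have e1 : (fun i => fun j : Fin n => coeff (Finsupp.single j 1) (![b, c] i)) =
          ![fun j : Fin n => coeff (Finsupp.single j 1) b,
            fun j : Fin n => coeff (Finsupp.single j 1) c] := by
        funext i
        fin_cases i <;> rfl
      rw [e1] at h1
      have h2 := (LinearIndependent.pair_add_smul_add_smul_iff (a := p) (b := q) (c := r)
        (d := s)).2 ⟨h1, fun h => hdet (by rw [h, sub_self])⟩
      have e2 : (fun i => fun j : Fin n => coeff (Finsupp.single j 1)
          (![C p * b + C q * c, C r * b + C s * c] i)) =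
          ![p • (fun j : Fin n => coeff (Finsupp.single j 1) b) +
              q • (fun j : Fin n => coeff (Finsupp.single j 1) c),
            r • (fun j : Fin n => coeff (Finsupp.single j 1) b) +
              s • (fun j : Fin n => coeff (Finsupp.single j 1) c)] := by
        funext i j
        fin_cases i
        · show coeff (Finsupp.single j 1) (C p * b + C q * c) = p * _ + q * _
          rw [map_add, coeff_C_mul, coeff_C_mul]
        · show coeff (Finsupp.single j 1) (C r * b + C s * c) = r * _ + s * _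
          rw [map_add, coeff_C_mul, coeff_C_mul]
      rw [e2]
      exact h2
  refine h0.congr fun i => ?_
  fin_cases i
  · exact hx
  · exact hy

private theorem CalcU2_coeffs {n : ℕ} {K : Type} [Field K] {b c d : MvPowerSeries (Fin n) K}
    (θ : MvPowerSeries (Fin n) K) (h : LI ![b, c]) (i : Fin 4) :
    comps2 b c d θ i - (C ((![1, 0, constantCoeff d, constantCoeff d] : Fin 4 → K) i) * b +
      C ((![0, 1, 2, 1] : Fin 4 → K) i) * c) ∈
      IsLocalRing.maximalIdeal (MvPowerSeries (Fin n) K) ^ 2 := by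
  have hb : b ∈ IsLocalRing.maximalIdeal (MvPowerSeries (Fin n) K) := h.mem 0
  have hc : c ∈ IsLocalRing.maximalIdeal (MvPowerSeries (Fin n) K) := h.mem 1
  have hd : d - C (constantCoeff d) ∈ IsLocalRing.maximalIdeal (MvPowerSeries (Fin n) K) := by
    rw [mem_maximalIdeal_iff_constantCoeff, map_sub, constantCoeff_C, sub_self]
  have hbd : b * (d - C (constantCoeff d)) ∈
      IsLocalRing.maximalIdeal (MvPowerSeries (Fin n) K) ^ 2 := by
    rw [pow_two]
    exact Ideal.mul_mem_mul hb hd
  have hbc : b * c * θ ∈ IsLocalRing.maximalIdeal (MvPowerSeries (Fin n) K) ^ 2 := by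
    rw [pow_two]
    exact Ideal.mul_mem_right _ _ (Ideal.mul_mem_mul hb hc)
  fin_cases i
  · show b - (C 1 * b + C 0 * c) ∈ _
    rw [map_one, map_zero, one_mul, zero_mul, add_zero, sub_self]
    exact Ideal.zero_mem _
  · show c - (C 0 * b + C 1 * c) ∈ _
    rw [map_one, map_zero, one_mul, zero_mul, zero_add, sub_self]
    exact Ideal.zero_mem _
  · show 2 * c + b * d - (C (constantCoeff d) * b + C 2 * c) ∈ _
    rw [map_ofNat]
    have e : 2 * c + b * d - (C (constantCoeff d) * b + 2 * c) =
        b * (d - C (constantCoeff d)) := by ring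
    rw [e]
    exact hbd
  · show (1 + b * θ) * c + b * d - (C (constantCoeff d) * b + C 1 * c) ∈ _
    rw [map_one]
    have e : (1 + b * θ) * c + b * d - (C (constantCoeff d) * b + 1 * c) =
        b * (d - C (constantCoeff d)) + b * c * θ := by ring
    rw [e]
    exact Ideal.add_mem _ hbd hbc

private theorem CalcU2_LI {b c d : MvPowerSeries (Fin n) K} (θ : MvPowerSeries (Fin n) K)
    (h : LI ![b, c]) (hd : IsUnit d) (i j : Fin 4) (hij : i ≠ j) :
    LI ![comps2 b c d θ i, comps2 b c d θ j] := by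
  have hd0 : constantCoeff d ≠ 0 := by
    rw [MvPowerSeries.isUnit_iff_constantCoeff] at hd
    exact hd.ne_zero
  refine CalcU2_lin h _ _ _ _ (CalcU2_coeffs θ h i) (CalcU2_coeffs θ h j) ?_
  fin_cases i <;> fin_cases j <;> first
    | exact absurd rfl hij
    | (simp [hd0]; done)
    | (simp [hd0]; intro h1; apply hd0; linear_combination h1)
    | (simp [hd0]; intro h1; apply hd0; linear_combination -h1)

/-- `b c (2 c + b d) ((1 + b θ) c + b d)` is radical also if `d` is a unit: the linear parts of the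
factors are `b, c, 2 c + d₀ b, c + d₀ b`, pairwise independent. Use `prime_of_notMem_sq`,
`Rad.prod`, `LI.not_dvd`. -/
theorem rad_comps2u {b c d : MvPowerSeries (Fin n) K} (θ : MvPowerSeries (Fin n) K)
    (h : LI ![b, c]) (hd : IsUnit d) : Rad (∏ i, comps2 b c d θ i) := by
  refine Rad.prod _ (fun i => ?_) (fun i j hij => (CalcU2_LI θ h hd i j hij).not_dvd)
  obtain ⟨j, hij⟩ : ∃ j : Fin 4, i ≠ j := by
    fin_cases i
    · exact ⟨1, by decide⟩
    · exact ⟨0, by decide⟩
    · exact ⟨0, by decide⟩
    · exact ⟨0, by decide⟩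
  have h1 := CalcU2_LI θ h hd i j hij
  exact prime_of_notMem_sq (h1.mem 0) (h1.notMem_sq 0)

theorem comps2u_smooth {b c d : MvPowerSeries (Fin n) K} (θ : MvPowerSeries (Fin n) K)
    (h : LI ![b, c]) (i : Fin 4) :
    comps2 b c d θ i ∈ IsLocalRing.maximalIdeal (MvPowerSeries (Fin n) K) ∧
      comps2 b c d θ i ∉ IsLocalRing.maximalIdeal (MvPowerSeries (Fin n) K) ^ 2 := by
  have h0 := CalcU2_coeffs (d := d) θ h 0
  have h1 : LI ![comps2 b c d θ 0, comps2 b c d θ 1] :=
    CalcU2_lin h _ _ _ _ h0 (CalcU2_coeffs θ h 1) (by simp)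
  have h2 : LI ![comps2 b c d θ 0, comps2 b c d θ 2] :=
    CalcU2_lin h _ _ _ _ h0 (CalcU2_coeffs θ h 2) (by simp)
  have h3 : LI ![comps2 b c d θ 0, comps2 b c d θ 3] :=
    CalcU2_lin h _ _ _ _ h0 (CalcU2_coeffs θ h 3) (by simp)
  fin_cases i
  · exact ⟨h1.mem 0, h1.notMem_sq 0⟩
  · exact ⟨h1.mem 1, h1.notMem_sq 1⟩
  · exact ⟨h2.mem 1, h2.notMem_sq 1⟩
  · exact ⟨h3.mem 1, h3.notMem_sq 1⟩

private theorem CalcU2_assoc (p : Proj n K) {b c d : MvPowerSeries (Fin (n + 1)) K}
    (θ : MvPowerSeries (Fin (n + 1)) K) (h : LI ![b, c]) (hd : IsUnit d)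
    (s : ∀ i, Sec p (comps2 b c d θ i)) (i j : Fin 4) (hij : i < j) :
    Associated ((s i).pull (comps2 b c d θ j)) ((s 1).pull b) := by
  have hb : b ∈ IsLocalRing.maximalIdeal (MvPowerSeries (Fin (n + 1)) K) := h.mem 0
  have h2 : IsUnit (2 : R1 n K) := by
    have := charZero_gen n K
    rw [MvPowerSeries.isUnit_iff_constantCoeff, map_ofNat]
    exact (two_ne_zero).isUnit
  have sym : ∀ i j, Associated ((s i).pull (comps2 b c d θ j)) ((s j).pull (comps2 b c d θ i)) := by
    intro i j
    have h5 := (s i).assoc (s j)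
    have h6 := (s j).assoc (s i)
    have h7 : Associated ((s i).r - (s j).r) ((s j).r - (s i).r) := by
      rw [← neg_sub]
      exact (Associated.refl _).neg_left
    exact (h5.trans h7).trans h6.symm
  have h00 : (s 0).pull b = 0 := (s 0).pull_self
  have h11 : (s 1).pull c = 0 := (s 1).pull_self
  have h22 : 2 * (s 2).pull c + (s 2).pull b * (s 2).pull d = 0 := by
    have h3 : (s 2).pull (2 * c + b * d) = 0 := (s 2).pull_self
    rwa [map_add, map_mul, map_mul, map_ofNat] at h3
  have a01 : Associated ((s 0).pull c) ((s 1).pull b) := sym 0 1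
  have e02 : (s 0).pull (2 * c + b * d) = 2 * (s 0).pull c := by
    rw [map_add, map_mul, map_mul, map_ofNat, h00]
    ring
  have a02 : Associated ((s 0).pull (2 * c + b * d)) ((s 1).pull b) := by
    rw [e02]
    exact (associated_unit_mul_left _ _ h2).trans a01
  have a03 : Associated ((s 0).pull ((1 + b * θ) * c + b * d)) ((s 1).pull b) := by
    have e03 : (s 0).pull ((1 + b * θ) * c + b * d) = (s 0).pull c := by
      rw [map_add, map_mul, map_mul, map_add, map_mul, map_one, h00]
      ring
    rw [e03]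
    exact a01
  have hδ : IsUnit ((s 1).pull d) := hd.map (s 1).pull
  have a12 : Associated ((s 1).pull (2 * c + b * d)) ((s 1).pull b) := by
    have e12 : (s 1).pull (2 * c + b * d) = (s 1).pull d * (s 1).pull b := by
      rw [map_add, map_mul, map_mul, map_ofNat, h11]
      ring
    rw [e12]
    exact associated_unit_mul_left _ _ hδ
  have a13 : Associated ((s 1).pull ((1 + b * θ) * c + b * d)) ((s 1).pull b) := by
    have e13 : (s 1).pull ((1 + b * θ) * c + b * d) = (s 1).pull d * (s 1).pull b := by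
      rw [map_add, map_mul, map_mul, map_add, map_mul, map_one, h11]
      ring
    rw [e13]
    exact associated_unit_mul_left _ _ hδ
  have a20 : Associated ((s 2).pull b) ((s 1).pull b) := (sym 2 0).trans a02
  have a23 : Associated ((s 2).pull ((1 + b * θ) * c + b * d)) ((s 1).pull b) := by
    have e23 : 2 * (s 2).pull ((1 + b * θ) * c + b * d) =
        ((1 + (s 2).pull b * (-(s 2).pull θ)) * (s 2).pull d) * (s 2).pull b := by
      rw [map_add, map_mul, map_mul, map_add, map_mul, map_one]
      linear_combination (1 + (s 2).pull b * (s 2).pull θ) * h22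
    have h5 : Associated (2 * (s 2).pull ((1 + b * θ) * c + b * d))
        ((s 2).pull ((1 + b * θ) * c + b * d)) := associated_unit_mul_left _ _ h2
    have h6 : IsUnit ((1 + (s 2).pull b * (-(s 2).pull θ)) * (s 2).pull d) :=
      (isUnit_one_add (Ideal.mul_mem_right _ _ ((s 2).pull_mem hb))).mul (hd.map (s 2).pull)
    have h7 : Associated (2 * (s 2).pull ((1 + b * θ) * c + b * d)) ((s 2).pull b) := by
      rw [e23]
      exact associated_unit_mul_left _ _ h6
    exact h5.symm.trans (h7.trans a20)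
  fin_cases i <;> fin_cases j <;> first
    | exact absurd hij (by decide)
    | exact a01
    | exact a02
    | exact a03
    | exact a12
    | exact a13
    | exact a23

/-- The critical variety is smooth, with equation `β = ι_1 b`: see `calc2` for the restrictions
(they are `β` or `β δ` up to units, with `δ = ι_1 d`, now a unit). -/
theorem calcU2 (p : Proj n K) {b c d : MvPowerSeries (Fin (n + 1)) K}
    (θ : MvPowerSeries (Fin (n + 1)) K) (h : LI ![b, c]) (hd : IsUnit d)
    (s : ∀ i, Sec p (comps2 b c d θ i)) :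
    IsDisc s ((s 1).pull b) ∧
    (s 1).pull b ∈ IsLocalRing.maximalIdeal (R1 n K) ∧
    (s 1).pull b ∉ IsLocalRing.maximalIdeal (R1 n K) ^ 2 ∧
    ∀ i j, i < j → (s 1).pull b ∣ (s i).pull (comps2 b c d θ j) := by
  have h3 : LI (Fin.cons c ![b] : Fin 2 → MvPowerSeries (Fin (n + 1)) K) := by
    have := h.comp (![1, 0] : Fin 2 → Fin 2) (by decide)
    have e : (fun i => ![b, c] ((![1, 0] : Fin 2 → Fin 2) i)) =
        (Fin.cons c ![b] : Fin 2 → MvPowerSeries (Fin (n + 1)) K) := by
      funext i
      fin_cases i <;> rfl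
    rwa [e] at this
  have h4 : LI (fun i => (s 1).pull ((![b] : Fin 1 → MvPowerSeries (Fin (n + 1)) K) i)) :=
    (s 1).LI_pull ![b] h3
  have hm : (s 1).pull b ∈ IsLocalRing.maximalIdeal (R1 n K) := h4.mem 0
  have hm2 : (s 1).pull b ∉ IsLocalRing.maximalIdeal (R1 n K) ^ 2 := h4.notMem_sq 0
  have ha := CalcU2_assoc p θ h hd s
  refine ⟨⟨?_, fun i j hij => ⟨1, ?_⟩, ⟨1, ?_⟩⟩, hm, hm2, fun i j hij => (ha i j hij).symm.dvd⟩
  · intro y N hN
    exact (prime_of_notMem_sq hm hm2).dvd_of_dvd_pow hN
  · rw [pow_one]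
    exact (ha i j hij).dvd
  · rw [pow_one]
    refine (ha 0 1 (by decide)).symm.dvd.trans ?_
    refine Dvd.dvd.trans ?_ (Finset.dvd_prod_of_mem
      (fun i => ∏ j ∈ Finset.univ.filter (fun j => i < j), (s i).pull (comps2 b c d θ j))
      (Finset.mem_univ (0 : Fin 4)))
    exact Finset.dvd_prod_of_mem (fun j => (s 0).pull (comps2 b c d θ j))
      (Finset.mem_filter.2 ⟨Finset.mem_univ (1 : Fin 4), by decide⟩)

/-- Positive direction: `pos_disc`. -/
theorem pos2u {B : BasisClass} (hB : HasStd B)
    {b c d f : MvPowerSeries (Fin (n + 1)) K} (θ : MvPowerSeries (Fin (n + 1)) K)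
    (h : LI ![b, c]) (hd : IsUnit d) (hf : Associated f (∏ i, comps2 b c d θ i))
    {I : Ideal (MvPowerSeries (Fin (n + 1)) K)} (hI : I ≠ ⊤) (hb : b ∈ I) (hc : c ∈ I) :
    EqLen B 1 (n + 1) K f I := by
  refine pos_disc hB (comps2u_smooth θ h) (by norm_num) hf hI ?_ ?_
  · intro i
    fin_cases i
    · exact hb
    · exact hc
    · exact I.add_mem (I.mul_mem_left _ hc) (I.mul_mem_right _ hb)
    · exact I.add_mem (I.mul_mem_left _ hc) (I.mul_mem_right _ hb)
  · intro p s
    obtain ⟨h1, h2, h3, -⟩ := calcU2 p θ h hd s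
    exact ⟨_, h1, h2, h3⟩

/-- Negative direction: `neg_disc`. -/
theorem neg2u {B : BasisClass} {k : ℕ}
    {b c d f : MvPowerSeries (Fin (n + 1)) K} (θ : MvPowerSeries (Fin (n + 1)) K)
    (h : LI ![b, c]) (hd : IsUnit d) (hf : Associated f (∏ i, comps2 b c d θ i))
    {I : Ideal (MvPowerSeries (Fin (n + 1)) K)} (hI : I.IsRadical)
    (hE : EqLen B k (n + 1) K f I) : b ∈ I ∧ c ∈ I := by
  have key := neg_disc (comps2u_smooth θ h) (by norm_num) hf hI hE (fun p s => by
    obtain ⟨h1, -, -, h4⟩ := calcU2 p θ h hd s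
    exact ⟨_, h1, h4⟩)
  exact ⟨key 0, key 1⟩

end Pool.Agent.Helper38.ED
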