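import Pool.Agent.Helper38.ED.CalcU2

/-! The discriminant of `a b (a + b c) (a + 2 b c + b ^ 2 d) = 0`, where `d` is a unit. -/

namespace Pool.Agent.Helper38.ED

open MvPowerSeries Pool.Agent.Helper38.EQ

variable {n : ℕ} {K : Type} [Field K] [CharZero K]

private theorem CalcV1_mul {n : ℕ} {K : Type} [Field K] {x y : MvPowerSeries (Fin n) K}
    (hx : x ∈ IsLocalRing.maximalIdeal (MvPowerSeries (Fin n) K))
    (hy : y ∈ IsLocalRing.maximalIdeal (MvPowerSeries (Fin n) K)) :
    x * y ∈ IsLocalRing.maximalIdeal (MvPowerSeries (Fin n) K) ^ 2 := by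
  rw [pow_two]
  exact Ideal.mul_mem_mul hx hy

/-- If `p ∣ q`, the linear part of `q` is a multiple of the linear part of `p`. -/
private theorem CalcV1_dvd {n : ℕ} {K : Type} [Field K] {g : Fin 3 → MvPowerSeries (Fin n) K}
    (h : LI g) {p q : MvPowerSeries (Fin n) K} {P Q : Fin 3 → K}
    (hp : p ∈ IsLocalRing.maximalIdeal (MvPowerSeries (Fin n) K))
    (hP : p - ∑ i, C (P i) * g i ∈ IsLocalRing.maximalIdeal (MvPowerSeries (Fin n) K) ^ 2)
    (hQ : q - ∑ i, C (Q i) * g i ∈ IsLocalRing.maximalIdeal (MvPowerSeries (Fin n) K) ^ 2)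
    (hd : p ∣ q) : ∃ t : K, ∀ i, Q i = t * P i := by
  obtain ⟨s, hs⟩ := hd
  refine ⟨constantCoeff s, fun i => ?_⟩
  have h1 : s - C (constantCoeff s) ∈ IsLocalRing.maximalIdeal (MvPowerSeries (Fin n) K) := by
    rw [mem_maximalIdeal_iff_constantCoeff, map_sub, constantCoeff_C, sub_self]
  have h2 := CalcV1_mul hp h1
  have h3 := ((LI_iff g).1 h).2 (fun i => Q i - constantCoeff s * P i) (by
    have h4 : ∑ i, C (Q i - constantCoeff s * P i) * g i =
        (p * (s - C (constantCoeff s)) +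
          C (constantCoeff s) * (p - ∑ i, C (P i) * g i)) - (q - ∑ i, C (Q i) * g i) := by
      have h5 : ∑ i, C (Q i - constantCoeff s * P i) * g i =
          (∑ i, C (Q i) * g i) - C (constantCoeff s) * ∑ i, C (P i) * g i := by
        rw [Finset.mul_sum, ← Finset.sum_sub_distrib]
        refine Finset.sum_congr rfl fun i _ => ?_
        rw [map_sub, map_mul]
        ring
      rw [h5, hs]
      ring
    rw [h4]
    exact Ideal.sub_mem _ (Ideal.add_mem _ h2 (Ideal.mul_mem_left _ _ hP)) hQ)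
  exact sub_eq_zero.1 (congrFun h3 i)

/-- `a b (a + b c) (a + 2 b c + b ^ 2 d)` is radical if `LI ![a, b, c]` and `d` is a unit: see
`rad_comps1`; `a ∣ a + 2 b c + b ^ 2 d` would give `a ∣ b` or `a ∣ 2 c + b d`, and the linear parts
`a, 2 c + d₀ b` are independent; etc. -/
theorem rad_comps1v {a b c d : MvPowerSeries (Fin n) K}
    (h : LI ![a, b, c]) (hd : IsUnit d) : Rad (∏ i, comps1 a b c d i) := by
  have ha : a ∈ IsLocalRing.maximalIdeal (MvPowerSeries (Fin n) K) := h.mem 0
  have hb : b ∈ IsLocalRing.maximalIdeal (MvPowerSeries (Fin n) K) := h.mem 1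
  have hc : c ∈ IsLocalRing.maximalIdeal (MvPowerSeries (Fin n) K) := h.mem 2
  have hbc := CalcV1_mul hb hc
  have hb2 : b ^ 2 ∈ IsLocalRing.maximalIdeal (MvPowerSeries (Fin n) K) ^ 2 :=
    Ideal.pow_mem_pow hb 2
  have hle : IsLocalRing.maximalIdeal (MvPowerSeries (Fin n) K) ^ 2 ≤
      IsLocalRing.maximalIdeal (MvPowerSeries (Fin n) K) := Ideal.pow_le_self two_ne_zero
  have hr3 : 2 * b * c + b ^ 2 * d ∈ IsLocalRing.maximalIdeal (MvPowerSeries (Fin n) K) ^ 2 := by
    refine Ideal.add_mem _ ?_ (Ideal.mul_mem_right _ _ hb2)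
    rw [mul_assoc]
    exact Ideal.mul_mem_left _ _ hbc
  -- the difference of `b d` and its linear part
  have hbd : b * (d - C (constantCoeff d)) ∈
      IsLocalRing.maximalIdeal (MvPowerSeries (Fin n) K) ^ 2 := by
    refine CalcV1_mul hb ?_
    rw [mem_maximalIdeal_iff_constantCoeff, map_sub, constantCoeff_C, sub_self]
  have he2 : a + b * c ∈ IsLocalRing.maximalIdeal (MvPowerSeries (Fin n) K) :=
    Ideal.add_mem _ ha (hle hbc)
  have he3 : a + 2 * b * c + b ^ 2 * d ∈ IsLocalRing.maximalIdeal (MvPowerSeries (Fin n) K) := by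
    rw [add_assoc]
    exact Ideal.add_mem _ ha (hle hr3)
  -- the linear parts
  have la : a - ∑ i, C ((![1, 0, 0] : Fin 3 → K) i) * (![a, b, c]) i ∈
      IsLocalRing.maximalIdeal (MvPowerSeries (Fin n) K) ^ 2 := by
    simp [Fin.sum_univ_three]
  have lb : b - ∑ i, C ((![0, 1, 0] : Fin 3 → K) i) * (![a, b, c]) i ∈
      IsLocalRing.maximalIdeal (MvPowerSeries (Fin n) K) ^ 2 := by
    simp [Fin.sum_univ_three]
  have lc : c - ∑ i, C ((![0, 0, 1] : Fin 3 → K) i) * (![a, b, c]) i ∈
      IsLocalRing.maximalIdeal (MvPowerSeries (Fin n) K) ^ 2 := by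
    simp [Fin.sum_univ_three]
  have le2 : (a + b * c) - ∑ i, C ((![1, 0, 0] : Fin 3 → K) i) * (![a, b, c]) i ∈
      IsLocalRing.maximalIdeal (MvPowerSeries (Fin n) K) ^ 2 := by
    simpa [Fin.sum_univ_three] using hbc
  have le3 : (a + 2 * b * c + b ^ 2 * d) -
      ∑ i, C ((![1, 0, 0] : Fin 3 → K) i) * (![a, b, c]) i ∈
      IsLocalRing.maximalIdeal (MvPowerSeries (Fin n) K) ^ 2 := by
    have : (a + 2 * b * c + b ^ 2 * d) -
      ∑ i, C ((![1, 0, 0] : Fin 3 → K) i) * (![a, b, c]) i = 2 * b * c + b ^ 2 * d := by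
      simp [Fin.sum_univ_three]
      ring
    rw [this]
    exact hr3
  have lx : (2 * c + b * d) -
      ∑ i, C ((![0, constantCoeff d, 2] : Fin 3 → K) i) * (![a, b, c]) i ∈
      IsLocalRing.maximalIdeal (MvPowerSeries (Fin n) K) ^ 2 := by
    have e2 : (C (2 : K) : MvPowerSeries (Fin n) K) = 2 := map_ofNat _ 2
    have e : (2 * c + b * d) -
        ∑ i, C ((![0, constantCoeff d, 2] : Fin 3 → K) i) * (![a, b, c]) i =
        b * (d - C (constantCoeff d)) := by
      simp [Fin.sum_univ_three, e2]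
      ring
    rw [e]
    exact hbd
  have ly : (c + b * d) -
      ∑ i, C ((![0, constantCoeff d, 1] : Fin 3 → K) i) * (![a, b, c]) i ∈
      IsLocalRing.maximalIdeal (MvPowerSeries (Fin n) K) ^ 2 := by
    have e : (c + b * d) -
        ∑ i, C ((![0, constantCoeff d, 1] : Fin 3 → K) i) * (![a, b, c]) i =
        b * (d - C (constantCoeff d)) := by
      simp [Fin.sum_univ_three]
      ring
    rw [e]
    exact hbd
  -- divisibilities of the linear parts
  have n10 : ¬ b ∣ a := fun hh => by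
    obtain ⟨t, ht⟩ := CalcV1_dvd h hb lb la hh
    simpa using ht 0
  have nb2 : ¬ b ∣ a + b * c := fun hh => n10 ((dvd_add_left (dvd_mul_right b c)).1 hh)
  have nb3 : ¬ b ∣ a + 2 * b * c + b ^ 2 * d := fun hh => by
    obtain ⟨t, ht⟩ := CalcV1_dvd h hb lb le3 hh
    simpa using ht 0
  have n01 : ¬ a ∣ b := fun hh => by
    obtain ⟨t, ht⟩ := CalcV1_dvd h ha la lb hh
    simpa using ht 1
  have n21 : ¬ a + b * c ∣ b := fun hh => by
    obtain ⟨t, ht⟩ := CalcV1_dvd h he2 le2 lb hh
    simpa using ht 1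
  have n31 : ¬ a + 2 * b * c + b ^ 2 * d ∣ b := fun hh => by
    obtain ⟨t, ht⟩ := CalcV1_dvd h he3 le3 lb hh
    simpa using ht 1
  have nac : ¬ a ∣ c := fun hh => by
    obtain ⟨t, ht⟩ := CalcV1_dvd h ha la lc hh
    simpa using ht 2
  have n2c : ¬ a + b * c ∣ c := fun hh => by
    obtain ⟨t, ht⟩ := CalcV1_dvd h he2 le2 lc hh
    simpa using ht 2
  have nax : ¬ a ∣ 2 * c + b * d := fun hh => by
    obtain ⟨t, ht⟩ := CalcV1_dvd h ha la lx hh
    simpa using ht 2
  have n3x : ¬ a + 2 * b * c + b ^ 2 * d ∣ 2 * c + b * d := fun hh => by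
    obtain ⟨t, ht⟩ := CalcV1_dvd h he3 le3 lx hh
    simpa using ht 2
  have n2y : ¬ a + b * c ∣ c + b * d := fun hh => by
    obtain ⟨t, ht⟩ := CalcV1_dvd h he2 le2 ly hh
    simpa using ht 2
  have n3y : ¬ a + 2 * b * c + b ^ 2 * d ∣ c + b * d := fun hh => by
    obtain ⟨t, ht⟩ := CalcV1_dvd h he3 le3 ly hh
    simpa using ht 2
  -- primes
  have hna : a ∉ IsLocalRing.maximalIdeal (MvPowerSeries (Fin n) K) ^ 2 := h.notMem_sq 0
  have hnb : b ∉ IsLocalRing.maximalIdeal (MvPowerSeries (Fin n) K) ^ 2 := h.notMem_sq 1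
  have pa : Prime a := prime_of_notMem_sq ha hna
  have pb : Prime b := prime_of_notMem_sq hb hnb
  have p2 : Prime (a + b * c) := prime_of_notMem_sq he2 (fun hh => hna (by
    have := Ideal.sub_mem _ hh hbc
    rwa [add_sub_cancel_right] at this))
  have p3 : Prime (a + 2 * b * c + b ^ 2 * d) := prime_of_notMem_sq he3 (fun hh => hna (by
    have := Ideal.sub_mem _ hh hr3
    have e : a + 2 * b * c + b ^ 2 * d - (2 * b * c + b ^ 2 * d) = a := by ring
    rwa [e] at this))
  refine Rad.prod (comps1 a b c d) ?_ ?_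
  · intro i
    fin_cases i
    · exact pa
    · exact pb
    · exact p2
    · exact p3
  · intro i j hij
    fin_cases i <;> fin_cases j
    · exact absurd rfl hij
    · exact n01
    · intro hh
      have hh' : a ∣ a + b * c := hh
      rcases pa.dvd_or_dvd ((dvd_add_right (dvd_refl a)).1 hh') with h1 | h1
      · exact n01 h1
      · exact nac h1
    · intro hh
      have hh' : a ∣ a + 2 * b * c + b ^ 2 * d := hh
      have h2 : a ∣ b * (2 * c + b * d) := by
        have e : b * (2 * c + b * d) = (a + 2 * b * c + b ^ 2 * d) - a := by ring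
        rw [e]
        exact dvd_sub hh' (dvd_refl a)
      rcases pa.dvd_or_dvd h2 with h1 | h1
      · exact n01 h1
      · exact nax h1
    · exact n10
    · exact absurd rfl hij
    · exact nb2
    · exact nb3
    · intro hh
      have hh' : a + b * c ∣ a := hh
      have h2 : a + b * c ∣ b * c := by
        have e : b * c = (a + b * c) - a := by ring
        have h3 := dvd_sub (dvd_refl (a + b * c)) hh'
        rwa [← e] at h3
      rcases p2.dvd_or_dvd h2 with h1 | h1
      · exact n21 h1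
      · exact n2c h1
    · exact n21
    · exact absurd rfl hij
    · intro hh
      have hh' : a + b * c ∣ a + 2 * b * c + b ^ 2 * d := hh
      have h2 : a + b * c ∣ b * (c + b * d) := by
        have e : b * (c + b * d) = (a + 2 * b * c + b ^ 2 * d) - (a + b * c) := by ring
        rw [e]
        exact dvd_sub hh' (dvd_refl _)
      rcases p2.dvd_or_dvd h2 with h1 | h1
      · exact n21 h1
      · exact n2y h1
    · intro hh
      have hh' : a + 2 * b * c + b ^ 2 * d ∣ a := hh
      have h2 : a + 2 * b * c + b ^ 2 * d ∣ b * (2 * c + b * d) := by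
        have h3 := dvd_sub (dvd_refl (a + 2 * b * c + b ^ 2 * d)) hh'
        have e : (a + 2 * b * c + b ^ 2 * d) - a = b * (2 * c + b * d) := by ring
        rwa [e] at h3
      rcases p3.dvd_or_dvd h2 with h1 | h1
      · exact n31 h1
      · exact n3x h1
    · exact n31
    · intro hh
      have hh' : a + 2 * b * c + b ^ 2 * d ∣ a + b * c := hh
      have h2 : a + 2 * b * c + b ^ 2 * d ∣ b * (c + b * d) := by
        have h3 := dvd_sub (dvd_refl (a + 2 * b * c + b ^ 2 * d)) hh'
        have e : (a + 2 * b * c + b ^ 2 * d) - (a + b * c) = b * (c + b * d) := by ring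
        rwa [e] at h3
      rcases p3.dvd_or_dvd h2 with h1 | h1
      · exact n31 h1
      · exact n3y h1
    · exact absurd rfl hij

/-- The critical variety is again of the type `comps2`, with the last parameter a unit: the same
computation as in `calc1`, with `rad_comps2u`. -/
theorem calcV1 (p : Proj n K) {a b c d : MvPowerSeries (Fin (n + 1)) K}
    (h : LI ![a, b, c]) (hd : IsUnit d)
    (s : ∀ i, Sec p (comps1 a b c d i)) :
    LI ![(s 0).pull b, (s 0).pull c] ∧ IsUnit ((s 0).pull d) ∧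
    (∃ θ, IsDisc s (∏ i, comps2 ((s 0).pull b) ((s 0).pull c) ((s 0).pull d) θ i)) ∧
    ∀ i j, i < j → (s 0).pull b ∣ (s i).pull (comps1 a b c d j) := by
  have := charZero_gen n K
  have hLI : LI ![(s 0).pull b, (s 0).pull c] := by
    have h1 : LI (Fin.cons (comps1 a b c d 0) ![b, c] :
        Fin 3 → MvPowerSeries (Fin (n + 1)) K) := h
    have h2 := (s 0).LI_pull ![b, c] h1
    have h3 : (fun i => (s 0).pull ((![b, c] : Fin 2 → MvPowerSeries (Fin (n + 1)) K) i)) =
        ![(s 0).pull b, (s 0).pull c] := by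
      funext i
      fin_cases i <;> rfl
    rwa [h3] at h2
  have hδu : IsUnit ((s 0).pull d) := hd.map _
  have hγ : (s 0).pull c ∈ IsLocalRing.maximalIdeal (R1 n K) := hLI.mem 1
  have h00 : (s 0).pull a = 0 := (s 0).pull_self
  have h11 : (s 1).pull b = 0 := (s 1).pull_self
  have h22 : (s 2).pull (a + b * c) = 0 := (s 2).pull_self
  have E01 : (s 0).pull (comps1 a b c d 1) = (s 0).pull b := rfl
  have E02 : (s 0).pull (comps1 a b c d 2) = (s 0).pull b * (s 0).pull c := by
    change (s 0).pull (a + b * c) = _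
    rw [map_add, map_mul, h00, zero_add]
  have E03 : (s 0).pull (comps1 a b c d 3) =
      (s 0).pull b * (2 * (s 0).pull c + (s 0).pull b * (s 0).pull d) := by
    change (s 0).pull (a + 2 * b * c + b ^ 2 * d) = _
    simp only [map_add, map_mul, map_pow, map_ofNat]
    rw [h00]
    ring
  have E12 : (s 1).pull (comps1 a b c d 2) = (s 1).pull a := by
    change (s 1).pull (a + b * c) = _
    rw [map_add, map_mul, h11, zero_mul, add_zero]
  have E13 : (s 1).pull (comps1 a b c d 3) = (s 1).pull a := by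
    change (s 1).pull (a + 2 * b * c + b ^ 2 * d) = _
    simp only [map_add, map_mul, map_pow, map_ofNat]
    rw [h11]
    ring
  have A1 : Associated ((s 1).pull a) ((s 0).pull b) := by
    have h1 : Associated ((s 1).pull a) ((s 1).r - (s 0).r) := (s 1).assoc (s 0)
    have h2 : Associated ((s 0).pull b) ((s 0).r - (s 1).r) := (s 0).assoc (s 1)
    have h3 : Associated ((s 1).r - (s 0).r) ((s 0).r - (s 1).r) := by
      rw [← neg_sub]
      exact Associated.neg_left (Associated.refl _)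
    exact h1.trans (h3.trans h2.symm)
  have D02 : (s 0).pull b * (s 0).pull c ∣ (s 2).r - (s 0).r := by
    rw [← E02, ← neg_sub, dvd_neg]
    exact ((s 0).assoc (s 2)).dvd
  obtain ⟨t, ht⟩ := D02.trans ((s 0).pull_sub_dvd (s 2) b)
  obtain ⟨t', ht'⟩ := D02.trans ((s 0).pull_sub_dvd (s 2) c)
  obtain ⟨t'', ht''⟩ := D02.trans ((s 0).pull_sub_dvd (s 2) d)
  set β := (s 0).pull b with hβ
  set γ := (s 0).pull c with hγ'
  set δ := (s 0).pull d with hδ
  set θ : R1 n K := t' + t * δ + β * (1 + γ * t) * t'' with hθ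
  have hb2 : (s 2).pull b = β * (1 + γ * t) := by linear_combination ht
  have hc2 : (s 2).pull c = γ + β * γ * t' := by linear_combination ht'
  have hd2 : (s 2).pull d = δ + β * γ * t'' := by linear_combination ht''
  have E23 : (s 2).pull (comps1 a b c d 3) = (s 2).pull b * ((1 + β * θ) * γ + β * δ) := by
    have h1 : comps1 a b c d 3 = (a + b * c) + b * (c + b * d) := by
      change a + 2 * b * c + b ^ 2 * d = _
      ring
    rw [h1, map_add, h22, zero_add, map_mul, map_add, map_mul]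
    congr 1
    rw [hb2, hc2, hd2, hθ]
    ring
  have A2 : Associated ((s 2).pull b) β := by
    rw [hb2]
    exact associated_mul_unit_left _ _ (isUnit_one_add (Ideal.mul_mem_right _ _ hγ))
  have hP : ∏ i, comps2 β γ δ θ i = β * γ * (2 * γ + β * δ) * ((1 + β * θ) * γ + β * δ) := by
    rw [Fin.prod_univ_four]
    rfl
  have key : ∀ i j, i < j → ((s i).pull (comps1 a b c d j) ∣ ∏ i, comps2 β γ δ θ i) ∧
      β ∣ (s i).pull (comps1 a b c d j) := by
    intro i j hij
    rw [hP]
    have hβP : β ∣ β * γ * (2 * γ + β * δ) * ((1 + β * θ) * γ + β * δ) :=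
      ⟨γ * (2 * γ + β * δ) * ((1 + β * θ) * γ + β * δ), by ring⟩
    fin_cases i <;> fin_cases j
    all_goals first | exact absurd hij (by decide) | skip
    · exact ⟨hβP, dvd_refl _⟩
    · change (s 0).pull (comps1 a b c d 2) ∣ _ ∧ β ∣ (s 0).pull (comps1 a b c d 2)
      rw [E02]
      exact ⟨⟨(2 * γ + β * δ) * ((1 + β * θ) * γ + β * δ), by ring⟩, dvd_mul_right _ _⟩
    · change (s 0).pull (comps1 a b c d 3) ∣ _ ∧ β ∣ (s 0).pull (comps1 a b c d 3)
      rw [E03]
      exact ⟨⟨γ * ((1 + β * θ) * γ + β * δ), by ring⟩, dvd_mul_right _ _⟩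
    · change (s 1).pull (comps1 a b c d 2) ∣ _ ∧ β ∣ (s 1).pull (comps1 a b c d 2)
      rw [E12]
      exact ⟨A1.dvd.trans hβP, A1.symm.dvd⟩
    · change (s 1).pull (comps1 a b c d 3) ∣ _ ∧ β ∣ (s 1).pull (comps1 a b c d 3)
      rw [E13]
      exact ⟨A1.dvd.trans hβP, A1.symm.dvd⟩
    · change (s 2).pull (comps1 a b c d 3) ∣ _ ∧ β ∣ (s 2).pull (comps1 a b c d 3)
      rw [E23]
      refine ⟨(mul_dvd_mul_right A2.dvd _).trans ?_, A2.symm.dvd.trans (dvd_mul_right _ _)⟩
      exact ⟨γ * (2 * γ + β * δ), by ring⟩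
  refine ⟨hLI, hδu, ⟨θ, ⟨rad_comps2u θ hLI hδu, fun i j hij => ⟨1, ?_⟩, ⟨1, ?_⟩⟩⟩,
    fun i j hij => (key i j hij).2⟩
  · rw [pow_one]
    exact (key i j hij).1
  · rw [pow_one, hP, Fin.prod_univ_four]
    have f0 : (Finset.univ.filter (fun j : Fin 4 => (0 : Fin 4) < j)) = {1, 2, 3} := by decide
    have f1 : (Finset.univ.filter (fun j : Fin 4 => (1 : Fin 4) < j)) = {2, 3} := by decide
    have f2 : (Finset.univ.filter (fun j : Fin 4 => (2 : Fin 4) < j)) = {3} := by decide
    have f3 : (Finset.univ.filter (fun j : Fin 4 => (3 : Fin 4) < j)) = ∅ := by decide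
    rw [f0, f1, f2, f3, Finset.prod_insert (by decide), Finset.prod_insert (by decide),
      Finset.prod_singleton, Finset.prod_insert (by decide), Finset.prod_singleton,
      Finset.prod_singleton, Finset.prod_empty, E01, E02, E03, E12, E13, E23, hb2]
    exact ⟨β * β * (s 1).pull a * (s 1).pull a * β * (1 + γ * t), by ring⟩

/-- The four equations are smooth. -/
private theorem CalcV1_smooth {n : ℕ} {K : Type} [Field K]
    {a b c d : MvPowerSeries (Fin n) K} (h : LI ![a, b, c])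
    (i : Fin 4) : comps1 a b c d i ∈ IsLocalRing.maximalIdeal (MvPowerSeries (Fin n) K) ∧
      comps1 a b c d i ∉ IsLocalRing.maximalIdeal (MvPowerSeries (Fin n) K) ^ 2 := by
  have ha : a ∈ IsLocalRing.maximalIdeal (MvPowerSeries (Fin n) K) := h.mem 0
  have hb : b ∈ IsLocalRing.maximalIdeal (MvPowerSeries (Fin n) K) := h.mem 1
  have hc : c ∈ IsLocalRing.maximalIdeal (MvPowerSeries (Fin n) K) := h.mem 2
  have ha2 : a ∉ IsLocalRing.maximalIdeal (MvPowerSeries (Fin n) K) ^ 2 := h.notMem_sq 0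
  have hb2 : b ∉ IsLocalRing.maximalIdeal (MvPowerSeries (Fin n) K) ^ 2 := h.notMem_sq 1
  have key : ∀ t : MvPowerSeries (Fin n) K,
      t ∈ IsLocalRing.maximalIdeal (MvPowerSeries (Fin n) K) ^ 2 →
      a + t ∈ IsLocalRing.maximalIdeal (MvPowerSeries (Fin n) K) ∧
        a + t ∉ IsLocalRing.maximalIdeal (MvPowerSeries (Fin n) K) ^ 2 := by
    intro t ht
    refine ⟨Ideal.add_mem _ ha (Ideal.pow_le_self two_ne_zero ht), fun hh => ha2 ?_⟩
    exact (Ideal.add_mem_iff_left _ ht).mp hh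
  have hbc := CalcV1_mul hb hc
  have hbb : b ^ 2 ∈ IsLocalRing.maximalIdeal (MvPowerSeries (Fin n) K) ^ 2 :=
    Ideal.pow_mem_pow hb 2
  fin_cases i
  · exact ⟨ha, ha2⟩
  · exact ⟨hb, hb2⟩
  · exact key _ hbc
  · have h1 := key (2 * (b * c) + b ^ 2 * d)
      (Ideal.add_mem _ (Ideal.mul_mem_left _ _ hbc) (Ideal.mul_mem_right _ _ hbb))
    have h2 : a + (2 * (b * c) + b ^ 2 * d) = a + 2 * b * c + b ^ 2 * d := by ring
    rw [h2] at h1
    exact h1

/-- The product of the four equations is in the square of every ideal containing `a` and `b`. -/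
private theorem CalcV1_mem_sq {R : Type} [CommRing R] {a b c d f : R} {J : Ideal R}
    (hf : Associated f (∏ i, comps1 a b c d i)) (ha : a ∈ J) (hb : b ∈ J) : f ∈ J ^ 2 := by
  refine Ideal.mem_of_dvd _ hf.symm.dvd ?_
  have h1 : (∏ i, comps1 a b c d i) =
      (a * b) * ((a + b * c) * (a + 2 * b * c + b ^ 2 * d)) := by
    rw [Fin.prod_univ_four]
    simp only [comps1, Matrix.cons_val]
    ring
  rw [h1]
  refine Ideal.mul_mem_right _ _ ?_
  rw [pow_two]
  exact Ideal.mul_mem_mul ha hb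

/-- Positive direction: `pos_disc_step` and `pos2u`. -/
theorem pos1v {B : BasisClass} (hB : HasStd B)
    {a b c d f : MvPowerSeries (Fin (n + 2)) K}
    (h : LI ![a, b, c]) (hd : IsUnit d) (hf : Associated f (∏ i, comps1 a b c d i))
    {I : Ideal (MvPowerSeries (Fin (n + 2)) K)} (hI : I ≠ ⊤) (ha : a ∈ I) (hb : b ∈ I)
    (hc : c ∈ I) : EqLen B 2 (n + 2) K f I := by
  have := charZero_gen (n + 1) K
  obtain ⟨p, hp⟩ := exists_proj (n + 1) K
  have hs : ∀ i, Nonempty (Sec p (comps1 a b c d i)) := fun i =>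
    exists_sec p _ (CalcV1_smooth h i).1 (CalcV1_smooth h i).2
  let s : ∀ i, Sec p (comps1 a b c d i) := fun i => Classical.choice (hs i)
  obtain ⟨hLI, hu, ⟨θ, hdisc⟩, -⟩ := calcV1 p h hd s
  obtain ⟨F, U, hF, hg⟩ := hdisc.exists hf
  refine eqLen_pack hB hp (singIdeal_le_of_mem_sq I f (CalcV1_mem_sq hf ha hb)) hF hg ?_
  have ha' : comps1 a b c d 0 ∈ I := ha
  exact pos2u hB θ hLI hu (Associated.refl _) (p.img_ne_top hI)
    ((s 0).pull_mem_img ha' hb) ((s 0).pull_mem_img ha' hc)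

/-- Negative direction: `neg_disc_step`, `neg2u`, `Sec.mem_of_pull_mem`. -/
theorem neg1v {B : BasisClass} {k : ℕ}
    {a b c d f : MvPowerSeries (Fin (n + 2)) K}
    (h : LI ![a, b, c]) (hd : IsUnit d) (hf : Associated f (∏ i, comps1 a b c d i))
    {I : Ideal (MvPowerSeries (Fin (n + 2)) K)} (hI : I.IsRadical)
    (hE : EqLen B k (n + 2) K f I) : a ∈ I ∧ b ∈ I ∧ c ∈ I := by
  have := charZero_gen (n + 1) K
  have hf2 : f ∈ IsLocalRing.maximalIdeal (MvPowerSeries (Fin (n + 2)) K) ^ 2 :=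
    CalcV1_mem_sq hf (h.mem 0) (h.mem 1)
  obtain ⟨k', p, F, U, g, -, hsing, hF, hg, hE'⟩ := eqLen_unpack hE hf2
  have hs : ∀ i, Nonempty (Sec p (comps1 a b c d i)) := fun i =>
    exists_sec p _ (CalcV1_smooth h i).1 (CalcV1_smooth h i).2
  let s : ∀ i, Sec p (comps1 a b c d i) := fun i => Classical.choice (hs i)
  obtain ⟨hLI, hu, ⟨θ, hdisc⟩, hdvd⟩ := calcV1 p h hd s
  obtain ⟨hβ, hγ⟩ := neg2u θ hLI hu (hdisc.unique hf hF hg) (p.img_isRadical I) hE'
  have hd' := diff_mem s (p.img I) fun i j hij => Ideal.mem_of_dvd _ (hdvd i j hij) hβ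
  have hfI : f ∈ I := hsing (Ideal.subset_span (Or.inl rfl))
  have hall := comps_mem s hf hI hfI hd'
  have ha : a ∈ I := hall 0
  have hb : b ∈ I := hall 1
  exact ⟨ha, hb, (s 0).mem_of_pull_mem hI ha hγ⟩

end Pool.Agent.Helper38.ED
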