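import Pool.Agent.Helper38.ED.Classify1

/-! The closure of the set of simple points of the open subset `exH ≠ 0` of `V`
(the other statements are in `Classify1.lean`). -/

namespace Pool.Agent.Helper38.ED

open MvPolynomial Pool.Agent.Helper38.EQ

variable {K : Type} [Field K]

/-- The retraction onto the sheet `z = x₂² m_i`. -/
private noncomputable def Classify_vec (K : Type) [Field K] (i : Fin 6) :
    Fin 7 → MvPolynomial (Fin 7) K :=
  ![X 2 ^ 2 * polyM K i, X 1, X 2, X 3, X 4, X 5, X 6]

private noncomputable def Classify_retr (K : Type) [Field K] (i : Fin 6) :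
    MvPolynomial (Fin 7) K →ₐ[K] MvPolynomial (Fin 7) K := aeval (Classify_vec K i)

private theorem Classify_retr_X (i : Fin 6) (j : Fin 7) :
    Classify_retr K i (X j) = Classify_vec K i j := aeval_X _ _

private theorem Classify_retr_fix (i : Fin 6) (j : Fin 7) (hj : j ≠ 0) :
    Classify_retr K i (X j) = X j := by
  rw [Classify_retr_X]
  fin_cases j
  · exact absurd rfl hj
  all_goals rfl

private theorem Classify_retr_P (i : Fin 6) : Classify_retr K i (polyP K) = polyP K := by
  rw [polyP, map_add, map_mul, Classify_retr_fix i 1 (by decide),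
    Classify_retr_fix i 2 (by decide), Classify_retr_fix i 3 (by decide)]

private theorem Classify_retr_Q (i : Fin 6) : Classify_retr K i (polyQ K) = polyQ K := by
  rw [polyQ, map_add, map_add, map_mul, map_mul, map_mul, map_pow,
    Classify_retr_fix i 1 (by decide),
    Classify_retr_fix i 2 (by decide), Classify_retr_fix i 3 (by decide),
    Classify_retr_fix i 6 (by decide), map_ofNat]

private theorem Classify_retr_A (i : Fin 6) : Classify_retr K i (polyA K) = polyA K := by
  rw [polyA, map_sub, map_pow, map_pow,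
    Classify_retr_fix i 4 (by decide), Classify_retr_fix i 5 (by decide)]

private theorem Classify_retr_M (i j : Fin 6) : Classify_retr K i (polyM K j) = polyM K j := by
  fin_cases j
  · change Classify_retr K i 0 = 0
    rw [map_zero]
  · exact Classify_retr_fix i 1 (by decide)
  · change Classify_retr K i 1 = 1
    rw [map_one]
  · change Classify_retr K i (1 + polyP K) = 1 + polyP K
    rw [map_add, map_one, Classify_retr_P]
  · change Classify_retr K i (2 + polyA K) = 2 + polyA K
    rw [map_add, map_ofNat, Classify_retr_A]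
  · change Classify_retr K i (2 + polyA K + polyQ K) = 2 + polyA K + polyQ K
    rw [map_add, map_add, map_ofNat, Classify_retr_A, Classify_retr_Q]

private theorem Classify_retr_idem (i : Fin 6) (j : Fin 7) :
    Classify_retr K i (Classify_retr K i (X j)) = Classify_retr K i (X j) := by
  by_cases hj : j = 0
  · subst hj
    have h : Classify_retr K i (X 0) = X 2 ^ 2 * polyM K i := by
      rw [Classify_retr_X]
      rfl
    rw [h, map_mul, map_pow, Classify_retr_fix i 2 (by decide), Classify_retr_M]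
  · rw [Classify_retr_fix i j hj, Classify_retr_fix i j hj]

private theorem Classify_mem_Fix (i : Fin 6) (R : Fin 7 → K) :
    R ∈ Fix (Classify_retr K i) ↔ R 0 = R 2 ^ 2 * eval R (polyM K i) := by
  constructor
  · intro h
    have := h 0
    rw [Classify_retr_X] at this
    change eval R (X 2 ^ 2 * polyM K i) = R 0 at this
    rw [map_mul, map_pow, eval_X] at this
    exact this.symm
  · intro h j
    by_cases hj : j = 0
    · subst hj
      rw [Classify_retr_X]
      change eval R (X 2 ^ 2 * polyM K i) = R 0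
      rw [map_mul, map_pow, eval_X, h]
    · rw [Classify_retr_fix i j hj, eval_X]

/-- The differences inside the blocks. -/
private noncomputable def Classify_L (K : Type) [Field K] : Fin 6 → MvPolynomial (Fin 7) K :=
  ![X 1, X 1, polyP K, polyP K, polyQ K, polyQ K]

private theorem Classify_ne {R : Fin 7 → K} (hh : eval R (exH K) ≠ 0) (a b : Fin 6)
    (hL : eval R (Classify_L K a) ≠ 0) (hab : b ≠ a) :
    eval R (polyM K b) ≠ eval R (polyM K a) := by
  intro h
  have hb := block_eq hh h
  obtain ⟨m0, m1, m2, m3, m4, m5⟩ := eval_polyM R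
  have hcase : ∀ a b : Fin 6, b ≠ a → b.val / 2 = a.val / 2 →
      (a = 0 ∧ b = 1) ∨ (a = 1 ∧ b = 0) ∨ (a = 2 ∧ b = 3) ∨ (a = 3 ∧ b = 2) ∨
      (a = 4 ∧ b = 5) ∨ (a = 5 ∧ b = 4) := by decide
  rcases hcase a b hab hb with ⟨rfl, rfl⟩ | ⟨rfl, rfl⟩ | ⟨rfl, rfl⟩ | ⟨rfl, rfl⟩ | ⟨rfl, rfl⟩ |
    ⟨rfl, rfl⟩
  · rw [m0, m1] at h
    exact hL (by simpa [Classify_L] using h)
  · rw [m0, m1] at h
    exact hL (by simpa [Classify_L] using h.symm)
  · rw [m2, m3] at h
    exact hL (by simpa [Classify_L] using h)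
  · rw [m2, m3] at h
    exact hL (by simpa [Classify_L] using h.symm)
  · rw [m4, m5] at h
    exact hL (by simpa [Classify_L] using h)
  · rw [m4, m5] at h
    exact hL (by simpa [Classify_L] using h.symm)

/-- The witness on the sheet `i`. -/
private theorem Classify_witness [CharZero K] (i : Fin 6) :
    ∃ T ∈ Fix (Classify_retr K i), eval T (exH K * X 2 * Classify_L K i) ≠ 0 := by
  have hval : ∀ c : K, eval ![c, 3, 1, 0, 0, 0, 0] (polyM K 0) = 0 ∧
      eval ![c, 3, 1, 0, 0, 0, 0] (polyM K 1) = 3 ∧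
      eval ![c, 3, 1, 0, 0, 0, 0] (polyM K 2) = 1 ∧
      eval ![c, 3, 1, 0, 0, 0, 0] (polyM K 3) = 4 ∧
      eval ![c, 3, 1, 0, 0, 0, 0] (polyM K 4) = 2 ∧
      eval ![c, 3, 1, 0, 0, 0, 0] (polyM K 5) = 5 ∧
      eval ![c, 3, 1, 0, 0, 0, 0] (polyP K) = 3 ∧
      eval ![c, 3, 1, 0, 0, 0, 0] (polyQ K) = 3 := by
    intro c
    obtain ⟨m0, m1, m2, m3, m4, m5⟩ := eval_polyM (![c, 3, 1, 0, 0, 0, 0] : Fin 7 → K)
    have hP : eval ![c, 3, 1, 0, 0, 0, 0] (polyP K) = 3 := by
      rw [polyP, map_add, map_mul, eval_X, eval_X, eval_X]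
      simp
    have hA : eval ![c, 3, 1, 0, 0, 0, 0] (polyA K) = 0 := by
      rw [polyA, map_sub, map_pow, map_pow, eval_X, eval_X]
      simp
    have hQ : eval ![c, 3, 1, 0, 0, 0, 0] (polyQ K) = 3 := by
      rw [polyQ, map_add, map_add, map_mul, map_mul, map_mul, map_pow, eval_X, eval_X, eval_X,
        eval_X]
      simp
    refine ⟨m0, ?_, m2, ?_, ?_, ?_, hP, hQ⟩
    · rw [m1]
      rfl
    · rw [m3, hP]
      norm_num
    · rw [m4, hA]
      norm_num
    · rw [m5, hA, hQ]
      norm_num
  have hval' : ∀ (c : K) (i : Fin 6), eval ![c, 3, 1, 0, 0, 0, 0] (polyM K i) =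
      ![(0 : K), 3, 1, 4, 2, 5] i := by
    intro c i
    obtain ⟨m0, m1, m2, m3, m4, m5, -, -⟩ := hval c
    fin_cases i
    · exact m0
    · exact m1
    · exact m2
    · exact m3
    · exact m4
    · exact m5
  refine ⟨![![(0 : K), 3, 1, 4, 2, 5] i, 3, 1, 0, 0, 0, 0], ?_, ?_⟩
  · rw [Classify_mem_Fix]
    change ![(0 : K), 3, 1, 4, 2, 5] i = 1 ^ 2 * _
    rw [hval', one_pow, one_mul]
  · obtain ⟨m0, m1, m2, m3, m4, m5, hP, hQ⟩ := hval (![(0 : K), 3, 1, 4, 2, 5] i)
    generalize (![(0 : K), 3, 1, 4, 2, 5] i) = c at m0 m1 m2 m3 m4 m5 hP hQ ⊢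
    rw [map_mul, map_mul]
    refine mul_ne_zero (mul_ne_zero ?_ ?_) ?_
    · rw [eval_exH_ne_zero]
      intro a b hab
      have hv : ∀ a : Fin 6, eval ![c, 3, 1, 0, 0, 0, 0] (polyM K a) =
          ((![0, 3, 1, 4, 2, 5] a : ℕ) : K) := by
        intro a
        fin_cases a
        · exact m0.trans (by norm_num)
        · exact m1.trans (by norm_num)
        · exact m2.trans (by norm_num)
        · exact m3.trans (by norm_num)
        · exact m4.trans (by norm_num)
        · exact m5.trans (by norm_num)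
      rw [hv, hv]
      intro h
      have h' := Nat.cast_injective (R := K) h
      have hdec : ∀ a b : Fin 6, a.val / 2 < b.val / 2 →
          (![0, 3, 1, 4, 2, 5] b : ℕ) ≠ (![0, 3, 1, 4, 2, 5] a : ℕ) := by decide
      exact hdec a b hab h'
    · rw [eval_X]
      simp
    · have h3 : (3 : K) ≠ 0 := by norm_num
      have h1 : eval ![c, 3, 1, 0, 0, 0, 0] (X 1 : MvPolynomial (Fin 7) K) = 3 := eval_X 1
      fin_cases i
      · exact fun h => h3 (h1.symm.trans h)
      · exact fun h => h3 (h1.symm.trans h)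
      · exact fun h => h3 (hP.symm.trans h)
      · exact fun h => h3 (hP.symm.trans h)
      · exact fun h => h3 (hQ.symm.trans h)
      · exact fun h => h3 (hQ.symm.trans h)

/-- The simple points are dense in every sheet `z = x₂² m_i`, so the closure of the set of the
simple points contains `V`. Proof: for the retraction `φ` with `X 0 ↦ X 2 ^ 2 * polyM K i` and
`X j ↦ X j` otherwise, use `Fix.mem_idealOf` with `g = exH * X 2 * L`, with
`L = X 1`, `polyP`, `polyQ` for the blocks (the points of `Fix φ` with `g ≠ 0` are on one sheet only);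
a point with `g ≠ 0`: `x₁ = 3`, `x₂ = 1`, the other coordinates `0` except `z`. -/
theorem closure_simple [CharZero K] {R : Fin 7 → K} (hf : eval R (exV K) = 0) :
    R ∈ closureOf {Q : Fin 7 → K | Q ∈ openPoints (exV K) (exH K) ∧ ¬ IsSing (exV K) Q} := by
  haveI : Infinite K := CharZero.infinite K
  have hex : ∃ i, R 0 = R 2 ^ 2 * eval R (polyM K i) := by
    rw [exV, map_prod, Finset.prod_eq_zero_iff] at hf
    obtain ⟨i, -, hi⟩ := hf
    rw [map_sub, map_mul, map_pow, eval_X, eval_X] at hi
    exact ⟨i, sub_eq_zero.1 hi⟩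
  obtain ⟨i, hi⟩ := hex
  set E : Set (Fin 7 → K) := {Q | Q ∈ openPoints (exV K) (exH K) ∧ ¬ IsSing (exV K) Q} with hE
  have h1 : E ∩ Fix (Classify_retr K i) ⊆ Fix (Classify_retr K i) := Set.inter_subset_right
  have h2 : ∀ T ∈ Fix (Classify_retr K i), eval T (exH K * X 2 * Classify_L K i) ≠ 0 →
      T ∈ E ∩ Fix (Classify_retr K i) := by
    intro T hT hg
    rw [map_mul, map_mul] at hg
    have hg1 : eval T (exH K) ≠ 0 := left_ne_zero_of_mul (left_ne_zero_of_mul hg)
    have hg2 : T 2 ≠ 0 := by
      have := right_ne_zero_of_mul (left_ne_zero_of_mul hg)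
      rwa [eval_X] at this
    have hg3 : eval T (Classify_L K i) ≠ 0 := right_ne_zero_of_mul hg
    have hT' := (Classify_mem_Fix i T).1 hT
    refine ⟨⟨⟨?_, hg1⟩, ?_⟩, hT⟩
    · rw [exV, map_prod]
      refine Finset.prod_eq_zero (Finset.mem_univ i) ?_
      rw [map_sub, map_mul, map_pow, eval_X, eval_X, ← hT', sub_self]
    · refine not_isSing_of_one hT' (fun b hb h => ?_)
      refine Classify_ne hg1 i b hg3 hb ?_
      exact mul_left_cancel₀ (pow_ne_zero 2 hg2) (h.symm.trans hT')
  have hcl := Fix.closure (Classify_retr_idem i) h1 h2 (Classify_witness i)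
  have hmem : R ∈ closureOf (E ∩ Fix (Classify_retr K i)) := by
    rw [hcl, Classify_mem_Fix]
    exact hi
  have hsub : closureOf (E ∩ Fix (Classify_retr K i)) ⊆ closureOf E :=
    zeroLocus_anti_mono (vanishingIdeal_anti_mono Set.inter_subset_left)
  exact hsub hmem

end Pool.Agent.Helper38.ED
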