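import Pool.Agent.Helper38.ED.StrataDefs

/-! The singular points of the open subset `exH ≠ 0` of `V`. -/

namespace Pool.Agent.Helper38.ED

open MvPolynomial Pool.Agent.Helper38.EQ

variable {K : Type} [Field K]

/-- The six factors. -/
private noncomputable def Classify_c (K : Type) [Field K] (i : Fin 6) : MvPolynomial (Fin 7) K :=
  X 0 - X 2 ^ 2 * polyM K i

private theorem Classify_exV : exV K = ∏ i, Classify_c K i := rfl

private theorem Classify_eval_c (R : Fin 7 → K) (i : Fin 6) :
    eval R (Classify_c K i) = R 0 - R 2 ^ 2 * eval R (polyM K i) := by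
  simp [Classify_c]

/-- If two factors vanish at `R`, then `R` is singular. -/
private theorem Classify_sing_of_two {R : Fin 7 → K} {a b : Fin 6} (hab : a ≠ b)
    (ha : R 0 = R 2 ^ 2 * eval R (polyM K a)) (hb : R 0 = R 2 ^ 2 * eval R (polyM K b)) :
    eval R (exV K) = 0 ∧ IsSing (exV K) R := by
  have ha' : eval R (Classify_c K a) = 0 := by rw [Classify_eval_c, ← ha, sub_self]
  have hb' : eval R (Classify_c K b) = 0 := by rw [Classify_eval_c, ← hb, sub_self]
  have h1 : exV K = Classify_c K a * ∏ i ∈ Finset.univ.erase a, Classify_c K i := by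
    rw [Classify_exV, Finset.mul_prod_erase _ _ (Finset.mem_univ a)]
  have h2 : eval R (∏ i ∈ Finset.univ.erase a, Classify_c K i) = 0 := by
    rw [map_prod]
    exact Finset.prod_eq_zero (Finset.mem_erase.2 ⟨hab.symm, Finset.mem_univ b⟩) hb'
  have h0 : eval R (exV K) = 0 := by
    rw [h1, map_mul, ha', zero_mul]
  refine ⟨h0, h0, fun j => ?_⟩
  rw [h1, Derivation.leibniz, smul_eq_mul, smul_eq_mul, map_add, map_mul, map_mul, ha', h2]
  ring

/-- The values of the `m_i`. -/
theorem eval_polyM (R : Fin 7 → K) :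
    eval R (polyM K 0) = 0 ∧ eval R (polyM K 1) = R 1 ∧ eval R (polyM K 2) = 1 ∧
    eval R (polyM K 3) = 1 + eval R (polyP K) ∧ eval R (polyM K 4) = 2 + eval R (polyA K) ∧
    eval R (polyM K 5) = 2 + eval R (polyA K) + eval R (polyQ K) := by
  refine ⟨?_, ?_, ?_, ?_, ?_, ?_⟩ <;> simp [polyM]

/-- The points of the strata are singular: two of the six factors vanish. -/
theorem strE_sing {j : Fin 6} {R : Fin 7 → K} (hR : R ∈ strE K j) :
    eval R (exV K) = 0 ∧ IsSing (exV K) R := by
  obtain ⟨hF, -, -⟩ := hR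
  obtain ⟨f0, f1, f2, f3, f4, f5⟩ := mem_Fix_retr R
  obtain ⟨m0, m1, m2, m3, m4, m5⟩ := eval_polyM R
  have zer : R 0 = 0 → R 2 = 0 → eval R (exV K) = 0 ∧ IsSing (exV K) R := by
    intro h0 h2
    refine Classify_sing_of_two (a := 0) (b := 1) (by decide) ?_ ?_
    · rw [h0, h2]; ring
    · rw [h0, h2]; ring
  fin_cases j
  · obtain ⟨h0, h1⟩ := f0.1 hF
    refine Classify_sing_of_two (a := 0) (b := 1) (by decide) ?_ ?_
    · rw [m0, h0, mul_zero]
    · rw [m1, h0, h1, mul_zero]
  · obtain ⟨h0, h1⟩ := f1.1 hF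
    refine Classify_sing_of_two (a := 2) (b := 3) (by decide) ?_ ?_
    · rw [m2, h0, mul_one]
    · rw [m3, h1, h0]; ring
  · obtain ⟨h0, h1⟩ := f2.1 hF
    refine Classify_sing_of_two (a := 4) (b := 5) (by decide) ?_ ?_
    · rw [m4, h0]
    · rw [m5, h1, h0]; ring
  · obtain ⟨h0, h1⟩ := f3.1 hF
    exact zer h0 h1
  · obtain ⟨h0, h1, h2⟩ := f4.1 hF
    exact zer h0 h2
  · obtain ⟨h0, h1, h2, h3⟩ := f5.1 hF
    exact zer h0 h2

theorem curve_isSing {R : Fin 7 → K} (hR : R ∈ curve K) :
    eval R (exV K) = 0 ∧ IsSing (exV K) R := by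
  obtain ⟨h0, h1, h2, -⟩ := hR
  refine Classify_sing_of_two (a := 0) (b := 1) (by decide) ?_ ?_
  · rw [h0, h2]; ring
  · rw [h0, h2]; ring

/-- `∂_0 m_i = 0`. -/
private theorem Classify_pderiv_m (i : Fin 6) : pderiv 0 (polyM K i) = 0 := by
  have h : ∀ k : Fin 7, k ≠ 0 → pderiv 0 (X k : MvPolynomial (Fin 7) K) = 0 := by
    intro k hk
    exact pderiv_X_of_ne hk
  have h1 := h 1 (by decide)
  have h2 := h 2 (by decide)
  have h3 := h 3 (by decide)
  have h4 := h 4 (by decide)
  have h5 := h 5 (by decide)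
  have h6 := h 6 (by decide)
  have t2 : pderiv 0 (2 : MvPolynomial (Fin 7) K) = 0 := by
    have : (2 : MvPolynomial (Fin 7) K) = C 2 := (map_ofNat C 2).symm
    rw [this, pderiv_C]
  have hP : pderiv 0 (polyP K) = 0 := by
    simp [polyP, Derivation.leibniz, h1, h2, h3]
  have hQ : pderiv 0 (polyQ K) = 0 := by
    simp [polyQ, Derivation.leibniz, Derivation.leibniz_pow, h1, h2, h3, h6, t2]
  have hA : pderiv 0 (polyA K) = 0 := by
    simp [polyA, Derivation.leibniz_pow, h4, h5]
  fin_cases i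
  · simp [polyM]
  · simpa [polyM] using h1
  · simp [polyM]
  · simp [polyM, hP]
  · simp [polyM, hA, t2]
  · simp [polyM, hA, hQ, t2]

private theorem Classify_pderiv_c (i : Fin 6) : pderiv 0 (Classify_c K i) = 1 := by
  have h2 : pderiv 0 (X 2 : MvPolynomial (Fin 7) K) = 0 := pderiv_X_of_ne (by decide)
  rw [Classify_c, map_sub, Derivation.leibniz, Derivation.leibniz_pow, h2, Classify_pderiv_m,
    pderiv_X_self]
  simp

/-- If exactly one factor vanishes at `R`, then `R` is not singular. -/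
theorem not_isSing_of_one {R : Fin 7 → K} {a : Fin 6}
    (ha : R 0 = R 2 ^ 2 * eval R (polyM K a))
    (hb : ∀ b, b ≠ a → R 0 ≠ R 2 ^ 2 * eval R (polyM K b)) : ¬ IsSing (exV K) R := by
  rintro ⟨-, hs⟩
  have ha' : eval R (Classify_c K a) = 0 := by rw [Classify_eval_c, ← ha, sub_self]
  have h1 : exV K = Classify_c K a * ∏ i ∈ Finset.univ.erase a, Classify_c K i := by
    rw [Classify_exV, Finset.mul_prod_erase _ _ (Finset.mem_univ a)]
  have h2 : eval R (∏ i ∈ Finset.univ.erase a, Classify_c K i) ≠ 0 := by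
    rw [map_prod, Finset.prod_ne_zero_iff]
    intro b hb'
    rw [Classify_eval_c]
    exact sub_ne_zero.2 (hb b (Finset.mem_erase.1 hb').1)
  have h3 := hs 0
  rw [h1, Derivation.leibniz, smul_eq_mul, smul_eq_mul, map_add, map_mul, map_mul, ha',
    Classify_pderiv_c, map_one, zero_mul, zero_add, mul_one] at h3
  exact h2 h3

/-- A common value of two `m_i` forces the same block. -/
theorem block_eq {R : Fin 7 → K} (hh : eval R (exH K) ≠ 0) {a b : Fin 6}
    (hab : eval R (polyM K a) = eval R (polyM K b)) : a.val / 2 = b.val / 2 := by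
  have h := (eval_exH_ne_zero R).1 hh
  rcases lt_trichotomy (a.val / 2) (b.val / 2) with h1 | h1 | h1
  · exact absurd hab.symm (h a b h1)
  · exact h1
  · exact absurd hab (h b a h1)

private theorem Classify_cases : ∀ a b : Fin 6, a.val / 2 = b.val / 2 →
    (a = 0 ∨ a = 1) ∧ (b = 0 ∨ b = 1) ∨ (a = 2 ∨ a = 3) ∧ (b = 2 ∨ b = 3) ∨
      (a = 4 ∨ a = 5) ∧ (b = 4 ∨ b = 5) := by
  decide

/-- Conversely: if only one of the factors vanishes at `R`, then `∂_0` of the product is not
zero. If two factors vanish and `x₂ ≠ 0`, they are in the same block (`exH ≠ 0`), and `R` is in one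
of the first three strata. If `x₂ = 0`, then `z = 0`, and `R` is in one of the other strata or on the
curve. -/
theorem classify {R : Fin 7 → K} (hf : eval R (exV K) = 0) (hh : eval R (exH K) ≠ 0)
    (hs : IsSing (exV K) R) : (∃ j, R ∈ strE K j) ∨ R ∈ curve K := by
  obtain ⟨f0, f1, f2, f3, f4, f5⟩ := mem_Fix_retr R
  obtain ⟨m0, m1, m2, m3, m4, m5⟩ := eval_polyM R
  have hex : ∃ a, R 0 = R 2 ^ 2 * eval R (polyM K a) := by
    rw [Classify_exV, map_prod, Finset.prod_eq_zero_iff] at hf
    obtain ⟨a, -, ha⟩ := hf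
    rw [Classify_eval_c] at ha
    exact ⟨a, sub_eq_zero.1 ha⟩
  obtain ⟨a, ha⟩ := hex
  by_cases h2 : R 2 = 0
  · have h0 : R 0 = 0 := by rw [ha, h2]; ring
    by_cases h1 : R 1 = 0
    · by_cases h3 : R 3 = 0
      · by_cases h6 : R 6 = 0
        · by_cases hA : eval R (polyA K) = 0
          · right
            refine ⟨h0, h1, h2, h3, h6, ?_⟩
            rw [polyA, map_sub, map_pow, map_pow, eval_X, eval_X] at hA
            exact sub_eq_zero.1 hA
          · left
            exact ⟨5, f5.2 ⟨h0, h1, h2, h3⟩, hh, Or.inr ⟨rfl, hA⟩⟩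
        · left
          refine ⟨5, f5.2 ⟨h0, h1, h2, h3⟩, hh, Or.inl ?_⟩
          simpa [openPoly] using h6
      · left
        refine ⟨4, f4.2 ⟨h0, h1, h2⟩, hh, Or.inl ?_⟩
        simpa [openPoly] using h3
    · left
      refine ⟨3, f3.2 ⟨h0, h2⟩, hh, Or.inl ?_⟩
      simpa [openPoly] using h1
  · left
    have hex2 : ∃ b, b ≠ a ∧ R 0 = R 2 ^ 2 * eval R (polyM K b) := by
      by_contra hcon
      push Not at hcon
      exact not_isSing_of_one ha (fun b hb => hcon b hb) hs
    obtain ⟨b, hba, hb⟩ := hex2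
    have hm : eval R (polyM K a) = eval R (polyM K b) := by
      have h := ha.symm.trans hb
      exact mul_left_cancel₀ (pow_ne_zero 2 h2) h
    have hblock := block_eq hh hm
    have hcase : (a = 0 ∨ a = 1) ∧ (b = 0 ∨ b = 1) ∨ (a = 2 ∨ a = 3) ∧ (b = 2 ∨ b = 3) ∨
        (a = 4 ∨ a = 5) ∧ (b = 4 ∨ b = 5) := Classify_cases a b hblock
    have e0 : eval R (polyM K 0) = eval R (polyM K 1) → R 0 = R 2 ^ 2 * eval R (polyM K 0) →
        ∃ j, R ∈ strE K j := by
      intro h h'
      rw [m0, mul_zero] at h'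
      rw [m0, m1] at h
      refine ⟨0, f0.2 ⟨h', h.symm⟩, hh, Or.inl ?_⟩
      simpa [openPoly] using h2
    have e1 : eval R (polyM K 2) = eval R (polyM K 3) → R 0 = R 2 ^ 2 * eval R (polyM K 2) →
        ∃ j, R ∈ strE K j := by
      intro h h'
      rw [m2, mul_one] at h'
      rw [m2, m3] at h
      refine ⟨1, f1.2 ⟨h', by simpa using h.symm⟩, hh, Or.inl ?_⟩
      simpa [openPoly] using h2
    have e2 : eval R (polyM K 4) = eval R (polyM K 5) → R 0 = R 2 ^ 2 * eval R (polyM K 4) →
        ∃ j, R ∈ strE K j := by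
      intro h h'
      rw [m4] at h'
      rw [m4, m5] at h
      refine ⟨2, f2.2 ⟨h', by simpa using h.symm⟩, hh, Or.inl ?_⟩
      simpa [openPoly] using h2
    rcases hcase with ⟨ha' | ha', hb' | hb'⟩ | ⟨ha' | ha', hb' | hb'⟩ | ⟨ha' | ha', hb' | hb'⟩ <;>
      subst ha' <;> subst hb'
    · exact absurd rfl hba
    · exact e0 hm ha
    · exact e0 hm.symm hb
    · exact absurd rfl hba
    · exact absurd rfl hba
    · exact e1 hm ha
    · exact e1 hm.symm hb
    · exact absurd rfl hba
    · exact absurd rfl hba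
    · exact e2 hm ha
    · exact e2 hm.symm hb
    · exact absurd rfl hba

/-- The strata are disjoint. (For `i, j < 3` and `x₂ ≠ 0`: a common point would have
`x₂ ^ 2 m = x₂ ^ 2 m'` for `m, m'` in different blocks.) -/
theorem strE_disjoint {i j : Fin 6} (hij : i ≠ j) : Disjoint (strE K i) (strE K j) := by
  have key : ∀ i j : Fin 6, i < j → Disjoint (strE K i) (strE K j) := by
    intro i j hlt
    rw [Set.disjoint_left]
    rintro R ⟨hFi, hh, hi⟩ ⟨hFj, -, hj⟩
    obtain ⟨f0, f1, f2, f3, f4, f5⟩ := mem_Fix_retr R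
    obtain ⟨m0, m1, m2, m3, m4, m5⟩ := eval_polyM R
    have i1 : ∀ i : Fin 6, R ∈ Fix (retr K i) → (eval R (openPoly K i) ≠ 0 ∨
        (i = 5 ∧ eval R (polyA K) ≠ 0)) → R 2 ≠ 0 → ∃ a : Fin 6, a.val / 2 = i.val ∧
        R 0 = R 2 ^ 2 * eval R (polyM K a) := by
      intro i hF _ hR2
      fin_cases i
      · exact ⟨0, rfl, by rw [m0, mul_zero]; exact (f0.1 hF).1⟩
      · exact ⟨2, rfl, by rw [m2, mul_one]; exact (f1.1 hF).1⟩
      · exact ⟨4, rfl, by rw [m4]; exact (f2.1 hF).1⟩
      · exact absurd (f3.1 hF).2 hR2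
      · exact absurd (f4.1 hF).2.2 hR2
      · exact absurd (f5.1 hF).2.2.1 hR2
    by_cases hR2 : R 2 = 0
    · -- `i ≥ 3`
      have hi2 : eval R (openPoly K i) ≠ 0 := by
        rcases hi with h | ⟨h, -⟩
        · exact h
        · exfalso
          rw [h] at hlt
          exact absurd (Fin.le_last j) (not_le.2 hlt)
      fin_cases i
      · exact hi2 (by simpa [openPoly] using hR2)
      · exact hi2 (by simpa [openPoly] using hR2)
      · exact hi2 (by simpa [openPoly] using hR2)
      · have hR1 : R 1 = 0 := by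
          fin_cases j
          · exact absurd hlt (by decide)
          · exact absurd hlt (by decide)
          · exact absurd hlt (by decide)
          · exact absurd hlt (by decide)
          · exact (f4.1 hFj).2.1
          · exact (f5.1 hFj).2.1
        exact hi2 (by simpa [openPoly] using hR1)
      · have hR3 : R 3 = 0 := by
          fin_cases j
          · exact absurd hlt (by decide)
          · exact absurd hlt (by decide)
          · exact absurd hlt (by decide)
          · exact absurd hlt (by decide)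
          · exact absurd hlt (by decide)
          · exact (f5.1 hFj).2.2.2
        exact hi2 (by simpa [openPoly] using hR3)
      · exact absurd (Fin.le_last j) (not_le.2 hlt)
    · obtain ⟨a, ha1, ha2⟩ := i1 i hFi hi hR2
      obtain ⟨b, hb1, hb2⟩ := i1 j hFj hj hR2
      have hm : eval R (polyM K a) = eval R (polyM K b) :=
        mul_left_cancel₀ (pow_ne_zero 2 hR2) (ha2.symm.trans hb2)
      have := block_eq hh hm
      rw [ha1, hb1] at this
      exact absurd this (ne_of_lt hlt)
  rcases lt_or_gt_of_ne hij with h | h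
  · exact key i j h
  · exact (key j i h).symm

theorem strE_curve_disjoint (j : Fin 6) : Disjoint (strE K j) (curve K) := by
  rw [Set.disjoint_left]
  rintro R ⟨-, -, hj⟩ ⟨h0, h1, h2, h3, h6, hA⟩
  have hA' : eval R (polyA K) = 0 := by
    rw [polyA, map_sub, map_pow, map_pow, eval_X, eval_X, hA, sub_self]
  rcases hj with hj | ⟨-, hj⟩
  · fin_cases j
    · exact hj (by simpa [openPoly] using h2)
    · exact hj (by simpa [openPoly] using h2)
    · exact hj (by simpa [openPoly] using h2)
    · exact hj (by simpa [openPoly] using h1)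
    · exact hj (by simpa [openPoly] using h3)
    · exact hj (by simpa [openPoly] using h6)
  · exact hj hA'

end Pool.Agent.Helper38.ED
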