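import Pool.Agent.Helper38.ED.Defs
import Pool.Agent.Helper38.EQ.InvFun
import Pool.Agent.Helper38.EQ.Formal
import Pool.Agent.Helper38.EQ.Psi

/-! Existence of the coordinates of a generic projection with the standard basis. -/

namespace Pool.Agent.Helper38.ED

open MvPowerSeries Pool.Agent.Helper38.EQ

/-- The minor of the generic matrix without its first column is not zero. -/
private theorem ExistsProj_minor (n : ℕ) (K : Type) [Field K] :
    (Matrix.of fun i j : Fin n => (genU i j.succ : GenField n K)).det ≠ 0 := by
  let ι : MvPolynomial (Fin n × Fin (n + 1)) K →+* GenField n K :=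
    (algebraMap (FractionRing (MvPolynomial (Fin n × Fin (n + 1)) K)) (GenField n K)).comp
      (algebraMap (MvPolynomial (Fin n × Fin (n + 1)) K)
        (FractionRing (MvPolynomial (Fin n × Fin (n + 1)) K)))
  have hι : Function.Injective ι :=
    (algebraMap (FractionRing (MvPolynomial (Fin n × Fin (n + 1)) K))
      (GenField n K)).injective.comp (IsFractionRing.injective _ _)
  let M₀ : Matrix (Fin n) (Fin n) (MvPolynomial (Fin n × Fin (n + 1)) K) :=
    Matrix.of fun i j => MvPolynomial.X (i, j.succ)
  have hM₀ : M₀.map ι = Matrix.of fun i j : Fin n => (genU i j.succ : GenField n K) := rfl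
  let θ : MvPolynomial (Fin n × Fin (n + 1)) K →+* K :=
    MvPolynomial.eval (fun p => if p.2 = p.1.succ then 1 else 0)
  have hθ : M₀.map θ = 1 := by
    ext i j
    simp only [M₀, θ, Matrix.map_apply, Matrix.of_apply, MvPolynomial.eval_X, Matrix.one_apply,
      Fin.succ_inj]
    by_cases h : i = j
    · rw [if_pos h, if_pos h.symm]
    · rw [if_neg h, if_neg (fun h' => h h'.symm)]
  have hdet : M₀.det ≠ 0 := by
    intro h
    have h1 : θ M₀.det = (M₀.map θ).det := RingHom.map_det θ M₀
    rw [h, hθ, map_zero, Matrix.det_one] at h1
    exact zero_ne_one h1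
  rw [← hM₀]
  have h2 : ι M₀.det = (M₀.map ι).det := RingHom.map_det ι M₀
  rw [← h2]
  exact fun h => hdet (hι (by rw [h, map_zero]))

/-- The coordinates of the generic projection for the standard basis.

Proof: over `L = GenField n K` let `y : Fin (n + 1) → SL n K`, `y (i.castSucc) = ∑ u_ij X_j`
(or with `succ`, as convenient with `finSuccEquiv`), and the last one `X_0`. The determinant of the
linear parts is (up to sign) the minor of the matrix `u` without the column `0`, a nonzero
polynomial in the `u_ij` (specialise to the identity matrix; compare `transversal_generic` in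
`EQ/Transversal.lean`). By `span_eq_of_linear` and `exists_algEquiv` (`EQ/InvFun.lean`) there is an
automorphism `τ` with `τ (X i) = y i`; compose its inverse with `finSuccEquiv L n` (see
`EQ/Psi.lean`, `exists_psi`, for the use of `finSuccEquiv`). -/
theorem exists_proj (n : ℕ) (K : Type) [Field K] :
    ∃ p : Proj n K, p.x = fun j => X j := by
  classical
  let y : Fin (n + 1) → SL n K := Fin.cons (X 0) (fun i => ∑ j, C (genU i j) * X j)
  have hy0 : y 0 = X 0 := by simp [y]
  have hys : ∀ i : Fin n, y i.succ = ∑ j, C (genU i j) * X j := fun i => by simp [y]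
  have hcoeff : ∀ (i : Fin n) (k : Fin (n + 1)),
      coeff (Finsupp.single k 1) (y i.succ) = genU i k := by
    intro i k
    rw [hys, map_sum, Finset.sum_eq_single k]
    · rw [coeff_C_mul, coeff_X, if_pos rfl, mul_one]
    · intro j _ hjk
      rw [coeff_C_mul, coeff_X, if_neg, mul_zero]
      intro h
      exact hjk ((Finsupp.single_left_inj one_ne_zero).mp h).symm
    · intro h
      exact absurd (Finset.mem_univ _) h
  have h0 : ∀ i, constantCoeff (y i) = 0 := by
    intro i
    refine Fin.cases ?_ (fun i => ?_) i
    · rw [hy0, constantCoeff_X]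
    · rw [hys, map_sum]
      exact Finset.sum_eq_zero fun j _ => by rw [map_mul, constantCoeff_X, mul_zero]
  have hdet : (Matrix.of fun i j => coeff (Finsupp.single j 1) (y i)).det ≠ 0 := by
    rw [Matrix.det_succ_row_zero, Finset.sum_eq_single 0]
    · have h1 : (Matrix.of fun i j => coeff (Finsupp.single j 1) (y i)) 0 0 =
          (1 : GenField n K) := by
        rw [Matrix.of_apply, hy0, coeff_X, if_pos rfl]
      have h2 : (Matrix.of fun i j => coeff (Finsupp.single j 1) (y i)).submatrix
          Fin.succ (Fin.succAbove 0) =
          Matrix.of fun i j : Fin n => (genU i j.succ : GenField n K) := by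
        ext i j
        rw [Matrix.submatrix_apply, Matrix.of_apply, Matrix.of_apply, hcoeff,
          Fin.succAbove_zero]
      rw [h1, h2]
      simpa using ExistsProj_minor n K
    · intro j _ hj
      have h1 : (Matrix.of fun i j => coeff (Finsupp.single j 1) (y i)) 0 j =
          (0 : GenField n K) := by
        rw [Matrix.of_apply, hy0, coeff_X, if_neg]
        intro h
        exact hj ((Finsupp.single_left_inj one_ne_zero).mp h)
      rw [h1, mul_zero, zero_mul]
    · intro h
      exact absurd (Finset.mem_univ _) h
  obtain ⟨τ, hτ⟩ := exists_algEquiv y (span_eq_of_linear y h0 hdet)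
  refine ⟨⟨fun j => X j, maximalIdeal_eq_span_X.symm,
    τ.symm.trans (finSuccEquiv (GenField n K) n), fun i => ?_⟩, rfl⟩
  have h1 : (∑ j, C (genU i j) * ex (X j) : SL n K) = y i.succ := by
    rw [hys]
    refine Finset.sum_congr rfl fun j _ => ?_
    rw [MvPowerSeries.map_X]
  rw [h1, AlgEquiv.trans_apply, ← hτ, AlgEquiv.symm_apply_apply]
  exact finSuccEquiv_X_succ i

end Pool.Agent.Helper38.ED
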