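import Pool.Agent.Helper38.ED.Defs
import Pool.Agent.Helper38.EQ.Psi
import Pool.Agent.Helper38.EQ.InvFun
import Pool.Agent.Helper38.EQ.Regular

/-! An element of `𝔪` that is not in `𝔪 ^ 2` is prime. -/

namespace Pool.Agent.Helper38.ED

open MvPowerSeries Pool.Agent.Helper38.EQ

variable {n : ℕ} {K : Type} [Field K]

private theorem PrimeOf_X (k : Fin n) : Prime (X k : MvPowerSeries (Fin n) K) := by
  have h1 := Regular_prime (K := K) ({k} : Finset (Fin n))
  have h2 : coordIdeal K ({k} : Finset (Fin n)) =
      Ideal.span {(X k : MvPowerSeries (Fin n) K)} := by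
    simp [coordIdeal]
  rw [h2] at h1
  refine (Ideal.span_singleton_prime ?_).1 h1
  intro h3
  have h4 : coeff (Finsupp.single k 1) (X k : MvPowerSeries (Fin n) K) = 0 := by
    rw [h3, map_zero]
  rw [coeff_X, if_pos rfl] at h4
  exact one_ne_zero h4

private theorem PrimeOf_exists {e : MvPowerSeries (Fin n) K}
    (h1 : constantCoeff e = 0)
    (h2 : e ∉ IsLocalRing.maximalIdeal (MvPowerSeries (Fin n) K) ^ 2) :
    ∃ k : Fin n, coeff (Finsupp.single k 1) e ≠ 0 := by
  by_contra hcon
  push Not at hcon
  apply h2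
  rw [maximalIdeal_eq_coordIdeal, mem_coordIdeal_pow_iff]
  intro α hα
  have h3 : α.degree < 2 := by
    rw [Finsupp.degree_eq_sum]
    exact hα
  rcases Nat.lt_or_ge α.degree 1 with h4 | h4
  · have h5 : α.degree = 0 := by omega
    rw [Finsupp.degree_eq_zero_iff] at h5
    rw [h5, coeff_zero_eq_constantCoeff_apply, h1]
  · have h5 : α.degree = 1 := by omega
    obtain ⟨k, hk⟩ : ∃ k, α k ≠ 0 := by
      by_contra hk
      push Not at hk
      have h6 : α = 0 := by ext i; exact hk i
      rw [h6] at h5
      simp at h5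
    have h6 : α = Finsupp.single k 1 := by
      have h7 : Finsupp.single k 1 ≤ α := by
        rw [Finsupp.single_le_iff]
        exact Nat.one_le_iff_ne_zero.2 hk
      obtain ⟨β, hβ⟩ := le_iff_exists_add.1 h7
      have h8 : (Finsupp.single k 1 : Fin n →₀ ℕ).degree + β.degree = 1 := by
        rw [← map_add, ← hβ, h5]
      rw [Finsupp.degree_single] at h8
      have h9 : β.degree = 0 := by omega
      rw [Finsupp.degree_eq_zero_iff] at h9
      rw [hβ, h9, add_zero]
    rw [h6]
    exact hcon k

/-- An element of `𝔪` that is not in `𝔪 ^ 2` is a prime element. Proof: it is the image of a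
variable under an automorphism (`span_eq_of_linear` and `exists_algEquiv` in `EQ/InvFun.lean`), and
a variable is prime (see `Regular_prime`, or `MvPowerSeries.X_prime`). -/
theorem prime_of_notMem_sq {e : MvPowerSeries (Fin n) K}
    (h1 : e ∈ IsLocalRing.maximalIdeal (MvPowerSeries (Fin n) K))
    (h2 : e ∉ IsLocalRing.maximalIdeal (MvPowerSeries (Fin n) K) ^ 2) : Prime e := by
  classical
  rw [mem_maximalIdeal_iff_constantCoeff] at h1
  obtain ⟨k, hk⟩ := PrimeOf_exists h1 h2
  let y : Fin n → MvPowerSeries (Fin n) K := Function.update (fun i => X i) k e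
  have hyk : y k = e := Function.update_self _ _ _
  have hyi : ∀ i, i ≠ k → y i = X i := fun i hi => Function.update_of_ne hi _ _
  have h0 : ∀ i, constantCoeff (y i) = 0 := by
    intro i
    by_cases hi : i = k
    · rw [hi, hyk, h1]
    · rw [hyi i hi, constantCoeff_X]
  have hM : (Matrix.of fun i j => coeff (Finsupp.single j 1) (y i)) =
      (1 : Matrix (Fin n) (Fin n) K).updateRow k (fun j => coeff (Finsupp.single j 1) e) := by
    ext i j
    rw [Matrix.of_apply, Matrix.updateRow_apply]
    by_cases hi : i = k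
    · rw [if_pos hi, hi, hyk]
    · rw [if_neg hi, hyi i hi, coeff_X, Matrix.one_apply]
      by_cases hij : i = j
      · rw [if_pos hij, hij, if_pos rfl]
      · rw [if_neg hij, if_neg]
        intro h3
        exact hij ((Finsupp.single_left_injective one_ne_zero h3).symm)
  have hdet : (Matrix.of fun i j => coeff (Finsupp.single j 1) (y i)).det ≠ 0 := by
    rw [hM, ← Matrix.cramer_transpose_apply, Matrix.transpose_one, Matrix.cramer_one]
    exact hk
  obtain ⟨τ, hτ⟩ := exists_algEquiv y (span_eq_of_linear y h0 hdet)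
  have h3 := (MulEquiv.prime_iff τ).2 (PrimeOf_X (K := K) k)
  rwa [hτ k, hyk] at h3

end Pool.Agent.Helper38.ED
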