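import Pool.Agent.Helper38.ED.Defs
import Pool.Agent.Helper38.EQ.Psi
import Pool.Agent.Helper38.EQ.Orders

/-! Basic properties of `LI` (constant terms `0` and independent linear parts), first half. -/

namespace Pool.Agent.Helper38.ED

open MvPowerSeries Pool.Agent.Helper38.EQ

variable {n : ℕ} {K : Type} [Field K]

/-- Membership in the square of the maximal ideal: the coefficients of degree `≤ 1` vanish. -/
theorem LIBasic1_mem_sq_iff (h : MvPowerSeries (Fin n) K) :
    h ∈ IsLocalRing.maximalIdeal (MvPowerSeries (Fin n) K) ^ 2 ↔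
      constantCoeff h = 0 ∧ ∀ j : Fin n, coeff (Finsupp.single j 1) h = 0 := by
  rw [mem_maximalIdeal_pow_iff]
  constructor
  · intro hh
    refine ⟨?_, fun j => ?_⟩
    · have := hh 0 (by simp)
      simpa using this
    · apply hh
      have h1 : (∑ i, (Finsupp.single j 1 : Fin n →₀ ℕ) i) = 1 := by
        rw [Finset.sum_eq_single j]
        · simp
        · intro b _ hb
          exact Finsupp.single_eq_of_ne hb
        · intro hj
          exact absurd (Finset.mem_univ j) hj
      omega
  · rintro ⟨h0, h1⟩ α hα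
    by_cases hz : α = 0
    · rw [hz]
      simpa using h0
    · obtain ⟨j, hj⟩ : ∃ j, α j ≠ 0 := by
        by_contra hcon
        push Not at hcon
        exact hz (Finsupp.ext hcon)
      have hα2 : α = Finsupp.single j 1 := by
        have h2 : α j + ∑ i ∈ Finset.univ.erase j, α i = ∑ i, α i :=
          Finset.add_sum_erase _ _ (Finset.mem_univ j)
        have h3 : α j = 1 := by omega
        have h4 : ∑ i ∈ Finset.univ.erase j, α i = 0 := by omega
        have h5 := Finset.sum_eq_zero_iff.1 h4
        ext i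
        by_cases hi : i = j
        · subst hi
          rw [h3, Finsupp.single_eq_same]
        · rw [Finsupp.single_eq_of_ne hi]
          exact h5 i (Finset.mem_erase.2 ⟨hi, Finset.mem_univ i⟩)
      rw [hα2]
      exact h1 j

/-- Independence modulo the square of the maximal ideal. -/
theorem LI_iff {m : ℕ} (h : Fin m → MvPowerSeries (Fin n) K) :
    LI h ↔ (∀ i, h i ∈ IsLocalRing.maximalIdeal (MvPowerSeries (Fin n) K)) ∧
      ∀ c : Fin m → K, ∑ i, C (c i) * h i ∈ IsLocalRing.maximalIdeal (MvPowerSeries (Fin n) K) ^ 2 →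
        c = 0 := by
  unfold LI
  constructor
  · rintro ⟨h0, h1⟩
    refine ⟨fun i => (mem_maximalIdeal_iff_constantCoeff _).2 (h0 i), fun c hc => ?_⟩
    rw [LIBasic1_mem_sq_iff] at hc
    rw [Fintype.linearIndependent_iff] at h1
    funext i
    apply h1 c
    funext j
    have h2 := hc.2 j
    rw [map_sum] at h2
    simp only [Finset.sum_apply, Pi.smul_apply, smul_eq_mul, Pi.zero_apply]
    rw [← h2]
    refine Finset.sum_congr rfl fun k _ => ?_
    rw [coeff_C_mul]
  · rintro ⟨h0, h1⟩
    have h0' : ∀ i, constantCoeff (h i) = 0 := fun i =>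
      (mem_maximalIdeal_iff_constantCoeff _).1 (h0 i)
    refine ⟨h0', ?_⟩
    rw [Fintype.linearIndependent_iff]
    intro c hc i
    have h2 := h1 c (by
      rw [LIBasic1_mem_sq_iff]
      refine ⟨?_, fun j => ?_⟩
      · rw [map_sum]
        refine Finset.sum_eq_zero fun k _ => ?_
        rw [map_mul, h0', mul_zero]
      · rw [map_sum]
        have h3 := congrFun hc j
        simp only [Finset.sum_apply, Pi.smul_apply, smul_eq_mul, Pi.zero_apply] at h3
        rw [← h3]
        refine Finset.sum_congr rfl fun k _ => ?_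
        rw [coeff_C_mul])
    exact congrFun h2 i

/-- Changing the series by elements of `𝔪 ^ 2`. -/
theorem LI.congr {ι : Type} {h h' : ι → MvPowerSeries (Fin n) K} (hh : LI h)
    (hd : ∀ i, h' i - h i ∈ IsLocalRing.maximalIdeal (MvPowerSeries (Fin n) K) ^ 2) : LI h' := by
  have h1 : ∀ i, constantCoeff (h' i) = constantCoeff (h i) ∧
      ∀ j : Fin n, coeff (Finsupp.single j 1) (h' i) = coeff (Finsupp.single j 1) (h i) := by
    intro i
    obtain ⟨h2, h3⟩ := (LIBasic1_mem_sq_iff _).1 (hd i)
    refine ⟨?_, fun j => ?_⟩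
    · rw [map_sub] at h2
      exact sub_eq_zero.1 h2
    · have h4 := h3 j
      rw [map_sub] at h4
      exact sub_eq_zero.1 h4
  refine ⟨fun i => by rw [(h1 i).1]; exact hh.1 i, ?_⟩
  have h5 : (fun i => fun j : Fin n => coeff (Finsupp.single j 1) (h' i)) =
      (fun i => fun j : Fin n => coeff (Finsupp.single j 1) (h i)) := by
    funext i j
    exact (h1 i).2 j
  rw [h5]
  exact hh.2

private theorem linInd_ext {L : Type} [Field L] [Algebra K L] {ι : Type} (v : ι → Fin n → K)
    (hv : LinearIndependent K v) :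
    LinearIndependent L (fun i => fun j : Fin n => algebraMap K L (v i j)) := by
  classical
  have hinj : LinearMap.ker (Finsupp.linearCombination K v) = ⊥ := LinearMap.ker_eq_bot.2 hv
  obtain ⟨φ, hφ⟩ := LinearMap.exists_leftInverse_of_injective _ hinj
  have hφv : ∀ i, φ (v i) = Finsupp.single i 1 := by
    intro i
    have h1 := LinearMap.congr_fun hφ (Finsupp.single i 1)
    rw [LinearMap.comp_apply, Finsupp.linearCombination_single, one_smul] at h1
    exact h1
  rw [linearIndependent_iff']
  intro s g hg i0 hi0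
  have hsum : ∀ w : Fin n → K, φ w i0 = ∑ k, w k * (φ (Pi.single k 1)) i0 := by
    intro w
    have h1 : w = ∑ k, w k • (Pi.single k 1 : Fin n → K) := by
      funext j
      rw [Finset.sum_apply, Finset.sum_eq_single j]
      · simp
      · intro b _ hb
        simp [Pi.single_eq_of_ne hb.symm]
      · intro hj
        exact absurd (Finset.mem_univ j) hj
    conv_lhs => rw [h1]
    rw [map_sum, Finsupp.finsetSum_apply]
    refine Finset.sum_congr rfl fun k _ => ?_
    rw [map_smul, Finsupp.smul_apply, smul_eq_mul]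
  have hδ : ∀ i, (∑ k, v i k * (φ (Pi.single k 1)) i0) = if i = i0 then 1 else 0 := by
    intro i
    rw [← hsum, hφv, Finsupp.single_apply]
  have h2 : ∑ k, algebraMap K L ((φ (Pi.single k 1)) i0) *
      (∑ i ∈ s, g i * algebraMap K L (v i k)) = 0 := by
    refine Finset.sum_eq_zero fun k _ => ?_
    have h3 := congrFun hg k
    simp only [Finset.sum_apply, Pi.smul_apply, smul_eq_mul, Pi.zero_apply] at h3
    rw [h3, mul_zero]
  have h4 : ∑ k, algebraMap K L ((φ (Pi.single k 1)) i0) *
      (∑ i ∈ s, g i * algebraMap K L (v i k)) =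
      ∑ i ∈ s, g i * algebraMap K L (∑ k, v i k * (φ (Pi.single k 1)) i0) := by
    simp_rw [Finset.mul_sum]
    rw [Finset.sum_comm]
    refine Finset.sum_congr rfl fun i _ => ?_
    rw [map_sum, Finset.mul_sum]
    refine Finset.sum_congr rfl fun k _ => ?_
    rw [map_mul]
    ring
  rw [h4] at h2
  simp_rw [hδ] at h2
  rw [Finset.sum_eq_single i0] at h2
  · simpa using h2
  · intro b _ hb
    rw [if_neg hb, map_zero, mul_zero]
  · intro hcon
    exact absurd hi0 hcon

/-- Extension of the field of coefficients. -/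
theorem LI.ext {L : Type} [Field L] [Algebra K L] {ι : Type} {h : ι → MvPowerSeries (Fin n) K}
    (hh : LI h) : LI (fun i => EQ.ext K L (h i)) := by
  refine ⟨fun i => ?_, ?_⟩
  · have h1 := hh.1 i
    rw [← coeff_zero_eq_constantCoeff_apply] at h1 ⊢
    rw [MvPowerSeries.coeff_map, h1, map_zero]
  · have h1 := linInd_ext (L := L) _ hh.2
    have h2 : (fun i => fun j : Fin n => coeff (Finsupp.single j 1) (EQ.ext K L (h i))) =
        (fun i => fun j : Fin n => algebraMap K L (coeff (Finsupp.single j 1) (h i))) := by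
      funext i j
      rw [MvPowerSeries.coeff_map]
    rw [h2]
    exact h1

theorem LI.comp {ι κ : Type} {h : ι → MvPowerSeries (Fin n) K} (hh : LI h) (e : κ → ι)
    (he : Function.Injective e) : LI (fun i => h (e i)) :=
  ⟨fun i => hh.1 (e i), hh.2.comp e he⟩

theorem LI.mem {ι : Type} {h : ι → MvPowerSeries (Fin n) K} (hh : LI h) (i : ι) :
    h i ∈ IsLocalRing.maximalIdeal (MvPowerSeries (Fin n) K) :=
  (mem_maximalIdeal_iff_constantCoeff _).2 (hh.1 i)

end Pool.Agent.Helper38.ED
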