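import Pool.Agent.Helper38.ED.Defs
import Pool.Agent.Helper38.EQ.Psi
import Pool.Agent.Helper38.EQ.Orders
import Pool.Agent.Helper38.ED.LIBasic1

/-! Basic properties of `LI` (constant terms `0` and independent linear parts), second half. -/

namespace Pool.Agent.Helper38.ED

open MvPowerSeries Pool.Agent.Helper38.EQ

variable {n : ℕ} {K : Type} [Field K]

/-- The linear part of a product, the second factor having constant term `0`. -/
theorem LIBasic_coeff_mul (g h : MvPowerSeries (Fin n) K) (hh : constantCoeff h = 0) (j : Fin n) :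
    coeff (Finsupp.single j 1) (g * h) = constantCoeff g * coeff (Finsupp.single j 1) h := by
  have h1 : (g - C (constantCoeff g)) * h ∈
      IsLocalRing.maximalIdeal (MvPowerSeries (Fin n) K) ^ 2 := by
    rw [pow_two]
    refine Ideal.mul_mem_mul ((mem_maximalIdeal_iff_constantCoeff _).2 ?_)
      ((mem_maximalIdeal_iff_constantCoeff _).2 hh)
    rw [map_sub, constantCoeff_C, sub_self]
  have h2 := ((LIBasic1_mem_sq_iff _).1 h1).2 j
  rw [sub_mul, map_sub, coeff_C_mul, sub_eq_zero] at h2
  exact h2

/-- If the ideal generated by `h'_1, …, h'_m` contains `h_1, …, h_m` with independent linear parts,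
then the `h'_i` have independent linear parts. (The linear parts of the `h_i` are
linear combinations of those of the `h'_j`.) -/
theorem LI.of_span {m : ℕ} {h h' : Fin m → MvPowerSeries (Fin n) K} (hh : LI h)
    (h0 : ∀ i, h' i ∈ IsLocalRing.maximalIdeal (MvPowerSeries (Fin n) K))
    (hs : ∀ i, h i ∈ Ideal.span (Set.range h')) : LI h' := by
  have h0' : ∀ i, constantCoeff (h' i) = 0 := fun i =>
    (mem_maximalIdeal_iff_constantCoeff _).1 (h0 i)
  refine ⟨h0', ?_⟩
  rw [linearIndependent_iff_card_le_finrank_span]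
  have h1 := linearIndependent_iff_card_le_finrank_span.1 hh.2
  refine h1.trans ?_
  unfold Set.finrank
  refine Submodule.finrank_mono ?_
  rw [Submodule.span_le]
  rintro _ ⟨i, rfl⟩
  obtain ⟨g, hg⟩ := (Ideal.mem_span_range_iff_exists_fun).1 (hs i)
  have h2 : (fun j : Fin n => coeff (Finsupp.single j 1) (h i)) =
      ∑ k, constantCoeff (g k) • (fun j : Fin n => coeff (Finsupp.single j 1) (h' k)) := by
    funext j
    rw [← hg, map_sum, Finset.sum_apply]
    refine Finset.sum_congr rfl fun k _ => ?_
    rw [LIBasic_coeff_mul _ _ (h0' k), Pi.smul_apply, smul_eq_mul]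
  show (fun j : Fin n => coeff (Finsupp.single j 1) (h i)) ∈ _
  rw [h2]
  refine Submodule.sum_mem _ fun k _ => Submodule.smul_mem _ _ (Submodule.subset_span ⟨k, rfl⟩)

theorem LI.notMem_sq {ι : Type} {h : ι → MvPowerSeries (Fin n) K} (hh : LI h) (i : ι) :
    h i ∉ IsLocalRing.maximalIdeal (MvPowerSeries (Fin n) K) ^ 2 := by
  intro hi
  have h1 := ((LIBasic1_mem_sq_iff _).1 hi).2
  refine hh.2.ne_zero i ?_
  funext j
  exact h1 j

/-- If `a, b` have independent linear parts and `a ∣ b + c` with `c ∈ 𝔪 ^ 2`: impossible. -/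
theorem LI.not_dvd {a b : MvPowerSeries (Fin n) K} (hh : LI ![a, b]) : ¬ a ∣ b := by
  rintro ⟨q, hq⟩
  have ha : constantCoeff a = 0 := hh.1 0
  have h1 := Fintype.linearIndependent_iff.1 hh.2 ![constantCoeff q, -1] (by
    funext j
    rw [Finset.sum_apply, Fin.sum_univ_two]
    have h2 := LIBasic_coeff_mul q a ha j
    rw [mul_comm, ← hq] at h2
    simp only [Pi.smul_apply, smul_eq_mul, Matrix.cons_val_zero, Matrix.cons_val_one,
      Pi.zero_apply]
    rw [h2]
    ring) 1
  simp at h1

end Pool.Agent.Helper38.ED
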