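import Pool.Agent.Helper38.ED.SecBasic
import Pool.Agent.Helper38.ED.LIBasic
import Pool.Agent.Helper38.EQ.KeySmooth

/-! Restriction to a smooth hypersurface preserves the independence of linear parts. -/

namespace Pool.Agent.Helper38.ED

open MvPowerSeries Pool.Agent.Helper38.EQ

variable {n : ℕ} {K : Type} [Field K] {p : Proj n K} {e : MvPowerSeries (Fin (n + 1)) K}

private theorem SecLI_C_mem_pow (m : ℕ) {a : R1 n K}
    (ha : a ∈ IsLocalRing.maximalIdeal (R1 n K) ^ m) :
    (PowerSeries.C a : PowerSeries (R1 n K)) ∈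
      IsLocalRing.maximalIdeal (PowerSeries (R1 n K)) ^ m := by
  have h1 : (IsLocalRing.maximalIdeal (R1 n K)).map (PowerSeries.C (R := R1 n K)) ≤
      IsLocalRing.maximalIdeal (PowerSeries (R1 n K)) := by
    rw [Ideal.map_le_iff_le_comap]
    intro x hx
    rw [Ideal.mem_comap, IsLocalRing.mem_maximalIdeal, mem_nonunits_iff]
    rw [IsLocalRing.mem_maximalIdeal, mem_nonunits_iff] at hx
    intro hu
    apply hx
    have h2 := hu.map (PowerSeries.constantCoeff (R := R1 n K))
    rwa [PowerSeries.constantCoeff_C] at h2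
  have h3 := Ideal.mem_map_of_mem (PowerSeries.C (R := R1 n K)) ha
  rw [Ideal.map_pow] at h3
  exact Ideal.pow_right_mono h1 m h3

/-- If `e, h_1, …, h_m` (over `L`) have independent linear parts, so have the restrictions of
`h_1, …, h_m` to `e = 0`.

Proof: by `LI_iff`. Let `∑ c_i ev(h_i) ∈ 𝔪 ^ 2`, and `h = ∑ C c_i * h_i`, so `ev h ∈ 𝔪 ^ 2`
(`ev_C`). By `ε_dvd`, `σ h = C (ev h) + (X - C r) q`, and `X - C r` is a unit times `σ (ex e)`;
so `h = σ⁻¹ (C (ev h)) + t * ex e` for some `t`, and `σ⁻¹ (C (ev h)) ∈ 𝔪 ^ 2`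
(`algEquiv_mem_maximalIdeal_pow` in `EQ/KeySmooth.lean`; `C` maps `𝔪` to `𝔪`). With `t_0` the
constant term of `t`, `∑ C c_i * h_i - C t_0 * ex e ∈ 𝔪 ^ 2`, so `c = 0` by `LI_iff`. -/
theorem Sec.LI_ev {m : ℕ} (s : Sec p e) (h : Fin m → SL n K)
    (hh : LI (Fin.cons (ex e) h : Fin (m + 1) → SL n K)) : LI (fun i => s.ev (h i)) := by
  rw [LI_iff]
  refine ⟨fun i => ?_, fun c hc => ?_⟩
  · have h1 := hh.mem i.succ
    rw [Fin.cons_succ] at h1
    exact s.ev_mem h1
  · set H : SL n K := ∑ i, C (c i) * h i with hH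
    have h1 : s.ev H ∈ IsLocalRing.maximalIdeal (R1 n K) ^ 2 := by
      rw [hH, map_sum]
      simp only [map_mul, s.ev_C]
      exact hc
    obtain ⟨q, hq⟩ := s.ε_dvd (p.σ H)
    obtain ⟨V, hV⟩ := s.isUnit
    have h2 : (PowerSeries.X - PowerSeries.C s.r : PowerSeries (R1 n K)) =
        (↑V⁻¹ : PowerSeries (R1 n K)) * p.σ (ex e) := by
      rw [s.eq, ← hV, ← mul_assoc, Units.inv_mul, one_mul]
    set t : SL n K := p.σ.symm ((↑V⁻¹ : PowerSeries (R1 n K)) * q) with ht
    have h3 : H = p.σ.symm (PowerSeries.C (s.ev H)) + t * ex e := by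
      apply p.σ.injective
      rw [map_add, map_mul, ht, AlgEquiv.apply_symm_apply, AlgEquiv.apply_symm_apply, s.ev_apply]
      rw [h2] at hq
      rw [hq]
      have h4 : s.ε (PowerSeries.C (s.ε (p.σ H)) + (↑V⁻¹ : PowerSeries (R1 n K)) * p.σ (ex e) * q)
          = s.ε (p.σ H) := by
        rw [← hq]
      rw [h4]
      ring
    have h4 : p.σ.symm (PowerSeries.C (s.ev H)) ∈ IsLocalRing.maximalIdeal (SL n K) ^ 2 := by
      have h5 := (algEquiv_mem_maximalIdeal_pow p.σ.symm.toRingEquiv 2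
        (PowerSeries.C (s.ev H))).mpr (SecLI_C_mem_pow 2 h1)
      exact h5
    have h0 : ex e ∈ IsLocalRing.maximalIdeal (SL n K) := by
      have h1 := hh.mem 0
      rwa [Fin.cons_zero] at h1
    have h5 : t - C (constantCoeff t) ∈ IsLocalRing.maximalIdeal (SL n K) := by
      rw [IsLocalRing.mem_maximalIdeal, mem_nonunits_iff]
      intro hu
      have h6 := hu.map (constantCoeff (σ := Fin (n + 1)) (R := GenField n K))
      rw [map_sub, constantCoeff_C, sub_self] at h6
      exact not_isUnit_zero h6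
    have h6 : H - C (constantCoeff t) * ex e ∈ IsLocalRing.maximalIdeal (SL n K) ^ 2 := by
      have h7 : H - C (constantCoeff t) * ex e =
          p.σ.symm (PowerSeries.C (s.ev H)) + (t - C (constantCoeff t)) * ex e := by
        linear_combination h3
      rw [h7]
      refine Ideal.add_mem _ h4 ?_
      rw [pow_two]
      exact Ideal.mul_mem_mul h5 h0
    have h7 := ((LI_iff _).mp hh).2 (Fin.cons (-(constantCoeff t)) c : Fin (m + 1) → GenField n K)
    have h8 : (Fin.cons (-(constantCoeff t)) c : Fin (m + 1) → GenField n K) = 0 := by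
      apply h7
      rw [Fin.sum_univ_succ]
      simp only [Fin.cons_zero, Fin.cons_succ]
      rw [map_neg]
      have h9 : -C (constantCoeff t) * ex e + ∑ i, C (c i) * h i =
          H - C (constantCoeff t) * ex e := by
        rw [hH]; ring
      rw [h9]
      exact h6
    funext i
    have h9 := congrFun h8 i.succ
    rw [Fin.cons_succ] at h9
    simpa using h9

/-- The same over `K`, with `LI.ext`. -/
theorem Sec.LI_pull {m : ℕ} (s : Sec p e) (h : Fin m → MvPowerSeries (Fin (n + 1)) K)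
    (hh : LI (Fin.cons e h : Fin (m + 1) → MvPowerSeries (Fin (n + 1)) K)) :
    LI (fun i => s.pull (h i)) := by
  have h1 := LI.ext (L := GenField n K) hh
  have h2 : (fun i => EQ.ext K (GenField n K)
      ((Fin.cons e h : Fin (m + 1) → MvPowerSeries (Fin (n + 1)) K) i)) =
      (Fin.cons (ex e) (fun i => ex (h i)) : Fin (m + 1) → SL n K) := by
    funext i
    refine Fin.cases ?_ (fun j => ?_) i
    · simp only [Fin.cons_zero]
    · simp only [Fin.cons_succ]
  rw [h2] at h1
  exact s.LI_ev (fun i => ex (h i)) h1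

end Pool.Agent.Helper38.ED
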