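import Pool.Agent.Helper38.ED.Step
import Pool.Agent.Helper38.ED.SecLI
import Pool.Agent.Helper38.ED.PrimeOf
import Pool.Agent.Helper38.ED.ExistsProj

/-! The four types of germs that occur in the recursion. -/

namespace Pool.Agent.Helper38.ED

open MvPowerSeries Pool.Agent.Helper38.EQ

section

variable {R : Type} [CommRing R]

/-- Third critical variety: `b d = 0`. -/
def comps3 (b d : R) : Fin 2 → R := ![b, d]

/-- Second critical variety. -/
def comps2 (b c d θ : R) : Fin 4 → R := ![b, c, 2 * c + b * d, (1 + b * θ) * c + b * d]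

/-- First critical variety. -/
def comps1 (a b c d : R) : Fin 4 → R := ![a, b, a + b * c, a + 2 * b * c + b ^ 2 * d]

/-- The hypersurface `V`. -/
def comps0 (z x1 x2 x3 a0 a1 : R) : Fin 6 → R :=
  ![z, z - x2 ^ 2 * x1,
    z - x2 ^ 2, z - x2 ^ 2 * (1 + x1 + x2 * x3),
    z - x2 ^ 2 * (2 + a1), z - x2 ^ 2 * (2 + a1 + x1 + 2 * x2 * x3 + a0 * x2 ^ 2)]

end

theorem charZero_gen (n : ℕ) (K : Type) [Field K] [CharZero K] : CharZero (GenField n K) :=
  charZero_of_injective_algebraMap (algebraMap K (GenField n K)).injective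

/-- A sum of a nonzero integer and an element of the maximal ideal is a unit. -/
theorem isUnit_natCast_add {n : ℕ} {K : Type} [Field K] [CharZero K] {m : ℕ} (hm : m ≠ 0)
    {h : MvPowerSeries (Fin n) K} (hh : h ∈ IsLocalRing.maximalIdeal (MvPowerSeries (Fin n) K)) :
    IsUnit ((m : MvPowerSeries (Fin n) K) + h) := by
  rw [MvPowerSeries.isUnit_iff_constantCoeff]
  rw [mem_maximalIdeal_iff_constantCoeff] at hh
  rw [map_add, hh, add_zero, map_natCast]
  exact (Nat.cast_ne_zero.mpr hm).isUnit

theorem isUnit_one_add {n : ℕ} {K : Type} [Field K]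
    {h : MvPowerSeries (Fin n) K} (hh : h ∈ IsLocalRing.maximalIdeal (MvPowerSeries (Fin n) K)) :
    IsUnit (1 + h) := by
  rw [MvPowerSeries.isUnit_iff_constantCoeff]
  rw [mem_maximalIdeal_iff_constantCoeff] at hh
  rw [map_add, hh, add_zero, map_one]
  exact isUnit_one

end Pool.Agent.Helper38.ED
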