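import Pool.Agent.Helper38.ED.FinalDefs

/-! The ideal of the cuspidal curve. -/

namespace Pool.Agent.Helper38.ED

open MvPolynomial Pool.Agent.Helper38.EQ

variable {K : Type} [Field K]

/-- The parametrisation `t ↦ (0, 0, 0, 0, t³, t², 0)`. -/
noncomputable def param (K : Type) [Field K] : MvPolynomial (Fin 7) K →ₐ[K] Polynomial K :=
  aeval ![0, 0, 0, 0, Polynomial.X ^ 3, Polynomial.X ^ 2, 0]

/-- the point with parameter `t` -/
private def Curve_pt (t : K) : Fin 7 → K := ![0, 0, 0, 0, t ^ 3, t ^ 2, 0]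

private theorem Curve_pt_mem (t : K) : Curve_pt t ∈ curve K := by
  refine ⟨rfl, rfl, rfl, rfl, rfl, ?_⟩
  change (t ^ 3) ^ 2 = (t ^ 2) ^ 3
  ring

private theorem Curve_eval (t : K) (h : MvPolynomial (Fin 7) K) :
    Polynomial.eval t (param K h) = aeval (Curve_pt t) h := by
  have h1 : (Polynomial.aeval t).comp (param K) = aeval (Curve_pt t) := by
    apply MvPolynomial.algHom_ext
    intro i
    fin_cases i <;> simp [param, Curve_pt]
  rw [← h1]
  simp

private theorem Curve_exists {R : Fin 7 → K} (hR : R ∈ curve K) : ∃ t, R = Curve_pt t := by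
  obtain ⟨h0, h1, h2, h3, h6, h45⟩ := hR
  have key : ∃ t : K, R 4 = t ^ 3 ∧ R 5 = t ^ 2 := by
    by_cases h5 : R 5 = 0
    · refine ⟨0, ?_, ?_⟩
      · rw [h5] at h45
        have : R 4 ^ 2 = 0 := by rw [h45]; ring
        simpa using this
      · simpa using h5
    · refine ⟨R 4 / R 5, ?_, ?_⟩
      · rw [div_pow, eq_div_iff (pow_ne_zero 3 h5), pow_succ (R 4) 2, h45]
        ring
      · rw [div_pow, eq_div_iff (pow_ne_zero 2 h5), h45]
        ring
  obtain ⟨t, ht4, ht5⟩ := key
  refine ⟨t, ?_⟩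
  funext i
  fin_cases i
  · exact h0
  · exact h1
  · exact h2
  · exact h3
  · exact ht4
  · exact ht5
  · exact h6

/-- The points of the curve are the points `(0, 0, 0, 0, t³, t², 0)` (`t = R 4 / R 5` if
`R 5 ≠ 0`), and a polynomial with infinitely many zeros is zero. -/
theorem mem_idealOf_curve [IsAlgClosed K] (h : MvPolynomial (Fin 7) K) :
    h ∈ idealOf (curve K) ↔ param K h = 0 := by
  rw [mem_vanishingIdeal_iff]
  constructor
  · intro hh
    have : Infinite K := IsAlgClosed.instInfinite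
    apply Polynomial.funext
    intro t
    rw [Curve_eval, hh _ (Curve_pt_mem t), Polynomial.eval_zero]
  · intro hh R hR
    obtain ⟨t, rfl⟩ := Curve_exists hR
    rw [← Curve_eval, hh, Polynomial.eval_zero]

/-- The kernel of a homomorphism to a domain. -/
theorem curve_isPrime [IsAlgClosed K] : (idealOf (curve K)).IsPrime := by
  have h1 : idealOf (curve K) = RingHom.ker (param K) := by
    ext h
    rw [mem_idealOf_curve, RingHom.mem_ker]
  rw [h1]
  exact RingHom.ker_isPrime _

theorem curve_gens_mem [IsAlgClosed K] :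
    (X 0 : MvPolynomial (Fin 7) K) ∈ idealOf (curve K) ∧
    (X 1 : MvPolynomial (Fin 7) K) ∈ idealOf (curve K) ∧
    (X 2 : MvPolynomial (Fin 7) K) ∈ idealOf (curve K) ∧
    (X 3 : MvPolynomial (Fin 7) K) ∈ idealOf (curve K) ∧
    (X 6 : MvPolynomial (Fin 7) K) ∈ idealOf (curve K) ∧
    polyA K ∈ idealOf (curve K) := by
  simp only [mem_vanishingIdeal_iff, aeval_X]
  refine ⟨fun R hR => hR.1, fun R hR => hR.2.1, fun R hR => hR.2.2.1, fun R hR => hR.2.2.2.1,
    fun R hR => hR.2.2.2.2.1, fun R hR => ?_⟩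
  rw [polyA, map_sub, map_pow, map_pow, aeval_X, aeval_X, hR.2.2.2.2.2, sub_self]

/-- points where the equations of the curve vanish -/
private theorem Curve_sub (P : Ideal (MvPolynomial (Fin 7) K))
    (h0 : X 0 ∈ P) (h1 : X 1 ∈ P) (h2 : X 2 ∈ P) (h3 : X 3 ∈ P) (h6 : X 6 ∈ P)
    (hA : polyA K ∈ P) : zeroLocus K P ⊆ curve K := by
  intro R hR
  rw [mem_zeroLocus_iff] at hR
  refine ⟨by simpa using hR _ h0, by simpa using hR _ h1, by simpa using hR _ h2,
    by simpa using hR _ h3, by simpa using hR _ h6, ?_⟩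
  have := hR _ hA
  rw [polyA, map_sub, map_pow, map_pow, aeval_X, aeval_X] at this
  exact sub_eq_zero.1 this

/-- The curve is closed. -/
theorem closureOf_curve [IsAlgClosed K] : closureOf (curve K) = curve K := by
  obtain ⟨h0, h1, h2, h3, h6, hA⟩ := curve_gens_mem (K := K)
  exact Set.Subset.antisymm (Curve_sub _ h0 h1 h2 h3 h6 hA) (zeroLocus_vanishingIdeal_le _)

/-- Nullstellensatz (`MvPolynomial.vanishingIdeal_zeroLocus_eq_radical`): a prime ideal that
contains the equations of the curve contains its ideal. -/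
theorem idealOf_curve_le [IsAlgClosed K] (P : Ideal (MvPolynomial (Fin 7) K)) (hP : P.IsPrime)
    (h0 : X 0 ∈ P) (h1 : X 1 ∈ P) (h2 : X 2 ∈ P) (h3 : X 3 ∈ P) (h6 : X 6 ∈ P)
    (hA : polyA K ∈ P) : idealOf (curve K) ≤ P := by
  have h := vanishingIdeal_anti_mono (k := K) (Curve_sub P h0 h1 h2 h3 h6 hA)
  rw [vanishingIdeal_zeroLocus_eq_radical, hP.radical] at h
  exact h

end Pool.Agent.Helper38.ED
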