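import Pool.Agent.Helper38.ED.Curve

/-! The cusp is not a simple point of the curve. -/

namespace Pool.Agent.Helper38.ED

open MvPolynomial Pool.Agent.Helper38.EQ

/-- the parametrisation, with values in power series -/
private noncomputable def CurveSing_phi (K : Type) [Field K] :
    MvPolynomial (Fin 7) K →+* PowerSeries K :=
  (Polynomial.coeToPowerSeries.ringHom (R := K)).comp (param K : MvPolynomial (Fin 7) K →+* _)

private theorem CurveSing_phi_apply {K : Type} [Field K] (h : MvPolynomial (Fin 7) K) :
    CurveSing_phi K h = ((param K h : Polynomial K) : PowerSeries K) := rfl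

private theorem CurveSing_coeff {K : Type} [Field K] (h : MvPolynomial (Fin 7) K) :
    PowerSeries.coeff 1 (CurveSing_phi K h) = 0 := by
  rw [CurveSing_phi_apply, Polynomial.coeff_coe]
  induction h using MvPolynomial.induction_on with
  | C a =>
    rw [← MvPolynomial.algebraMap_eq, AlgHom.commutes, Polynomial.algebraMap_eq,
      Polynomial.coeff_C]
    simp
  | add p q hp hq => rw [map_add, Polynomial.coeff_add, hp, hq, add_zero]
  | mul_X p i hp =>
    rw [map_mul]
    have h1 : ∃ q : Polynomial K, param K (X i) = Polynomial.X ^ 2 * q := by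
      unfold param
      rw [aeval_X]
      fin_cases i
      · exact ⟨0, by simp⟩
      · exact ⟨0, by simp⟩
      · exact ⟨0, by simp⟩
      · exact ⟨0, by simp⟩
      · exact ⟨Polynomial.X, by
          change Polynomial.X ^ 3 = _
          ring⟩
      · exact ⟨1, by
          change Polynomial.X ^ 2 = _
          ring⟩
      · exact ⟨0, by simp⟩
    obtain ⟨q, hq⟩ := h1
    rw [hq]
    have h2 : param K p * (Polynomial.X ^ 2 * q) = Polynomial.X ^ 2 * (param K p * q) := by ring
    rw [h2, Polynomial.coeff_X_pow_mul']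
    simp

private theorem CurveSing_const {K : Type} [Field K] (h : MvPolynomial (Fin 7) K) :
    PowerSeries.constantCoeff (CurveSing_phi K h) = MvPolynomial.eval 0 h := by
  rw [CurveSing_phi_apply]
  have h1 : (PowerSeries.constantCoeff (R := K)).comp (CurveSing_phi K) =
      (MvPolynomial.eval (0 : Fin 7 → K)) := by
    apply MvPolynomial.ringHom_ext
    · intro a
      rw [RingHom.comp_apply, CurveSing_phi_apply, ← MvPolynomial.algebraMap_eq, AlgHom.commutes,
        Polynomial.algebraMap_eq]
      simp
    · intro i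
      rw [RingHom.comp_apply, CurveSing_phi_apply]
      unfold param
      rw [aeval_X, eval_X]
      fin_cases i <;> simp
  exact RingHom.congr_fun h1 h

private theorem CurveSing_span {K : Type} [Field K] (h : MvPolynomial (Fin 7) K)
    (hh : h ∈ pointIdeal (0 : Fin 7 → K)) : h ∈ Ideal.span (Set.range (X : Fin 7 → _)) := by
  have h1 : h ∈ MvPolynomial.idealOfVars (Fin 7) K ^ 1 := by
    rw [MvPolynomial.mem_pow_idealOfVars_iff']
    intro x hx
    have : x = 0 := by
      rw [Nat.lt_one_iff] at hx
      exact (Finsupp.degree_eq_zero_iff x).mp hx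
    subst this
    rw [pointIdeal, RingHom.mem_ker] at hh
    rw [← hh]
    rw [MvPolynomial.eval_zero]
    rfl
  rw [pow_one] at h1
  exact h1

/-- abstract form of the argument -/
private theorem CurveSing_abstract {K : Type} [Field K] {A : Type} [CommRing A]
    (hA : IsRegularLocalRing A) (x y : A) (hmax : IsLocalRing.maximalIdeal A = Ideal.span {x, y})
    (hxy : x ^ 2 = y ^ 3) (ψ : A →+* PowerSeries K)
    (hx : ψ x = PowerSeries.X ^ 3) (hy : ψ y = PowerSeries.X ^ 2)
    (hψ : ∀ a, PowerSeries.coeff 1 (ψ a) = 0) : False := by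
  have hprime : (IsLocalRing.maximalIdeal A).IsPrime := inferInstance
  have hxm : x ∈ IsLocalRing.maximalIdeal A := by
    rw [hmax]; exact Ideal.subset_span (by simp)
  have hym : y ∈ IsLocalRing.maximalIdeal A := by
    rw [hmax]; exact Ideal.subset_span (by simp)
  -- the maximal ideal is minimal over `y`
  have hmin : IsLocalRing.maximalIdeal A ∈ (Ideal.span {y}).minimalPrimes := by
    refine ⟨⟨hprime, ?_⟩, ?_⟩
    · rw [Ideal.span_singleton_le_iff_mem]
      exact hym
    · rintro q ⟨hq, hyq⟩ _
      rw [Ideal.span_singleton_le_iff_mem] at hyq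
      have hxq : x ∈ q := by
        apply hq.mem_of_pow_mem 2
        rw [hxy, pow_succ]
        exact Ideal.mul_mem_left _ _ hyq
      rw [hmax, Ideal.span_le]
      rintro z hz
      rcases hz with rfl | hz
      · exact hxq
      · rw [Set.mem_singleton_iff] at hz
        rw [hz]
        exact hyq
  have hpr : (Ideal.span {y} : Ideal A).IsPrincipal := ⟨⟨y, rfl⟩⟩
  have hht : (IsLocalRing.maximalIdeal A).height ≤ 1 :=
    Ideal.height_le_one_of_isPrincipal_of_mem_minimalPrimes (Ideal.span {y}) _ hmin
  have hdim : ((IsLocalRing.maximalIdeal A).spanFinrank : WithBot ℕ∞) ≤ 1 := by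
    rw [hA.spanFinrank_maximalIdeal, ← IsLocalRing.maximalIdeal_height_eq_ringKrullDim]
    exact_mod_cast hht
  have hfr : (IsLocalRing.maximalIdeal A).spanFinrank ≤ 1 := by
    exact_mod_cast hdim
  have hprin : ∃ g : A, IsLocalRing.maximalIdeal A = Ideal.span {g} := by
    rcases Nat.lt_or_ge (IsLocalRing.maximalIdeal A).spanFinrank 1 with h0 | h1
    · rw [Nat.lt_one_iff] at h0
      rw [Submodule.spanFinrank_eq_zero_iff_eq_bot (IsNoetherian.noetherian _)] at h0
      refine ⟨0, ?_⟩
      rw [h0]
      simp
    · have h2 : (IsLocalRing.maximalIdeal A).spanFinrank = 1 := le_antisymm hfr h1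
      rw [Submodule.spanFinrank_eq_one_iff] at h2
      obtain ⟨⟨g, hg⟩, -⟩ := h2
      exact ⟨g, hg⟩
  obtain ⟨g, hg⟩ := hprin
  have hxg := hxm
  have hyg := hym
  rw [hg, Ideal.mem_span_singleton] at hxg hyg
  obtain ⟨a, ha⟩ := hxg
  obtain ⟨b, hb⟩ := hyg
  have hgm : g ∈ IsLocalRing.maximalIdeal A := by
    rw [hg]; exact Ideal.mem_span_singleton_self g
  rw [hmax, Ideal.mem_span_pair] at hgm
  obtain ⟨c, d, hcd⟩ := hgm
  have hψg : ψ g = PowerSeries.X ^ 2 * (PowerSeries.X * ψ c + ψ d) := by
    rw [← hcd, map_add, map_mul, map_mul, hx, hy]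
    ring
  set v := PowerSeries.X * ψ c + ψ d with hv
  have h1 : PowerSeries.X ^ 2 * (1 : PowerSeries K) = PowerSeries.X ^ 2 * (v * ψ b) := by
    rw [mul_one, ← hy]
    conv_lhs => rw [hb, map_mul, hψg]
    rw [hy]
    ring
  have h2 : PowerSeries.X ^ 2 * (PowerSeries.X : PowerSeries K) =
      PowerSeries.X ^ 2 * (v * ψ a) := by
    have : (PowerSeries.X ^ 2 * PowerSeries.X : PowerSeries K) = PowerSeries.X ^ 3 := by ring
    rw [this, ← hx]
    conv_lhs => rw [ha, map_mul, hψg]
    ring
  have hX : (PowerSeries.X ^ 2 : PowerSeries K) ≠ 0 := pow_ne_zero _ PowerSeries.X_ne_zero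
  have h3 := mul_left_cancel₀ hX h1
  have h4 := mul_left_cancel₀ hX h2
  have h5 : ψ a = PowerSeries.X * ψ b := by
    calc ψ a = (v * ψ b) * ψ a := by rw [← h3, one_mul]
      _ = (v * ψ a) * ψ b := by ring
      _ = PowerSeries.X * ψ b := by rw [← h4]
  have h6 := hψ a
  rw [h5, show (1 : ℕ) = 0 + 1 from rfl, PowerSeries.coeff_succ_X_mul] at h6
  have h7 := congrArg (PowerSeries.constantCoeff (R := K)) h3
  rw [map_one, map_mul, ← PowerSeries.coeff_zero_eq_constantCoeff_apply (ψ b), h6, mul_zero] at h7
  exact one_ne_zero h7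

/-- The origin is a singular point of the cuspidal curve.

Proof. Let `O = LocalRingAt 0`, `A = O ⧸ P O`, `P = idealOf (curve K)`, and suppose that `A` is a
regular local ring. Its maximal ideal is generated by the images of the `X j` (see
`EQ/AlgBasic.lean`, `EQ/AlgRegular.lean`), so by those of `X 4`, `X 5` (the others are in `P`), and
`(X 4) ^ 2 = (X 5) ^ 3` in `A`. So the maximal ideal is minimal over the ideal generated by the image
of `X 5`, its height is at most `1` (Krull's principal ideal theorem,
`Ideal.height_le_one_of_isPrincipal_of_mem_minimalPrimes`), and as `A` is regular the maximal ideal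
is principal, generated by some `g` (`IsRegularLocalRing` in Mathlib: the number of generators is the
dimension). The parametrisation `t ↦ (0,0,0,0,t³,t²,0)` gives a homomorphism `ψ : A → K⟦T⟧`
(`IsLocalization.lift`: a polynomial not vanishing at `0` goes to a series with nonzero constant
term), with `coeff 1 (ψ a) = 0` for all `a ∈ A` (true for polynomials; if `s ψ(a) = φ`, with
`coeff 1 φ = coeff 1 s = 0` and the constant term of `s` nonzero, then `coeff 1 (ψ a) = 0`). Now
`X 5 = g b`, `X 4 = g a`, so `T ^ 2 = ψ(g) ψ(b)`, `T ^ 3 = ψ(g) ψ(a)`; the constant term of `ψ(g)`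
is `0` and its coefficient of `T` is `0`, so `ψ(g) = T ^ 2 v`, so `1 = v ψ(b)`, `v` is a unit,
`T = v ψ(a)`, so `ψ(a) = T v⁻¹` has a nonzero coefficient of `T`: contradiction. -/
theorem curve_not_simple (K : Type) [Field K] [IsAlgClosed K] :
    ¬ IsSimple (idealOf (curve K)) 0 := by
  rw [isSimple_iff]
  intro hreg
  unfold IsSimplePoint at hreg
  obtain ⟨m0, m1, m2, m3, m6, mA⟩ := curve_gens_mem (K := K)
  set P := idealOf (curve K) with hP
  have hunit : ∀ s : (pointIdeal (0 : Fin 7 → K)).primeCompl, IsUnit (CurveSing_phi K s) := by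
    intro s
    rw [PowerSeries.isUnit_iff_constantCoeff, CurveSing_const, isUnit_iff_ne_zero]
    intro h0
    exact s.2 (show (s : MvPolynomial (Fin 7) K) ∈ pointIdeal (0 : Fin 7 → K) from
      RingHom.mem_ker.mpr h0)
  let O := Localization.AtPrime (pointIdeal (0 : Fin 7 → K))
  let ι : MvPolynomial (Fin 7) K →+* O := algebraMap _ _
  let lam : O →+* PowerSeries K := IsLocalization.lift (M := (pointIdeal (0 : Fin 7 → K)).primeCompl)
    hunit
  have hlam : ∀ h, lam (ι h) = CurveSing_phi K h := fun h => IsLocalization.lift_eq _ _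
  have hker : ∀ o ∈ P.map ι, lam o = 0 := by
    intro o ho
    have h1 : P.map ι ≤ RingHom.ker lam := by
      rw [Ideal.map_le_iff_le_comap]
      intro h hh
      rw [Ideal.mem_comap, RingHom.mem_ker, hlam, CurveSing_phi_apply,
        (mem_idealOf_curve h).mp hh, Polynomial.coe_zero]
    exact h1 ho
  let ψ : (O ⧸ P.map ι) →+* PowerSeries K := Ideal.Quotient.lift (P.map ι) lam hker
  let π : MvPolynomial (Fin 7) K →+* (O ⧸ P.map ι) := (Ideal.Quotient.mk (P.map ι)).comp ι
  have hψπ : ∀ h, ψ (π h) = CurveSing_phi K h := fun h => hlam h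
  have hπ0 : ∀ h ∈ P, π h = 0 := by
    intro h hh
    exact Ideal.Quotient.eq_zero_iff_mem.mpr (Ideal.mem_map_of_mem _ hh)
  have hreg' : IsRegularLocalRing (O ⧸ P.map ι) := hreg
  have hloc : IsLocalRing (O ⧸ P.map ι) := hreg'.toIsLocalRing
  have hmax : IsLocalRing.maximalIdeal (O ⧸ P.map ι) = Ideal.span {π (X 4), π (X 5)} := by
    have h1 : IsLocalRing.maximalIdeal (O ⧸ P.map ι) =
        (pointIdeal (0 : Fin 7 → K)).map π := by
      have h2 : IsLocalRing.maximalIdeal O = (pointIdeal (0 : Fin 7 → K)).map ι :=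
        (Localization.AtPrime.map_eq_maximalIdeal).symm
      have h3 : ((IsLocalRing.maximalIdeal O).map (Ideal.Quotient.mk (P.map ι))).IsMaximal := by
        refine Ideal.IsMaximal.map_of_surjective_of_ker_le Ideal.Quotient.mk_surjective ?_
        rw [Ideal.mk_ker]
        apply IsLocalRing.le_maximalIdeal
        intro htop
        have : Nontrivial (O ⧸ P.map ι) := inferInstance
        rw [Ideal.Quotient.nontrivial_iff] at this
        exact this htop
      rw [← IsLocalRing.eq_maximalIdeal h3, h2, Ideal.map_map]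
    rw [h1]
    apply le_antisymm
    · rw [Ideal.map_le_iff_le_comap]
      intro h hh
      have h2 := CurveSing_span h hh
      have h3 : Ideal.span (Set.range (X : Fin 7 → MvPolynomial (Fin 7) K)) ≤
          Ideal.comap π (Ideal.span {π (X 4), π (X 5)}) := by
        rw [Ideal.span_le]
        rintro _ ⟨i, rfl⟩
        rw [SetLike.mem_coe, Ideal.mem_comap]
        fin_cases i
        · change π (X 0) ∈ _
          rw [hπ0 _ m0]; exact Ideal.zero_mem _
        · change π (X 1) ∈ _
          rw [hπ0 _ m1]; exact Ideal.zero_mem _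
        · change π (X 2) ∈ _
          rw [hπ0 _ m2]; exact Ideal.zero_mem _
        · change π (X 3) ∈ _
          rw [hπ0 _ m3]; exact Ideal.zero_mem _
        · exact Ideal.subset_span (by simp)
        · exact Ideal.subset_span (by simp)
        · change π (X 6) ∈ _
          rw [hπ0 _ m6]; exact Ideal.zero_mem _
      exact h3 h2
    · rw [Ideal.span_le]
      rintro z hz
      rcases hz with rfl | hz
      · exact Ideal.mem_map_of_mem π (by rw [pointIdeal, RingHom.mem_ker]; simp)
      · rw [Set.mem_singleton_iff] at hz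
        rw [hz]
        exact Ideal.mem_map_of_mem π (by rw [pointIdeal, RingHom.mem_ker]; simp)
  refine CurveSing_abstract (K := K) hreg' (π (X 4)) (π (X 5)) hmax ?_ ψ ?_ ?_ ?_
  · have h1 := hπ0 _ mA
    rw [polyA, map_sub, map_pow, map_pow, sub_eq_zero] at h1
    exact h1
  · rw [hψπ, CurveSing_phi_apply]
    unfold param
    rw [aeval_X]
    change ((Polynomial.X ^ 3 : Polynomial K) : PowerSeries K) = _
    simp
  · rw [hψπ, CurveSing_phi_apply]
    unfold param
    rw [aeval_X]
    change ((Polynomial.X ^ 2 : Polynomial K) : PowerSeries K) = _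
    simp
  · intro a
    obtain ⟨o, rfl⟩ := Ideal.Quotient.mk_surjective a
    change PowerSeries.coeff 1 (lam o) = 0
    obtain ⟨⟨r, s⟩, hrs⟩ := IsLocalization.surj (pointIdeal (0 : Fin 7 → K)).primeCompl o
    have h1 : lam o * CurveSing_phi K s = CurveSing_phi K r := by
      rw [← hlam, ← hlam, ← map_mul]
      exact congrArg lam hrs
    have h2 := congrArg (PowerSeries.coeff 1) h1
    rw [CurveSing_coeff, PowerSeries.coeff_mul] at h2
    rw [Finset.Nat.antidiagonal_succ] at h2
    simp only [Finset.Nat.antidiagonal_zero, Finset.map_singleton, Finset.cons_eq_insert] at h2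
    rw [Finset.sum_insert (by simp), Finset.sum_singleton] at h2
    simp only [Function.Embedding.prodMap, Function.Embedding.coeFn_mk, Prod.map,
      zero_add, Function.Embedding.refl_apply, Nat.succ_eq_add_one] at h2
    rw [CurveSing_coeff, mul_zero, zero_add, PowerSeries.coeff_zero_eq_constantCoeff_apply,
      CurveSing_const] at h2
    rcases mul_eq_zero.mp h2 with h3 | h3
    · exact h3
    · exact absurd (show (s : MvPolynomial (Fin 7) K) ∈ pointIdeal (0 : Fin 7 → K) from
        RingHom.mem_ker.mpr h3) s.2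

end Pool.Agent.Helper38.ED
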