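import Pool.Agent.Helper38.EQ.Defs

/-!
Basic definitions for the counterexample: linear independence of linear parts, generic
projections, sections of a generic projection over a smooth hypersurface germ.
-/

namespace Pool.Agent.Helper38.ED

open MvPowerSeries Pool.Agent.Helper38.EQ

/-- The power series `h i` have constant term `0` and linearly independent linear parts. -/
def LI {n : ℕ} {K : Type} [Field K] {ι : Type} (h : ι → MvPowerSeries (Fin n) K) : Prop :=
  (∀ i, constantCoeff (h i) = 0) ∧
    LinearIndependent K (fun i => fun j : Fin n => coeff (Finsupp.single j 1) (h i))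

/-- The ring of power series in `n` variables over `L = GenField n K`. -/
abbrev R1 (n : ℕ) (K : Type) [Field K] : Type := MvPowerSeries (Fin n) (GenField n K)

/-- The ring of power series in `n + 1` variables over `L = GenField n K`. -/
abbrev SL (n : ℕ) (K : Type) [Field K] : Type := MvPowerSeries (Fin (n + 1)) (GenField n K)

/-- The extension of the coefficients `K ⊆ L = GenField n K`. -/
noncomputable abbrev ex {n : ℕ} {K : Type} [Field K] :
    MvPowerSeries (Fin (n + 1)) K →+* SL n K := ext K (GenField n K)

/-- A generic projection: a basis `x`, and coordinates `(y, z)` with `y_i = ∑ u_ij x_j`. -/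
structure Proj (n : ℕ) (K : Type) [Field K] where
  /-- the basis -/
  x : Fin (n + 1) → MvPowerSeries (Fin (n + 1)) K
  hx : Ideal.span (Set.range x) = IsLocalRing.maximalIdeal (MvPowerSeries (Fin (n + 1)) K)
  /-- the coordinates -/
  σ : SL n K ≃ₐ[GenField n K] PowerSeries (R1 n K)
  hσ : ∀ i : Fin n, σ (∑ j, C (genU i j) * ex (x j)) = PowerSeries.C (X i)

/-- The (radical) ideal of the image of the zero locus of `I`. -/
noncomputable def Proj.img {n : ℕ} {K : Type} [Field K] (p : Proj n K)
    (I : Ideal (MvPowerSeries (Fin (n + 1)) K)) : Ideal (R1 n K) :=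
  Ideal.comap (PowerSeries.C (R := R1 n K)) (Ideal.map p.σ (Ideal.map ex I).radical)

/-- The section of the generic projection over the smooth hypersurface germ `e = 0`:
in the coordinates `(y, z)`, `e` is a unit times `z - r(y)`, and `ε` is the evaluation
`φ(y, z) ↦ φ(y, r(y))`. -/
structure Sec {n : ℕ} {K : Type} [Field K] (p : Proj n K)
    (e : MvPowerSeries (Fin (n + 1)) K) where
  /-- the root -/
  r : R1 n K
  r_mem : r ∈ IsLocalRing.maximalIdeal (R1 n K)
  /-- the unit -/
  U : PowerSeries (R1 n K)
  isUnit : IsUnit U
  eq : p.σ (ex e) = U * (PowerSeries.X - PowerSeries.C r)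
  /-- the evaluation at the root -/
  ε : PowerSeries (R1 n K) →+* R1 n K
  ε_C : ∀ a, ε (PowerSeries.C a) = a
  ε_X : ε PowerSeries.X = r
  ε_dvd : ∀ φ, ∃ q, φ = PowerSeries.C (ε φ) + (PowerSeries.X - PowerSeries.C r) * q

namespace Sec

variable {n : ℕ} {K : Type} [Field K] {p : Proj n K} {e : MvPowerSeries (Fin (n + 1)) K}

/-- The restriction of a power series over `L` to `e = 0`, as a power series in `y`. -/
noncomputable def ev (s : Sec p e) : SL n K →+* R1 n K :=
  s.ε.comp (p.σ : SL n K →+* PowerSeries (R1 n K))

/-- The restriction of a power series over `K` to `e = 0`, as a power series in `y`. -/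
noncomputable def pull (s : Sec p e) : MvPowerSeries (Fin (n + 1)) K →+* R1 n K :=
  s.ev.comp ex

end Sec

/-- The derivation `∂/∂z` in the coordinates `(y, z)`. -/
noncomputable def Proj.D {n : ℕ} {K : Type} [Field K] (p : Proj n K) (h : SL n K) : SL n K :=
  p.σ.symm (PowerSeries.derivative (R1 n K) (p.σ h))

end Pool.Agent.Helper38.ED
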