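import Mathlib

/-! The discriminant of a product of linear polynomials. -/

namespace Pool.Agent.Helper38.ED

open Polynomial

private theorem discr_prod_eval {R : Type} [CommRing R] {m : ℕ} (r : Fin m → R) (i : Fin m) :
    (∏ i, (X - C (r i))).derivative.eval (r i) =
      ∏ j ∈ Finset.univ.filter (fun j => j ≠ i), (r i - r j) := by
  classical
  rw [derivative_prod_finset, eval_finsetSum]
  rw [Finset.sum_eq_single i]
  · rw [eval_mul, eval_prod]
    simp only [derivative_sub, derivative_X, derivative_C, sub_zero, eval_one, mul_one, eval_sub,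
      eval_X, eval_C]
    refine Finset.prod_congr ?_ fun _ _ => rfl
    ext j
    simp
  · intro k _ hk
    rw [eval_mul, eval_prod, Finset.prod_eq_zero (i := i)]
    · simp
    · simp [hk.symm]
    · simp
  · intro h
    exact absurd (Finset.mem_univ i) h

/-- `discr ∏ (X - r_i)` is, up to a unit, `∏_{i ≠ j} (r_i - r_j)`. -/
theorem discr_prod {R : Type} [CommRing R] [IsDomain R] {m : ℕ} (r : Fin m → R) :
    Associated (∏ i, (X - C (r i))).discr
      (∏ i, ∏ j ∈ Finset.univ.filter (fun j => j ≠ i), (r i - r j)) := by
  classical
  rcases Nat.eq_zero_or_pos m with rfl | hm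
  · simp only [Finset.univ_eq_empty, Finset.prod_empty]
    have : (1 : R[X]).discr = 1 := by
      rw [← C_1]
      exact discr_C 1
    rw [this]
  · set f : R[X] := ∏ i, (X - C (r i)) with hf
    have hmon : f.Monic := monic_prod_of_monic _ _ fun i _ => monic_X_sub_C (r i)
    have hdeg : f.natDegree = m := by
      rw [hf, natDegree_prod_of_monic _ _ fun i _ => monic_X_sub_C (r i)]
      simp
    have hpos : 0 < f.degree := by
      rw [← natDegree_pos_iff_degree_pos, hdeg]
      exact hm
    have h1 := resultant_deriv hpos
    have hroots : f.roots = Finset.univ.val.map r := by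
      rw [hf]
      have := roots_multiset_prod_X_sub_C (Finset.univ.val.map r)
      rw [Multiset.map_map] at this
      exact this
    have hsplits : f.Splits := by
      rw [hf]
      exact Splits.prod fun i _ => Splits.X_sub_C (r i)
    have h2 := resultant_eq_prod_eval f f.derivative (f.natDegree - 1)
      (natDegree_derivative_le f) hsplits
    rw [h1, hmon.leadingCoeff, one_pow, one_mul, mul_one, hroots, Multiset.map_map] at h2
    have h3 : (Multiset.map ((fun x => eval x f.derivative) ∘ r) Finset.univ.val).prod =
        ∏ i, ∏ j ∈ Finset.univ.filter (fun j => j ≠ i), (r i - r j) := by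
      change ∏ i, (eval (r i) f.derivative) = _
      exact Finset.prod_congr rfl fun i _ => discr_prod_eval r i
    have h4 : (-1 : R) ^ (f.natDegree * (f.natDegree - 1) / 2) * f.discr =
        ∏ i, ∏ j ∈ Finset.univ.filter (fun j => j ≠ i), (r i - r j) := by
      rw [← h3, ← h2]
    rw [← h4]
    exact (associated_unit_mul_left _ _ (IsUnit.pow _ isUnit_one.neg)).symm

end Pool.Agent.Helper38.ED
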