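import Pool.Agent.Helper38.ED.Defs
import Pool.Agent.Helper38.EQ.AdicComplete
import Pool.Agent.Helper38.EQ.Psi

/-! Evaluation of `L⟦y⟧⟦z⟧` at a root `z = r(y)`. -/

namespace Pool.Agent.Helper38.ED

open MvPowerSeries Pool.Agent.Helper38.EQ

/-- `X - C r` is distinguished at the maximal ideal. -/
private theorem Eval_distinguished {A : Type} [CommRing A] [IsLocalRing A] (r : A)
    (hr : r ∈ IsLocalRing.maximalIdeal A) :
    (Polynomial.X - Polynomial.C r).IsDistinguishedAt (IsLocalRing.maximalIdeal A) := by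
  refine ⟨⟨?_⟩, Polynomial.monic_X_sub_C r⟩
  intro n hn
  rw [Polynomial.natDegree_X_sub_C] at hn
  obtain rfl : n = 0 := by omega
  simpa using hr

/-- The evaluation `φ(y, z) ↦ φ(y, r(y))`. Proof: Mathlib's Weierstrass division by the
distinguished polynomial `X - C r` (the ring is complete by `isAdicComplete_mvPowerSeries`):
`Polynomial.IsDistinguishedAt.algEquivQuotient`, or by `exists_psi` in `EQ/Psi`
(an automorphism that sends the first variable to `X - C r`). -/
theorem exists_eval {n : ℕ} {L : Type} [Field L] (r : MvPowerSeries (Fin n) L)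
    (hr : r ∈ IsLocalRing.maximalIdeal (MvPowerSeries (Fin n) L)) :
    ∃ ε : PowerSeries (MvPowerSeries (Fin n) L) →+* MvPowerSeries (Fin n) L,
      (∀ a, ε (PowerSeries.C a) = a) ∧ ε PowerSeries.X = r ∧
      ∀ φ, ∃ q, φ = PowerSeries.C (ε φ) + (PowerSeries.X - PowerSeries.C r) * q := by
  have := isAdicComplete_mvPowerSeries n L
  have H := Eval_distinguished r hr
  have hco : ((Polynomial.X - Polynomial.C r : Polynomial (MvPowerSeries (Fin n) L)) :
      PowerSeries (MvPowerSeries (Fin n) L)) = PowerSeries.X - PowerSeries.C r := by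
    rw [Polynomial.coe_sub, Polynomial.coe_X, Polynomial.coe_C]
  let e1 := H.algEquivQuotient
  let e2 := Polynomial.quotientSpanXSubCAlgEquiv r
  let m : PowerSeries (MvPowerSeries (Fin n) L) →+* _ :=
    Ideal.Quotient.mk (Ideal.span {((Polynomial.X - Polynomial.C r :
      Polynomial (MvPowerSeries (Fin n) L)) : PowerSeries (MvPowerSeries (Fin n) L))})
  let ε : PowerSeries (MvPowerSeries (Fin n) L) →+* MvPowerSeries (Fin n) L :=
    e2.toRingEquiv.toRingHom.comp (e1.symm.toRingEquiv.toRingHom.comp m)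
  have hε : ∀ φ, ε φ = e2 (e1.symm (m φ)) := fun φ => rfl
  have hp : ∀ p : Polynomial (MvPowerSeries (Fin n) L),
      ε (p : PowerSeries (MvPowerSeries (Fin n) L)) = p.eval r := by
    intro p
    rw [hε]
    have h1 : m (p : PowerSeries (MvPowerSeries (Fin n) L)) = e1 (Ideal.Quotient.mk _ p) := rfl
    rw [h1, AlgEquiv.symm_apply_apply]
    exact Polynomial.quotientSpanXSubCAlgEquiv_mk r p
  have hC : ∀ a, ε (PowerSeries.C a) = a := by
    intro a
    have := hp (Polynomial.C a)
    rw [Polynomial.coe_C, Polynomial.eval_C] at this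
    exact this
  refine ⟨ε, hC, ?_, ?_⟩
  · have := hp Polynomial.X
    rw [Polynomial.coe_X, Polynomial.eval_X] at this
    exact this
  · intro φ
    have h1 : e1.symm (m φ) = e1.symm (m (PowerSeries.C (ε φ))) := by
      apply e2.injective
      rw [← hε, ← hε, hC]
    have h2 : m φ = m (PowerSeries.C (ε φ)) := e1.symm.injective h1
    rw [Ideal.Quotient.mk_eq_mk_iff_sub_mem, Ideal.mem_span_singleton'] at h2
    obtain ⟨a, ha⟩ := h2
    refine ⟨a, ?_⟩
    rw [hco] at ha
    rw [mul_comm, ha]
    ring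

end Pool.Agent.Helper38.ED
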