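import Pool.Agent.Helper38.ED.Calc1

/-! The conditions on the coordinates. -/

namespace Pool.Agent.Helper38.ED

open MvPowerSeries Pool.Agent.Helper38.EQ

/-- The conditions on `z, x1, x2, x3, a0, a1` (`a0`, `a1` may be dependent modulo `𝔪 ^ 2`, but the
linear part of `a0 + w a1` is independent of those of `z, x1, x2, x3` for every `w`). -/
structure Good {m : ℕ} {K : Type} [Field K]
    (z x1 x2 x3 a0 a1 : MvPowerSeries (Fin (m + 1)) K) : Prop where
  mem0 : a0 ∈ IsLocalRing.maximalIdeal (MvPowerSeries (Fin (m + 1)) K)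
  mem1 : a1 ∈ IsLocalRing.maximalIdeal (MvPowerSeries (Fin (m + 1)) K)
  li : ∀ w : GenField m K, LI ![ex z, ex x1, ex x2, ex x3, ex a0 + C w * ex a1]

variable {m : ℕ} {K : Type} [Field K] {z x1 x2 x3 a0 a1 : MvPowerSeries (Fin (m + 1)) K}

private theorem Good_mem_of_ex {h : MvPowerSeries (Fin (m + 1)) K}
    (hh : (ex h : SL m K) ∈ IsLocalRing.maximalIdeal (MvPowerSeries (Fin (m + 1)) (GenField m K))) :
    h ∈ IsLocalRing.maximalIdeal (MvPowerSeries (Fin (m + 1)) K) := by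
  have h1 := (ext_mem_pow (L := GenField m K) h 1).1 (by rwa [pow_one])
  rwa [pow_one] at h1

/-- `z, x1, x2, x3` are in the maximal ideal, and the six equations are smooth. -/
theorem Good.mem (h : Good z x1 x2 x3 a0 a1) :
    z ∈ IsLocalRing.maximalIdeal (MvPowerSeries (Fin (m + 1)) K) ∧
    x1 ∈ IsLocalRing.maximalIdeal (MvPowerSeries (Fin (m + 1)) K) ∧
    x2 ∈ IsLocalRing.maximalIdeal (MvPowerSeries (Fin (m + 1)) K) ∧
    x3 ∈ IsLocalRing.maximalIdeal (MvPowerSeries (Fin (m + 1)) K) :=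
  ⟨Good_mem_of_ex ((h.li 0).mem 0), Good_mem_of_ex ((h.li 0).mem 1),
    Good_mem_of_ex ((h.li 0).mem 2), Good_mem_of_ex ((h.li 0).mem 3)⟩

private theorem Good_notMem_sq (h : Good z x1 x2 x3 a0 a1) :
    z ∉ IsLocalRing.maximalIdeal (MvPowerSeries (Fin (m + 1)) K) ^ 2 := by
  intro h1
  exact (h.li 0).notMem_sq 0 ((ext_mem_pow (L := GenField m K) z 2).2 h1)

private theorem Good_aux (h : Good z x1 x2 x3 a0 a1) {e : MvPowerSeries (Fin (m + 1)) K}
    (he : z - e ∈ IsLocalRing.maximalIdeal (MvPowerSeries (Fin (m + 1)) K) ^ 2) :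
    e ∈ IsLocalRing.maximalIdeal (MvPowerSeries (Fin (m + 1)) K) ∧
    e ∉ IsLocalRing.maximalIdeal (MvPowerSeries (Fin (m + 1)) K) ^ 2 := by
  constructor
  · have h1 := Ideal.sub_mem _ h.mem.1 (Ideal.pow_le_self two_ne_zero he)
    rwa [sub_sub_cancel] at h1
  · intro h1
    have h2 := Ideal.add_mem _ he h1
    rw [sub_add_cancel] at h2
    exact Good_notMem_sq h h2

theorem Good.comps_mem (h : Good z x1 x2 x3 a0 a1) (i : Fin 6) :
    comps0 z x1 x2 x3 a0 a1 i ∈ IsLocalRing.maximalIdeal (MvPowerSeries (Fin (m + 1)) K) ∧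
    comps0 z x1 x2 x3 a0 a1 i ∉ IsLocalRing.maximalIdeal (MvPowerSeries (Fin (m + 1)) K) ^ 2 := by
  have h2 : x2 ^ 2 ∈ IsLocalRing.maximalIdeal (MvPowerSeries (Fin (m + 1)) K) ^ 2 :=
    Ideal.pow_mem_pow h.mem.2.2.1 2
  have key : ∀ g : MvPowerSeries (Fin (m + 1)) K,
      z - x2 ^ 2 * g ∈ IsLocalRing.maximalIdeal (MvPowerSeries (Fin (m + 1)) K) ∧
      z - x2 ^ 2 * g ∉ IsLocalRing.maximalIdeal (MvPowerSeries (Fin (m + 1)) K) ^ 2 := by
    intro g
    apply Good_aux h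
    rw [sub_sub_cancel]
    exact Ideal.mul_mem_right _ _ h2
  fin_cases i
  · exact ⟨h.mem.1, Good_notMem_sq h⟩
  · exact key x1
  · have h3 := key 1
    rw [mul_one] at h3
    exact h3
  · exact key _
  · exact key _
  · exact key _

end Pool.Agent.Helper38.ED
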