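import Pool.Agent.Helper38.ED.FinalDefs
import Pool.Agent.Helper38.ED.Good

/-! The equation of `V` at a point of the curve. -/

namespace Pool.Agent.Helper38.ED

open MvPowerSeries Pool.Agent.Helper38.EQ

variable {K : Type} [Field K]

/-- The series `a₁` at the point `R`. -/
noncomputable def serA (R : Fin 7 → K) : MvPowerSeries (Fin 7) K :=
  (X 4 + C (R 4)) ^ 2 - (X 5 + C (R 5)) ^ 3

private theorem Expl_taylorX (R : Fin 7 → K) (i : Fin 7) :
    taylorAt R (MvPolynomial.X i) = X i + C (R i) := by
  simp [taylorAt]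

theorem taylor_polyA (R : Fin 7 → K) : taylorAt R (polyA K) = serA R := by
  simp only [polyA, serA, map_sub, map_pow, Expl_taylorX]

/-- At a point of the curve the equation of `V` is the product of the `comps0`. -/
theorem taylor_exV {R : Fin 7 → K} (hR : R ∈ curve K) :
    taylorAt R (exV K) = ∏ i, comps0 (X 0) (X 1) (X 2) (X 3) (X 6) (serA R) i := by
  obtain ⟨h0, h1, h2, h3, h6, -⟩ := hR
  have e0 : taylorAt R (MvPolynomial.X 0) = X 0 := by rw [Expl_taylorX, h0, map_zero, add_zero]
  have e1 : taylorAt R (MvPolynomial.X 1) = X 1 := by rw [Expl_taylorX, h1, map_zero, add_zero]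
  have e2 : taylorAt R (MvPolynomial.X 2) = X 2 := by rw [Expl_taylorX, h2, map_zero, add_zero]
  have e3 : taylorAt R (MvPolynomial.X 3) = X 3 := by rw [Expl_taylorX, h3, map_zero, add_zero]
  have e6 : taylorAt R (MvPolynomial.X 6) = X 6 := by rw [Expl_taylorX, h6, map_zero, add_zero]
  have eA := taylor_polyA R
  have e22 : taylorAt R (2 : MvPolynomial (Fin 7) K) = 2 := map_ofNat _ 2
  rw [exV, map_prod]
  refine Finset.prod_congr rfl fun i _ => ?_
  fin_cases i <;>
    simp [polyM, comps0, polyP, polyQ, e0, e1, e2, e3, e6, eA, e22, add_assoc]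

private theorem Expl_const {R : Fin 7 → K} (hR : R ∈ curve K) : constantCoeff (serA R) = 0 := by
  obtain ⟨-, -, -, -, -, h⟩ := hR
  simp [serA, h]

private theorem Expl_lin (R : Fin 7 → K) {j : Fin 7} (h4 : (4 : Fin 7) ≠ j)
    (h5 : (5 : Fin 7) ≠ j) :
    coeff (Finsupp.single j 1) (serA R) = 0 := by
  rw [← EQ.constantCoeff_pderiv]
  have h : pderiv K j (serA R) = 0 := by
    rw [serA, map_sub, pderiv_pow, pderiv_pow, map_add, map_add, pderiv_X_of_ne h4,
      pderiv_X_of_ne h5, pderiv_C, pderiv_C]
    simp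
  rw [h, map_zero]

private theorem Expl_coeffX {n : ℕ} {L : Type} [Field L] (i j : Fin n) :
    coeff (Finsupp.single j 1) (X i : MvPowerSeries (Fin n) L) = if i = j then 1 else 0 := by
  rw [← EQ.constantCoeff_pderiv, pderiv_X]
  by_cases h : i = j
  · subst h; simp
  · simp [h]

/-- The conditions `Good` hold: the linear part of `a₁` does not involve the variable `6`. -/
theorem good_at {R : Fin 7 → K} (hR : R ∈ curve K) :
    Good (m := 6) (X 0) (X 1) (X 2) (X 3) (X 6) (serA R) := by
  refine ⟨?_, ?_, fun w => ⟨?_, ?_⟩⟩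
  · rw [mem_maximalIdeal_iff_constantCoeff]; simp
  · rw [mem_maximalIdeal_iff_constantCoeff]; exact Expl_const hR
  · intro i
    have h := Expl_const hR
    fin_cases i <;> simp [ex, EQ.ext, h]
  · rw [Fintype.linearIndependent_iff]
    intro g hg
    have hA : ∀ j : Fin 7, (4 : Fin 7) ≠ j → (5 : Fin 7) ≠ j →
        coeff (Finsupp.single j 1) (ex (n := 6) (serA R)) = 0 := by
      intro j h4 h5
      rw [ex, EQ.ext, MvPowerSeries.coeff_map, Expl_lin R h4 h5, map_zero]
    have hX : ∀ i : Fin 7, (ex (n := 6) (X i : MvPowerSeries (Fin 7) K)) = X i := by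
      intro i
      simp [ex, EQ.ext]
    have key : ∀ j : Fin 7, (4 : Fin 7) ≠ j → (5 : Fin 7) ≠ j →
        g 0 * (if (0 : Fin 7) = j then 1 else 0) + g 1 * (if (1 : Fin 7) = j then 1 else 0) +
        g 2 * (if (2 : Fin 7) = j then 1 else 0) + g 3 * (if (3 : Fin 7) = j then 1 else 0) +
        g 4 * (if (6 : Fin 7) = j then 1 else 0) = 0 := by
      intro j h4 h5
      have h := congrFun hg j
      simp only [Fin.sum_univ_five, Pi.add_apply, Pi.smul_apply, smul_eq_mul, Pi.zero_apply,
        Matrix.cons_val, hX, map_add, Expl_coeffX, coeff_C_mul, hA j h4 h5, mul_zero,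
        add_zero] at h
      exact h
    have k0 := key 0 (by decide) (by decide)
    have k1 := key 1 (by decide) (by decide)
    have k2 := key 2 (by decide) (by decide)
    have k3 := key 3 (by decide) (by decide)
    have k6 := key 6 (by decide) (by decide)
    intro i
    fin_cases i
    · simpa using k0
    · simpa using k1
    · simpa using k2
    · simpa using k3
    · simpa using k6

end Pool.Agent.Helper38.ED
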