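import Pool.Agent.Helper38.ED.Generic1

/-! The genericity of the direction of projection: second half. -/

namespace Pool.Agent.Helper38.ED

open MvPowerSeries Pool.Agent.Helper38.EQ

variable {n : ℕ} {K : Type} [Field K]

/-- The derivation `σ⁻¹ ∘ ∂_z ∘ σ` over `L`. -/
private noncomputable def Generic_der (p : Proj n K) :
    Derivation (GenField n K) (SL n K) (SL n K) :=
  have hsmul : ∀ (c : GenField n K) (x : PowerSeries (R1 n K)),
      PowerSeries.derivative (R1 n K) (c • x) = c • PowerSeries.derivative (R1 n K) x := by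
    intro c x
    rw [← algebraMap_smul (R1 n K) c x, Derivation.map_smul,
      algebraMap_smul (R1 n K) c (PowerSeries.derivative (R1 n K) x)]
  Derivation.mk'
    { toFun := fun g => p.σ.symm (PowerSeries.derivative (R1 n K) (p.σ g))
      map_add' := fun g h => by rw [map_add, map_add, map_add]
      map_smul' := fun c g => by
        rw [map_smul, hsmul, map_smul, RingHom.id_apply] }
    (fun g h => by
      show p.σ.symm (PowerSeries.derivative (R1 n K) (p.σ (g * h))) =
        g • p.σ.symm (PowerSeries.derivative (R1 n K) (p.σ h)) +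
          h • p.σ.symm (PowerSeries.derivative (R1 n K) (p.σ g))
      rw [map_mul, Derivation.leibniz, map_add, smul_eq_mul, smul_eq_mul, map_mul, map_mul,
        AlgEquiv.symm_apply_apply, AlgEquiv.symm_apply_apply, smul_eq_mul, smul_eq_mul])

private theorem Generic_der_apply (p : Proj n K) (h : SL n K) : Generic_der p h = p.D h := rfl

/-- The derivation `p.D` in terms of the derivatives: `D h = ∑ D(X_k) ∂_k h`.
Proof: `derivation_apply` (`EQ/Deriv.lean`) for the derivation `σ⁻¹ ∘ ∂_z ∘ σ` over `L`. -/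
theorem Proj.D_eq (p : Proj n K) (h : SL n K) :
    p.D h = ∑ k, p.D (X k) * pderiv (GenField n K) k h :=
  derivation_apply (Generic_der p) h

private theorem Generic_D_mul (p : Proj n K) (g h : SL n K) :
    p.D (g * h) = g * p.D h + h * p.D g := by
  rw [← Generic_der_apply, Derivation.leibniz, smul_eq_mul, smul_eq_mul, Generic_der_apply,
    Generic_der_apply]

private theorem Generic_D_sum (p : Proj n K) {ι : Type} (s : Finset ι) (g : ι → SL n K) :
    p.D (∑ i ∈ s, g i) = ∑ i ∈ s, p.D (g i) := by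
  rw [← Generic_der_apply, map_sum]
  rfl

private theorem Generic_D_C (p : Proj n K) (c : GenField n K) : p.D (C c) = 0 := by
  rw [← Generic_der_apply]
  have h : (MvPowerSeries.C c : SL n K) = algebraMap (GenField n K) (SL n K) c := rfl
  rw [h]
  exact Derivation.map_algebraMap (Generic_der p) c

private theorem Generic_mem_max {m : ℕ} {F : Type} [Field F] (g : MvPowerSeries (Fin m) F) :
    g ∈ IsLocalRing.maximalIdeal (MvPowerSeries (Fin m) F) ↔ constantCoeff g = 0 := by
  rw [IsLocalRing.mem_maximalIdeal, mem_nonunits_iff, MvPowerSeries.isUnit_iff_constantCoeff,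
    isUnit_iff_ne_zero, not_not]

private theorem Generic_ex_mem {g : MvPowerSeries (Fin (n + 1)) K}
    (hg : g ∈ IsLocalRing.maximalIdeal (MvPowerSeries (Fin (n + 1)) K)) :
    ex g ∈ IsLocalRing.maximalIdeal (SL n K) := by
  rw [Generic_mem_max] at hg ⊢
  rw [MvPowerSeries.constantCoeff_map, hg, map_zero]

/-- `D(x_j) = κ * (minor j)` with `κ` a unit. Proof: `D` kills `∑ u_ij x_j`; `D` is surjective on
constant terms (`D (σ⁻¹ X) = 1`), so not all `D(x_j)` are in `𝔪`: by `D_eq` and
`X_k ∈ span (x_j)`, if all `D(x_j) ∈ 𝔪` then all `D(X_k) ∈ 𝔪`, and `D` maps to `𝔪`. -/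
theorem Proj.exists_unit (p : Proj n K) :
    ∃ κ : SL n K, IsUnit κ ∧ ∀ j, p.D (ex (p.x j)) = κ * C (minorU n K j) := by
  have hv : ∀ i : Fin n, ∑ j, C (genU i j) * p.D (ex (p.x j)) = 0 := by
    intro i
    have h1 : p.D (∑ j, C (genU i j) * ex (p.x j)) = 0 := by
      rw [Proj.D, p.hσ i]
      have : PowerSeries.derivative (R1 n K) (PowerSeries.C (X i : R1 n K)) = 0 := by
        have h2 : (PowerSeries.C (X i : R1 n K) : PowerSeries (R1 n K))
            = algebraMap (R1 n K) (PowerSeries (R1 n K)) (X i) := rfl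
        rw [h2]
        exact Derivation.map_algebraMap _ _
      rw [this, map_zero]
    rw [Generic_D_sum] at h1
    rw [← h1]
    refine Finset.sum_congr rfl fun j _ => ?_
    rw [Generic_D_mul, Generic_D_C, mul_zero, add_zero]
  obtain ⟨κ, hκ⟩ := exists_kernel (fun j => p.D (ex (p.x j))) hv
  refine ⟨κ, ?_, hκ⟩
  by_contra hcon
  have hκm : κ ∈ IsLocalRing.maximalIdeal (SL n K) := hcon
  have hxm : ∀ j, p.x j ∈ IsLocalRing.maximalIdeal (MvPowerSeries (Fin (n + 1)) K) := by
    intro j
    rw [← p.hx]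
    exact Ideal.subset_span ⟨j, rfl⟩
  have hDx : ∀ j, p.D (ex (p.x j)) ∈ IsLocalRing.maximalIdeal (SL n K) := by
    intro j
    rw [hκ j]
    exact Ideal.mul_mem_right _ _ hκm
  have hDX : ∀ k, p.D (X k) ∈ IsLocalRing.maximalIdeal (SL n K) := by
    intro k
    have hk : (X k : MvPowerSeries (Fin (n + 1)) K) ∈ Ideal.span (Set.range p.x) := by
      rw [p.hx, Generic_mem_max, constantCoeff_X]
    rw [Ideal.mem_span_range_iff_exists_fun] at hk
    obtain ⟨c, hc⟩ := hk
    have h3 : (X k : SL n K) = ∑ j, ex (c j) * ex (p.x j) := by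
      have h4 : ex (X k : MvPowerSeries (Fin (n + 1)) K) = (X k : SL n K) := by
        rw [MvPowerSeries.map_X]
      rw [← h4, ← hc, map_sum]
      exact Finset.sum_congr rfl fun j _ => map_mul _ _ _
    rw [h3, Generic_D_sum]
    refine Ideal.sum_mem _ fun j _ => ?_
    rw [Generic_D_mul]
    exact Ideal.add_mem _ (Ideal.mul_mem_left _ _ (hDx j))
      (Ideal.mul_mem_right _ _ (Generic_ex_mem (hxm j)))
  have h5 : p.D (p.σ.symm PowerSeries.X) ∈ IsLocalRing.maximalIdeal (SL n K) := by
    rw [Proj.D_eq]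
    exact Ideal.sum_mem _ fun k _ => Ideal.mul_mem_right _ _ (hDX k)
  rw [Proj.D, AlgEquiv.apply_symm_apply, PowerSeries.derivative_X, map_one] at h5
  exact (IsLocalRing.maximalIdeal.isMaximal (SL n K)).ne_top ((Ideal.eq_top_iff_one _).mpr h5)

private theorem Generic_pderiv_ex (k : Fin (n + 1)) (f : MvPowerSeries (Fin (n + 1)) K) :
    pderiv (GenField n K) k (ex f) = ex (pderiv K k f) := by
  ext d
  rw [coeff_pderiv, coeff_map, coeff_map, coeff_pderiv, map_mul, map_add, map_natCast, map_one]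

private theorem Generic_jacobian (x : Fin (n + 1) → MvPowerSeries (Fin (n + 1)) K)
    (hx : Ideal.span (Set.range x) = IsLocalRing.maximalIdeal (MvPowerSeries (Fin (n + 1)) K)) :
    ∃ B : Matrix (Fin (n + 1)) (Fin (n + 1)) (MvPowerSeries (Fin (n + 1)) K),
      B * (Matrix.of fun l k => pderiv K k (x l)) = 1 := by
  set J : Matrix (Fin (n + 1)) (Fin (n + 1)) (MvPowerSeries (Fin (n + 1)) K) :=
    Matrix.of fun l k => pderiv K k (x l) with hJ
  have hdet : IsUnit J.det := by
    rw [MvPowerSeries.isUnit_iff_constantCoeff, isUnit_iff_ne_zero]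
    have h1 := (linear_of_span_eq x hx).2
    have h2 : constantCoeff J.det =
        (Matrix.of fun i j => coeff (Finsupp.single j 1) (x i)).det := by
      rw [RingHom.map_det]
      congr 1
      ext i j
      rw [RingHom.mapMatrix_apply, Matrix.map_apply, hJ, Matrix.of_apply, Matrix.of_apply,
        ← coeff_zero_eq_constantCoeff_apply, coeff_pderiv]
      simp
    rw [h2]
    exact h1
  exact ⟨J⁻¹, Matrix.nonsing_inv_mul J hdet⟩

/-- The conclusion. Let `J = (∂_k x_j)` be the Jacobian matrix of the basis over `K⟦X⟧`,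
invertible by `linear_of_span_eq`; `D(x_j) = ∑_k D(X_k) ∂_k x_j` by `D_eq`, so
`D(X_k) = ∑_j D(x_j) (J⁻¹)_{jk} = κ ∑_j Δ_j (J⁻¹)_{jk}`. Hence
`D(X_i) a0 + D(X_j) a1 = κ ∑_l Δ_l h_l` with `h_l = a0 (J⁻¹)_{l i} + a1 (J⁻¹)_{l j}`, and `h_l ∈ I`
by `minors_descend`. Finally `∑_l h_l ∂_k x_l = a0 δ_{ki} + a1 δ_{kj}`. -/
theorem generic_step [CharZero K] (p : Proj n K) {I : Ideal (MvPowerSeries (Fin (n + 1)) K)}
    (hI : I.IsRadical) {i j : Fin (n + 1)} (hij : i ≠ j) {a0 a1 : MvPowerSeries (Fin (n + 1)) K}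
    (h : p.D (ex (X i)) * ex a0 + p.D (ex (X j)) * ex a1 ∈ (Ideal.map ex I).radical) :
    a0 ∈ I ∧ a1 ∈ I := by
  classical
  obtain ⟨B, hB⟩ := Generic_jacobian p.x p.hx
  obtain ⟨κ, hκ, hκx⟩ := p.exists_unit
  have hBJ : ∀ a b, ∑ l, B a l * pderiv K b (p.x l) = if a = b then 1 else 0 := by
    intro a b
    have h1 := congrFun (congrFun hB a) b
    rw [Matrix.mul_apply, Matrix.one_apply] at h1
    exact h1
  have hexX : ∀ k, ex (X k : MvPowerSeries (Fin (n + 1)) K) = (X k : SL n K) := by
    intro k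
    rw [MvPowerSeries.map_X]
  have hDX : ∀ a, p.D (ex (X a)) = κ * ∑ l, C (minorU n K l) * ex (B a l) := by
    intro a
    have h1 : ∑ l, ex (B a l) * p.D (ex (p.x l)) = p.D (ex (X a)) := by
      have h2 : ∀ l, ex (B a l) * p.D (ex (p.x l)) =
          ∑ k, p.D (X k) * ex (B a l * pderiv K k (p.x l)) := by
        intro l
        rw [Proj.D_eq p (ex (p.x l)), Finset.mul_sum]
        refine Finset.sum_congr rfl fun k _ => ?_
        rw [Generic_pderiv_ex, map_mul]
        ring
      rw [Finset.sum_congr rfl fun l _ => h2 l, Finset.sum_comm]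
      have h3 : ∀ k, ∑ l, p.D (X k) * ex (B a l * pderiv K k (p.x l)) =
          p.D (X k) * ex (if a = k then 1 else 0) := by
        intro k
        rw [← hBJ a k, map_sum, Finset.mul_sum]
      rw [Finset.sum_congr rfl fun k _ => h3 k, Finset.sum_eq_single a]
      · rw [if_pos rfl, map_one, mul_one, hexX]
      · intro b _ hb
        rw [if_neg (Ne.symm hb), map_zero, mul_zero]
      · intro hb
        exact absurd (Finset.mem_univ a) hb
    rw [← h1, Finset.mul_sum]
    refine Finset.sum_congr rfl fun l _ => ?_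
    rw [hκx l]
    ring
  set hh : Fin (n + 1) → MvPowerSeries (Fin (n + 1)) K :=
    fun l => B i l * a0 + B j l * a1 with hhdef
  have key : p.D (ex (X i)) * ex a0 + p.D (ex (X j)) * ex a1 =
      κ * ∑ l, C (minorU n K l) * ex (hh l) := by
    rw [hDX i, hDX j, mul_assoc, mul_assoc, ← mul_add, Finset.sum_mul, Finset.sum_mul,
      ← Finset.sum_add_distrib]
    congr 1
    refine Finset.sum_congr rfl fun l _ => ?_
    rw [hhdef]
    simp only [map_add, map_mul]
    ring
  rw [key] at h
  have h6 : ∑ l, C (minorU n K l) * ex (hh l) ∈ (Ideal.map ex I).radical := by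
    obtain ⟨u, hu⟩ := hκ
    have h7 := Ideal.mul_mem_left _ ((u⁻¹ : (SL n K)ˣ) : SL n K) h
    rwa [← hu, ← mul_assoc, Units.inv_mul, one_mul] at h7
  have h8 : ∀ l, hh l ∈ I := fun l => minors_descend hI hh h6 l
  have h9 : ∀ k, (if i = k then 1 else 0) * a0 + (if j = k then 1 else 0) * a1 ∈ I := by
    intro k
    have h10 : (if i = k then 1 else 0) * a0 + (if j = k then 1 else 0) * a1 =
        ∑ l, hh l * pderiv K k (p.x l) := by
      rw [← hBJ i k, ← hBJ j k, Finset.sum_mul, Finset.sum_mul, ← Finset.sum_add_distrib]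
      refine Finset.sum_congr rfl fun l _ => ?_
      rw [hhdef]
      ring
    rw [h10]
    exact Ideal.sum_mem _ fun l _ => Ideal.mul_mem_right _ _ (h8 l)
  constructor
  · have := h9 i
    rwa [if_pos rfl, if_neg (Ne.symm hij), one_mul, zero_mul, add_zero] at this
  · have := h9 j
    rwa [if_pos rfl, if_neg hij, one_mul, zero_mul, zero_add] at this

end Pool.Agent.Helper38.ED
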