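import Mathlib

/-! The reduced discriminant, up to a unit. -/

namespace Pool.Agent.Helper38.ED

/-- `P` is radical: if `P` divides a power of `y`, it divides `y`. -/
def Rad {R : Type} [CommRing R] (P : R) : Prop := ∀ (y : R) (N : ℕ), P ∣ y ^ N → P ∣ y

private lemma Radical_finset {R : Type} [CommRing R] [IsDomain R] {m : ℕ} (p : Fin m → R)
    (hp : ∀ i, Prime (p i)) (hd : ∀ i j, i ≠ j → ¬ p i ∣ p j) (y : R)
    (hy : ∀ i, p i ∣ y) (s : Finset (Fin m)) : (∏ i ∈ s, p i) ∣ y := by
  classical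
  induction s using Finset.induction_on with
  | empty => simp
  | insert a s ha ih =>
    rw [Finset.prod_insert ha]
    obtain ⟨c, hc⟩ := ih
    have h1 : p a ∣ (∏ i ∈ s, p i) * c := hc ▸ hy a
    rcases (hp a).dvd_or_dvd h1 with h | h
    · exfalso
      obtain ⟨j, hj, hj'⟩ := ((hp a).dvd_finsetProd_iff p).1 h
      exact hd a j (fun e => ha (e ▸ hj)) hj'
    · obtain ⟨d, hd'⟩ := h
      exact ⟨d, by rw [hc, hd']; ring⟩

/-- A product of pairwise nonassociated primes is radical. -/
theorem Rad.prod {R : Type} [CommRing R] [IsDomain R] {m : ℕ} (p : Fin m → R)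
    (hp : ∀ i, Prime (p i)) (hd : ∀ i j, i ≠ j → ¬ p i ∣ p j) : Rad (∏ i, p i) := by
  intro y N h
  refine Radical_finset p hp hd y (fun i => ?_) Finset.univ
  exact (hp i).dvd_of_dvd_pow ((Finset.dvd_prod_of_mem p (Finset.mem_univ i)).trans h)

/-- If `P` is radical and `P`, `x` have the same prime factors, then `P` generates the radical of
the ideal generated by `x`. -/
theorem Rad.span_eq {R : Type} [CommRing R] {P x : R} (hP : Rad P)
    (h1 : ∃ N, P ∣ x ^ N) (h2 : ∃ N, x ∣ P ^ N) :
    Ideal.span {P} = (Ideal.span {x}).radical := by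
  apply le_antisymm
  · rw [Ideal.span_singleton_le_iff_mem, Ideal.mem_radical_iff]
    obtain ⟨N, hN⟩ := h2
    exact ⟨N, Ideal.mem_span_singleton.2 hN⟩
  · intro y hy
    rw [Ideal.mem_radical_iff] at hy
    obtain ⟨n, hn⟩ := hy
    rw [Ideal.mem_span_singleton] at hn ⊢
    obtain ⟨N, hN⟩ := h1
    refine hP y (n * N) ?_
    rw [pow_mul]
    exact hN.trans (pow_dvd_pow_of_dvd hn N)

/-- The generator of the radical is unique up to a unit. -/
theorem Rad.associated {R : Type} [CommRing R] [IsDomain R] {P x g : R} (hP : Rad P)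
    (h1 : ∃ N, P ∣ x ^ N) (h2 : ∃ N, x ∣ P ^ N)
    (hg : Ideal.span {g} = (Ideal.span {x}).radical) : Associated g P := by
  rw [← Rad.span_eq hP h1 h2] at hg
  exact Ideal.span_singleton_eq_span_singleton.1 hg

end Pool.Agent.Helper38.ED
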