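import Pool.Agent.Helper38.ED.FinalDefs
import Pool.Agent.Helper38.ED.Radical

/-! The equation of `V` is reduced. -/

namespace Pool.Agent.Helper38.ED

open MvPolynomial Pool.Agent.Helper38.EQ

/-- The substitution of `B` for `X 0`. -/
private noncomputable def Reduced_sub {K : Type} [Field K] (B : MvPolynomial (Fin 7) K) :
    MvPolynomial (Fin 7) K →ₐ[K] MvPolynomial (Fin 7) K :=
  aeval (fun i : Fin 7 => if i = 0 then B else X i)

private lemma Reduced_sub_zero {K : Type} [Field K] (B : MvPolynomial (Fin 7) K) :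
    Reduced_sub B (X 0) = B := by
  simp [Reduced_sub]

private lemma Reduced_sub_ne {K : Type} [Field K] (B : MvPolynomial (Fin 7) K) (i : Fin 7)
    (hi : i ≠ 0) : Reduced_sub B (X i) = X i := by
  simp [Reduced_sub, hi]

private lemma Reduced_prime {K : Type} [Field K] (A : MvPolynomial (Fin 7) K)
    (hA : ∀ B, Reduced_sub B A = A) : Prime (X 0 - A) := by
  have h1 : (Reduced_sub (X 0 - A)).comp (Reduced_sub (X 0 + A)) = AlgHom.id K _ := by
    apply MvPolynomial.algHom_ext
    intro i
    rw [AlgHom.comp_apply, AlgHom.id_apply]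
    by_cases hi : i = 0
    · rw [hi, Reduced_sub_zero, map_add, Reduced_sub_zero, hA]
      ring
    · rw [Reduced_sub_ne _ _ hi, Reduced_sub_ne _ _ hi]
  have h2 : (Reduced_sub (X 0 + A)).comp (Reduced_sub (X 0 - A)) = AlgHom.id K _ := by
    apply MvPolynomial.algHom_ext
    intro i
    rw [AlgHom.comp_apply, AlgHom.id_apply]
    by_cases hi : i = 0
    · rw [hi, Reduced_sub_zero, map_sub, Reduced_sub_zero, hA]
      ring
    · rw [Reduced_sub_ne _ _ hi, Reduced_sub_ne _ _ hi]
  let e : MvPolynomial (Fin 7) K ≃ₐ[K] MvPolynomial (Fin 7) K :=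
    AlgEquiv.ofAlgHom (Reduced_sub (X 0 - A)) (Reduced_sub (X 0 + A)) h1 h2
  have h3 : e (X 0) = X 0 - A := Reduced_sub_zero _
  rw [← h3]
  exact (MulEquiv.prime_iff (e : MvPolynomial (Fin 7) K ≃* MvPolynomial (Fin 7) K)).2
    MvPolynomial.X_prime

private lemma Reduced_ndvd {K : Type} [Field K] (A B : MvPolynomial (Fin 7) K)
    (hA : ∀ C, Reduced_sub C A = A) (hB : ∀ C, Reduced_sub C B = B) (h : A ≠ B) :
    ¬ (X 0 - A) ∣ (X 0 - B) := by
  rintro ⟨q, hq⟩
  have h1 := congrArg (Reduced_sub A) hq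
  rw [map_sub, map_mul, map_sub, Reduced_sub_zero, hA, hB, sub_self, zero_mul] at h1
  exact h (sub_eq_zero.1 h1)

private lemma Reduced_fix {K : Type} [Field K] (i : Fin 6) (B : MvPolynomial (Fin 7) K) :
    Reduced_sub B (X 2 ^ 2 * polyM K i) = X 2 ^ 2 * polyM K i := by
  have h1 := Reduced_sub_ne B 1 (by decide)
  have h2 := Reduced_sub_ne B 2 (by decide)
  have h3 := Reduced_sub_ne B 3 (by decide)
  have h4 := Reduced_sub_ne B 4 (by decide)
  have h5 := Reduced_sub_ne B 5 (by decide)
  have h6 := Reduced_sub_ne B 6 (by decide)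
  have h7 : Reduced_sub B 2 = 2 := map_ofNat _ 2
  fin_cases i <;>
    simp [polyM, polyA, polyP, polyQ, map_mul, map_add, map_pow, map_sub, h1, h2, h3, h4, h5, h6,
      h7]

private lemma Reduced_val {K : Type} [Field K] (i : Fin 6) :
    eval (fun j : Fin 7 => if j = 1 then (3 : K) else 0) (polyM K i)
      = ((![0, 3, 1, 4, 2, 5] i : ℕ) : K) := by
  fin_cases i <;> simp [polyM, polyA, polyP, polyQ] <;> norm_num

private lemma Reduced_inj {K : Type} [Field K] [CharZero K] (i j : Fin 6) (h : i ≠ j) :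
    (X 2 ^ 2 * polyM K i : MvPolynomial (Fin 7) K) ≠ X 2 ^ 2 * polyM K j := by
  intro h1
  have h2 : polyM K i = polyM K j :=
    mul_left_cancel₀ (pow_ne_zero 2 (X_ne_zero (2 : Fin 7))) h1
  have h3 := congrArg (eval (fun j : Fin 7 => if j = 1 then (3 : K) else 0)) h2
  rw [Reduced_val, Reduced_val] at h3
  have h4 := Nat.cast_injective h3
  have h5 : ∀ i j : Fin 6, (![0, 3, 1, 4, 2, 5] i : ℕ) = ![0, 3, 1, 4, 2, 5] j → i = j := by
    decide
  exact h (h5 i j h4)

/-- The six factors are primes (each is the image of `X 0` under the automorphism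
`X 0 ↦ X 0 - X 2 ^ 2 m`, `X j ↦ X j`, where `m` does not involve `X 0`; or the quotient is a
polynomial ring in the other variables), pairwise nonassociated (if `X 0 - A ∣ X 0 - B`, with
`A, B` not involving `X 0`, then substituting `A` for `X 0`, `A = B`); use `Rad.prod`. -/
theorem exV_isRadical (K : Type) [Field K] [CharZero K] : (Ideal.span {exV K}).IsRadical := by
  have h : Rad (exV K) := by
    unfold exV
    refine Rad.prod _ (fun i => ?_) (fun i j hij => ?_)
    · exact Reduced_prime _ (fun B => Reduced_fix i B)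
    · exact Reduced_ndvd _ _ (fun B => Reduced_fix i B) (fun B => Reduced_fix j B)
        (Reduced_inj i j hij)
  intro y hy
  obtain ⟨N, hN⟩ := Ideal.mem_radical_iff.1 hy
  rw [Ideal.mem_span_singleton] at hN ⊢
  exact h y N hN

end Pool.Agent.Helper38.ED
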