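import Pool.Agent.Helper38.ED.Level0
import Pool.Agent.Helper38.ED.Generic
import Pool.Agent.Helper38.ED.Curve
import Pool.Agent.Helper38.ED.CurveSing
import Pool.Agent.Helper38.ED.Reduced
import Pool.Agent.Helper38.ED.Expl
import Pool.Agent.Helper38.EQ.StmtEquiv

/-! The counterexample. -/

namespace Pool.Agent.Helper38.ED

open Pool.Agent.Helper38.EQ

variable {K : Type} [Field K]

theorem taylor_X_eq (R : Fin 7 → K) (i : Fin 7) :
    taylorAt R (MvPolynomial.X i) = MvPowerSeries.X i + MvPowerSeries.C (R i) := by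
  simp [taylorAt]

theorem taylor_X_zero {R : Fin 7 → K} {i : Fin 7} (h : R i = 0) :
    taylorAt R (MvPolynomial.X i) = MvPowerSeries.X i := by
  rw [taylor_X_eq, h, map_zero, add_zero]

theorem curve_le_pointIdeal {R : Fin 7 → K} (hR : R ∈ curve K) :
    idealOf (curve K) ≤ pointIdeal R := by
  intro h hh
  have := MvPolynomial.mem_vanishingIdeal_iff.mp hh R hR
  rw [MvPolynomial.aeval_eq_eval] at this
  exact this

variable [IsAlgClosed K] [CharZero K]

/-- (ii) `V` is equisingular along the curve at every point of the curve. -/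
theorem final_pos {B : BasisClass} (hB : HasStd B) {R : Fin 7 → K} (hR : R ∈ curve K) :
    EqLen B 4 7 K (taylorAt R (exV K)) (((idealOf (curve K)).map (taylorAt R)).radical) := by
  obtain ⟨h0, h1, h2, h3, h6, hA⟩ := curve_gens_mem (K := K)
  have hf : Associated (taylorAt R (exV K)) (∏ i, comps0 (MvPowerSeries.X 0) (MvPowerSeries.X 1)
      (MvPowerSeries.X 2) (MvPowerSeries.X 3) (MvPowerSeries.X 6) (serA R) i) := by
    rw [taylor_exV hR]
  have hm0 := taylorAt_mem_radical (Q := R) h0
  have hm1 := taylorAt_mem_radical (Q := R) h1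
  have hm2 := taylorAt_mem_radical (Q := R) h2
  have hm3 := taylorAt_mem_radical (Q := R) h3
  have hm6 := taylorAt_mem_radical (Q := R) h6
  have hmA := taylorAt_mem_radical (Q := R) hA
  rw [taylor_X_zero hR.1] at hm0
  rw [taylor_X_zero hR.2.1] at hm1
  rw [taylor_X_zero hR.2.2.1] at hm2
  rw [taylor_X_zero hR.2.2.2.1] at hm3
  rw [taylor_X_zero hR.2.2.2.2.1] at hm6
  rw [taylor_polyA] at hmA
  exact pos0 (n := 3) hB (good_at hR) hf (radical_map_ne_top (curve_le_pointIdeal hR))
    hm0 hm1 hm2 hm3 hm6 hmA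

/-- (iii) If `V` is equisingular at the point `R` of the curve along `N`, then `N` is contained in
the curve. -/
theorem final_neg {B : BasisClass} {k : ℕ} {R : Fin 7 → K} (hR : R ∈ curve K)
    (P : Ideal (MvPolynomial (Fin 7) K)) (hP : P.IsPrime) (hPR : P ≤ pointIdeal R)
    (hE : EqLen B k 7 K (taylorAt R (exV K)) ((P.map (taylorAt R)).radical)) :
    idealOf (curve K) ≤ P := by
  have hf : Associated (taylorAt R (exV K)) (∏ i, comps0 (MvPowerSeries.X 0) (MvPowerSeries.X 1)
      (MvPowerSeries.X 2) (MvPowerSeries.X 3) (MvPowerSeries.X 6) (serA R) i) := by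
    rw [taylor_exV hR]
  have hrad : ((P.map (taylorAt R)).radical).IsRadical := Ideal.radical_isRadical _
  obtain ⟨hm0, hm1, hm2, hm3, p, hp⟩ := neg0 (n := 4) (good_at hR) hf hrad hE
  obtain ⟨hm6, hmA⟩ := generic_step p hrad (i := (0 : Fin 7)) (j := (1 : Fin 7)) (by decide) hp
  rw [← taylor_X_zero hR.1] at hm0
  rw [← taylor_X_zero hR.2.1] at hm1
  rw [← taylor_X_zero hR.2.2.1] at hm2
  rw [← taylor_X_zero hR.2.2.2.1] at hm3
  rw [← taylor_X_zero hR.2.2.2.2.1] at hm6
  rw [← taylor_polyA] at hmA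
  have key := mem_of_taylorAt_mem R P hPR
  exact idealOf_curve_le P hP (key _ hm0) (key _ hm1) (key _ hm2) (key _ hm3) (key _ hm6)
    (key _ hmA)

/-- The curve is contained in the singular locus. -/
theorem curve_sing : polyMultIdeal (exV K) 2 ≤ idealOf (curve K) := by
  have h2 : exV K ∈ idealOf (curve K) ^ 2 := by
    obtain ⟨h0, h1, h2, h3, h6, hA⟩ := curve_gens_mem (K := K)
    rw [exV, Fin.prod_univ_succ, Fin.prod_univ_succ, pow_two, ← mul_assoc]
    refine Ideal.mul_mem_right _ _ (Ideal.mul_mem_mul ?_ ?_)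
    · exact Ideal.sub_mem _ h0 (Ideal.mul_mem_right _ _ (Ideal.pow_mem_of_mem _ h2 2 (by decide)))
    · exact Ideal.sub_mem _ h0 (Ideal.mul_mem_right _ _ (Ideal.pow_mem_of_mem _ h2 2 (by decide)))
  rw [polyMultIdeal, Ideal.span_le]
  rintro g ⟨l, hl, rfl⟩
  match l with
  | [] => exact Ideal.pow_le_self (by decide) h2
  | [i] =>
    show MvPolynomial.pderiv i (exV K) ∈ idealOf (curve K)
    rw [pow_two] at h2
    refine Submodule.mul_induction_on h2 ?_ ?_
    · intro a ha b hb
      rw [Derivation.leibniz, smul_eq_mul, smul_eq_mul]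
      exact Ideal.add_mem _ (Ideal.mul_mem_right _ _ ha) (Ideal.mul_mem_right _ _ hb)
    · intro a b ha hb
      rw [map_add]
      exact Ideal.add_mem _ ha hb
  | _ :: _ :: _ => simp at hl

/-- Every Zariski stratification of `V` has the curve as a stratum. -/
theorem final_strat {B : BasisClass} (hB : HasStd B) (S : Stratification B (exV K)) :
    ∃ i, i ≠ 0 ∧ S.E i = curve K := by
  have hprime : (idealOf (curve K)).IsPrime := curve_isPrime
  obtain ⟨β, hβ0, hβle, hβtr⟩ := S.toZ.exists_trace (idealOf (curve K)) curve_sing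
  refine ⟨β, hβ0, ?_⟩
  have hβle' : idealOf (S.E β) ≤ idealOf (curve K) := hβle
  have hβtr' : MvPolynomial.vanishingIdeal K (S.E β ∩ curve K) = idealOf (curve K) := by
    have h1 : MvPolynomial.zeroLocus K (idealOf (curve K)) = curve K := closureOf_curve
    have h2 : MvPolynomial.vanishingIdeal K (S.E β ∩ MvPolynomial.zeroLocus K
      (idealOf (curve K))) = idealOf (curve K) := hβtr
    rwa [h1] at h2
  -- a point of the trace
  have hne : (S.E β ∩ curve K).Nonempty := by
    by_contra h
    rw [Set.not_nonempty_iff_eq_empty] at h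
    rw [h, MvPolynomial.vanishingIdeal_empty] at hβtr'
    exact hprime.ne_top hβtr'.symm
  obtain ⟨R, hRE, hRc⟩ := hne
  have hR1 := hRE
  rw [S.eqs β hβ0] at hR1
  obtain ⟨hRcl, k, hk⟩ := hR1
  have hPR : idealOf (S.E β) ≤ pointIdeal R := (le_pointIdeal_iff _ _).mpr hRcl
  have hge : idealOf (curve K) ≤ idealOf (S.E β) :=
    final_neg hRc _ (S.prime β hβ0) hPR (eqAlong_iff.mp hk)
  have heq : idealOf (S.E β) = idealOf (curve K) := le_antisymm hβle' hge
  ext Q
  rw [S.eqs β hβ0]
  constructor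
  · rintro ⟨hQ, -⟩
    rw [closureOf, heq] at hQ
    have h1 : MvPolynomial.zeroLocus K (idealOf (curve K)) = curve K := closureOf_curve
    rwa [h1] at hQ
  · intro hQ
    refine ⟨?_, 4, ?_⟩
    · rw [closureOf, heq]
      have h1 : MvPolynomial.zeroLocus K (idealOf (curve K)) = curve K := closureOf_curve
      rw [h1]; exact hQ
    · rw [heq]
      exact eqAlong_iff.mpr (final_pos hB hQ)

theorem zero_mem_curve (K : Type) [Field K] : (0 : Fin 7 → K) ∈ curve K := by
  simp [curve]

end Pool.Agent.Helper38.ED
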