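import Pool.Agent.Helper38.EQ.StmtEquiv

/-! The definitions used in the final statement. -/

namespace Pool.Agent.Helper38.ED

open MvPolynomial Pool.Agent.Helper38.EQ

/-- The polynomial `a₁ = y₁² - y₂³` (with `y₁ = X 4`, `y₂ = X 5`). -/
noncomputable def polyA (K : Type) [Field K] : MvPolynomial (Fin 7) K := X 4 ^ 2 - X 5 ^ 3

/-- The polynomial `x₁ + x₂ x₃`. -/
noncomputable def polyP (K : Type) [Field K] : MvPolynomial (Fin 7) K := X 1 + X 2 * X 3

/-- The polynomial `x₁ + 2 x₂ x₃ + y₃ x₂²` (with `y₃ = X 6`). -/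
noncomputable def polyQ (K : Type) [Field K] : MvPolynomial (Fin 7) K :=
  X 1 + 2 * X 2 * X 3 + X 6 * X 2 ^ 2

/-- The six polynomials `m`. -/
noncomputable def polyM (K : Type) [Field K] : Fin 6 → MvPolynomial (Fin 7) K :=
  ![0, X 1, 1, 1 + polyP K, 2 + polyA K, 2 + polyA K + polyQ K]

/-- The equation of `V`: the product of the six polynomials `z - x₂² m` (`z = X 0`,
`x_i = X i`). -/
noncomputable def exV (K : Type) [Field K] : MvPolynomial (Fin 7) K :=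
  ∏ i, (X 0 - X 2 ^ 2 * polyM K i)

/-- The cuspidal curve `z = x₁ = x₂ = x₃ = y₃ = 0`, `y₁² = y₂³`. -/
def curve (K : Type) [Field K] : Set (Fin 7 → K) :=
  {R | R 0 = 0 ∧ R 1 = 0 ∧ R 2 = 0 ∧ R 3 = 0 ∧ R 6 = 0 ∧ R 4 ^ 2 = R 5 ^ 3}

end Pool.Agent.Helper38.ED
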