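import Pool.Agent.Helper38.ED.FinalDefs

/-! Stratifications of a principal open subset of an affine hypersurface. -/

namespace Pool.Agent.Helper38.ED

open MvPolynomial Pool.Agent.Helper38.EQ

section

variable {n : ℕ} {K : Type} [Field K]

/-- The points of `V : f = 0`, `h ≠ 0`. -/
def openPoints (f h : MvPolynomial (Fin n) K) : Set (Fin n → K) :=
  {Q | eval Q f = 0 ∧ eval Q h ≠ 0}

/-- The closure of `E` in the open set `h ≠ 0`. -/
def relClosure (h : MvPolynomial (Fin n) K) (E : Set (Fin n → K)) : Set (Fin n → K) :=
  {Q | Q ∈ closureOf E ∧ eval Q h ≠ 0}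

/-- A Zariski stratification of the variety `V : f = 0`, `h ≠ 0` (a principal open subset of an affine
hypersurface; all closures are taken in `V`). -/
structure StratOn (B : BasisClass) (f h : MvPolynomial (Fin n) K) where
  /-- the last index -/
  N : ℕ
  /-- the strata -/
  E : Fin (N + 1) → Set (Fin n → K)
  /-- `E 0` is the set of simple points of `V` -/
  E_zero : E 0 = {Q | Q ∈ openPoints f h ∧ ¬ IsSing f Q}
  /-- the strata cover `V` ... -/
  cover : ⋃ i, E i = openPoints f h
  /-- ... and are disjoint -/
  disj : ∀ i j, i ≠ j → Disjoint (E i) (E j)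
  /-- (1) the closure of `E i` is irreducible -/
  prime : ∀ i, i ≠ 0 → (idealOf (E i)).IsPrime
  /-- (1) `E i` is the set of the points of its closure at which `V` is equisingular along it -/
  eqs : ∀ i, i ≠ 0 → E i = {Q | Q ∈ relClosure h (E i) ∧ ∃ k, EqAlong B k f Q (idealOf (E i))}
  /-- (2) the frontier of a stratum is a union of strata -/
  frontier : ∀ i j, (E j ∩ (relClosure h (E i) \ E i)).Nonempty → E j ⊆ relClosure h (E i) \ E i
  /-- (2) the closure of `E j` is an irreducible component of the frontier of some stratum -/
  component : ∀ j, j ≠ 0 → ∃ i, IsComponent (idealOf (E j)) (relClosure h (E i) \ E i)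

end

/-- The product of the differences `m_j - m_i` of the six polynomials `m` over all pairs in
different blocks `{0, 1}`, `{2, 3}`, `{4, 5}`. -/
noncomputable def exH (K : Type) [Field K] : MvPolynomial (Fin 7) K :=
  ∏ i : Fin 6, ∏ j : Fin 6, if i.val / 2 < j.val / 2 then polyM K j - polyM K i else 1

end Pool.Agent.Helper38.ED
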