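import Pool.Agent.Helper38.ED.Final
import Pool.Agent.Helper38.ED.OpenDefs

/-! The curve is a stratum of every stratification of an open neighbourhood of the origin. -/

namespace Pool.Agent.Helper38.ED

open Pool.Agent.Helper38.EQ

variable {K : Type} [Field K] [IsAlgClosed K] [CharZero K]

/-- Every Zariski stratification of `V`, `h ≠ 0`, with `h(0) ≠ 0`, has the curve as a stratum. -/
theorem final_strat_on {B : BasisClass} (hB : HasStd B) (h : MvPolynomial (Fin 7) K)
    (h0 : MvPolynomial.eval 0 h ≠ 0) (S : StratOn B (exV K) h) :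
    ∃ i, i ≠ 0 ∧ S.E i = {Q | Q ∈ curve K ∧ MvPolynomial.eval Q h ≠ 0} ∧
      idealOf (S.E i) = idealOf (curve K) := by
  have hprime : (idealOf (curve K)).IsPrime := curve_isPrime
  have hcl : MvPolynomial.zeroLocus K (idealOf (curve K)) = curve K := closureOf_curve
  have hhP : h ∉ idealOf (curve K) := by
    intro hh
    have := MvPolynomial.mem_vanishingIdeal_iff.mp hh 0 (zero_mem_curve K)
    rw [MvPolynomial.aeval_eq_eval] at this
    exact h0 this
  -- the points of the curve in the open set are in the strata of positive index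
  have h1 : ∀ R ∈ curve K, MvPolynomial.eval R h ≠ 0 → ∃ β, β ≠ 0 ∧ R ∈ S.E β := by
    intro R hR hRh
    have hsR : polyMultIdeal (exV K) 2 ≤ pointIdeal R := curve_sing.trans (curve_le_pointIdeal hR)
    have hfR : MvPolynomial.eval R (exV K) = 0 :=
      hsR (Ideal.subset_span ⟨[], by simp, rfl⟩)
    have hdR : ∀ j, MvPolynomial.eval R (MvPolynomial.pderiv j (exV K)) = 0 := fun j =>
      hsR (Ideal.subset_span ⟨[j], by simp, rfl⟩)
    have h2 : R ∈ ⋃ i, S.E i := by rw [S.cover]; exact ⟨hfR, hRh⟩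
    obtain ⟨β, hβ⟩ := Set.mem_iUnion.mp h2
    refine ⟨β, ?_, hβ⟩
    rintro rfl
    rw [S.E_zero] at hβ
    exact hβ.2 ⟨hfR, hdR⟩
  have h2 : (Finset.univ.filter (fun β : Fin (S.N + 1) => β ≠ 0)).inf
      (fun β => MvPolynomial.vanishingIdeal K (S.E β ∩ curve K)) ≤ idealOf (curve K) := by
    intro g hg
    have h3 : g * h ∈ idealOf (curve K) := by
      intro R hR
      rw [map_mul]
      by_cases hRh : MvPolynomial.eval R h = 0
      · rw [MvPolynomial.aeval_eq_eval, hRh, mul_zero]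
      · obtain ⟨β, hβ0, hβ⟩ := h1 R hR hRh
        have h4 : g ∈ MvPolynomial.vanishingIdeal K (S.E β ∩ curve K) :=
          (Finset.inf_le (f := fun β => MvPolynomial.vanishingIdeal K (S.E β ∩ curve K))
            (Finset.mem_filter.mpr ⟨Finset.mem_univ β, hβ0⟩)) hg
        rw [h4 R ⟨hβ, hR⟩, zero_mul]
    exact (hprime.mem_or_mem h3).resolve_right hhP
  obtain ⟨β, hβ, hβp⟩ := (Ideal.IsPrime.inf_le' hprime).mp h2
  have hβ0 : β ≠ 0 := (Finset.mem_filter.mp hβ).2
  have hβle : idealOf (S.E β) ≤ idealOf (curve K) := by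
    refine le_trans ?_ hβp
    intro g hg R hR
    exact hg R hR.1
  -- a point of the trace
  have hne : (S.E β ∩ curve K).Nonempty := by
    by_contra hcon
    rw [Set.not_nonempty_iff_eq_empty] at hcon
    rw [hcon, MvPolynomial.vanishingIdeal_empty, top_le_iff] at hβp
    exact hprime.ne_top hβp
  obtain ⟨R, hRE, hRc⟩ := hne
  have hR1 := hRE
  rw [S.eqs β hβ0] at hR1
  obtain ⟨⟨hRcl, -⟩, k, hk⟩ := hR1
  have hPR : idealOf (S.E β) ≤ pointIdeal R := (le_pointIdeal_iff _ _).mpr hRcl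
  have hge : idealOf (curve K) ≤ idealOf (S.E β) :=
    final_neg hRc _ (S.prime β hβ0) hPR (eqAlong_iff.mp hk)
  have heq : idealOf (S.E β) = idealOf (curve K) := le_antisymm hβle hge
  refine ⟨β, hβ0, ?_, heq⟩
  ext Q
  rw [S.eqs β hβ0]
  constructor
  · rintro ⟨⟨hQ, hQh⟩, -⟩
    rw [closureOf, heq, hcl] at hQ
    exact ⟨hQ, hQh⟩
  · rintro ⟨hQ, hQh⟩
    refine ⟨⟨?_, hQh⟩, 4, ?_⟩
    · rw [closureOf, heq, hcl]; exact hQ
    · rw [heq]
      exact eqAlong_iff.mpr (final_pos hB hQ)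

end Pool.Agent.Helper38.ED
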