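import Pool.Agent.Helper38.ED.Defs
import Pool.Agent.Helper38.EQ.Deriv
import Pool.Agent.Helper38.EQ.Formal
import Pool.Agent.Helper38.EQ.InvFun
import Pool.Agent.Helper38.EQ.Transversal

/-! The genericity of the direction of projection: first half. -/

namespace Pool.Agent.Helper38.ED

open MvPowerSeries Pool.Agent.Helper38.EQ

variable {n : ℕ} {K : Type} [Field K]

private noncomputable def Generic1_poly [CharZero K] (j : Fin (n + 1)) :
    MvPolynomial (Fin n × Fin (n + 1)) K ≃ₐ[K] MvPolynomial (Fin n × Fin (n + 1)) K :=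
  AlgEquiv.ofAlgHom
    (MvPolynomial.aeval fun p => if p.2 = j then MvPolynomial.C 2 * MvPolynomial.X p
      else MvPolynomial.X p)
    (MvPolynomial.aeval fun p => if p.2 = j then MvPolynomial.C (2⁻¹) * MvPolynomial.X p
      else MvPolynomial.X p)
    (by
      ext p
      by_cases h : p.2 = j
      · rw [AlgHom.comp_apply, MvPolynomial.aeval_X, if_pos h, map_mul, MvPolynomial.aeval_X,
          if_pos h, MvPolynomial.aeval_C, ← mul_assoc, AlgHom.id_apply,
          MvPolynomial.algebraMap_eq, ← MvPolynomial.C_mul, inv_mul_cancel₀ two_ne_zero,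
          MvPolynomial.C_1, one_mul]
      · rw [AlgHom.comp_apply, MvPolynomial.aeval_X, if_neg h, MvPolynomial.aeval_X, if_neg h,
          AlgHom.id_apply])
    (by
      ext p
      by_cases h : p.2 = j
      · rw [AlgHom.comp_apply, MvPolynomial.aeval_X, if_pos h, map_mul, MvPolynomial.aeval_X,
          if_pos h, MvPolynomial.aeval_C, ← mul_assoc, AlgHom.id_apply,
          MvPolynomial.algebraMap_eq, ← MvPolynomial.C_mul, mul_inv_cancel₀ two_ne_zero,
          MvPolynomial.C_1, one_mul]
      · rw [AlgHom.comp_apply, MvPolynomial.aeval_X, if_neg h, MvPolynomial.aeval_X, if_neg h,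
          AlgHom.id_apply])

private theorem Generic1_poly_X [CharZero K] (j : Fin (n + 1)) (p : Fin n × Fin (n + 1)) :
    Generic1_poly (K := K) j (MvPolynomial.X p) =
      if p.2 = j then 2 * MvPolynomial.X p else MvPolynomial.X p := by
  have h1 : Generic1_poly (K := K) j (MvPolynomial.X p) =
      if p.2 = j then MvPolynomial.C 2 * MvPolynomial.X p else MvPolynomial.X p :=
    MvPolynomial.aeval_X _ _
  rw [h1]
  have h2 : (MvPolynomial.C (2 : K) : MvPolynomial (Fin n × Fin (n + 1)) K) = 2 := map_ofNat _ 2
  rw [h2]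

/-- For every `j` there is an automorphism of `GenField n K` over `K` that multiplies the
column `j` of the matrix `u` by `2` and fixes the other columns: an automorphism of the polynomial
ring, extended to the fraction field and then to the algebraic closure. -/
theorem exists_scale [CharZero K] (j : Fin (n + 1)) :
    ∃ θ : GenField n K ≃ₐ[K] GenField n K,
      ∀ (i : Fin n) (l : Fin (n + 1)), θ (genU i l) = if l = j then 2 * genU i l else genU i l := by
  let φ : FractionRing (MvPolynomial (Fin n × Fin (n + 1)) K) ≃+*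
      FractionRing (MvPolynomial (Fin n × Fin (n + 1)) K) :=
    IsFractionRing.ringEquivOfRingEquiv (Generic1_poly (K := K) (n := n) j).toRingEquiv
  have hφ : ∀ a : MvPolynomial (Fin n × Fin (n + 1)) K,
      φ (algebraMap _ _ a) = algebraMap _ _ (Generic1_poly j a) := by
    intro a
    exact IsFractionRing.ringEquivOfRingEquiv_algebraMap _ a
  let ψ : GenField n K ≃+* GenField n K :=
    IsAlgClosure.equivOfEquiv (GenField n K) (GenField n K) φ
  have hψ : ∀ a, ψ (algebraMap _ _ a) = algebraMap _ _ (φ a) := by
    intro a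
    exact IsAlgClosure.equivOfEquiv_algebraMap (GenField n K) (GenField n K) φ a
  refine ⟨AlgEquiv.ofRingEquiv (f := ψ) ?_, ?_⟩
  · intro r
    have h1 : algebraMap K (GenField n K) r =
        algebraMap (FractionRing (MvPolynomial (Fin n × Fin (n + 1)) K)) (GenField n K)
          (algebraMap (MvPolynomial (Fin n × Fin (n + 1)) K) _ (algebraMap K _ r)) := rfl
    rw [h1, hψ, hφ, AlgEquiv.commutes]
  · intro i l
    show ψ (genU i l) = _
    rw [genU, hψ, hφ, Generic1_poly_X]
    by_cases h : l = j
    · rw [if_pos h, if_pos h, map_mul, map_mul, map_ofNat, map_ofNat]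
    · rw [if_neg h, if_neg h]

/-- The signed maximal minors of the generic matrix. -/
noncomputable def minorU (n : ℕ) (K : Type) [Field K] (j : Fin (n + 1)) : GenField n K :=
  (-1) ^ (j : ℕ) * (Matrix.of fun (i : Fin n) (l : Fin n) => genU (K := K) i (j.succAbove l)).det

private noncomputable def Generic1_emb (n : ℕ) (K : Type) [Field K] :
    MvPolynomial (Fin n × Fin (n + 1)) K →+* GenField n K :=
  (algebraMap (FractionRing (MvPolynomial (Fin n × Fin (n + 1)) K)) (GenField n K)).comp
    (algebraMap (MvPolynomial (Fin n × Fin (n + 1)) K)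
      (FractionRing (MvPolynomial (Fin n × Fin (n + 1)) K)))

private theorem Generic1_emb_inj : Function.Injective (Generic1_emb n K) :=
  (algebraMap (FractionRing (MvPolynomial (Fin n × Fin (n + 1)) K))
    (GenField n K)).injective.comp (IsFractionRing.injective _ _)

theorem minorU_ne_zero (j : Fin (n + 1)) : minorU n K j ≠ 0 := by
  set D : Matrix (Fin n) (Fin n) (MvPolynomial (Fin n × Fin (n + 1)) K) :=
    Matrix.of fun i l => MvPolynomial.X (i, j.succAbove l) with hD
  have h1 : (Matrix.of fun (i : Fin n) (l : Fin n) => genU (K := K) i (j.succAbove l)).det =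
      Generic1_emb n K D.det := by
    rw [RingHom.map_det]
    rfl
  have h2 : D.det ≠ 0 := by
    intro h
    have h3 : (MvPolynomial.eval (fun p : Fin n × Fin (n + 1) =>
        if p.2 = j.succAbove p.1 then (1 : K) else 0)) D.det = 1 := by
      rw [RingHom.map_det]
      have h4 : (MvPolynomial.eval (fun p : Fin n × Fin (n + 1) =>
        if p.2 = j.succAbove p.1 then (1 : K) else 0)).mapMatrix D = 1 := by
        ext i l
        rw [RingHom.mapMatrix_apply, Matrix.map_apply, hD, Matrix.of_apply, MvPolynomial.eval_X,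
          Matrix.one_apply]
        by_cases hil : i = l
        · subst hil
          simp
        · rw [if_neg hil, if_neg]
          intro h5
          exact hil (Fin.succAbove_right_injective h5).symm
      rw [h4, Matrix.det_one]
    rw [h, map_zero] at h3
    exact zero_ne_one h3
  rw [minorU, h1]
  refine mul_ne_zero (pow_ne_zero _ (neg_ne_zero.mpr one_ne_zero)) ?_
  intro h
  exact h2 (Generic1_emb_inj (by rw [h, map_zero]))

private noncomputable def Generic1_minor {R : Type*} [CommRing R] {n : ℕ}
    (M : Matrix (Fin n) (Fin (n + 1)) R) (j : Fin (n + 1)) : R :=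
  (-1) ^ (j : ℕ) * (M.submatrix id j.succAbove).det

private theorem Generic1_sum_minor {R : Type*} [CommRing R] {n : ℕ}
    (M : Matrix (Fin n) (Fin (n + 1)) R) (i : Fin n) :
    ∑ j, M i j * Generic1_minor M j = 0 := by
  have h : (Matrix.of (Fin.cons (M i) (fun k => M k) :
      Fin (n + 1) → Fin (n + 1) → R)).det = 0 := by
    exact Matrix.det_zero_of_row_eq (i := 0) (j := i.succ) (Fin.succ_ne_zero i).symm rfl
  rw [Matrix.det_succ_row_zero] at h
  rw [← h]
  refine Finset.sum_congr rfl fun j _ => ?_
  have h2 : ((Matrix.of (Fin.cons (M i) (fun k => M k) :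
      Fin (n + 1) → Fin (n + 1) → R)).submatrix Fin.succ j.succAbove) =
      M.submatrix id j.succAbove := by
    ext a b
    simp [Matrix.submatrix_apply]
  rw [h2, Generic1_minor]
  simp only [Matrix.of_apply, Fin.cons_zero]
  ring

private theorem Generic1_kernel {R : Type*} [CommRing R] {n : ℕ}
    (M : Matrix (Fin n) (Fin (n + 1)) R) (w : Fin (n + 1) → R)
    (hw : ∀ i, ∑ j, M i j * w j = 0) (h0 : IsUnit (Generic1_minor M 0)) (j : Fin (n + 1)) :
    Generic1_minor M 0 * w j = w 0 * Generic1_minor M j := by
  set v : Fin (n + 1) → R :=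
    fun j => Generic1_minor M 0 * w j - w 0 * Generic1_minor M j with hv
  have hv0 : v 0 = 0 := by simp only [hv]; ring
  have hMv : ∀ i, ∑ j, M i j * v j = 0 := by
    intro i
    have : ∑ j, M i j * v j = Generic1_minor M 0 * ∑ j, M i j * w j -
        w 0 * ∑ j, M i j * Generic1_minor M j := by
      rw [Finset.mul_sum, Finset.mul_sum, ← Finset.sum_sub_distrib]
      refine Finset.sum_congr rfl fun j _ => ?_
      simp only [hv]; ring
    rw [this, hw, Generic1_sum_minor]; ring
  have hdet : IsUnit (M.submatrix id Fin.succ).det := by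
    have h1 : Generic1_minor M 0 = (M.submatrix id Fin.succ).det := by
      simp [Generic1_minor, Fin.succAbove_zero]
    rwa [h1] at h0
  have h3 : (fun i : Fin n => v i.succ) = 0 := by
    have h5 : (M.submatrix id Fin.succ).mulVec (fun i : Fin n => v i.succ) = 0 := by
      funext i
      have h4 := hMv i
      rw [Fin.sum_univ_succ, hv0, mul_zero, zero_add] at h4
      simpa [Matrix.mulVec, dotProduct] using h4
    have h6 := congrArg ((M.submatrix id Fin.succ)⁻¹.mulVec) h5
    rwa [Matrix.mulVec_mulVec, Matrix.nonsing_inv_mul _ hdet, Matrix.one_mulVec,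
      Matrix.mulVec_zero] at h6
  have h5 : v j = 0 := by
    refine Fin.cases hv0 (fun i => ?_) j
    exact congrFun h3 i
  exact sub_eq_zero.mp h5

/-- A vector over the ring of power series in the kernel of `u` is a multiple of the vector of
the signed minors (Cramer's rule; compare `transversal_kernel` in `EQ/Transversal.lean`). -/
theorem exists_kernel (v : Fin (n + 1) → SL n K)
    (hv : ∀ i : Fin n, ∑ j, C (genU i j) * v j = 0) :
    ∃ κ : SL n K, ∀ j, v j = κ * C (minorU n K j) := by
  let M : Matrix (Fin n) (Fin (n + 1)) (SL n K) := Matrix.of fun i j => C (genU i j)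
  have hM : ∀ j, Generic1_minor M j = C (minorU n K j) := by
    intro j
    rw [Generic1_minor, minorU, map_mul, map_pow, map_neg, map_one, RingHom.map_det]
    rfl
  have hc : (C (minorU n K 0)⁻¹ * C (minorU n K 0) : SL n K) = 1 := by
    rw [← map_mul, inv_mul_cancel₀ (minorU_ne_zero 0), map_one]
  have hu : IsUnit (Generic1_minor M 0) := by
    rw [hM]
    exact IsUnit.of_mul_eq_one_right _ hc
  refine ⟨v 0 * C (minorU n K 0)⁻¹, fun j => ?_⟩
  have h1 := Generic1_kernel M v hv hu j
  rw [hM, hM] at h1
  calc v j = (C (minorU n K 0)⁻¹ * C (minorU n K 0)) * v j := by rw [hc, one_mul]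
    _ = C (minorU n K 0)⁻¹ * (C (minorU n K 0) * v j) := by ring
    _ = v 0 * C (minorU n K 0)⁻¹ * C (minorU n K j) := by rw [h1]; ring

/-- If `∑ Δ_j h_j` is in the radical of `I` over `L`, where `I` is radical, then all `h_j ∈ I`.
Proof: apply the automorphism `θ` of `exists_scale j` to the coefficients: the radical of `I` over
`L` is stable; `θ Δ_l = 2 Δ_l` for `l ≠ j`, `θ Δ_j = Δ_j`. So `2 ∑ Δ_l h_l - Δ_j h_j` is in the
ideal, hence `Δ_j h_j`, and `mem_of_ext_mem_radical`. -/
theorem minors_descend [CharZero K] {I : Ideal (MvPowerSeries (Fin (n + 1)) K)} (hI : I.IsRadical)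
    (h : Fin (n + 1) → MvPowerSeries (Fin (n + 1)) K)
    (hh : ∑ j, C (minorU n K j) * ex (h j) ∈ (Ideal.map ex I).radical) (j : Fin (n + 1)) :
    h j ∈ I := by
  obtain ⟨θ, hθ⟩ := exists_scale (n := n) (K := K) j
  let Θ : SL n K →+* SL n K := MvPowerSeries.map (θ : GenField n K →+* GenField n K)
  have hΘC : ∀ c, Θ (C c) = C (θ c) := fun c => map_C _ c
  have hΘex : ∀ g, Θ (ex g) = ex g := fun g => map_theta_ext θ g
  -- the determinants
  have hdj : θ (minorU n K j) = minorU n K j := by
    rw [minorU, map_mul, map_pow, map_neg, map_one]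
    congr 1
    have h1 : θ (Matrix.of fun (i : Fin n) (l : Fin n) => genU (K := K) i (j.succAbove l)).det =
        ((θ : GenField n K →+* GenField n K).mapMatrix
          (Matrix.of fun (i : Fin n) (l : Fin n) => genU (K := K) i (j.succAbove l))).det :=
      RingHom.map_det (θ : GenField n K →+* GenField n K) _
    rw [h1]
    congr 1
    ext i l
    rw [RingHom.mapMatrix_apply, Matrix.map_apply, Matrix.of_apply]
    have h2 : (θ : GenField n K →+* GenField n K) (genU i (j.succAbove l)) =
        θ (genU i (j.succAbove l)) := rfl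
    rw [h2, hθ, if_neg (Fin.succAbove_ne j l)]
  have hdl : ∀ l, l ≠ j → θ (minorU n K l) = 2 * minorU n K l := by
    intro l hl
    obtain ⟨a, ha⟩ := Fin.exists_succAbove_eq (Ne.symm hl)
    rw [minorU, map_mul, map_pow, map_neg, map_one]
    have h1 : θ (Matrix.of fun (i : Fin n) (b : Fin n) => genU (K := K) i (l.succAbove b)).det =
        ((θ : GenField n K →+* GenField n K).mapMatrix
          (Matrix.of fun (i : Fin n) (b : Fin n) => genU (K := K) i (l.succAbove b))).det :=
      RingHom.map_det (θ : GenField n K →+* GenField n K) _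
    have h3 : ((θ : GenField n K →+* GenField n K).mapMatrix
          (Matrix.of fun (i : Fin n) (b : Fin n) => genU (K := K) i (l.succAbove b))) =
        (Matrix.of fun (i : Fin n) (b : Fin n) => genU (K := K) i (l.succAbove b)) *
          Matrix.diagonal (fun b => if b = a then (2 : GenField n K) else 1) := by
      ext i b
      rw [RingHom.mapMatrix_apply, Matrix.map_apply, Matrix.mul_diagonal, Matrix.of_apply]
      have h2 : (θ : GenField n K →+* GenField n K) (genU i (l.succAbove b)) =
          θ (genU i (l.succAbove b)) := rfl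
      rw [h2, hθ]
      by_cases hb : b = a
      · subst hb
        rw [if_pos ha, if_pos rfl, mul_comm]
      · rw [if_neg hb, mul_one, if_neg]
        intro h4
        rw [← ha] at h4
        exact hb (Fin.succAbove_right_injective h4)
    rw [h1, h3, Matrix.det_mul, Matrix.det_diagonal, Finset.prod_ite_eq' Finset.univ a,
      if_pos (Finset.mem_univ a)]
    ring
  -- the radical is stable
  have hstab : ∀ g ∈ (Ideal.map ex I).radical, Θ g ∈ (Ideal.map ex I).radical := by
    intro g hg
    obtain ⟨k, hk⟩ := hg
    refine ⟨k, ?_⟩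
    rw [← map_pow]
    have h1 : Ideal.map Θ (Ideal.map ex I) ≤ Ideal.map ex I := by
      rw [Ideal.map_map]
      have h2 : Θ.comp ex = ex := by
        ext1 g
        exact hΘex g
      rw [h2]
    exact h1 (Ideal.mem_map_of_mem Θ hk)
  have h1 := hstab _ hh
  rw [map_sum] at h1
  have h2 : ∑ l, Θ (C (minorU n K l) * ex (h l)) =
      2 * (∑ l, C (minorU n K l) * ex (h l)) - C (minorU n K j) * ex (h j) := by
    rw [eq_sub_iff_add_eq, Finset.mul_sum]
    have h3 : C (minorU n K j) * ex (h j) =
        ∑ l, if l = j then C (minorU n K j) * ex (h j) else 0 := by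
      rw [Finset.sum_ite_eq', if_pos (Finset.mem_univ j)]
    rw [h3, ← Finset.sum_add_distrib]
    refine Finset.sum_congr rfl fun l _ => ?_
    rw [map_mul, hΘC, hΘex]
    by_cases hl : l = j
    · subst hl
      rw [if_pos rfl, hdj]
      ring
    · rw [if_neg hl, hdl l hl, map_mul, map_ofNat]
      ring
  rw [h2] at h1
  have h3 : C (minorU n K j) * ex (h j) ∈ (Ideal.map ex I).radical := by
    have h4 := Ideal.sub_mem _ (Ideal.mul_mem_left _ 2 hh) h1
    rwa [sub_sub_cancel] at h4
  have h5 : ex (h j) ∈ (Ideal.map ex I).radical := by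
    have h6 := Ideal.mul_mem_left _ (C (minorU n K j)⁻¹ : SL n K) h3
    rwa [← mul_assoc, ← map_mul, inv_mul_cancel₀ (minorU_ne_zero j), map_one, one_mul] at h6
  exact mem_of_ext_mem_radical (L := GenField n K) I hI (h j) h5

end Pool.Agent.Helper38.ED
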