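import Pool.Agent.Helper38.ED.Calc3
import Pool.Agent.Helper38.EQ.LenTwo

/-! Equisingularity of `b d = 0`. -/

namespace Pool.Agent.Helper38.ED

open MvPowerSeries Pool.Agent.Helper38.EQ

private theorem Level3_le {n : ℕ} {K : Type} [Field K] {f g : MvPowerSeries (Fin n) K}
    (h : f ∣ g) : singIdeal g ≤ singIdeal f := by
  obtain ⟨u, rfl⟩ := h
  have hf : f ∈ singIdeal f := Ideal.subset_span (Set.mem_union_left _ rfl)
  rw [singIdeal, Ideal.span_le]
  rintro x (rfl | ⟨i, rfl⟩)
  · exact Ideal.mul_mem_right _ _ hf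
  · show pderiv K i (f * u) ∈ singIdeal f
    rw [Derivation.leibniz, smul_eq_mul, smul_eq_mul]
    refine Ideal.add_mem _ (Ideal.mul_mem_right _ _ hf) (Ideal.mul_mem_left _ _ ?_)
    exact Ideal.subset_span (Set.mem_union_right _ ⟨i, rfl⟩)

/-- `singIdeal` does not change if the equation is multiplied by a unit. -/
theorem singIdeal_assoc {n : ℕ} {K : Type} [Field K] {f g : MvPowerSeries (Fin n) K}
    (h : Associated f g) : singIdeal f = singIdeal g :=
  le_antisymm (Level3_le h.symm.dvd) (Level3_le h.dvd)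

private theorem Level3_minor {n : ℕ} {K : Type} [Field K] {b d : MvPowerSeries (Fin n) K}
    (h : LI ![b, d]) : ∃ i j : Fin n,
      coeff (Finsupp.single i 1) b * coeff (Finsupp.single j 1) d -
        coeff (Finsupp.single j 1) b * coeff (Finsupp.single i 1) d ≠ 0 := by
  by_contra hcon
  push Not at hcon
  have h1 := Fintype.linearIndependent_iff.mp h.2
  have h2 : ∀ i : Fin n, coeff (Finsupp.single i 1) b = 0 := by
    intro i
    have h3 := h1 ![coeff (Finsupp.single i 1) d, -coeff (Finsupp.single i 1) b] (by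
      rw [Fin.sum_univ_two]
      funext j
      show coeff (Finsupp.single i 1) d * coeff (Finsupp.single j 1) b +
        -coeff (Finsupp.single i 1) b * coeff (Finsupp.single j 1) d = 0
      have h4 := hcon i j
      linear_combination -h4) 1
    have h5 : -coeff (Finsupp.single i 1) b = 0 := h3
    exact neg_eq_zero.mp h5
  have h3 := h1 ![1, 0] (by
    rw [Fin.sum_univ_two]
    funext j
    show (1 : K) * coeff (Finsupp.single j 1) b + 0 * coeff (Finsupp.single j 1) d = 0
    rw [h2 j]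
    ring) 0
  have h4 : (1 : K) = 0 := h3
  exact one_ne_zero h4

private theorem Level3_pderiv {n : ℕ} {K : Type} [Field K] (i : Fin n)
    (b : MvPowerSeries (Fin n) K) :
    constantCoeff (pderiv K i b) = coeff (Finsupp.single i 1) b := by
  rw [← coeff_zero_eq_constantCoeff_apply, coeff_pderiv, zero_add]
  simp

/-- The singular locus of `b d = 0` is `b = d = 0`: as the linear parts of `b` and `d` are
independent, some minor `∂_i b ∂_j d - ∂_j b ∂_i d` is a unit (constant term `≠ 0`), and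
`d ∂_i b + b ∂_i d`, `d ∂_j b + b ∂_j d` are in the ideal. -/
theorem mem_singIdeal_mul {n : ℕ} {K : Type} [Field K] {b d : MvPowerSeries (Fin n) K}
    (h : LI ![b, d]) : b ∈ singIdeal (b * d) ∧ d ∈ singIdeal (b * d) := by
  obtain ⟨i, j, hij⟩ := Level3_minor h
  have hu : IsUnit (pderiv K i b * pderiv K j d - pderiv K j b * pderiv K i d) := by
    rw [MvPowerSeries.isUnit_iff_constantCoeff, map_sub, map_mul, map_mul]
    rw [Level3_pderiv, Level3_pderiv, Level3_pderiv, Level3_pderiv]
    exact hij.isUnit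
  have hD : ∀ l : Fin n, b * pderiv K l d + d * pderiv K l b ∈ singIdeal (b * d) := by
    intro l
    have h1 : pderiv K l (b * d) ∈ singIdeal (b * d) :=
      Ideal.subset_span (Set.mem_union_right _ ⟨l, rfl⟩)
    rwa [Derivation.leibniz, smul_eq_mul, smul_eq_mul] at h1
  constructor
  · rw [← Ideal.unit_mul_mem_iff_mem _ hu]
    have h2 := Ideal.sub_mem _ (Ideal.mul_mem_left _ (pderiv K i b) (hD j))
      (Ideal.mul_mem_left _ (pderiv K j b) (hD i))
    convert h2 using 1
    ring
  · rw [← Ideal.unit_mul_mem_iff_mem _ hu]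
    have h2 := Ideal.sub_mem _ (Ideal.mul_mem_left _ (pderiv K j d) (hD i))
      (Ideal.mul_mem_left _ (pderiv K i d) (hD j))
    convert h2 using 1
    ring

private theorem Level3_prod {R : Type} [CommRing R] (b d : R) : ∏ i, comps3 b d i = b * d := by
  rw [Fin.prod_univ_two]
  rfl

private theorem Level3_mem_sq {R : Type} [CommRing R] {J : Ideal R} {b d f : R}
    (hf : Associated f (∏ i, comps3 b d i)) (hb : b ∈ J) (hd : d ∈ J) : f ∈ J ^ 2 := by
  rw [Level3_prod] at hf
  refine Ideal.mem_of_dvd _ hf.symm.dvd ?_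
  rw [pow_two]
  exact Ideal.mul_mem_mul hb hd

/-- Negative direction. If `k = 0`, `b d ∈ 𝔪 ^ 2` is a contradiction; else
`EqLen.singIdeal_le`. -/
theorem neg3 {B : BasisClass} {k n : ℕ} {K : Type} [Field K] {b d f : MvPowerSeries (Fin n) K}
    (h : LI ![b, d]) (hf : Associated f (∏ i, comps3 b d i))
    {I : Ideal (MvPowerSeries (Fin n) K)} (hE : EqLen B k n K f I) : b ∈ I ∧ d ∈ I := by
  have hf2 : f ∈ IsLocalRing.maximalIdeal (MvPowerSeries (Fin n) K) ^ 2 :=
    Level3_mem_sq hf (h.mem 0) (h.mem 1)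
  rcases k with _ | k
  · exfalso
    cases hE with
    | simple n K f I hI h1 h2 => exact h2 hf2
  · have h1 := hE.singIdeal_le
    rw [singIdeal_assoc hf, Level3_prod] at h1
    exact ⟨h1 (mem_singIdeal_mul h).1, h1 (mem_singIdeal_mul h).2⟩

private theorem Level3_smooth {n : ℕ} {K : Type} [Field K]
    {b d : MvPowerSeries (Fin n) K} (h : LI ![b, d])
    (i : Fin 2) : comps3 b d i ∈ IsLocalRing.maximalIdeal (MvPowerSeries (Fin n) K) ∧
      comps3 b d i ∉ IsLocalRing.maximalIdeal (MvPowerSeries (Fin n) K) ^ 2 :=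
  ⟨h.mem i, h.notMem_sq i⟩

/-- Positive direction: `exists_proj`, `exists_sec`, `calc3`, `IsDisc.exists`, `eqLen_pack`,
`eqLen_simple`; `singIdeal f ≤ I` by `singIdeal_le_of_mem_sq` (`EQ/LenTwo.lean`), as
`b d ∈ I ^ 2`. -/
theorem pos3 {B : BasisClass} (hB : HasStd B) {n : ℕ} {K : Type} [Field K] [CharZero K]
    {b d f : MvPowerSeries (Fin (n + 1)) K}
    (h : LI ![b, d]) (hf : Associated f (∏ i, comps3 b d i))
    {I : Ideal (MvPowerSeries (Fin (n + 1)) K)} (hI : I ≠ ⊤) (hb : b ∈ I) (hd : d ∈ I) :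
    EqLen B 1 (n + 1) K f I := by
  obtain ⟨p, hp⟩ := exists_proj n K
  have hs : ∀ i, Nonempty (Sec p (comps3 b d i)) := fun i =>
    exists_sec p _ (Level3_smooth h i).1 (Level3_smooth h i).2
  let s : ∀ i, Sec p (comps3 b d i) := fun i => (hs i).some
  obtain ⟨hdisc, hm1, hm2⟩ := calc3 p h s
  obtain ⟨F, U, hF, hg⟩ := hdisc.exists hf
  have hsing : singIdeal f ≤ I := singIdeal_le_of_mem_sq _ _ (Level3_mem_sq hf hb hd)
  refine eqLen_pack hB hp hsing hF hg ?_
  have : CharZero (GenField n K) := charZero_gen n K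
  exact eqLen_simple (Associated.refl _) hm1 hm2 (Proj.img_ne_top p hI)

end Pool.Agent.Helper38.ED
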