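import Pool.Agent.Helper38.ED.Calc2
import Pool.Agent.Helper38.ED.Level3

/-! Equisingularity of `b c (2 c + b d) ((1 + b θ) c + b d) = 0`. -/

namespace Pool.Agent.Helper38.ED

open MvPowerSeries Pool.Agent.Helper38.EQ

private theorem Level2_mul_mem_sq {R : Type} [CommRing R] {J : Ideal R} {x y : R}
    (hx : x ∈ J) (hy : y ∈ J) : x * y ∈ J ^ 2 := by
  rw [pow_two]
  exact Ideal.mul_mem_mul hx hy

/-- The four equations are smooth. -/
theorem comps2_smooth {n : ℕ} {K : Type} [Field K] [CharZero K]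
    {b c d : MvPowerSeries (Fin n) K} (θ : MvPowerSeries (Fin n) K) (h : LI ![b, c, d])
    (i : Fin 4) : comps2 b c d θ i ∈ IsLocalRing.maximalIdeal (MvPowerSeries (Fin n) K) ∧
      comps2 b c d θ i ∉ IsLocalRing.maximalIdeal (MvPowerSeries (Fin n) K) ^ 2 := by
  have hb : b ∈ IsLocalRing.maximalIdeal (MvPowerSeries (Fin n) K) := h.mem 0
  have hc : c ∈ IsLocalRing.maximalIdeal (MvPowerSeries (Fin n) K) := h.mem 1
  have hd : d ∈ IsLocalRing.maximalIdeal (MvPowerSeries (Fin n) K) := h.mem 2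
  have hb2 : b ∉ IsLocalRing.maximalIdeal (MvPowerSeries (Fin n) K) ^ 2 := h.notMem_sq 0
  have hc2 : c ∉ IsLocalRing.maximalIdeal (MvPowerSeries (Fin n) K) ^ 2 := h.notMem_sq 1
  have h2 : IsUnit (2 : MvPowerSeries (Fin n) K) := by
    have := isUnit_natCast_add (n := n) (K := K) (m := 2) (by norm_num)
      (Ideal.zero_mem (IsLocalRing.maximalIdeal (MvPowerSeries (Fin n) K)))
    rw [add_zero] at this
    exact_mod_cast this
  have hbd : b * d ∈ IsLocalRing.maximalIdeal (MvPowerSeries (Fin n) K) ^ 2 :=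
    Level2_mul_mem_sq hb hd
  fin_cases i
  · exact ⟨hb, hb2⟩
  · exact ⟨hc, hc2⟩
  · show 2 * c + b * d ∈ _ ∧ 2 * c + b * d ∉ _
    refine ⟨Ideal.add_mem _ (Ideal.mul_mem_left _ _ hc) (Ideal.mul_mem_left _ _ hd), fun h3 => ?_⟩
    rw [Ideal.add_mem_iff_left _ hbd, Ideal.unit_mul_mem_iff_mem _ h2] at h3
    exact hc2 h3
  · show (1 + b * θ) * c + b * d ∈ _ ∧ (1 + b * θ) * c + b * d ∉ _
    refine ⟨Ideal.add_mem _ (Ideal.mul_mem_left _ _ hc) (Ideal.mul_mem_left _ _ hd), fun h3 => ?_⟩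
    have h4 : IsUnit (1 + b * θ) := isUnit_one_add (Ideal.mul_mem_right _ _ hb)
    rw [Ideal.add_mem_iff_left _ hbd, Ideal.unit_mul_mem_iff_mem _ h4] at h3
    exact hc2 h3

private theorem Level2_dvd {n : ℕ} {K : Type} [Field K]
    {b c d f : MvPowerSeries (Fin n) K} (θ : MvPowerSeries (Fin n) K)
    (hf : Associated f (∏ i, comps2 b c d θ i)) : b * c ∣ f := by
  have h1 : b * c ∣ ∏ i, comps2 b c d θ i := by
    have h2 : ∏ i, comps2 b c d θ i = b * c * ((2 * c + b * d) * ((1 + b * θ) * c + b * d)) := by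
      rw [Fin.prod_univ_four]
      show b * c * (2 * c + b * d) * ((1 + b * θ) * c + b * d) = _
      ring
    rw [h2]
    exact dvd_mul_right _ _
  exact h1.trans hf.symm.dvd

/-- Negative direction: `eqLen_unpack` (`f ∈ 𝔪 ^ 2`), `exists_sec`, `calc2`, `IsDisc.unique`
(`g ~ β δ`), `neg3` (`β, δ ∈ p.img I`), `diff_mem`, `comps_mem` (`b, c ∈ I`; `f ∈ singIdeal f ≤ I`),
`Sec.mem_of_pull_mem` (`d ∈ I`, from the section `s 1` of `c = 0`). -/
theorem neg2 {B : BasisClass} {k n : ℕ} {K : Type} [Field K] [CharZero K]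
    {b c d f : MvPowerSeries (Fin (n + 1)) K} (θ : MvPowerSeries (Fin (n + 1)) K)
    (h : LI ![b, c, d]) (hf : Associated f (∏ i, comps2 b c d θ i))
    {I : Ideal (MvPowerSeries (Fin (n + 1)) K)} (hI : I.IsRadical)
    (hE : EqLen B k (n + 1) K f I) : b ∈ I ∧ c ∈ I ∧ d ∈ I := by
  have hb : b ∈ IsLocalRing.maximalIdeal (MvPowerSeries (Fin (n + 1)) K) := h.mem 0
  have hc : c ∈ IsLocalRing.maximalIdeal (MvPowerSeries (Fin (n + 1)) K) := h.mem 1
  have hf2 : f ∈ IsLocalRing.maximalIdeal (MvPowerSeries (Fin (n + 1)) K) ^ 2 :=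
    Ideal.mem_of_dvd _ (Level2_dvd θ hf) (Level2_mul_mem_sq hb hc)
  obtain ⟨k', p, F, U, g, -, hsing, hF, hg, hE'⟩ := eqLen_unpack hE hf2
  have hs : ∀ i, Nonempty (Sec p (comps2 b c d θ i)) := fun i =>
    exists_sec p _ (comps2_smooth θ h i).1 (comps2_smooth θ h i).2
  let s : ∀ i, Sec p (comps2 b c d θ i) := fun i => (hs i).some
  obtain ⟨hLI, hdisc, hdvd⟩ := calc2 p θ h s
  have hga : Associated g ((s 1).pull b * (s 1).pull d) := hdisc.unique hf hF hg
  have hga' : Associated g (∏ i, comps3 ((s 1).pull b) ((s 1).pull d) i) := by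
    rw [Fin.prod_univ_two]
    exact hga
  obtain ⟨hβ, hδ⟩ := neg3 hLI hga' hE'
  have hdiff := diff_mem s (p.img I) (fun i j hij => Ideal.mem_of_dvd _ (hdvd i j hij) hβ)
  have hfI : f ∈ I := hsing (Ideal.subset_span (Set.mem_union_left _ rfl))
  have hcomp := comps_mem s hf hI hfI hdiff
  have hbI : b ∈ I := hcomp 0
  have hcI : c ∈ I := hcomp 1
  exact ⟨hbI, hcI, (s 1).mem_of_pull_mem hI hcI hδ⟩

/-- Positive direction: `exists_proj`, `exists_sec`, `calc2`, `IsDisc.exists`, `eqLen_pack`,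
`pos3` for the ideal `p.img I` (`Sec.pull_mem_img`, `Proj.img_ne_top`); `singIdeal f ≤ I` by
`singIdeal_le_of_mem_sq`, as `b c ∈ I ^ 2`. -/
theorem pos2 {B : BasisClass} (hB : HasStd B) {n : ℕ} {K : Type} [Field K] [CharZero K]
    {b c d f : MvPowerSeries (Fin (n + 2)) K} (θ : MvPowerSeries (Fin (n + 2)) K)
    (h : LI ![b, c, d]) (hf : Associated f (∏ i, comps2 b c d θ i))
    {I : Ideal (MvPowerSeries (Fin (n + 2)) K)} (hI : I ≠ ⊤) (hb : b ∈ I) (hc : c ∈ I)
    (hd : d ∈ I) : EqLen B 2 (n + 2) K f I := by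
  obtain ⟨p, hp⟩ := exists_proj (n + 1) K
  have hs : ∀ i, Nonempty (Sec p (comps2 b c d θ i)) := fun i =>
    exists_sec p _ (comps2_smooth θ h i).1 (comps2_smooth θ h i).2
  let s : ∀ i, Sec p (comps2 b c d θ i) := fun i => (hs i).some
  obtain ⟨hLI, hdisc, -⟩ := calc2 p θ h s
  obtain ⟨F, U, hF, hg⟩ := hdisc.exists hf
  have hsing : singIdeal f ≤ I := by
    apply singIdeal_le_of_mem_sq
    exact Ideal.mem_of_dvd _ (Level2_dvd θ hf) (Level2_mul_mem_sq hb hc)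
  refine eqLen_pack hB hp hsing hF hg ?_
  have : CharZero (GenField (n + 1) K) := charZero_gen (n + 1) K
  refine pos3 hB hLI ?_ (Proj.img_ne_top p hI) ?_ ?_
  · rw [Fin.prod_univ_two]
    exact Associated.refl _
  · exact (s 1).pull_mem_img hc hb
  · exact (s 1).pull_mem_img hc hd

end Pool.Agent.Helper38.ED
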