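import Pool.Agent.Helper38.ED.Calc1
import Pool.Agent.Helper38.ED.Level2

/-! Equisingularity of `a b (a + b c) (a + 2 b c + b ^ 2 d) = 0`. -/

namespace Pool.Agent.Helper38.ED

open MvPowerSeries Pool.Agent.Helper38.EQ

/-- The four equations are smooth. -/
theorem comps1_smooth {n : ℕ} {K : Type} [Field K]
    {a b c d : MvPowerSeries (Fin n) K} (h : LI ![a, b, c, d])
    (i : Fin 4) : comps1 a b c d i ∈ IsLocalRing.maximalIdeal (MvPowerSeries (Fin n) K) ∧
      comps1 a b c d i ∉ IsLocalRing.maximalIdeal (MvPowerSeries (Fin n) K) ^ 2 := by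
  have ha : a ∈ IsLocalRing.maximalIdeal (MvPowerSeries (Fin n) K) := h.mem 0
  have hb : b ∈ IsLocalRing.maximalIdeal (MvPowerSeries (Fin n) K) := h.mem 1
  have hc : c ∈ IsLocalRing.maximalIdeal (MvPowerSeries (Fin n) K) := h.mem 2
  have ha2 : a ∉ IsLocalRing.maximalIdeal (MvPowerSeries (Fin n) K) ^ 2 := h.notMem_sq 0
  have hb2 : b ∉ IsLocalRing.maximalIdeal (MvPowerSeries (Fin n) K) ^ 2 := h.notMem_sq 1
  have key : ∀ t : MvPowerSeries (Fin n) K,
      t ∈ IsLocalRing.maximalIdeal (MvPowerSeries (Fin n) K) ^ 2 →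
      a + t ∈ IsLocalRing.maximalIdeal (MvPowerSeries (Fin n) K) ∧
        a + t ∉ IsLocalRing.maximalIdeal (MvPowerSeries (Fin n) K) ^ 2 := by
    intro t ht
    refine ⟨Ideal.add_mem _ ha (Ideal.pow_le_self two_ne_zero ht), fun hh => ha2 ?_⟩
    exact (Ideal.add_mem_iff_left _ ht).mp hh
  have hbc : b * c ∈ IsLocalRing.maximalIdeal (MvPowerSeries (Fin n) K) ^ 2 := by
    rw [pow_two]
    exact Ideal.mul_mem_mul hb hc
  have hbb : b ^ 2 ∈ IsLocalRing.maximalIdeal (MvPowerSeries (Fin n) K) ^ 2 :=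
    Ideal.pow_mem_pow hb 2
  fin_cases i
  · exact ⟨ha, ha2⟩
  · exact ⟨hb, hb2⟩
  · exact key _ hbc
  · have h1 := key (2 * (b * c) + b ^ 2 * d)
      (Ideal.add_mem _ (Ideal.mul_mem_left _ _ hbc) (Ideal.mul_mem_right _ _ hbb))
    have h2 : a + (2 * (b * c) + b ^ 2 * d) = a + 2 * b * c + b ^ 2 * d := by ring
    rw [h2] at h1
    exact h1

/-- The product of the four equations is in the square of every ideal containing `a` and `b`. -/
private theorem Level1_mem_sq {R : Type} [CommRing R] {a b c d f : R} {J : Ideal R}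
    (hf : Associated f (∏ i, comps1 a b c d i)) (ha : a ∈ J) (hb : b ∈ J) : f ∈ J ^ 2 := by
  refine Ideal.mem_of_dvd _ hf.symm.dvd ?_
  have h1 : (∏ i, comps1 a b c d i) =
      (a * b) * ((a + b * c) * (a + 2 * b * c + b ^ 2 * d)) := by
    rw [Fin.prod_univ_four]
    simp only [comps1, Matrix.cons_val]
    ring
  rw [h1]
  refine Ideal.mul_mem_right _ _ ?_
  rw [pow_two]
  exact Ideal.mul_mem_mul ha hb

/-- Negative direction: `eqLen_unpack` (`f ∈ 𝔪 ^ 2`), `exists_sec`, `calc1`, `IsDisc.unique`,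
`neg2` (`β, γ, δ ∈ p.img I`, which is radical), `diff_mem`, `comps_mem` (`a, b ∈ I`),
`Sec.mem_of_pull_mem` (`c, d ∈ I`, from the section `s 0` of `a = 0`). The integer `n + 2` is needed
for `neg2` in `n + 1` variables. -/
theorem neg1 {B : BasisClass} {k n : ℕ} {K : Type} [Field K] [CharZero K]
    {a b c d f : MvPowerSeries (Fin (n + 2)) K}
    (h : LI ![a, b, c, d]) (hf : Associated f (∏ i, comps1 a b c d i))
    {I : Ideal (MvPowerSeries (Fin (n + 2)) K)} (hI : I.IsRadical)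
    (hE : EqLen B k (n + 2) K f I) : a ∈ I ∧ b ∈ I ∧ c ∈ I ∧ d ∈ I := by
  have := charZero_gen (n + 1) K
  have hf2 : f ∈ IsLocalRing.maximalIdeal (MvPowerSeries (Fin (n + 2)) K) ^ 2 :=
    Level1_mem_sq hf (h.mem 0) (h.mem 1)
  obtain ⟨k', p, F, U, g, -, hsing, hF, hg, hE'⟩ := eqLen_unpack hE hf2
  have hs : ∀ i, Nonempty (Sec p (comps1 a b c d i)) := fun i =>
    exists_sec p _ (comps1_smooth h i).1 (comps1_smooth h i).2
  let s : ∀ i, Sec p (comps1 a b c d i) := fun i => Classical.choice (hs i)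
  obtain ⟨hLI, ⟨θ, hdisc⟩, hdvd⟩ := calc1 p h s
  obtain ⟨hβ, hγ, hδ⟩ := neg2 θ hLI (hdisc.unique hf hF hg) (p.img_isRadical I) hE'
  have hd := diff_mem s (p.img I) fun i j hij => Ideal.mem_of_dvd _ (hdvd i j hij) hβ
  have hfI : f ∈ I := hsing (Ideal.subset_span (Or.inl rfl))
  have hall := comps_mem s hf hI hfI hd
  have ha : a ∈ I := hall 0
  have hb : b ∈ I := hall 1
  exact ⟨ha, hb, (s 0).mem_of_pull_mem hI ha hγ, (s 0).mem_of_pull_mem hI ha hδ⟩

/-- Positive direction: `exists_proj`, `exists_sec`, `calc1`, `IsDisc.exists`, `eqLen_pack`,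
`pos2` for the ideal `p.img I`; `singIdeal f ≤ I` by `singIdeal_le_of_mem_sq`, as
`a b ∈ I ^ 2`. -/
theorem pos1 {B : BasisClass} (hB : HasStd B) {n : ℕ} {K : Type} [Field K] [CharZero K]
    {a b c d f : MvPowerSeries (Fin (n + 3)) K}
    (h : LI ![a, b, c, d]) (hf : Associated f (∏ i, comps1 a b c d i))
    {I : Ideal (MvPowerSeries (Fin (n + 3)) K)} (hI : I ≠ ⊤) (ha : a ∈ I) (hb : b ∈ I)
    (hc : c ∈ I) (hd : d ∈ I) : EqLen B 3 (n + 3) K f I := by
  have := charZero_gen (n + 2) K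
  obtain ⟨p, hp⟩ := exists_proj (n + 2) K
  have hs : ∀ i, Nonempty (Sec p (comps1 a b c d i)) := fun i =>
    exists_sec p _ (comps1_smooth h i).1 (comps1_smooth h i).2
  let s : ∀ i, Sec p (comps1 a b c d i) := fun i => Classical.choice (hs i)
  obtain ⟨hLI, ⟨θ, hdisc⟩, -⟩ := calc1 p h s
  obtain ⟨F, U, hF, hg⟩ := hdisc.exists hf
  refine eqLen_pack hB hp (singIdeal_le_of_mem_sq I f (Level1_mem_sq hf ha hb)) hF hg ?_
  have ha' : comps1 a b c d 0 ∈ I := ha
  exact pos2 hB θ hLI (Associated.refl _) (p.img_ne_top hI)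
    ((s 0).pull_mem_img ha' hb) ((s 0).pull_mem_img ha' hc) ((s 0).pull_mem_img ha' hd)

end Pool.Agent.Helper38.ED
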