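import Pool.Agent.Helper38.ED.Calc0
import Pool.Agent.Helper38.ED.Level1

/-! Equisingularity of `V`. -/

namespace Pool.Agent.Helper38.ED

open MvPowerSeries Pool.Agent.Helper38.EQ

/-- A germ associated to the product of the six equations, two of which are in `I`, is in
`I ^ 2`. -/
private theorem Level0_mem_sq {R : Type} [CommRing R] {e : Fin 6 → R} {f : R}
    (hf : Associated f (∏ i, e i)) {I : Ideal R} (h0 : e 0 ∈ I) (h1 : e 1 ∈ I) : f ∈ I ^ 2 := by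
  obtain ⟨u, hu⟩ := hf.symm
  rw [← hu, Fin.prod_univ_six]
  have h2 : e 0 * e 1 ∈ I ^ 2 := by
    rw [pow_two]
    exact Ideal.mul_mem_mul h0 h1
  have h3 : e 0 * e 1 * e 2 * e 3 * e 4 * e 5 * (u : R) =
      (e 2 * e 3 * e 4 * e 5 * (u : R)) * (e 0 * e 1) := by ring
  rw [h3]
  exact Ideal.mul_mem_left _ _ h2

/-- Positive direction: `exists_proj`, `exists_sec` (`Good.comps_mem`), `calc0`, `IsDisc.exists`,
`eqLen_pack`, `pos1` for the ideal `p.img I`: `ι_0 h ∈ p.img I` for `h ∈ I` (`Sec.pull_mem_img`,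
`z ∈ I`), so `a = ι_0 x1`, `b = ι_0 x2`, `c ≡ ι_0 x3` modulo `b`, `d ≡ ι_0 a0 + w ι_0 a1` modulo
`b`, `ι_0 x3` are in `p.img I`; `singIdeal f ≤ I` by `singIdeal_le_of_mem_sq`. -/
theorem pos0 {B : BasisClass} (hB : HasStd B) {n : ℕ} {K : Type} [Field K] [CharZero K]
    {z x1 x2 x3 a0 a1 f : MvPowerSeries (Fin (n + 4)) K}
    (h : Good z x1 x2 x3 a0 a1) (hf : Associated f (∏ i, comps0 z x1 x2 x3 a0 a1 i))
    {I : Ideal (MvPowerSeries (Fin (n + 4)) K)} (hI : I ≠ ⊤)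
    (hz : z ∈ I) (h1 : x1 ∈ I) (h2 : x2 ∈ I) (h3 : x3 ∈ I) (ha0 : a0 ∈ I) (ha1 : a1 ∈ I) :
    EqLen B 4 (n + 4) K f I := by
  classical
  have hC := charZero_gen (n + 3) K
  obtain ⟨p, hp⟩ := exists_proj (n + 3) K
  have s : ∀ i, Sec p (comps0 z x1 x2 x3 a0 a1 i) := fun i =>
    (exists_sec p _ (h.comps_mem i).1 (h.comps_mem i).2).some
  obtain ⟨c, d, w, q, hLI, hdisc, -, hc, -, -, hd⟩ := calc0 h p s
  obtain ⟨F, U, hF, hg⟩ := hdisc.exists hf
  have hz0 : comps0 z x1 x2 x3 a0 a1 0 ∈ I := hz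
  have e1 : (s 0).pull x1 ∈ p.img I := (s 0).pull_mem_img hz0 h1
  have e2 : (s 0).pull x2 ∈ p.img I := (s 0).pull_mem_img hz0 h2
  have e3 : (s 0).pull x3 ∈ p.img I := (s 0).pull_mem_img hz0 h3
  have e4 : (s 0).pull a0 ∈ p.img I := (s 0).pull_mem_img hz0 ha0
  have e5 : (s 0).pull a1 ∈ p.img I := (s 0).pull_mem_img hz0 ha1
  have e6 : c ∈ p.img I := by
    have h6 : c - (s 0).pull x3 ∈ p.img I := Ideal.mem_of_dvd _ hc e2
    have h7 := Ideal.add_mem _ h6 e3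
    rwa [sub_add_cancel] at h7
  have e7 : d ∈ p.img I := by
    have h6 : Ideal.span {(s 0).pull x2, (s 0).pull x3} ≤ p.img I := by
      rw [Ideal.span_le]
      rintro x (rfl | rfl)
      · exact e2
      · exact e3
    have h7 := Ideal.add_mem _ (h6 hd) (Ideal.add_mem _ e4 (Ideal.mul_mem_left _ w e5))
    rwa [sub_add_cancel] at h7
  have hsing : singIdeal f ≤ I := by
    refine singIdeal_le_of_mem_sq I f (Level0_mem_sq hf hz0 ?_)
    exact Ideal.sub_mem _ hz (Ideal.mul_mem_left _ _ h1)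
  exact eqLen_pack hB hp hsing hF hg
    (pos1 hB hLI (Associated.refl _) (p.img_ne_top hI) e1 e2 e6 e7)

/-- The relation in the derivation `p.D`: if `σ (ex z) = U (X - C r)`,
`σ (ex x1) = C _ + (X - C r) q`, `w * ε U = ε q`, `X - C r ∈ big I` and
`ι a0 + w ι a1 ∈ p.img I`, then `D(z) a0 + D(x1) a1` is in the radical of `I` over `L`.
Proof: modulo `X - C r`, `∂_X (σ (ex z)) ≡ U`, `∂_X (σ (ex x1)) ≡ q`, `φ ≡ C (ε φ)`; so modulo
`big I`, `σ (D(z) a0 + D(x1) a1) ≡ U C(ι a0) + q C(ι a1) ≡ C (ε U (ι a0 + w ι a1)) ≡ 0`. -/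
theorem D_relation {m : ℕ} {K : Type} [Field K] {p : Proj m K}
    {z x1 a0 a1 : MvPowerSeries (Fin (m + 1)) K}
    {I : Ideal (MvPowerSeries (Fin (m + 1)) K)} (s : Sec p z) (hz : z ∈ I)
    {w : R1 m K} {q : PowerSeries (R1 m K)}
    (hq : p.σ (ex x1) = PowerSeries.C (s.pull x1) + (PowerSeries.X - PowerSeries.C s.r) * q)
    (hw : w * s.ε s.U = s.ε q)
    (h : s.pull a0 + w * s.pull a1 ∈ p.img I) :
    p.D (ex z) * ex a0 + p.D (ex x1) * ex a1 ∈ (Ideal.map ex I).radical := by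
  have hX : PowerSeries.X - PowerSeries.C s.r ∈ p.big I := s.X_sub_mem hz
  rw [← p.mem_big, map_add, map_mul, map_mul, Proj.D, Proj.D, AlgEquiv.apply_symm_apply,
    AlgEquiv.apply_symm_apply, s.eq, hq]
  have hD : ∀ φ : PowerSeries (R1 m K), PowerSeries.derivative (R1 m K)
      ((PowerSeries.X - PowerSeries.C s.r) * φ) =
      φ + (PowerSeries.X - PowerSeries.C s.r) * PowerSeries.derivative (R1 m K) φ := by
    intro φ
    rw [Derivation.leibniz, map_sub, PowerSeries.derivative_X, PowerSeries.derivative_C,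
      smul_eq_mul, smul_eq_mul]
    ring
  rw [mul_comm s.U, hD, map_add, PowerSeries.derivative_C, hD]
  have h1 : (s.U + (PowerSeries.X - PowerSeries.C s.r) * PowerSeries.derivative (R1 m K) s.U) *
        p.σ (ex a0) +
      (0 + (q + (PowerSeries.X - PowerSeries.C s.r) * PowerSeries.derivative (R1 m K) q)) *
        p.σ (ex a1) =
      (s.U * p.σ (ex a0) + q * p.σ (ex a1)) +
      (PowerSeries.derivative (R1 m K) s.U * p.σ (ex a0) +
        PowerSeries.derivative (R1 m K) q * p.σ (ex a1)) *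
        (PowerSeries.X - PowerSeries.C s.r) := by ring
  rw [h1]
  refine Ideal.add_mem _ ?_ (Ideal.mul_mem_left _ _ hX)
  rw [← s.C_ε_mem_iff hX, map_add, map_mul, map_mul, ← hw]
  have h2 : s.ε s.U * s.ε (p.σ (ex a0)) + w * s.ε s.U * s.ε (p.σ (ex a1)) =
      s.ε s.U * (s.pull a0 + w * s.pull a1) := by
    rw [s.pull_apply, s.pull_apply]
    ring
  rw [h2]
  exact Ideal.mul_mem_left _ _ h

/-- Negative direction: `eqLen_unpack`, `exists_sec`, `calc0`, `IsDisc.unique`, `neg1`,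
`diff_mem`, `comps_mem`, `Sec.mem_of_pull_mem` (`z, x1, x2, x3 ∈ I`), `D_relation`. -/
theorem neg0 {B : BasisClass} {k n : ℕ} {K : Type} [Field K] [CharZero K]
    {z x1 x2 x3 a0 a1 f : MvPowerSeries (Fin (n + 3)) K}
    (h : Good z x1 x2 x3 a0 a1) (hf : Associated f (∏ i, comps0 z x1 x2 x3 a0 a1 i))
    {I : Ideal (MvPowerSeries (Fin (n + 3)) K)} (hI : I.IsRadical)
    (hE : EqLen B k (n + 3) K f I) :
    z ∈ I ∧ x1 ∈ I ∧ x2 ∈ I ∧ x3 ∈ I ∧ ∃ p : Proj (n + 2) K,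
      p.D (ex z) * ex a0 + p.D (ex x1) * ex a1 ∈ (Ideal.map ex I).radical := by
  classical
  have hC := charZero_gen (n + 2) K
  have hf2 : f ∈ IsLocalRing.maximalIdeal (MvPowerSeries (Fin (n + 3)) K) ^ 2 :=
    Level0_mem_sq hf (h.comps_mem 0).1 (h.comps_mem 1).1
  obtain ⟨k', p, F, U, g, -, hsing, hF, hg, hE'⟩ := eqLen_unpack hE hf2
  have s : ∀ i, Sec p (comps0 z x1 x2 x3 a0 a1 i) := fun i =>
    (exists_sec p _ (h.comps_mem i).1 (h.comps_mem i).2).some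
  obtain ⟨c, d, w, q, hLI, hdisc, hdvd, hc, hq, hw, hd⟩ := calc0 h p s
  obtain ⟨e1, e2, e6, e7⟩ := neg1 hLI (hdisc.unique hf hF hg) (p.img_isRadical I) hE'
  have e3 : (s 0).pull x3 ∈ p.img I := by
    have h6 : c - (s 0).pull x3 ∈ p.img I := Ideal.mem_of_dvd _ hc e2
    have h7 := Ideal.sub_mem _ e6 h6
    rwa [sub_sub_cancel] at h7
  have e8 : (s 0).pull a0 + w * (s 0).pull a1 ∈ p.img I := by
    have h6 : Ideal.span {(s 0).pull x2, (s 0).pull x3} ≤ p.img I := by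
      rw [Ideal.span_le]
      rintro x (rfl | rfl)
      · exact e2
      · exact e3
    have h7 := Ideal.sub_mem _ e7 (h6 hd)
    rwa [sub_sub_cancel] at h7
  have hfI : f ∈ I := hsing (Ideal.subset_span (Set.mem_union_left _ rfl))
  have hall : ∀ i, comps0 z x1 x2 x3 a0 a1 i ∈ I := fun i =>
    comps_mem s hf hI hfI
      (diff_mem s (p.img I) fun i j hij => Ideal.mem_of_dvd _ (hdvd i j hij) e2) i
  have hz0 : comps0 z x1 x2 x3 a0 a1 0 ∈ I := hall 0
  have hz : z ∈ I := hz0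
  exact ⟨hz, (s 0).mem_of_pull_mem hI hz0 e1, (s 0).mem_of_pull_mem hI hz0 e2,
    (s 0).mem_of_pull_mem hI hz0 e3, p, D_relation (s 0) hz0 hq hw e8⟩

end Pool.Agent.Helper38.ED
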