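import Pool.Agent.Helper38.ED.Term

/-! Unions of smooth hypersurfaces `z = x2 ^ 2 μ_i`, with `μ_i - μ_j` units. -/

namespace Pool.Agent.Helper38.ED

open MvPowerSeries Pool.Agent.Helper38.EQ

variable {n : ℕ} {K : Type} [Field K] [CharZero K] {k l : ℕ} {B : BasisClass}

omit [CharZero K] in
private theorem LevelUa_LI {z x2 : MvPowerSeries (Fin (n + 1)) K} (h : LI ![z, x2])
    (m : MvPowerSeries (Fin (n + 1)) K) : LI ![z - x2 ^ 2 * m, x2] := by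
  refine h.congr ?_
  intro i
  fin_cases i
  · have h2 : x2 ∈ IsLocalRing.maximalIdeal (MvPowerSeries (Fin (n + 1)) K) := h.mem 1
    have h3 := Ideal.mul_mem_right m _ (Ideal.pow_mem_pow h2 2)
    have h4 : (z - x2 ^ 2 * m) - z = -(x2 ^ 2 * m) := by ring
    change (z - x2 ^ 2 * m) - z ∈ _
    rw [h4]
    exact Ideal.neg_mem_iff _ |>.2 h3
  · change x2 - x2 ∈ _
    rw [sub_self]
    exact Ideal.zero_mem _

omit [CharZero K] in
private theorem LevelUa_sm {z x2 : MvPowerSeries (Fin (n + 1)) K} (h : LI ![z, x2])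
    (m : MvPowerSeries (Fin (n + 1)) K) :
    z - x2 ^ 2 * m ∈ IsLocalRing.maximalIdeal (MvPowerSeries (Fin (n + 1)) K) ∧
      z - x2 ^ 2 * m ∉ IsLocalRing.maximalIdeal (MvPowerSeries (Fin (n + 1)) K) ^ 2 :=
  ⟨(LevelUa_LI h m).mem 0, (LevelUa_LI h m).notMem_sq 0⟩

section

variable {z x2 : MvPowerSeries (Fin (n + 1)) K} {μ : Fin l → MvPowerSeries (Fin (n + 1)) K}

omit [CharZero K] in
private theorem LevelUa_pull (p : Proj n K) (s : ∀ i, Sec p (z - x2 ^ 2 * μ i)) (i j : Fin l) :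
    (s i).pull (z - x2 ^ 2 * μ j) = - ((s i).pull x2 ^ 2 * (s i).pull (μ j - μ i)) := by
  have h1 := (s i).pull_self
  rw [map_sub, map_mul, map_pow] at h1
  rw [map_sub, map_mul, map_pow, map_sub]
  linear_combination h1

omit [CharZero K] in
private theorem LevelUa_assoc (hμ : ∀ i j, i ≠ j → IsUnit (μ i - μ j)) (p : Proj n K)
    (s : ∀ i, Sec p (z - x2 ^ 2 * μ i)) {i j : Fin l} (hij : i ≠ j) :
    Associated ((s i).pull (z - x2 ^ 2 * μ j)) ((s i).pull x2 ^ 2) := by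
  rw [LevelUa_pull p s i j]
  exact (Associated.neg_left (Associated.refl _)).trans
    (associated_mul_unit_left _ _ ((hμ j i hij.symm).map _))

omit [CharZero K] in
private theorem LevelUa_x2 (h : LI ![z, x2]) (p : Proj n K)
    (s : ∀ i, Sec p (z - x2 ^ 2 * μ i)) (i0 i : Fin l) :
    Associated ((s i).pull x2) ((s i0).pull x2) := by
  have h1 : (s i0).pull x2 ^ 2 ∣ (s i).r - (s i0).r := by
    have h2 := (s i0).assoc (s i)
    have h3 : (s i0).pull x2 ^ 2 ∣ (s i0).pull (z - x2 ^ 2 * μ i) := by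
      rw [LevelUa_pull p s i0 i]
      exact (Dvd.intro _ rfl).neg_right
    have h4 : (s i0).pull x2 ^ 2 ∣ (s i0).r - (s i).r := h3.trans h2.dvd
    have h5 := h4.neg_right
    rwa [neg_sub] at h5
  have hb : (s i0).pull x2 ∈ IsLocalRing.maximalIdeal (R1 n K) := (s i0).pull_mem (h.mem 1)
  obtain ⟨t, ht⟩ := h1.trans ((s i0).pull_sub_dvd (s i) x2)
  have hu : IsUnit (1 + (s i0).pull x2 * t) :=
    isUnit_one_add (K := GenField n K) (Ideal.mul_mem_right _ _ hb)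
  have heq : (s i).pull x2 = (s i0).pull x2 * (1 + (s i0).pull x2 * t) := by
    linear_combination ht
  rw [heq]
  exact associated_mul_unit_left _ _ hu

omit [CharZero K] in
private theorem LevelUa_P (h : LI ![z, x2]) (p : Proj n K)
    (s : ∀ i, Sec p (z - x2 ^ 2 * μ i)) (i0 : Fin l) :
    (s i0).pull x2 ∈ IsLocalRing.maximalIdeal (R1 n K) ∧
      (s i0).pull x2 ∉ IsLocalRing.maximalIdeal (R1 n K) ^ 2 := by
  have h1 : LI (Fin.cons (z - x2 ^ 2 * μ i0) ![x2] : Fin 2 → MvPowerSeries (Fin (n + 1)) K) :=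
    LevelUa_LI h (μ i0)
  have h2 := (s i0).LI_pull ![x2] h1
  exact ⟨h2.mem 0, h2.notMem_sq 0⟩

omit [CharZero K] in
private theorem LevelUa_disc (hl : 2 ≤ l) (h : LI ![z, x2])
    (hμ : ∀ i j, i ≠ j → IsUnit (μ i - μ j)) (p : Proj n K)
    (s : ∀ i, Sec p (z - x2 ^ 2 * μ i)) :
    IsDisc s ((s ⟨0, by omega⟩).pull x2) ∧
      ∀ i j, i < j → (s ⟨0, by omega⟩).pull x2 ∣ (s i).pull (z - x2 ^ 2 * μ j) := by
  classical
  have hP := LevelUa_P h p s ⟨0, by omega⟩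
  have hprime := prime_of_notMem_sq hP.1 hP.2
  have key : ∀ i j : Fin l, i < j → Associated ((s i).pull (z - x2 ^ 2 * μ j))
      ((s ⟨0, by omega⟩).pull x2 ^ 2) := fun i j hij =>
    (LevelUa_assoc hμ p s (ne_of_lt hij)).trans ((LevelUa_x2 h p s ⟨0, by omega⟩ i).pow_pow)
  have hdvd : ∀ i j : Fin l, i < j →
      (s ⟨0, by omega⟩).pull x2 ∣ (s i).pull (z - x2 ^ 2 * μ j) := fun i j hij =>
    (dvd_pow_self _ two_ne_zero).trans (key i j hij).symm.dvd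
  refine ⟨⟨fun y N hy => hprime.dvd_of_dvd_pow hy, fun i j hij => ⟨2, (key i j hij).dvd⟩,
    ⟨1, ?_⟩⟩, hdvd⟩
  rw [pow_one]
  have h01 : (⟨0, by omega⟩ : Fin l) < ⟨1, by omega⟩ := by
    rw [Fin.lt_def]
    exact Nat.zero_lt_one
  refine (hdvd _ _ h01).trans ?_
  refine Dvd.dvd.trans ?_ (Finset.dvd_prod_of_mem _ (Finset.mem_univ (⟨0, by omega⟩ : Fin l)))
  exact Finset.dvd_prod_of_mem _ (Finset.mem_filter.2 ⟨Finset.mem_univ _, h01⟩)

end

/-- Unions of `≥ 2` smooth hypersurfaces `z - x2 ^ 2 m_i = 0`, where all differences `m_i - m_j` are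
units: the critical variety is smooth, with equation `b = ι_0 x2` (`ι_i e_j = (ι_i x2) ^ 2 * unit`,
and `ι_i x2 ~ ι_0 x2` as in `Good.x2_assoc`). Positive direction. -/
theorem pos_units (hB : HasStd B) (hl : 2 ≤ l) {z x2 : MvPowerSeries (Fin (n + 1)) K}
    {μ : Fin l → MvPowerSeries (Fin (n + 1)) K} (h : LI ![z, x2])
    (hμ : ∀ i j, i ≠ j → IsUnit (μ i - μ j)) {f : MvPowerSeries (Fin (n + 1)) K}
    (hf : Associated f (∏ i, (z - x2 ^ 2 * μ i)))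
    {I : Ideal (MvPowerSeries (Fin (n + 1)) K)} (hI : I ≠ ⊤) (hz : z ∈ I) (h2 : x2 ∈ I) :
    EqLen B 1 (n + 1) K f I := by
  refine pos_disc hB (e := fun i => z - x2 ^ 2 * μ i) (fun i => LevelUa_sm h (μ i)) hl hf hI
    (fun i => ?_) (fun p s => ?_)
  · exact I.sub_mem hz (I.mul_mem_right _ (I.pow_mem_of_mem h2 2 two_pos))
  · have h3 := LevelUa_P h p s ⟨0, by omega⟩
    exact ⟨_, (LevelUa_disc hl h hμ p s).1, h3.1, h3.2⟩

/-- Negative direction (`neg_disc` gives `z - x2 ^ 2 μ_i ∈ I`, so `x2 ^ 2 ∈ I` and `z ∈ I`). -/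
theorem neg_units (hl : 2 ≤ l) {z x2 : MvPowerSeries (Fin (n + 1)) K}
    {μ : Fin l → MvPowerSeries (Fin (n + 1)) K} (h : LI ![z, x2])
    (hμ : ∀ i j, i ≠ j → IsUnit (μ i - μ j)) {f : MvPowerSeries (Fin (n + 1)) K}
    (hf : Associated f (∏ i, (z - x2 ^ 2 * μ i)))
    {I : Ideal (MvPowerSeries (Fin (n + 1)) K)} (hI : I.IsRadical)
    (hE : EqLen B k (n + 1) K f I) : z ∈ I ∧ x2 ∈ I := by
  have he := neg_disc (e := fun i => z - x2 ^ 2 * μ i) (fun i => LevelUa_sm h (μ i)) hl hf hI hE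
    (fun p s => ⟨_, LevelUa_disc hl h hμ p s⟩)
  have e0 : z - x2 ^ 2 * μ ⟨0, by omega⟩ ∈ I := he ⟨0, by omega⟩
  have e1 : z - x2 ^ 2 * μ ⟨1, by omega⟩ ∈ I := he ⟨1, by omega⟩
  have hne : (⟨0, by omega⟩ : Fin l) ≠ ⟨1, by omega⟩ := by
    intro h3
    exact zero_ne_one (congrArg Fin.val h3)
  have h3 : x2 ^ 2 * (μ ⟨0, by omega⟩ - μ ⟨1, by omega⟩) ∈ I := by
    have h4 := I.sub_mem e1 e0
    have h5 : z - x2 ^ 2 * μ ⟨1, by omega⟩ - (z - x2 ^ 2 * μ ⟨0, by omega⟩) =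
        x2 ^ 2 * (μ ⟨0, by omega⟩ - μ ⟨1, by omega⟩) := by ring
    rwa [h5] at h4
  have h4 : x2 ^ 2 ∈ I := (Ideal.mul_unit_mem_iff_mem _ (hμ _ _ hne)).1 h3
  refine ⟨?_, hI ⟨2, h4⟩⟩
  have h5 := I.add_mem e0 (I.mul_mem_right (μ ⟨0, by omega⟩) h4)
  rwa [sub_add_cancel] at h5

end Pool.Agent.Helper38.ED
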