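import Pool.Agent.Helper38.ED.MildCalc
import Pool.Agent.Helper38.ED.CalcU1

/-! Equisingularity of `V` at the points where `x₃` is not zero. -/

namespace Pool.Agent.Helper38.ED

open MvPowerSeries Pool.Agent.Helper38.EQ

variable {n : ℕ} {K : Type} [Field K] [CharZero K] {k : ℕ} {B : BasisClass}

/-- The data of the critical variety. -/
private theorem LevelUb_data {m : ℕ} {z x1 x2 x3 a0 a1 : MvPowerSeries (Fin (m + 1)) K}
    (h : Mild z x1 x2 a1) (h3 : IsUnit x3) (p : Proj m K)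
    (s : ∀ i, Sec p (comps0 z x1 x2 x3 a0 a1 i)) :
    ∃ c d : R1 m K, LI ![(s 0).pull x1, (s 0).pull x2] ∧ IsUnit c ∧
      IsDisc s (∏ i, comps1 ((s 0).pull x1) ((s 0).pull x2) c d i) ∧
      (∀ i j, i < j → (s 0).pull x2 ∣ (s i).pull (comps0 z x1 x2 x3 a0 a1 j)) := by
  have := charZero_gen m K
  obtain ⟨c, d, w, q, hLI, hdisc, hdvd, hc, -, -, -⟩ :=
    calc0_mild (x3 := x3) (a0 := a0) h p s
  have m2 : (s 0).pull x2 ∈ IsLocalRing.maximalIdeal (R1 m K) := hLI.mem 1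
  have hu3 : IsUnit ((s 0).pull x3) := h3.map _
  have hcu : IsUnit c := by
    by_contra hnu
    have h6 : c ∈ IsLocalRing.maximalIdeal (R1 m K) :=
      (IsLocalRing.mem_maximalIdeal c).2 (mem_nonunits_iff.2 hnu)
    have h7 := Ideal.sub_mem _ h6 (Ideal.mem_of_dvd _ hc m2)
    rw [sub_sub_cancel, IsLocalRing.mem_maximalIdeal, mem_nonunits_iff] at h7
    exact h7 hu3
  exact ⟨c, d, hLI, hcu, hdisc (rad_comps1u hLI hcu), hdvd⟩

/-- `x3` is a unit. Positive direction: `calc0_mild`, `rad_comps1u`, `pos_disc_step`, `pos1u`. -/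
theorem pos_x3 (hB : HasStd B) {z x1 x2 x3 a0 a1 f : MvPowerSeries (Fin (n + 2)) K}
    (h : Mild z x1 x2 a1) (h3 : IsUnit x3) (hf : Associated f (∏ i, comps0 z x1 x2 x3 a0 a1 i))
    {I : Ideal (MvPowerSeries (Fin (n + 2)) K)} (hI : I ≠ ⊤)
    (hz : z ∈ I) (h1 : x1 ∈ I) (h2 : x2 ∈ I) : EqLen B 2 (n + 2) K f I := by
  have := charZero_gen (n + 1) K
  refine pos_disc_step hB (fun i => h.comps_mem i) (by norm_num) hf ?_ ?_
  · have key : ∀ g : MvPowerSeries (Fin (n + 2)) K, z - x2 ^ 2 * g ∈ I := fun g =>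
      Ideal.sub_mem _ hz (Ideal.mul_mem_right _ _ (Ideal.pow_mem_of_mem _ h2 2 (by norm_num)))
    have k1 := key 1
    rw [mul_one] at k1
    intro i
    fin_cases i
    · exact hz
    · exact key _
    · exact k1
    · exact key _
    · exact key _
    · exact key _
  · intro p s
    obtain ⟨c, d, hLI, hc, hdisc, -⟩ := LevelUb_data h h3 p s
    have hz0 : comps0 z x1 x2 x3 a0 a1 0 ∈ I := hz
    have e1 : (s 0).pull x1 ∈ p.img I := (s 0).pull_mem_img hz0 h1
    have e2 : (s 0).pull x2 ∈ p.img I := (s 0).pull_mem_img hz0 h2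
    exact ⟨_, hdisc, pos1u hB hLI hc (Associated.refl _) (p.img_ne_top hI) e1 e2⟩

/-- A product of divisors of powers divides a power. -/
private theorem LevelUb_prod_dvd {R : Type} [CommRing R] {ι : Type} (t : Finset ι) (a : ι → R)
    (P : R) (h : ∀ i ∈ t, ∃ N, a i ∣ P ^ N) : ∃ N, (∏ i ∈ t, a i) ∣ P ^ N := by
  classical
  induction t using Finset.induction_on with
  | empty => exact ⟨0, by simp⟩
  | insert x s hx ih =>
    obtain ⟨N, hN⟩ := ih fun i hi => h i (Finset.mem_insert_of_mem hi)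
    obtain ⟨M, hM⟩ := h x (Finset.mem_insert_self x s)
    refine ⟨M + N, ?_⟩
    rw [Finset.prod_insert hx, pow_add]
    exact mul_dvd_mul hM hN

/-- The equation of the critical variety is unique up to a unit. -/
private theorem LevelUb_unique {n : ℕ} {K : Type} [Field K] {p : Proj n K} {m : ℕ}
    {e : Fin m → MvPowerSeries (Fin (n + 1)) K} {s : ∀ i, Sec p (e i)} {P P' : R1 n K}
    (h : IsDisc s P) (h' : IsDisc s P') : Associated P P' := by
  have key : ∀ {Q Q' : R1 n K}, IsDisc s Q → IsDisc s Q' → Q ∣ Q' := by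
    intro Q Q' hQ hQ'
    obtain ⟨N, hN⟩ := hQ.dvd'
    obtain ⟨M, hM⟩ := LevelUb_prod_dvd Finset.univ
      (fun i => ∏ j ∈ Finset.univ.filter (fun j => i < j), (s i).pull (e j)) Q'
      fun i _ => LevelUb_prod_dvd _ _ Q' fun j hj => hQ'.dvd i j (Finset.mem_filter.1 hj).2
    refine hQ.rad Q' (M * N) ?_
    rw [pow_mul]
    exact hN.trans (pow_dvd_pow_of_dvd hM N)
  exact associated_of_dvd_dvd (key h h') (key h' h)

/-- Negative direction: `neg_disc_step`, `neg1u`, `Sec.mem_of_pull_mem`. -/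
theorem neg_x3 {z x1 x2 x3 a0 a1 f : MvPowerSeries (Fin (n + 2)) K}
    (h : Mild z x1 x2 a1) (h3 : IsUnit x3) (hf : Associated f (∏ i, comps0 z x1 x2 x3 a0 a1 i))
    {I : Ideal (MvPowerSeries (Fin (n + 2)) K)} (hI : I.IsRadical)
    (hE : EqLen B k (n + 2) K f I) : z ∈ I ∧ x1 ∈ I ∧ x2 ∈ I := by
  have := charZero_gen (n + 1) K
  obtain ⟨k', p, s, P, g, -, hP, hgP, hE', hall⟩ := neg_disc_step
    (e := comps0 z x1 x2 x3 a0 a1) (fun i => h.comps_mem i) (by norm_num) hf hI hE (by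
      intro p s
      obtain ⟨c, d, hLI, hc, hdisc, hdvd⟩ := LevelUb_data h h3 p s
      refine ⟨_, hdisc, fun k' g J hg hJ hEJ i j hij => ?_⟩
      exact Ideal.mem_of_dvd _ (hdvd i j hij) (neg1u hLI hc hg hJ hEJ).2)
  obtain ⟨c, d, hLI, hc, hdisc, hdvd⟩ := LevelUb_data h h3 p s
  obtain ⟨e1, e2⟩ := neg1u hLI hc (hgP.trans (LevelUb_unique hP hdisc)) (p.img_isRadical I) hE'
  have hz0 : comps0 z x1 x2 x3 a0 a1 0 ∈ I := hall 0
  have hz : z ∈ I := hz0
  exact ⟨hz, (s 0).mem_of_pull_mem hI hz0 e1, (s 0).mem_of_pull_mem hI hz0 e2⟩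

end Pool.Agent.Helper38.ED
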