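import Pool.Agent.Helper38.ED.Comps

/-! Genericity at a point. -/

namespace Pool.Agent.Helper38.ED

open MvPowerSeries Pool.Agent.Helper38.EQ

/-- The constant term of the value on a section. -/
private theorem LevelUc_eps {m : ℕ} {K : Type} [Field K] {p : Proj m K}
    {e : MvPowerSeries (Fin (m + 1)) K} (s : Sec p e) (φ : PowerSeries (R1 m K)) :
    PowerSeries.constantCoeff (PowerSeries.map (constantCoeff (σ := Fin m) (R := GenField m K)) φ)
      = constantCoeff (s.ε φ) := by
  obtain ⟨q, hq⟩ := s.ε_dvd φ
  have hr : constantCoeff s.r = 0 := (mem_maximalIdeal_iff_constantCoeff _).mp s.r_mem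
  conv_lhs => rw [hq]
  rw [map_add, map_mul, map_sub, PowerSeries.map_X, PowerSeries.map_C, PowerSeries.map_C, hr,
    map_add, map_mul, map_zero, sub_zero, PowerSeries.constantCoeff_X, zero_mul, add_zero,
    PowerSeries.constantCoeff_C]

/-- The constant term of the restriction. -/
private theorem LevelUc_pull {m : ℕ} {K : Type} [Field K] {p : Proj m K}
    {e : MvPowerSeries (Fin (m + 1)) K} (s : Sec p e) (a : MvPowerSeries (Fin (m + 1)) K) :
    constantCoeff (s.pull a) = algebraMap K (GenField m K) (constantCoeff a) := by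
  have h1 : a - C (constantCoeff a) ∈
      IsLocalRing.maximalIdeal (MvPowerSeries (Fin (m + 1)) K) := by
    rw [mem_maximalIdeal_iff_constantCoeff, map_sub, constantCoeff_C, sub_self]
  have h2 := s.pull_mem h1
  rw [mem_maximalIdeal_iff_constantCoeff, map_sub, map_sub, sub_eq_zero] at h2
  rw [h2, ← s.ev_ex]
  have h3 : (ex (C (constantCoeff a)) : SL m K) =
      C (algebraMap K (GenField m K) (constantCoeff a)) := by
    simp [ex, EQ.ext]
  rw [h3, s.ev_C, constantCoeff_C]

/-- The genericity at the point: if `α₀, α₁ ∈ K` are the constant terms of `a0`, `a1`, not both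
zero, then `ι a0 + w ι a1` is a unit. Proof: apply `exists_root` to `h = α₀ z + α₁ x1`, which is
not in `𝔪 ^ 2`: the coefficient of `X` in `σ (ex h)` is the constant term of a unit; it is
`α₀ u + α₁ q₀`, with `u`, `q₀` the constant terms of `s.U` and `q`; and the constant term of
`s.pull a_i` is (the image in `GenField` of) `α_i`, that of `w` is `q₀ / u`. -/
theorem unit_of_generic {m : ℕ} {K : Type} [Field K] [CharZero K] {p : Proj m K} {z x1 a0 a1 : MvPowerSeries (Fin (m + 1)) K}
    (h : LI ![z, x1]) (h0 : constantCoeff a0 ≠ 0 ∨ constantCoeff a1 ≠ 0) (s : Sec p z)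
    {w : R1 m K} {q : PowerSeries (R1 m K)}
    (hq : p.σ (ex x1) = PowerSeries.C (s.pull x1) + (PowerSeries.X - PowerSeries.C s.r) * q)
    (hw : w * s.ε s.U = s.ε q) : IsUnit (s.pull a0 + w * s.pull a1) := by
  set α := constantCoeff a0 with hα
  set β := constantCoeff a1 with hβ
  have hm := (LI_iff _).mp h
  have hz : z ∈ IsLocalRing.maximalIdeal (MvPowerSeries (Fin (m + 1)) K) := hm.1 0
  have hx : x1 ∈ IsLocalRing.maximalIdeal (MvPowerSeries (Fin (m + 1)) K) := hm.1 1
  have h1 : C α * z + C β * x1 ∈ IsLocalRing.maximalIdeal (MvPowerSeries (Fin (m + 1)) K) :=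
    Ideal.add_mem _ (Ideal.mul_mem_left _ _ hz) (Ideal.mul_mem_left _ _ hx)
  have h2 : C α * z + C β * x1 ∉
      IsLocalRing.maximalIdeal (MvPowerSeries (Fin (m + 1)) K) ^ 2 := by
    intro hmem
    have h3 := hm.2 ![α, β] (by
      rw [Fin.sum_univ_two]
      exact hmem)
    rcases h0 with h4 | h4
    · exact h4 (congrFun h3 0)
    · exact h4 (congrFun h3 1)
  obtain ⟨r', U', hr', hU', hE⟩ := exists_root p _ h1 h2
  have hr : constantCoeff s.r = 0 := (mem_maximalIdeal_iff_constantCoeff _).mp s.r_mem
  have hr1 : constantCoeff r' = 0 := (mem_maximalIdeal_iff_constantCoeff _).mp hr'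
  have hp1 : constantCoeff (s.pull x1) = 0 :=
    (mem_maximalIdeal_iff_constantCoeff _).mp (s.pull_mem hx)
  have hC : ∀ c : K, p.σ (ex (C c)) =
      PowerSeries.C (C (algebraMap K (GenField m K) c)) := by
    intro c
    have h3 : (ex (C c) : SL m K) = algebraMap (GenField m K) (SL m K)
        (algebraMap K (GenField m K) c) := by
      simp [ex, EQ.ext, MvPowerSeries.algebraMap_apply]
    rw [h3, AlgEquiv.commutes, PowerSeries.algebraMap_apply, MvPowerSeries.algebraMap_apply,
      Algebra.algebraMap_self, RingHom.id_apply]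
  have hE2 : U' * (PowerSeries.X - PowerSeries.C r') =
      PowerSeries.C (C (algebraMap K (GenField m K) α)) *
        (s.U * (PowerSeries.X - PowerSeries.C s.r)) +
      PowerSeries.C (C (algebraMap K (GenField m K) β)) *
        (PowerSeries.C (s.pull x1) + (PowerSeries.X - PowerSeries.C s.r) * q) := by
    rw [← hE, map_add, map_mul, map_mul, map_add, map_mul, map_mul, hC, hC, s.eq, hq]
  have hE3 := congrArg (PowerSeries.map (constantCoeff (σ := Fin m) (R := GenField m K))) hE2
  simp only [map_add, map_mul, map_sub, PowerSeries.map_X, PowerSeries.map_C, hr, hr1, hp1,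
    map_zero, sub_zero, zero_add, constantCoeff_C] at hE3
  have hE4 : PowerSeries.map (constantCoeff (σ := Fin m) (R := GenField m K)) U' =
      PowerSeries.C (algebraMap K (GenField m K) α) *
        PowerSeries.map (constantCoeff (σ := Fin m) (R := GenField m K)) s.U +
      PowerSeries.C (algebraMap K (GenField m K) β) *
        PowerSeries.map (constantCoeff (σ := Fin m) (R := GenField m K)) q := by
    apply mul_right_cancel₀ (PowerSeries.X_ne_zero (R := GenField m K))
    rw [hE3]
    ring
  have hE5 := congrArg (PowerSeries.constantCoeff (R := GenField m K)) hE4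
  rw [map_add, map_mul, map_mul, PowerSeries.constantCoeff_C, PowerSeries.constantCoeff_C,
    LevelUc_eps s s.U, LevelUc_eps s q, ← hw, map_mul] at hE5
  have hu : IsUnit (PowerSeries.constantCoeff
      (PowerSeries.map (constantCoeff (σ := Fin m) (R := GenField m K)) U')) :=
    (hU'.map (PowerSeries.map (constantCoeff (σ := Fin m) (R := GenField m K)))).map
      (PowerSeries.constantCoeff (R := GenField m K))
  rw [MvPowerSeries.isUnit_iff_constantCoeff, map_add, map_mul, LevelUc_pull s a0,
    LevelUc_pull s a1, ← hα, ← hβ, isUnit_iff_ne_zero]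
  intro h5
  apply hu.ne_zero
  rw [hE5]
  linear_combination (constantCoeff (s.ε s.U)) * h5

end Pool.Agent.Helper38.ED
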