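import Pool.Agent.Helper38.ED.MildCalc
import Pool.Agent.Helper38.ED.CalcV1
import Pool.Agent.Helper38.ED.LevelUc

/-! Equisingularity of `V` at the points where `x₃ = 0` and `a₀`, `a₁` are not both zero. -/

namespace Pool.Agent.Helper38.ED

open MvPowerSeries Pool.Agent.Helper38.EQ

variable {n : ℕ} {K : Type} [Field K] [CharZero K] {k : ℕ} {B : BasisClass}

/-- The data of the critical variety. -/
private theorem LevelUd_data {m : ℕ} {z x1 x2 x3 a0 a1 : MvPowerSeries (Fin (m + 1)) K}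
    (h : Mild z x1 x2 a1) (h3 : LI ![z, x1, x2, x3])
    (h0 : constantCoeff a0 ≠ 0 ∨ constantCoeff a1 ≠ 0) (p : Proj m K)
    (s : ∀ i, Sec p (comps0 z x1 x2 x3 a0 a1 i)) :
    ∃ c d : R1 m K, LI ![(s 0).pull x1, (s 0).pull x2, c] ∧ IsUnit d ∧
      IsDisc s (∏ i, comps1 ((s 0).pull x1) ((s 0).pull x2) c d i) ∧
      (∀ i j, i < j → (s 0).pull x2 ∣ (s i).pull (comps0 z x1 x2 x3 a0 a1 j)) ∧
      (s 0).pull x2 ∣ c - (s 0).pull x3 := by
  have := charZero_gen m K
  obtain ⟨c, d, w, q, hLI, hdisc, hdvd, hc, hq, hw, hd⟩ := calc0_mild (x3 := x3) (a0 := a0) h p s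
  have hcons : LI (Fin.cons (comps0 z x1 x2 x3 a0 a1 0) ![x1, x2, x3] :
      Fin 4 → MvPowerSeries (Fin (m + 1)) K) := h3
  have h4 := (s 0).LI_pull ![x1, x2, x3] hcons
  have e4 : (fun i => (s 0).pull ((![x1, x2, x3] : Fin 3 → MvPowerSeries (Fin (m + 1)) K) i)) =
      ![(s 0).pull x1, (s 0).pull x2, (s 0).pull x3] := by
    funext i
    fin_cases i <;> rfl
  rw [e4] at h4
  have m1 : (s 0).pull x1 ∈ IsLocalRing.maximalIdeal (R1 m K) := h4.mem 0
  have m2 : (s 0).pull x2 ∈ IsLocalRing.maximalIdeal (R1 m K) := h4.mem 1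
  have m3 : (s 0).pull x3 ∈ IsLocalRing.maximalIdeal (R1 m K) := h4.mem 2
  have mc : c ∈ IsLocalRing.maximalIdeal (R1 m K) := by
    have h5 := Ideal.add_mem _ (Ideal.mem_of_dvd _ hc m2) m3
    rwa [sub_add_cancel] at h5
  have hLI3 : LI ![(s 0).pull x1, (s 0).pull x2, c] := by
    refine h4.of_span ?_ ?_
    · intro i
      fin_cases i
      · exact m1
      · exact m2
      · exact mc
    · have r0 : (s 0).pull x1 ∈ Ideal.span (Set.range ![(s 0).pull x1, (s 0).pull x2, c]) :=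
        Ideal.subset_span ⟨0, rfl⟩
      have r1 : (s 0).pull x2 ∈ Ideal.span (Set.range ![(s 0).pull x1, (s 0).pull x2, c]) :=
        Ideal.subset_span ⟨1, rfl⟩
      have r2 : c ∈ Ideal.span (Set.range ![(s 0).pull x1, (s 0).pull x2, c]) :=
        Ideal.subset_span ⟨2, rfl⟩
      intro i
      fin_cases i
      · exact r0
      · exact r1
      · have h5 := Ideal.sub_mem _ r2 (Ideal.mem_of_dvd _ hc r1)
        rwa [sub_sub_cancel] at h5
  have hzx : LI ![z, x1] := by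
    have h5 := h.li.comp (![0, 1] : Fin 2 → Fin 3) (by decide)
    have e5 : (fun i => (![z, x1, x2] : Fin 3 → MvPowerSeries (Fin (m + 1)) K)
        ((![0, 1] : Fin 2 → Fin 3) i)) = ![z, x1] := by
      funext i
      fin_cases i <;> rfl
    rwa [e5] at h5
  have hu : IsUnit ((s 0).pull a0 + w * (s 0).pull a1) := unit_of_generic hzx h0 (s 0) hq hw
  have hdu : IsUnit d := by
    have h5 : d - ((s 0).pull a0 + w * (s 0).pull a1) ∈ IsLocalRing.maximalIdeal (R1 m K) := by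
      have h6 : Ideal.span {(s 0).pull x2, (s 0).pull x3} ≤ IsLocalRing.maximalIdeal (R1 m K) := by
        rw [Ideal.span_le]
        rintro x (rfl | rfl)
        · exact m2
        · exact m3
      exact h6 hd
    by_contra hnu
    have h6 : d ∈ IsLocalRing.maximalIdeal (R1 m K) :=
      (IsLocalRing.mem_maximalIdeal d).2 (mem_nonunits_iff.2 hnu)
    have h7 := Ideal.sub_mem _ h6 h5
    rw [sub_sub_cancel, IsLocalRing.mem_maximalIdeal, mem_nonunits_iff] at h7
    exact h7 hu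
  exact ⟨c, d, hLI3, hdu, hdisc (rad_comps1v hLI3 hdu), hdvd, hc⟩

/-- `x3` is in the maximal ideal, `a0` or `a1` is a unit. Positive direction: `calc0_mild`,
`unit_of_generic` (so `d` is a unit), `rad_comps1v`, `pos_disc_step`, `pos1v`; `LI ![a, b, c]` by
`Sec.LI_pull` and `LI.of_span`. -/
theorem pos_a (hB : HasStd B) {z x1 x2 x3 a0 a1 f : MvPowerSeries (Fin (n + 3)) K}
    (h : Mild z x1 x2 a1) (h3 : LI ![z, x1, x2, x3])
    (h0 : constantCoeff a0 ≠ 0 ∨ constantCoeff a1 ≠ 0)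
    (hf : Associated f (∏ i, comps0 z x1 x2 x3 a0 a1 i))
    {I : Ideal (MvPowerSeries (Fin (n + 3)) K)} (hI : I ≠ ⊤)
    (hz : z ∈ I) (hx1 : x1 ∈ I) (hx2 : x2 ∈ I) (hx3 : x3 ∈ I) : EqLen B 3 (n + 3) K f I := by
  have := charZero_gen (n + 2) K
  refine pos_disc_step hB (fun i => h.comps_mem i) (by norm_num) hf ?_ ?_
  · have key : ∀ g : MvPowerSeries (Fin (n + 3)) K, z - x2 ^ 2 * g ∈ I := fun g =>
      Ideal.sub_mem _ hz (Ideal.mul_mem_right _ _ (Ideal.pow_mem_of_mem _ hx2 2 (by norm_num)))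
    have k1 := key 1
    rw [mul_one] at k1
    intro i
    fin_cases i
    · exact hz
    · exact key _
    · exact k1
    · exact key _
    · exact key _
    · exact key _
  · intro p s
    obtain ⟨c, d, hLI, hd, hdisc, -, hc⟩ := LevelUd_data h h3 h0 p s
    have hz0 : comps0 z x1 x2 x3 a0 a1 0 ∈ I := hz
    have e1 : (s 0).pull x1 ∈ p.img I := (s 0).pull_mem_img hz0 hx1
    have e2 : (s 0).pull x2 ∈ p.img I := (s 0).pull_mem_img hz0 hx2
    have e3 : (s 0).pull x3 ∈ p.img I := (s 0).pull_mem_img hz0 hx3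
    have ec : c ∈ p.img I := by
      have h6 := Ideal.add_mem _ (Ideal.mem_of_dvd _ hc e2) e3
      rwa [sub_add_cancel] at h6
    exact ⟨_, hdisc, pos1v hB hLI hd (Associated.refl _) (p.img_ne_top hI) e1 e2 ec⟩

/-- A product of divisors of powers divides a power. -/
private theorem LevelUd_prod_dvd {R : Type} [CommRing R] {ι : Type} (t : Finset ι) (a : ι → R)
    (P : R) (h : ∀ i ∈ t, ∃ N, a i ∣ P ^ N) : ∃ N, (∏ i ∈ t, a i) ∣ P ^ N := by
  classical
  induction t using Finset.induction_on with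
  | empty => exact ⟨0, by simp⟩
  | insert x s hx ih =>
    obtain ⟨N, hN⟩ := ih fun i hi => h i (Finset.mem_insert_of_mem hi)
    obtain ⟨M, hM⟩ := h x (Finset.mem_insert_self x s)
    refine ⟨M + N, ?_⟩
    rw [Finset.prod_insert hx, pow_add]
    exact mul_dvd_mul hM hN

/-- The equation of the critical variety is unique up to a unit. -/
private theorem LevelUd_unique {n : ℕ} {K : Type} [Field K] {p : Proj n K} {m : ℕ}
    {e : Fin m → MvPowerSeries (Fin (n + 1)) K} {s : ∀ i, Sec p (e i)} {P P' : R1 n K}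
    (h : IsDisc s P) (h' : IsDisc s P') : Associated P P' := by
  have key : ∀ {Q Q' : R1 n K}, IsDisc s Q → IsDisc s Q' → Q ∣ Q' := by
    intro Q Q' hQ hQ'
    obtain ⟨N, hN⟩ := hQ.dvd'
    obtain ⟨M, hM⟩ := LevelUd_prod_dvd Finset.univ
      (fun i => ∏ j ∈ Finset.univ.filter (fun j => i < j), (s i).pull (e j)) Q'
      fun i _ => LevelUd_prod_dvd _ _ Q' fun j hj => hQ'.dvd i j (Finset.mem_filter.1 hj).2
    refine hQ.rad Q' (M * N) ?_
    rw [pow_mul]
    exact hN.trans (pow_dvd_pow_of_dvd hM N)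
  exact associated_of_dvd_dvd (key h h') (key h' h)

/-- Negative direction: `neg_disc_step`, `neg1v`, `Sec.mem_of_pull_mem`. -/
theorem neg_a {z x1 x2 x3 a0 a1 f : MvPowerSeries (Fin (n + 3)) K}
    (h : Mild z x1 x2 a1) (h3 : LI ![z, x1, x2, x3])
    (h0 : constantCoeff a0 ≠ 0 ∨ constantCoeff a1 ≠ 0)
    (hf : Associated f (∏ i, comps0 z x1 x2 x3 a0 a1 i))
    {I : Ideal (MvPowerSeries (Fin (n + 3)) K)} (hI : I.IsRadical)
    (hE : EqLen B k (n + 3) K f I) : z ∈ I ∧ x1 ∈ I ∧ x2 ∈ I ∧ x3 ∈ I := by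
  have := charZero_gen (n + 2) K
  obtain ⟨k', p, s, P, g, -, hP, hgP, hE', hall⟩ := neg_disc_step
    (e := comps0 z x1 x2 x3 a0 a1) (fun i => h.comps_mem i) (by norm_num) hf hI hE (by
      intro p s
      obtain ⟨c, d, hLI, hd, hdisc, hdvd, hc⟩ := LevelUd_data h h3 h0 p s
      refine ⟨_, hdisc, fun k' g J hg hJ hEJ i j hij => ?_⟩
      exact Ideal.mem_of_dvd _ (hdvd i j hij) (neg1v hLI hd hg hJ hEJ).2.1)
  obtain ⟨c, d, hLI, hd, hdisc, hdvd, hc⟩ := LevelUd_data h h3 h0 p s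
  obtain ⟨e1, e2, ec⟩ := neg1v hLI hd (hgP.trans (LevelUd_unique hP hdisc)) (p.img_isRadical I) hE'
  have e3 : (s 0).pull x3 ∈ p.img I := by
    have h7 := Ideal.sub_mem _ ec (Ideal.mem_of_dvd _ hc e2)
    rwa [sub_sub_cancel] at h7
  have hz0 : comps0 z x1 x2 x3 a0 a1 0 ∈ I := hall 0
  have hz : z ∈ I := hz0
  exact ⟨hz, (s 0).mem_of_pull_mem hI hz0 e1, (s 0).mem_of_pull_mem hI hz0 e2,
    (s 0).mem_of_pull_mem hI hz0 e3⟩

end Pool.Agent.Helper38.ED
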