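import Pool.Agent.Helper38.ED.StrataDefs
import Pool.Agent.Helper38.ED.Level3
import Pool.Agent.Helper38.EQ.StmtEquiv
import Pool.Agent.Helper38.EQ.Contract

/-! Equisingularity at the points of the first three strata (`x₂ ≠ 0`). -/

namespace Pool.Agent.Helper38.ED

open MvPowerSeries Pool.Agent.Helper38.EQ

variable {K : Type} [Field K]

/-- The two indices of the block `j`. -/
def idx1 (j : Fin 3) : Fin 6 := ⟨2 * j.val, by omega⟩

/-- The two indices of the block `j`. -/
def idx2 (j : Fin 3) : Fin 6 := ⟨2 * j.val + 1, by omega⟩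

/-- The factor `i` of the equation of `V`. -/
noncomputable def sheet (K : Type) [Field K] (i : Fin 6) : MvPolynomial (Fin 7) K :=
  MvPolynomial.X 0 - MvPolynomial.X 2 ^ 2 * polyM K i

/-- The difference of the two polynomials of the block `j`. -/
private noncomputable def Local1_D (K : Type) [Field K] (j : Fin 3) : MvPolynomial (Fin 7) K :=
  ![MvPolynomial.X 1, polyP K, polyQ K] j

private theorem Local1_M (j : Fin 3) :
    polyM K (idx2 j) = polyM K (idx1 j) + Local1_D K j := by
  fin_cases j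
  · change MvPolynomial.X 1 = 0 + MvPolynomial.X 1
    rw [zero_add]
  · rfl
  · rfl

/-- The coefficient of a variable in the expansion at a point. -/
private theorem Local1_coeff (R : Fin 7 → K) (i : Fin 7) (f : MvPolynomial (Fin 7) K) :
    coeff (Finsupp.single i 1) (taylorAt R f) =
      MvPolynomial.eval R (MvPolynomial.pderiv i f) := by
  rw [← constantCoeff_taylorAt, taylorAt_pderiv, ← coeff_zero_eq_constantCoeff_apply,
    coeff_pderiv]
  simp

private theorem Local1_facts {j : Fin 3} {R : Fin 7 → K}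
    (hR : R ∈ strE K (Fin.castLE (by decide) j)) :
    R 2 ≠ 0 ∧ R 0 = R 2 ^ 2 * MvPolynomial.eval R (polyM K (idx1 j)) ∧
      MvPolynomial.eval R (Local1_D K j) = 0 := by
  obtain ⟨hF, -, ho⟩ := hR
  obtain ⟨h0, h1, h2, -⟩ := mem_Fix_retr R
  have hne : (Fin.castLE (by decide) j : Fin 6) ≠ 5 := by
    intro h
    have h1 := congrArg Fin.val h
    have h2 := j.isLt
    rw [Fin.val_castLE] at h1
    have h3 : ((5 : Fin 6) : ℕ) = 5 := rfl
    omega
  have ho' : MvPolynomial.eval R (openPoly K (Fin.castLE (by decide) j)) ≠ 0 := by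
    rcases ho with h | h
    · exact h
    · exact absurd h.1 hne
  fin_cases j
  · have hF' := h0.mp hF
    have ho2 : MvPolynomial.eval R (MvPolynomial.X 2 : MvPolynomial (Fin 7) K) ≠ 0 := ho'
    rw [MvPolynomial.eval_X] at ho2
    refine ⟨ho2, ?_, ?_⟩
    · change R 0 = R 2 ^ 2 * MvPolynomial.eval R (0 : MvPolynomial (Fin 7) K)
      rw [hF'.1, map_zero, mul_zero]
    · change MvPolynomial.eval R (MvPolynomial.X 1 : MvPolynomial (Fin 7) K) = 0
      rw [MvPolynomial.eval_X, hF'.2]
  · have hF' := h1.mp hF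
    have ho2 : MvPolynomial.eval R (MvPolynomial.X 2 : MvPolynomial (Fin 7) K) ≠ 0 := ho'
    rw [MvPolynomial.eval_X] at ho2
    refine ⟨ho2, ?_, hF'.2⟩
    change R 0 = R 2 ^ 2 * MvPolynomial.eval R (1 : MvPolynomial (Fin 7) K)
    rw [hF'.1, map_one, mul_one]
  · have hF' := h2.mp hF
    have ho2 : MvPolynomial.eval R (MvPolynomial.X 2 : MvPolynomial (Fin 7) K) ≠ 0 := ho'
    rw [MvPolynomial.eval_X] at ho2
    refine ⟨ho2, ?_, hF'.2⟩
    change R 0 = R 2 ^ 2 * MvPolynomial.eval R (2 + polyA K : MvPolynomial (Fin 7) K)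
    rw [hF'.1, map_add, map_ofNat]

private theorem Local1_eval {j : Fin 3} {R : Fin 7 → K}
    (hR : R ∈ strE K (Fin.castLE (by decide) j)) :
    MvPolynomial.eval R (sheet K (idx1 j)) = 0 ∧ MvPolynomial.eval R (sheet K (idx2 j)) = 0 := by
  obtain ⟨-, h0, h1⟩ := Local1_facts hR
  refine ⟨?_, ?_⟩
  · rw [sheet, map_sub, map_mul, map_pow, MvPolynomial.eval_X, MvPolynomial.eval_X, h0, sub_self]
  · rw [sheet, Local1_M, map_sub, map_mul, map_pow, map_add, MvPolynomial.eval_X,
      MvPolynomial.eval_X, h0, h1, add_zero, sub_self]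

/-- The other sheets do not pass through the point. -/
private theorem Local1_unit {j : Fin 3} {R : Fin 7 → K}
    (hR : R ∈ strE K (Fin.castLE (by decide) j)) (i : Fin 6) (hi : i.val / 2 ≠ j.val) :
    IsUnit (taylorAt R (sheet K i)) := by
  obtain ⟨h2, h0, -⟩ := Local1_facts hR
  have hH := (eval_exH_ne_zero R).mp hR.2.1
  have hi1 : (idx1 j).val / 2 = j.val := by
    simp [idx1]
  have hne : MvPolynomial.eval R (polyM K i) ≠ MvPolynomial.eval R (polyM K (idx1 j)) := by
    rcases lt_or_gt_of_ne hi with h | h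
    · exact (hH i (idx1 j) (by rw [hi1]; exact h)).symm
    · exact hH (idx1 j) i (by rw [hi1]; exact h)
  rw [MvPowerSeries.isUnit_iff_constantCoeff, constantCoeff_taylorAt, isUnit_iff_ne_zero, sheet,
    map_sub, map_mul, map_pow, MvPolynomial.eval_X, MvPolynomial.eval_X, h0, ← mul_sub]
  exact mul_ne_zero (pow_ne_zero 2 h2) (sub_ne_zero.mpr hne.symm)

private theorem Local1_two (i : Fin 7) :
    MvPolynomial.pderiv i (2 : MvPolynomial (Fin 7) K) = 0 := by
  have e : (2 : MvPolynomial (Fin 7) K) = MvPolynomial.C 2 := (map_ofNat MvPolynomial.C 2).symm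
  rw [e, MvPolynomial.pderiv_C]

/-- The derivatives of the polynomials `m`. -/
private theorem Local1_pderiv (j : Fin 3) :
    MvPolynomial.pderiv 0 (polyM K (idx1 j)) = 0 ∧ MvPolynomial.pderiv 1 (polyM K (idx1 j)) = 0 ∧
    MvPolynomial.pderiv 0 (Local1_D K j) = 0 ∧ MvPolynomial.pderiv 1 (Local1_D K j) = 1 := by
  have hA0 : MvPolynomial.pderiv 0 (2 + polyA K : MvPolynomial (Fin 7) K) = 0 := by
    rw [polyA]
    simp [MvPolynomial.pderiv_X, Local1_two]
  have hA1 : MvPolynomial.pderiv 1 (2 + polyA K : MvPolynomial (Fin 7) K) = 0 := by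
    rw [polyA]
    simp [MvPolynomial.pderiv_X, Local1_two]
  fin_cases j
  · refine ⟨?_, ?_, ?_, ?_⟩
    · exact map_zero _
    · exact map_zero _
    · change MvPolynomial.pderiv 0 (MvPolynomial.X 1 : MvPolynomial (Fin 7) K) = 0
      simp [MvPolynomial.pderiv_X]
    · change MvPolynomial.pderiv 1 (MvPolynomial.X 1 : MvPolynomial (Fin 7) K) = 1
      simp
  · refine ⟨?_, ?_, ?_, ?_⟩
    · change MvPolynomial.pderiv 0 (1 : MvPolynomial (Fin 7) K) = 0
      exact MvPolynomial.pderiv_one
    · change MvPolynomial.pderiv 1 (1 : MvPolynomial (Fin 7) K) = 0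
      exact MvPolynomial.pderiv_one
    · change MvPolynomial.pderiv 0 (polyP K : MvPolynomial (Fin 7) K) = 0
      rw [polyP]
      simp [MvPolynomial.pderiv_X]
    · change MvPolynomial.pderiv 1 (polyP K : MvPolynomial (Fin 7) K) = 1
      rw [polyP]
      simp [MvPolynomial.pderiv_X]
  · refine ⟨hA0, hA1, ?_, ?_⟩
    · change MvPolynomial.pderiv 0 (polyQ K : MvPolynomial (Fin 7) K) = 0
      rw [polyQ]
      simp [MvPolynomial.pderiv_X, Local1_two]
    · change MvPolynomial.pderiv 1 (polyQ K : MvPolynomial (Fin 7) K) = 1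
      rw [polyQ]
      simp [MvPolynomial.pderiv_X, Local1_two]

private theorem Local1_prod (g : Fin 6 → MvPowerSeries (Fin 7) K) (j : Fin 3)
    (hg : ∀ i : Fin 6, i.val / 2 ≠ j.val → IsUnit (g i)) :
    Associated (∏ i, g i) (g (idx1 j) * g (idx2 j)) := by
  rw [Fin.prod_univ_six]
  fin_cases j
  · have h2 := hg 2 (by decide)
    have h3 := hg 3 (by decide)
    have h4 := hg 4 (by decide)
    have h5 := hg 5 (by decide)
    change Associated (g 0 * g 1 * g 2 * g 3 * g 4 * g 5) (g 0 * g 1)
    have e : g 0 * g 1 * g 2 * g 3 * g 4 * g 5 = g 0 * g 1 * (g 2 * g 3 * g 4 * g 5) := by ring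
    rw [e]
    exact associated_mul_unit_left _ _ (((h2.mul h3).mul h4).mul h5)
  · have h0 := hg 0 (by decide)
    have h1 := hg 1 (by decide)
    have h4 := hg 4 (by decide)
    have h5 := hg 5 (by decide)
    change Associated (g 0 * g 1 * g 2 * g 3 * g 4 * g 5) (g 2 * g 3)
    have e : g 0 * g 1 * g 2 * g 3 * g 4 * g 5 = g 2 * g 3 * (g 0 * g 1 * g 4 * g 5) := by ring
    rw [e]
    exact associated_mul_unit_left _ _ (((h0.mul h1).mul h4).mul h5)
  · have h0 := hg 0 (by decide)
    have h1 := hg 1 (by decide)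
    have h2 := hg 2 (by decide)
    have h3 := hg 3 (by decide)
    change Associated (g 0 * g 1 * g 2 * g 3 * g 4 * g 5) (g 4 * g 5)
    have e : g 0 * g 1 * g 2 * g 3 * g 4 * g 5 = g 4 * g 5 * (g 0 * g 1 * g 2 * g 3) := by ring
    rw [e]
    exact associated_mul_unit_left _ _ (((h0.mul h1).mul h2).mul h3)

/-- At a point of the stratum `j < 3` exactly the two sheets of the block `j` pass through the point,
and they are transversal: the linear part of the first has the coefficient `1` at the variable `0`,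
the linear part of the difference is `- x₂(R) ^ 2` times the linear part of `x₁`, `polyP`, `polyQ` at
`R`, with the coefficient `1` at the variable `1` and `0` at the variable `0`. -/
theorem local_pair {j : Fin 3} {R : Fin 7 → K} (hR : R ∈ strE K (Fin.castLE (by decide) j)) :
    LI ![taylorAt R (sheet K (idx1 j)), taylorAt R (sheet K (idx2 j))] ∧
    Associated (taylorAt R (exV K))
      (∏ i, comps3 (taylorAt R (sheet K (idx1 j))) (taylorAt R (sheet K (idx2 j))) i) := by
  obtain ⟨hz1, hz2⟩ := Local1_eval hR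
  obtain ⟨hR2, -, hD⟩ := Local1_facts hR
  obtain ⟨p1, p2, p3, p4⟩ := Local1_pderiv (K := K) j
  have hX00 : MvPolynomial.pderiv 0 (MvPolynomial.X 0 : MvPolynomial (Fin 7) K) = 1 := by simp
  have hX01 : MvPolynomial.pderiv 1 (MvPolynomial.X 0 : MvPolynomial (Fin 7) K) = 0 := by
    simp [MvPolynomial.pderiv_X]
  have hX20 : MvPolynomial.pderiv 0 (MvPolynomial.X 2 ^ 2 : MvPolynomial (Fin 7) K) = 0 := by
    simp [MvPolynomial.pderiv_X]
  have hX21 : MvPolynomial.pderiv 1 (MvPolynomial.X 2 ^ 2 : MvPolynomial (Fin 7) K) = 0 := by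
    simp [MvPolynomial.pderiv_X]
  have c10 : coeff (Finsupp.single 0 1) (taylorAt R (sheet K (idx1 j))) = 1 := by
    rw [Local1_coeff, sheet, map_sub, MvPolynomial.pderiv_mul, hX00, hX20, p1]
    simp
  have c11 : coeff (Finsupp.single 1 1) (taylorAt R (sheet K (idx1 j))) = 0 := by
    rw [Local1_coeff, sheet, map_sub, MvPolynomial.pderiv_mul, hX01, hX21, p2]
    simp
  have c20 : coeff (Finsupp.single 0 1) (taylorAt R (sheet K (idx2 j))) = 1 := by
    rw [Local1_coeff, sheet, Local1_M, map_sub, MvPolynomial.pderiv_mul, hX00, hX20, map_add, p1,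
      p3]
    simp
  have c21 : coeff (Finsupp.single 1 1) (taylorAt R (sheet K (idx2 j))) = - R 2 ^ 2 := by
    rw [Local1_coeff, sheet, Local1_M, map_sub, MvPolynomial.pderiv_mul, hX01, hX21, map_add, p2,
      p4]
    simp
  refine ⟨⟨fun i => ?_, ?_⟩, ?_⟩
  · fin_cases i
    · change constantCoeff (taylorAt R (sheet K (idx1 j))) = 0
      rw [constantCoeff_taylorAt, hz1]
    · change constantCoeff (taylorAt R (sheet K (idx2 j))) = 0
      rw [constantCoeff_taylorAt, hz2]
  · have e : (fun i : Fin 2 => fun k : Fin 7 => coeff (Finsupp.single k 1)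
        ((![taylorAt R (sheet K (idx1 j)), taylorAt R (sheet K (idx2 j))] :
          Fin 2 → MvPowerSeries (Fin 7) K) i)) =
        ![fun k => coeff (Finsupp.single k 1) (taylorAt R (sheet K (idx1 j))),
          fun k => coeff (Finsupp.single k 1) (taylorAt R (sheet K (idx2 j)))] := by
      funext i
      fin_cases i <;> rfl
    rw [e, LinearIndependent.pair_iff]
    intro s t hst
    have h1 := congrFun hst 0
    have h2 := congrFun hst 1
    simp only [Pi.add_apply, Pi.smul_apply, smul_eq_mul, Pi.zero_apply] at h1 h2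
    rw [c10, c20] at h1
    rw [c11, c21] at h2
    have ht : t = 0 := by
      have h3 : t * R 2 ^ 2 = 0 := by linear_combination -h2
      rcases mul_eq_zero.mp h3 with h | h
      · exact h
      · exact absurd h (pow_ne_zero 2 hR2)
    refine ⟨?_, ht⟩
    rw [ht] at h1
    linear_combination h1
  · have h1 : taylorAt R (exV K) = ∏ i, taylorAt R (sheet K i) := by
      rw [exV, map_prod]
      rfl
    rw [h1, Fin.prod_univ_two]
    exact Local1_prod (fun i => taylorAt R (sheet K i)) j (fun i hi => Local1_unit hR i hi)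

/-- A prime ideal that contains the two sheets and not `x₂` contains the ideal of the stratum. -/
theorem sheets_le [CharZero K] {j : Fin 3} {P : Ideal (MvPolynomial (Fin 7) K)} (hP : P.IsPrime)
    (h1 : sheet K (idx1 j) ∈ P) (h2 : sheet K (idx2 j) ∈ P)
    (hX : (MvPolynomial.X 2 : MvPolynomial (Fin 7) K) ∉ P) :
    idealOf (strE K (Fin.castLE (by decide) j)) ≤ P := by
  have hD : Local1_D K j ∈ P := by
    have h3 : MvPolynomial.X 2 ^ 2 * Local1_D K j ∈ P := by
      have e : MvPolynomial.X 2 ^ 2 * Local1_D K j = sheet K (idx1 j) - sheet K (idx2 j) := by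
        rw [sheet, sheet, Local1_M]
        ring
      rw [e]
      exact P.sub_mem h1 h2
    rcases hP.mem_or_mem h3 with h | h
    · exact absurd (hP.mem_of_pow_mem 2 h) hX
    · exact h
  apply idealOf_strE_le
  intro i
  rw [retr, MvPolynomial.aeval_X]
  have hz : ∀ x : MvPolynomial (Fin 7) K, x - x ∈ P := fun x => by
    rw [sub_self]
    exact P.zero_mem
  fin_cases j
  · fin_cases i
    · change (MvPolynomial.X 0 : MvPolynomial (Fin 7) K) - 0 ∈ P
      have h3 : (MvPolynomial.X 0 - MvPolynomial.X 2 ^ 2 * 0 : MvPolynomial (Fin 7) K) ∈ P := h1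
      rwa [mul_zero] at h3
    · change (MvPolynomial.X 1 : MvPolynomial (Fin 7) K) - 0 ∈ P
      rw [sub_zero]
      exact hD
    all_goals exact hz _
  · fin_cases i
    · change (MvPolynomial.X 0 : MvPolynomial (Fin 7) K) - MvPolynomial.X 2 ^ 2 ∈ P
      have h3 : (MvPolynomial.X 0 - MvPolynomial.X 2 ^ 2 * 1 : MvPolynomial (Fin 7) K) ∈ P := h1
      rwa [mul_one] at h3
    · change (MvPolynomial.X 1 : MvPolynomial (Fin 7) K) -
        -(MvPolynomial.X 2 * MvPolynomial.X 3) ∈ P
      rw [sub_neg_eq_add]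
      exact hD
    all_goals exact hz _
  · fin_cases i
    · exact h1
    · change (MvPolynomial.X 1 : MvPolynomial (Fin 7) K) -
        -(2 * MvPolynomial.X 2 * MvPolynomial.X 3 + MvPolynomial.X 6 * MvPolynomial.X 2 ^ 2) ∈ P
      have e : (MvPolynomial.X 1 : MvPolynomial (Fin 7) K) -
        -(2 * MvPolynomial.X 2 * MvPolynomial.X 3 + MvPolynomial.X 6 * MvPolynomial.X 2 ^ 2) =
        polyQ K := by
        rw [polyQ]
        ring
      rw [e]
      exact hD
    all_goals exact hz _

private theorem Local1_mem_idealOf {E : Set (Fin 7 → K)} {f : MvPolynomial (Fin 7) K}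
    (h : ∀ R ∈ E, MvPolynomial.eval R f = 0) : f ∈ idealOf E := by
  intro R hR
  simpa [MvPolynomial.aeval_eq_eval] using h R hR

theorem sheet_mem [CharZero K] (j : Fin 3) :
    sheet K (idx1 j) ∈ idealOf (strE K (Fin.castLE (by decide) j)) ∧
    sheet K (idx2 j) ∈ idealOf (strE K (Fin.castLE (by decide) j)) :=
  ⟨Local1_mem_idealOf fun _ hR => (Local1_eval hR).1,
    Local1_mem_idealOf fun _ hR => (Local1_eval hR).2⟩

/-- `pos3`. -/
theorem local1_pos [IsAlgClosed K] [CharZero K] {B : BasisClass} (hB : HasStd B) {j : Fin 3}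
    {R : Fin 7 → K} (hR : R ∈ strE K (Fin.castLE (by decide) j)) :
    EqAlong B 1 (exV K) R (idealOf (strE K (Fin.castLE (by decide) j))) := by
  rw [eqAlong_iff]
  obtain ⟨hLI, hA⟩ := local_pair hR
  obtain ⟨m1, m2⟩ := sheet_mem (K := K) j
  have hle : idealOf (strE K (Fin.castLE (by decide) j)) ≤ pointIdeal R := by
    intro f hf
    have h1 := hf R hR
    rw [pointIdeal, RingHom.mem_ker]
    simpa [MvPolynomial.aeval_eq_eval] using h1
  have hne : ((idealOf (strE K (Fin.castLE (by decide) j))).map (taylorAt R)).radical ≠ ⊤ := by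
    intro h
    rw [Ideal.radical_eq_top] at h
    have h1 : (⊤ : Ideal (MvPowerSeries (Fin 7) K)) ≤
        IsLocalRing.maximalIdeal (MvPowerSeries (Fin 7) K) := by
      rw [← h, ← map_pointIdeal R]
      exact Ideal.map_mono hle
    exact (IsLocalRing.maximalIdeal.isMaximal (MvPowerSeries (Fin 7) K)).ne_top
      (top_le_iff.mp h1)
  exact pos3 (n := 6) hB hLI hA hne (Ideal.le_radical (Ideal.mem_map_of_mem _ m1))
    (Ideal.le_radical (Ideal.mem_map_of_mem _ m2))

/-- `neg3`, `mem_of_taylorAt_mem`, `sheets_le` (`X 2 ∉ P` as `x₂(R) ≠ 0`). -/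
theorem local1_neg [IsAlgClosed K] [CharZero K] {B : BasisClass} {j : Fin 3}
    {R : Fin 7 → K} (hR : R ∈ strE K (Fin.castLE (by decide) j))
    (P : Ideal (MvPolynomial (Fin 7) K)) (hP : P.IsPrime) (hPR : P ≤ pointIdeal R) {k : ℕ}
    (hE : EqAlong B k (exV K) R P) :
    idealOf (strE K (Fin.castLE (by decide) j)) ≤ P := by
  rw [eqAlong_iff] at hE
  obtain ⟨hLI, hA⟩ := local_pair hR
  obtain ⟨h1, h2⟩ := neg3 hLI hA hE
  refine sheets_le hP (mem_of_taylorAt_mem R P hPR _ h1) (mem_of_taylorAt_mem R P hPR _ h2) ?_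
  intro h3
  have h4 := hPR h3
  rw [pointIdeal, RingHom.mem_ker, MvPolynomial.eval_X] at h4
  exact (Local1_facts hR).1 h4

end Pool.Agent.Helper38.ED
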