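import Pool.Agent.Helper38.ED.Comps

/-! Weaker conditions on the coordinates, sufficient for the main computation. -/

namespace Pool.Agent.Helper38.ED

open MvPowerSeries Pool.Agent.Helper38.EQ

/-- The linear parts of `z, x1, x2` are independent, and `1 + a1`, `2 + a1` are units
(`x3`, `a0`, `a1` may have nonzero constant terms). -/
structure Mild {m : ℕ} {K : Type} [Field K] (z x1 x2 a1 : MvPowerSeries (Fin (m + 1)) K) :
    Prop where
  li : LI ![z, x1, x2]
  unit1 : IsUnit (1 + a1)
  unit2 : IsUnit (2 + a1)

end Pool.Agent.Helper38.ED
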