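import Pool.Agent.Helper38.ED.StrataDefs
import Pool.Agent.Helper38.ED.Expl
import Pool.Agent.Helper38.ED.Mild
import Pool.Agent.Helper38.EQ.StmtEquiv
import Pool.Agent.Helper38.EQ.Contract

/-! The equation of `V` at the points with `z = x₂ = 0`. -/

namespace Pool.Agent.Helper38.ED

open MvPowerSeries Pool.Agent.Helper38.EQ

variable {K : Type} [Field K]

private theorem Local2_X (R : Fin 7 → K) (i : Fin 7) :
    taylorAt R (MvPolynomial.X i) = X i + C (R i) := by
  rw [taylorAt, MvPolynomial.aeval_X]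

private theorem Local2_X0 {R : Fin 7 → K} {i : Fin 7} (h : R i = 0) :
    taylorAt R (MvPolynomial.X i) = X i := by
  rw [Local2_X, h, map_zero, add_zero]

/-- The equation at a point with `z = x₂ = 0`. -/
theorem taylor_exV_prod {R : Fin 7 → K} (h0 : R 0 = 0) (h2 : R 2 = 0) :
    taylorAt R (exV K) = ∏ i, (X 0 - X 2 ^ 2 * taylorAt R (polyM K i)) := by
  rw [exV, map_prod]
  refine Finset.prod_congr rfl fun i _ => ?_
  rw [map_sub, map_mul, map_pow, Local2_X0 h0, Local2_X0 h2]

private theorem Local2_polyA (R : Fin 7 → K) : taylorAt R (polyA K) = serA R := by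
  rw [polyA, map_sub, map_pow, map_pow, Local2_X, Local2_X]
  rfl

/-- The equation at a point with `z = x₁ = x₂ = 0` (compare `taylor_exV`). -/
theorem taylor_exV_comps {R : Fin 7 → K} (h0 : R 0 = 0) (h1 : R 1 = 0) (h2 : R 2 = 0) :
    taylorAt R (exV K) =
      ∏ i, comps0 (X 0) (X 1) (X 2) (X 3 + C (R 3)) (X 6 + C (R 6)) (serA R) i := by
  rw [taylor_exV_prod h0 h2]
  have hP : taylorAt R (polyP K) = X 1 + X 2 * (X 3 + C (R 3)) := by
    rw [polyP, map_add, map_mul, Local2_X0 h1, Local2_X0 h2, Local2_X]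
  have hQ : taylorAt R (polyQ K) = X 1 + 2 * X 2 * (X 3 + C (R 3)) + (X 6 + C (R 6)) * X 2 ^ 2 := by
    rw [polyQ, map_add, map_add, map_mul, map_mul, map_mul, map_pow, Local2_X0 h1, Local2_X0 h2,
      Local2_X, Local2_X, map_ofNat]
  refine Finset.prod_congr rfl fun i _ => ?_
  fin_cases i
  · change X 0 - X 2 ^ 2 * taylorAt R 0 = (X 0 : MvPowerSeries (Fin 7) K)
    rw [map_zero, mul_zero, sub_zero]
  · change X 0 - X 2 ^ 2 * taylorAt R (MvPolynomial.X 1) =
      (X 0 - X 2 ^ 2 * X 1 : MvPowerSeries (Fin 7) K)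
    rw [Local2_X0 h1]
  · change X 0 - X 2 ^ 2 * taylorAt R 1 = (X 0 - X 2 ^ 2 : MvPowerSeries (Fin 7) K)
    rw [map_one, mul_one]
  · change X 0 - X 2 ^ 2 * taylorAt R (1 + polyP K) =
      X 0 - X 2 ^ 2 * (1 + X 1 + X 2 * (X 3 + C (R 3)))
    rw [map_add, map_one, hP]
    ring
  · change X 0 - X 2 ^ 2 * taylorAt R (2 + polyA K) = X 0 - X 2 ^ 2 * (2 + serA R)
    rw [map_add, map_ofNat, Local2_polyA]
  · change X 0 - X 2 ^ 2 * taylorAt R (2 + polyA K + polyQ K) =
      X 0 - X 2 ^ 2 * (2 + serA R + X 1 + 2 * X 2 * (X 3 + C (R 3)) + (X 6 + C (R 6)) * X 2 ^ 2)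
    rw [map_add, map_add, map_ofNat, Local2_polyA, hQ]
    ring

private theorem Local2_LI : LI ![(X 0 : MvPowerSeries (Fin 7) K), X 1, X 2] := by
  constructor
  · intro i
    fin_cases i <;> exact constantCoeff_X _
  · rw [Fintype.linearIndependent_iff]
    intro g hg
    have h := fun j => congrFun hg j
    simp only [Fin.sum_univ_three, Pi.add_apply, Pi.smul_apply, Pi.zero_apply, smul_eq_mul] at h
    have key : ∀ (i j : Fin 7), coeff (Finsupp.single j 1) (X i : MvPowerSeries (Fin 7) K) =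
        if j = i then 1 else 0 := by
      intro i j
      rw [coeff_X]
      by_cases hij : j = i
      · rw [if_pos hij, if_pos (by rw [hij])]
      · rw [if_neg hij, if_neg]
        intro h
        exact hij ((Finsupp.single_left_inj one_ne_zero).1 h)
    have h0 := h 0
    have h1 := h 1
    have h2 := h 2
    intro i
    fin_cases i
    · simpa [key] using h0
    · simpa [key] using h1
    · simpa [key] using h2

theorem mild_at [CharZero K] {R : Fin 7 → K} (h0 : R 0 = 0) (h1 : R 1 = 0) (h2 : R 2 = 0)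
    (hh : MvPolynomial.eval R (exH K) ≠ 0) : Mild (m := 6) (X 0) (X 1) (X 2) (serA R) := by
  rw [eval_exH_ne_zero] at hh
  have hA : MvPolynomial.eval R (polyA K) = R 4 ^ 2 - R 5 ^ 3 := by
    rw [polyA, map_sub, map_pow, map_pow, MvPolynomial.eval_X, MvPolynomial.eval_X]
  have hc : constantCoeff (serA R) = R 4 ^ 2 - R 5 ^ 3 := by
    rw [serA, map_sub, map_pow, map_pow, map_add, map_add, constantCoeff_X, constantCoeff_X,
      constantCoeff_C, constantCoeff_C, zero_add, zero_add]
  have hm4 : MvPolynomial.eval R (polyM K 4) = 2 + (R 4 ^ 2 - R 5 ^ 3) := by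
    change MvPolynomial.eval R (2 + polyA K) = _
    rw [map_add, map_ofNat, hA]
  have e1 := hh 0 4 (by decide)
  have e2 := hh 2 4 (by decide)
  rw [hm4] at e1 e2
  have hm0 : MvPolynomial.eval R (polyM K 0) = 0 := by
    change MvPolynomial.eval R 0 = 0
    rw [map_zero]
  have hm2 : MvPolynomial.eval R (polyM K 2) = 1 := by
    change MvPolynomial.eval R 1 = 1
    rw [map_one]
  rw [hm0] at e1
  rw [hm2] at e2
  refine ⟨Local2_LI, ?_, ?_⟩
  · rw [MvPowerSeries.isUnit_iff_constantCoeff, map_add, map_one, hc]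
    refine IsUnit.mk0 _ fun h => e2 ?_
    linear_combination h
  · rw [MvPowerSeries.isUnit_iff_constantCoeff, map_add, map_ofNat, hc]
    exact IsUnit.mk0 _ e1

end Pool.Agent.Helper38.ED
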