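import Pool.Agent.Helper38.ED.Local2
import Pool.Agent.Helper38.ED.LevelUa

/-! Equisingularity at the points with `z = x₂ = 0`, `x₁ ≠ 0`. -/

namespace Pool.Agent.Helper38.ED

open MvPowerSeries Pool.Agent.Helper38.EQ

variable {K : Type} [Field K]

private theorem local3_coord {R : Fin 7 → K} (hR : R ∈ strE K 3) :
    R 0 = 0 ∧ R 2 = 0 ∧ R 1 ≠ 0 ∧ MvPolynomial.eval R (exH K) ≠ 0 := by
  obtain ⟨h1, h2, h3⟩ := hR
  obtain ⟨e0, e2⟩ := (mem_Fix_retr R).2.2.2.1.1 h1
  refine ⟨e0, e2, ?_, h2⟩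
  rcases h3 with h3 | h3
  · have h4 : openPoly K 3 = MvPolynomial.X 1 := rfl
    rw [h4, MvPolynomial.eval_X] at h3
    exact h3
  · exact absurd h3.1 (by decide)

/-- The values of the six polynomials at the point are distinct. -/
private theorem local3_vals {R : Fin 7 → K} (h2 : R 2 = 0) (h1 : R 1 ≠ 0)
    (hh : MvPolynomial.eval R (exH K) ≠ 0) (i j : Fin 6) (hij : i ≠ j) :
    MvPolynomial.eval R (polyM K i) ≠ MvPolynomial.eval R (polyM K j) := by
  have h3 := (eval_exH_ne_zero R).1 hh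
  have hP : MvPolynomial.eval R (polyP K) = R 1 := by
    simp [polyP, h2]
  have hQ : MvPolynomial.eval R (polyQ K) = R 1 := by
    simp [polyQ, h2]
  have e01 : MvPolynomial.eval R (polyM K 1) - MvPolynomial.eval R (polyM K 0) = R 1 := by
    simp [polyM]
  have e23 : MvPolynomial.eval R (polyM K 3) - MvPolynomial.eval R (polyM K 2) = R 1 := by
    simp [polyM, hP]
  have e45 : MvPolynomial.eval R (polyM K 5) - MvPolynomial.eval R (polyM K 4) = R 1 := by
    simp [polyM, hQ]
  rcases lt_trichotomy (i.val / 2) (j.val / 2) with hlt | heq | hlt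
  · exact (h3 i j hlt).symm
  · intro he
    have hz : ∀ x y : K, x = y → y - x = R 1 → False := by
      intro x y hxy hyx
      rw [hxy, sub_self] at hyx
      exact h1 hyx.symm
    have hc : ∀ i j : Fin 6, i ≠ j → i.val / 2 = j.val / 2 →
        (i = 0 ∧ j = 1) ∨ (i = 1 ∧ j = 0) ∨ (i = 2 ∧ j = 3) ∨ (i = 3 ∧ j = 2) ∨
        (i = 4 ∧ j = 5) ∨ (i = 5 ∧ j = 4) := by
      decide
    rcases hc i j hij heq with ⟨rfl, rfl⟩ | ⟨rfl, rfl⟩ | ⟨rfl, rfl⟩ | ⟨rfl, rfl⟩ | ⟨rfl, rfl⟩ |
      ⟨rfl, rfl⟩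
    · exact hz _ _ he e01
    · exact hz _ _ he.symm e01
    · exact hz _ _ he e23
    · exact hz _ _ he.symm e23
    · exact hz _ _ he e45
    · exact hz _ _ he.symm e45
  · exact h3 j i hlt

private theorem local3_unit {R : Fin 7 → K} (h2 : R 2 = 0) (h1 : R 1 ≠ 0)
    (hh : MvPolynomial.eval R (exH K) ≠ 0) (i j : Fin 6) (hij : i ≠ j) :
    IsUnit (taylorAt R (polyM K i) - taylorAt R (polyM K j)) := by
  rw [MvPowerSeries.isUnit_iff_constantCoeff, map_sub, constantCoeff_taylorAt,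
    constantCoeff_taylorAt]
  exact (sub_ne_zero.2 (local3_vals h2 h1 hh i j hij)).isUnit

private theorem local3_retr : (retr K 3 (MvPolynomial.X 0) = 0) ∧
    (retr K 3 (MvPolynomial.X 2) = 0) := by
  refine ⟨?_, ?_⟩
  · rw [retr, MvPolynomial.aeval_X]
    rfl
  · rw [retr, MvPolynomial.aeval_X]
    rfl

private theorem local3_taylor {R : Fin 7 → K} {i : Fin 7} (h : R i = 0) :
    taylorAt R (MvPolynomial.X i) = X i := by
  rw [taylorAt, MvPolynomial.aeval_X, h, map_zero, add_zero]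

private theorem local3_LI : LI ![(X 0 : MvPowerSeries (Fin 7) K), X 2] := by
  constructor
  · intro i
    fin_cases i
    · exact MvPowerSeries.constantCoeff_X 0
    · exact MvPowerSeries.constantCoeff_X 2
  · rw [Fintype.linearIndependent_iff]
    intro g hg
    have h0 := congrFun hg 0
    have h2 := congrFun hg 2
    rw [Fin.sum_univ_two] at h0 h2
    simp [MvPowerSeries.coeff_X, Finsupp.single_left_inj] at h0 h2
    intro i
    fin_cases i
    · exact h0
    · exact h2

/-- Stratum 3 (`z = x₂ = 0`, `x₁ ≠ 0`): all the differences are units; `pos_units`. -/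
theorem local3_pos [IsAlgClosed K] [CharZero K] {B : BasisClass} (hB : HasStd B)
    {R : Fin 7 → K} (hR : R ∈ strE K 3) : EqAlong B 1 (exV K) R (idealOf (strE K 3)) := by
  obtain ⟨h0, h2, h1, hh⟩ := local3_coord hR
  obtain ⟨r0, r2⟩ := local3_retr (K := K)
  have hp : (idealOf (strE K 3)).IsPrime := strE_isPrime 3
  have hle : idealOf (strE K 3) ≤ pointIdeal R := by
    intro g hg
    rw [MvPolynomial.mem_vanishingIdeal_iff] at hg
    have h4 := hg R hR
    rw [pointIdeal, RingHom.mem_ker]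
    exact h4
  have key : ∀ i : Fin 7, R i = 0 → retr K 3 (MvPolynomial.X i) = 0 →
      (X i : MvPowerSeries (Fin 7) K) ∈ ((idealOf (strE K 3)).map (taylorAt R)).radical := by
    intro i hi hr
    refine Ideal.le_radical ?_
    rw [← local3_taylor hi]
    exact Ideal.mem_map_of_mem _ ((mem_idealOf_strE 3 _).2 hr)
  rw [eqAlong_iff]
  refine pos_units (n := 6) (l := 6) hB (by norm_num) local3_LI
    (μ := fun i => taylorAt R (polyM K i)) (local3_unit h2 h1 hh) ?_ ?_ (key 0 h0 r0)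
    (key 2 h2 r2)
  · rw [taylor_exV_prod h0 h2]
  · intro htop
    have h4 : (1 : MvPolynomial (Fin 7) K) ∈ idealOf (strE K 3) := by
      refine mem_of_taylorAt_mem R (idealOf (strE K 3)) hle 1 ?_
      rw [htop]
      exact Submodule.mem_top
    exact hp.ne_top ((Ideal.eq_top_iff_one _).2 h4)

/-- `neg_units`, `mem_of_taylorAt_mem`, `idealOf_strE_le`. -/
theorem local3_neg [IsAlgClosed K] [CharZero K] {B : BasisClass}
    {R : Fin 7 → K} (hR : R ∈ strE K 3)
    (P : Ideal (MvPolynomial (Fin 7) K)) (hP : P.IsPrime) (hPR : P ≤ pointIdeal R) {k : ℕ}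
    (hE : EqAlong B k (exV K) R P) : idealOf (strE K 3) ≤ P := by
  obtain ⟨h0, h2, h1, hh⟩ := local3_coord hR
  obtain ⟨r0, r2⟩ := local3_retr (K := K)
  rw [eqAlong_iff] at hE
  obtain ⟨m0, m2⟩ := neg_units (n := 6) (l := 6) (by norm_num) local3_LI
    (μ := fun i => taylorAt R (polyM K i)) (local3_unit h2 h1 hh)
    (by rw [taylor_exV_prod h0 h2]) (Ideal.radical_isRadical _) hE
  have key : ∀ i : Fin 7, R i = 0 →
      (X i : MvPowerSeries (Fin 7) K) ∈ (P.map (taylorAt R)).radical →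
      (MvPolynomial.X i : MvPolynomial (Fin 7) K) ∈ P := by
    intro i hi hm
    refine mem_of_taylorAt_mem R P hPR _ ?_
    rw [local3_taylor hi]
    exact hm
  have hfix : ∀ i : Fin 7, retr K 3 (MvPolynomial.X i) = MvPolynomial.X i →
      MvPolynomial.X i - retr K 3 (MvPolynomial.X i) ∈ P := by
    intro i hi
    rw [hi, sub_self]
    exact P.zero_mem
  refine idealOf_strE_le 3 fun i => ?_
  fin_cases i
  · change MvPolynomial.X 0 - retr K 3 (MvPolynomial.X 0) ∈ P
    rw [r0, sub_zero]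
    exact key 0 h0 m0
  · refine hfix 1 ?_
    rw [retr, MvPolynomial.aeval_X]
    rfl
  · change MvPolynomial.X 2 - retr K 3 (MvPolynomial.X 2) ∈ P
    rw [r2, sub_zero]
    exact key 2 h2 m2
  · refine hfix 3 ?_
    rw [retr, MvPolynomial.aeval_X]
    rfl
  · refine hfix 4 ?_
    rw [retr, MvPolynomial.aeval_X]
    rfl
  · refine hfix 5 ?_
    rw [retr, MvPolynomial.aeval_X]
    rfl
  · refine hfix 6 ?_
    rw [retr, MvPolynomial.aeval_X]
    rfl

end Pool.Agent.Helper38.ED
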