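import Pool.Agent.Helper38.ED.Local2
import Pool.Agent.Helper38.ED.LevelUb

/-! Equisingularity at the points with `z = x₁ = x₂ = 0`, `x₃ ≠ 0`. -/

namespace Pool.Agent.Helper38.ED

open MvPowerSeries Pool.Agent.Helper38.EQ

variable {K : Type} [Field K]

private theorem local4_coord {R : Fin 7 → K} (hR : R ∈ strE K 4) :
    R 0 = 0 ∧ R 1 = 0 ∧ R 2 = 0 ∧ R 3 ≠ 0 ∧ MvPolynomial.eval R (exH K) ≠ 0 := by
  obtain ⟨h1, h2, h3⟩ := hR
  obtain ⟨e0, e1, e2⟩ := (mem_Fix_retr R).2.2.2.2.1.1 h1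
  refine ⟨e0, e1, e2, ?_, h2⟩
  rcases h3 with h3 | h3
  · have h4 : openPoly K 4 = MvPolynomial.X 3 := rfl
    rw [h4, MvPolynomial.eval_X] at h3
    exact h3
  · exact absurd h3.1 (by decide)

private theorem local4_unit {R : Fin 7 → K} (h : R 3 ≠ 0) :
    IsUnit (X 3 + C (R 3) : MvPowerSeries (Fin 7) K) := by
  rw [MvPowerSeries.isUnit_iff_constantCoeff, map_add, MvPowerSeries.constantCoeff_X,
    MvPowerSeries.constantCoeff_C, zero_add]
  exact h.isUnit

private theorem local4_retr : (retr K 4 (MvPolynomial.X 0) = 0) ∧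
    (retr K 4 (MvPolynomial.X 1) = 0) ∧ (retr K 4 (MvPolynomial.X 2) = 0) := by
  refine ⟨?_, ?_, ?_⟩
  · rw [retr, MvPolynomial.aeval_X]
    rfl
  · rw [retr, MvPolynomial.aeval_X]
    rfl
  · rw [retr, MvPolynomial.aeval_X]
    rfl

private theorem local4_taylor {R : Fin 7 → K} {i : Fin 7} (h : R i = 0) :
    taylorAt R (MvPolynomial.X i) = X i := by
  rw [taylorAt, MvPolynomial.aeval_X, h, map_zero, add_zero]

/-- Stratum 4 (`z = x₁ = x₂ = 0`, `x₃ ≠ 0`): `pos_x3`. -/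
theorem local4_pos [IsAlgClosed K] [CharZero K] {B : BasisClass} (hB : HasStd B)
    {R : Fin 7 → K} (hR : R ∈ strE K 4) : EqAlong B 2 (exV K) R (idealOf (strE K 4)) := by
  obtain ⟨h0, h1, h2, h3, hh⟩ := local4_coord hR
  obtain ⟨r0, r1, r2⟩ := local4_retr (K := K)
  have hp : (idealOf (strE K 4)).IsPrime := strE_isPrime 4
  have hle : idealOf (strE K 4) ≤ pointIdeal R := by
    intro g hg
    rw [MvPolynomial.mem_vanishingIdeal_iff] at hg
    have h4 := hg R hR
    rw [pointIdeal, RingHom.mem_ker]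
    exact h4
  have key : ∀ i : Fin 7, R i = 0 → retr K 4 (MvPolynomial.X i) = 0 →
      (X i : MvPowerSeries (Fin 7) K) ∈ ((idealOf (strE K 4)).map (taylorAt R)).radical := by
    intro i hi hr
    refine Ideal.le_radical ?_
    rw [← local4_taylor hi]
    exact Ideal.mem_map_of_mem _ ((mem_idealOf_strE 4 _).2 hr)
  rw [eqAlong_iff]
  refine pos_x3 (n := 5) hB (mild_at h0 h1 h2 hh) (local4_unit h3)
    (x3 := X 3 + C (R 3)) (a0 := X 6 + C (R 6)) ?_ ?_ (key 0 h0 r0) (key 1 h1 r1) (key 2 h2 r2)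
  · rw [taylor_exV_comps h0 h1 h2]
  · intro htop
    have h4 : (1 : MvPolynomial (Fin 7) K) ∈ idealOf (strE K 4) := by
      refine mem_of_taylorAt_mem R (idealOf (strE K 4)) hle 1 ?_
      rw [htop]
      exact Submodule.mem_top
    exact hp.ne_top ((Ideal.eq_top_iff_one _).2 h4)

theorem local4_neg [IsAlgClosed K] [CharZero K] {B : BasisClass}
    {R : Fin 7 → K} (hR : R ∈ strE K 4)
    (P : Ideal (MvPolynomial (Fin 7) K)) (hP : P.IsPrime) (hPR : P ≤ pointIdeal R) {k : ℕ}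
    (hE : EqAlong B k (exV K) R P) : idealOf (strE K 4) ≤ P := by
  obtain ⟨h0, h1, h2, h3, hh⟩ := local4_coord hR
  obtain ⟨r0, r1, r2⟩ := local4_retr (K := K)
  rw [eqAlong_iff] at hE
  obtain ⟨m0, m1, m2⟩ := neg_x3 (n := 5) (mild_at h0 h1 h2 hh) (local4_unit h3)
    (x3 := X 3 + C (R 3)) (a0 := X 6 + C (R 6)) (by rw [taylor_exV_comps h0 h1 h2])
    (Ideal.radical_isRadical _) hE
  have key : ∀ i : Fin 7, R i = 0 →
      (X i : MvPowerSeries (Fin 7) K) ∈ (P.map (taylorAt R)).radical →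
      (MvPolynomial.X i : MvPolynomial (Fin 7) K) ∈ P := by
    intro i hi hm
    refine mem_of_taylorAt_mem R P hPR _ ?_
    rw [local4_taylor hi]
    exact hm
  refine idealOf_strE_le 4 fun i => ?_
  fin_cases i
  · change MvPolynomial.X 0 - retr K 4 (MvPolynomial.X 0) ∈ P
    rw [r0, sub_zero]
    exact key 0 h0 m0
  · change MvPolynomial.X 1 - retr K 4 (MvPolynomial.X 1) ∈ P
    rw [r1, sub_zero]
    exact key 1 h1 m1
  · change MvPolynomial.X 2 - retr K 4 (MvPolynomial.X 2) ∈ P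
    rw [r2, sub_zero]
    exact key 2 h2 m2
  · change MvPolynomial.X 3 - retr K 4 (MvPolynomial.X 3) ∈ P
    rw [show retr K 4 (MvPolynomial.X 3) = MvPolynomial.X 3 by
      rw [retr, MvPolynomial.aeval_X]
      rfl, sub_self]
    exact P.zero_mem
  · change MvPolynomial.X 4 - retr K 4 (MvPolynomial.X 4) ∈ P
    rw [show retr K 4 (MvPolynomial.X 4) = MvPolynomial.X 4 by
      rw [retr, MvPolynomial.aeval_X]
      rfl, sub_self]
    exact P.zero_mem
  · change MvPolynomial.X 5 - retr K 4 (MvPolynomial.X 5) ∈ P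
    rw [show retr K 4 (MvPolynomial.X 5) = MvPolynomial.X 5 by
      rw [retr, MvPolynomial.aeval_X]
      rfl, sub_self]
    exact P.zero_mem
  · change MvPolynomial.X 6 - retr K 4 (MvPolynomial.X 6) ∈ P
    rw [show retr K 4 (MvPolynomial.X 6) = MvPolynomial.X 6 by
      rw [retr, MvPolynomial.aeval_X]
      rfl, sub_self]
    exact P.zero_mem

end Pool.Agent.Helper38.ED
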