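import Pool.Agent.Helper38.ED.Local2
import Pool.Agent.Helper38.ED.LevelUd

/-! Equisingularity at the points with `z = x₁ = x₂ = x₃ = 0`, not on the curve. -/

namespace Pool.Agent.Helper38.ED

open MvPowerSeries Pool.Agent.Helper38.EQ

variable {K : Type} [Field K]

private theorem local5_coord {R : Fin 7 → K} (hR : R ∈ strE K 5) :
    R 0 = 0 ∧ R 1 = 0 ∧ R 2 = 0 ∧ R 3 = 0 ∧ MvPolynomial.eval R (exH K) ≠ 0 ∧
      (R 6 ≠ 0 ∨ R 4 ^ 2 - R 5 ^ 3 ≠ 0) := by
  obtain ⟨h1, h2, h3⟩ := hR
  obtain ⟨e0, e1, e2, e3⟩ := (mem_Fix_retr R).2.2.2.2.2.1 h1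
  refine ⟨e0, e1, e2, e3, h2, ?_⟩
  rcases h3 with h3 | h3
  · have h4 : openPoly K 5 = MvPolynomial.X 6 := rfl
    rw [h4, MvPolynomial.eval_X] at h3
    exact Or.inl h3
  · have h4 := h3.2
    rw [polyA, map_sub, map_pow, map_pow, MvPolynomial.eval_X, MvPolynomial.eval_X] at h4
    exact Or.inr h4

private theorem local5_LI : LI ![(X 0 : MvPowerSeries (Fin 7) K), X 1, X 2, X 3] := by
  constructor
  · intro i
    fin_cases i <;> exact constantCoeff_X _
  · rw [Fintype.linearIndependent_iff]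
    intro g hg
    have h := fun j => congrFun hg j
    simp only [Fin.sum_univ_four, Pi.add_apply, Pi.smul_apply, Pi.zero_apply, smul_eq_mul] at h
    have key : ∀ (i j : Fin 7), coeff (Finsupp.single j 1) (X i : MvPowerSeries (Fin 7) K) =
        if j = i then 1 else 0 := by
      intro i j
      rw [coeff_X]
      by_cases hij : j = i
      · rw [if_pos hij, if_pos (by rw [hij])]
      · rw [if_neg hij, if_neg]
        intro h
        exact hij ((Finsupp.single_left_inj one_ne_zero).1 h)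
    have h0 := h 0
    have h1 := h 1
    have h2 := h 2
    have h3 := h 3
    intro i
    fin_cases i
    · simpa [key] using h0
    · simpa [key] using h1
    · simpa [key] using h2
    · simpa [key] using h3

private theorem local5_const {R : Fin 7 → K} (h : R 6 ≠ 0 ∨ R 4 ^ 2 - R 5 ^ 3 ≠ 0) :
    constantCoeff (X 6 + C (R 6) : MvPowerSeries (Fin 7) K) ≠ 0 ∨
      constantCoeff (serA R) ≠ 0 := by
  rcases h with h | h
  · left
    rwa [map_add, constantCoeff_X, constantCoeff_C, zero_add]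
  · right
    rwa [serA, map_sub, map_pow, map_pow, map_add, map_add, constantCoeff_X, constantCoeff_X,
      constantCoeff_C, constantCoeff_C, zero_add, zero_add]

private theorem local5_retr (i : Fin 7) :
    retr K 5 (MvPolynomial.X i) = if i.val < 4 then 0 else MvPolynomial.X i := by
  rw [retr, MvPolynomial.aeval_X]
  fin_cases i <;> rfl

private theorem local5_taylor {R : Fin 7 → K} {i : Fin 7} (h : R i = 0) :
    taylorAt R (MvPolynomial.X i) = X i := by
  rw [taylorAt, MvPolynomial.aeval_X, h, map_zero, add_zero]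

private theorem local5_eq {R : Fin 7 → K} (h0 : R 0 = 0) (h1 : R 1 = 0) (h2 : R 2 = 0)
    (h3 : R 3 = 0) : taylorAt R (exV K) =
      ∏ i, comps0 (X 0) (X 1) (X 2) (X 3) (X 6 + C (R 6)) (serA R) i := by
  rw [taylor_exV_comps h0 h1 h2, h3, map_zero, add_zero]

/-- Stratum 5 (`z = x₁ = x₂ = x₃ = 0`, `y₃ ≠ 0` or `a₁ ≠ 0`): `pos_a`. -/
theorem local5_pos [IsAlgClosed K] [CharZero K] {B : BasisClass} (hB : HasStd B)
    {R : Fin 7 → K} (hR : R ∈ strE K 5) : EqAlong B 3 (exV K) R (idealOf (strE K 5)) := by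
  obtain ⟨h0, h1, h2, h3, hh, hc⟩ := local5_coord hR
  have hp : (idealOf (strE K 5)).IsPrime := strE_isPrime 5
  have hle : idealOf (strE K 5) ≤ pointIdeal R := by
    intro g hg
    rw [MvPolynomial.mem_vanishingIdeal_iff] at hg
    have h4 := hg R hR
    rw [pointIdeal, RingHom.mem_ker]
    exact h4
  have key : ∀ i : Fin 7, R i = 0 → i.val < 4 →
      (X i : MvPowerSeries (Fin 7) K) ∈ ((idealOf (strE K 5)).map (taylorAt R)).radical := by
    intro i hi hr
    refine Ideal.le_radical ?_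
    rw [← local5_taylor hi]
    refine Ideal.mem_map_of_mem _ ((mem_idealOf_strE 5 _).2 ?_)
    rw [local5_retr, if_pos hr]
  rw [eqAlong_iff]
  refine pos_a (n := 4) hB (mild_at h0 h1 h2 hh) local5_LI (local5_const hc)
    ?_ ?_ (key 0 h0 (by decide)) (key 1 h1 (by decide)) (key 2 h2 (by decide))
    (key 3 h3 (by decide))
  · rw [local5_eq h0 h1 h2 h3]
  · intro htop
    have h4 : (1 : MvPolynomial (Fin 7) K) ∈ idealOf (strE K 5) := by
      refine mem_of_taylorAt_mem R (idealOf (strE K 5)) hle 1 ?_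
      rw [htop]
      exact Submodule.mem_top
    exact hp.ne_top ((Ideal.eq_top_iff_one _).2 h4)

theorem local5_neg [IsAlgClosed K] [CharZero K] {B : BasisClass}
    {R : Fin 7 → K} (hR : R ∈ strE K 5)
    (P : Ideal (MvPolynomial (Fin 7) K)) (hP : P.IsPrime) (hPR : P ≤ pointIdeal R) {k : ℕ}
    (hE : EqAlong B k (exV K) R P) : idealOf (strE K 5) ≤ P := by
  obtain ⟨h0, h1, h2, h3, hh, hc⟩ := local5_coord hR
  rw [eqAlong_iff] at hE
  obtain ⟨m0, m1, m2, m3⟩ := neg_a (n := 4) (mild_at h0 h1 h2 hh) local5_LI (local5_const hc)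
    (by rw [local5_eq h0 h1 h2 h3]) (Ideal.radical_isRadical _) hE
  have key : ∀ i : Fin 7, R i = 0 →
      (X i : MvPowerSeries (Fin 7) K) ∈ (P.map (taylorAt R)).radical →
      (MvPolynomial.X i : MvPolynomial (Fin 7) K) ∈ P := by
    intro i hi hm
    refine mem_of_taylorAt_mem R P hPR _ ?_
    rw [local5_taylor hi]
    exact hm
  refine idealOf_strE_le 5 fun i => ?_
  rw [local5_retr]
  by_cases hi : i.val < 4
  · rw [if_pos hi, sub_zero]
    obtain rfl | rfl | rfl | rfl : i = 0 ∨ i = 1 ∨ i = 2 ∨ i = 3 := by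
      have h5 : i.val = 0 ∨ i.val = 1 ∨ i.val = 2 ∨ i.val = 3 := by omega
      rcases h5 with h5 | h5 | h5 | h5
      · exact Or.inl (Fin.ext h5)
      · exact Or.inr (Or.inl (Fin.ext h5))
      · exact Or.inr (Or.inr (Or.inl (Fin.ext h5)))
      · exact Or.inr (Or.inr (Or.inr (Fin.ext h5)))
    · exact key 0 h0 m0
    · exact key 1 h1 m1
    · exact key 2 h2 m2
    · exact key 3 h3 m3
  · rw [if_neg hi, sub_self]
    exact P.zero_mem

end Pool.Agent.Helper38.ED
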