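import Pool.Agent.Helper38.ED.Comps
import Pool.Agent.Helper38.EQ.LenTwo
import Pool.Agent.Helper38.EQ.ClaimC

/-! One step of the recursion, for unions of smooth hypersurfaces. -/

namespace Pool.Agent.Helper38.ED

open MvPowerSeries Pool.Agent.Helper38.EQ

variable {n : ℕ} {K : Type} [Field K]

/-- A product of at least two elements of `J` is in `J ^ 2`. -/
private theorem Term_mem_sq {R : Type} [CommRing R] {m : ℕ} (hm : 2 ≤ m) {e : Fin m → R}
    {f : R} (hf : Associated f (∏ i, e i)) {J : Ideal R} (he : ∀ i, e i ∈ J) : f ∈ J ^ 2 := by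
  refine Ideal.mem_of_dvd _ hf.symm.dvd ?_
  have h1 : ∏ i, e i ∈ ∏ _i : Fin m, J := Ideal.prod_mem_prod fun i _ => he i
  rw [Finset.prod_const, Finset.card_univ, Fintype.card_fin] at h1
  exact Ideal.pow_le_pow_right hm h1

/-- The critical variety contains the image of the singular locus: if `singIdeal f ≤ I` then
`g ∈ p.img I`. Proof: `F` and `F' = ∂_z F` are in `big I` (as `f` and its derivatives are in `I`;
`deriv_mem_map` in `EQ/Deriv.lean`; see the proof of `claimC_step` in `EQ/ClaimC.lean`, or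
`C_discr_mem`), so `F.discr ∈ p.img I`, a combination of `F` and `F'`, and a power of `g` is a
multiple of `F.discr`; `p.img I` is radical. -/
theorem g_mem_img [CharZero K] (p : Proj n K) {f : MvPowerSeries (Fin (n + 1)) K}
    {I : Ideal (MvPowerSeries (Fin (n + 1)) K)} (hI : singIdeal f ≤ I)
    {F : Polynomial (R1 n K)} {U : PowerSeries (R1 n K)}
    (hF : (p.σ (ex f)).IsWeierstrassFactorization F U) {g : R1 n K}
    (hg : Ideal.span {g} = (Ideal.span {F.discr}).radical) : g ∈ p.img I := by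
  have hfI : f ∈ I := hI (Ideal.subset_span (Or.inl rfl))
  have heq : p.σ (ex f) = F * U := hF.eq_mul
  have hU : IsUnit U := hF.isUnit
  have hFmonic : F.Monic := hF.isDistinguishedAt.monic
  have hFJ : (F : PowerSeries (R1 n K)) ∈ p.big I := by
    have h1 : p.σ (ex f) ∈ p.big I := by
      rw [Proj.mem_big]
      exact Ideal.le_radical (Ideal.mem_map_of_mem _ hfI)
    rw [heq] at h1
    exact (Ideal.mul_unit_mem_iff_mem _ hU).mp h1
  have hF'J : (F.derivative : PowerSeries (R1 n K)) ∈ p.big I := by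
    have h1 := deriv_mem_map p.σ f I hI
    have h2 : Ideal.map p.σ (Ideal.map (ext K (GenField n K)) I) ≤ p.big I :=
      Ideal.map_mono Ideal.le_radical
    have h3 := h2 h1
    rw [show ext K (GenField n K) f = ex f from rfl, heq, Derivation.leibniz, smul_eq_mul,
      smul_eq_mul] at h3
    have h4 : U * PowerSeries.derivative (R1 n K) (F : PowerSeries (R1 n K)) ∈ p.big I := by
      have h5 := (p.big I).sub_mem h3 ((p.big I).mul_mem_right
        (PowerSeries.derivative (R1 n K) U) hFJ)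
      rwa [add_sub_cancel_left] at h5
    have h6 := (Ideal.unit_mul_mem_iff_mem _ hU).mp h4
    rwa [PowerSeries.derivative_coe] at h6
  rcases Nat.eq_zero_or_pos F.natDegree with h0 | hpos
  · have h1 : F = 1 := hFmonic.natDegree_eq_zero.mp h0
    rw [h1, Polynomial.coe_one] at hFJ
    have h2 : p.big I = ⊤ := (Ideal.eq_top_iff_one _).mpr hFJ
    rw [Proj.mem_img, h2]
    exact Submodule.mem_top
  · have hDJ : PowerSeries.C F.discr ∈ p.big I := C_discr_mem F hFmonic hpos (p.big I) hFJ hF'J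
    have hgrad : g ∈ (Ideal.span {F.discr}).radical := by
      rw [← hg]; exact Ideal.mem_span_singleton_self g
    obtain ⟨N, hN⟩ := hgrad
    rw [Ideal.mem_span_singleton] at hN
    refine p.img_isRadical I ⟨N, ?_⟩
    refine Ideal.mem_of_dvd _ hN ?_
    rw [Proj.mem_img]
    exact hDJ

/-- Negative direction. If every restriction of an equation to another one is a multiple of the
equation `P` of the critical variety, then all the equations vanish along the subvariety.
Proof: `eqLen_unpack`, `exists_sec`, `IsDisc.unique`, `g_mem_img`, `diff_mem`,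
`comps_mem`. -/
theorem neg_disc [CharZero K] {B : BasisClass} {k m : ℕ}
    {e : Fin m → MvPowerSeries (Fin (n + 1)) K}
    (hsm : ∀ i, e i ∈ IsLocalRing.maximalIdeal (MvPowerSeries (Fin (n + 1)) K) ∧
      e i ∉ IsLocalRing.maximalIdeal (MvPowerSeries (Fin (n + 1)) K) ^ 2)
    (hm : 2 ≤ m) {f : MvPowerSeries (Fin (n + 1)) K} (hf : Associated f (∏ i, e i))
    {I : Ideal (MvPowerSeries (Fin (n + 1)) K)} (hI : I.IsRadical)
    (hE : EqLen B k (n + 1) K f I)
    (hP : ∀ (p : Proj n K) (s : ∀ i, Sec p (e i)), ∃ P, IsDisc s P ∧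
      ∀ i j, i < j → P ∣ (s i).pull (e j)) (i : Fin m) : e i ∈ I := by
  obtain ⟨k', p, F, U, g, -, hsing, hF, hg, -⟩ :=
    eqLen_unpack hE (Term_mem_sq hm hf fun i => (hsm i).1)
  have hs : ∀ i, Nonempty (Sec p (e i)) := fun i => exists_sec p _ (hsm i).1 (hsm i).2
  let s : ∀ i, Sec p (e i) := fun i => (hs i).some
  obtain ⟨P, hD, hdvd⟩ := hP p s
  have hga : Associated g P := hD.unique hf hF hg
  have hPI : P ∈ p.img I := Ideal.mem_of_dvd _ hga.dvd (g_mem_img p hsing hF hg)
  have hfI : f ∈ I := hsing (Ideal.subset_span (Or.inl rfl))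
  exact comps_mem s hf hI hfI
    (diff_mem s (p.img I) fun i j hij => Ideal.mem_of_dvd _ (hdvd i j hij) hPI) i

/-- Positive direction, if the critical variety is smooth. Proof: `exists_proj`, `exists_sec`,
`IsDisc.exists`, `eqLen_pack`, `eqLen_simple`, `singIdeal_le_of_mem_sq` (two of the factors are in
`I`). -/
theorem pos_disc [CharZero K] {B : BasisClass} (hB : HasStd B) {m : ℕ}
    {e : Fin m → MvPowerSeries (Fin (n + 1)) K}
    (hsm : ∀ i, e i ∈ IsLocalRing.maximalIdeal (MvPowerSeries (Fin (n + 1)) K) ∧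
      e i ∉ IsLocalRing.maximalIdeal (MvPowerSeries (Fin (n + 1)) K) ^ 2)
    (hm : 2 ≤ m) {f : MvPowerSeries (Fin (n + 1)) K} (hf : Associated f (∏ i, e i))
    {I : Ideal (MvPowerSeries (Fin (n + 1)) K)} (hI : I ≠ ⊤) (he : ∀ i, e i ∈ I)
    (hP : ∀ (p : Proj n K) (s : ∀ i, Sec p (e i)), ∃ P, IsDisc s P ∧
      P ∈ IsLocalRing.maximalIdeal (R1 n K) ∧ P ∉ IsLocalRing.maximalIdeal (R1 n K) ^ 2) :
    EqLen B 1 (n + 1) K f I := by
  have := charZero_gen n K
  obtain ⟨p, hp⟩ := exists_proj n K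
  have hs : ∀ i, Nonempty (Sec p (e i)) := fun i => exists_sec p _ (hsm i).1 (hsm i).2
  let s : ∀ i, Sec p (e i) := fun i => (hs i).some
  obtain ⟨P, hD, hP1, hP2⟩ := hP p s
  obtain ⟨F, U, hF, hg⟩ := hD.exists hf
  exact eqLen_pack hB hp (singIdeal_le_of_mem_sq I f (Term_mem_sq hm hf he)) hF hg
    (eqLen_simple (Associated.refl P) hP1 hP2 (p.img_ne_top hI))

/-- Positive direction, in general: if the critical variety is equisingular. -/
theorem pos_disc_step [CharZero K] {B : BasisClass} (hB : HasStd B) {k m : ℕ}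
    {e : Fin m → MvPowerSeries (Fin (n + 1)) K}
    (hsm : ∀ i, e i ∈ IsLocalRing.maximalIdeal (MvPowerSeries (Fin (n + 1)) K) ∧
      e i ∉ IsLocalRing.maximalIdeal (MvPowerSeries (Fin (n + 1)) K) ^ 2)
    (hm : 2 ≤ m) {f : MvPowerSeries (Fin (n + 1)) K} (hf : Associated f (∏ i, e i))
    {I : Ideal (MvPowerSeries (Fin (n + 1)) K)} (he : ∀ i, e i ∈ I)
    (hP : ∀ (p : Proj n K) (s : ∀ i, Sec p (e i)), ∃ P, IsDisc s P ∧
      EqLen B k n (GenField n K) P (p.img I)) :
    EqLen B (k + 1) (n + 1) K f I := by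
  obtain ⟨p, hp⟩ := exists_proj n K
  have hs : ∀ i, Nonempty (Sec p (e i)) := fun i => exists_sec p _ (hsm i).1 (hsm i).2
  let s : ∀ i, Sec p (e i) := fun i => (hs i).some
  obtain ⟨P, hD, hE⟩ := hP p s
  obtain ⟨F, U, hF, hg⟩ := hD.exists hf
  exact eqLen_pack hB hp (singIdeal_le_of_mem_sq I f (Term_mem_sq hm hf he)) hF hg hE


/-- Negative direction, in general: `eqLen_unpack`, `exists_sec`, `IsDisc.unique`, `diff_mem`,
`comps_mem`. Here `hP` gives, for every section, the equation `P` of the critical variety and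
the fact that equisingularity of the critical variety `g ~ P` along an ideal `J` (radical) implies
that all the restrictions are in `J`. -/
theorem neg_disc_step [CharZero K] {B : BasisClass} {k m : ℕ}
    {e : Fin m → MvPowerSeries (Fin (n + 1)) K}
    (hsm : ∀ i, e i ∈ IsLocalRing.maximalIdeal (MvPowerSeries (Fin (n + 1)) K) ∧
      e i ∉ IsLocalRing.maximalIdeal (MvPowerSeries (Fin (n + 1)) K) ^ 2)
    (hm : 2 ≤ m) {f : MvPowerSeries (Fin (n + 1)) K} (hf : Associated f (∏ i, e i))
    {I : Ideal (MvPowerSeries (Fin (n + 1)) K)} (hI : I.IsRadical)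
    (hE : EqLen B k (n + 1) K f I)
    (hP : ∀ (p : Proj n K) (s : ∀ i, Sec p (e i)), ∃ P, IsDisc s P ∧
      ∀ (k' : ℕ) (g : R1 n K) (J : Ideal (R1 n K)), Associated g P → J.IsRadical →
        EqLen B k' n (GenField n K) g J → ∀ i j, i < j → (s i).pull (e j) ∈ J) :
    ∃ (k' : ℕ) (p : Proj n K) (s : ∀ i, Sec p (e i)) (P g : R1 n K),
      k = k' + 1 ∧ IsDisc s P ∧ Associated g P ∧ EqLen B k' n (GenField n K) g (p.img I) ∧
      (∀ i, e i ∈ I) := by
  obtain ⟨k', p, F, U, g, hk, hsing, hF, hg, hE'⟩ :=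
    eqLen_unpack hE (Term_mem_sq hm hf fun i => (hsm i).1)
  have hs : ∀ i, Nonempty (Sec p (e i)) := fun i => exists_sec p _ (hsm i).1 (hsm i).2
  let s : ∀ i, Sec p (e i) := fun i => (hs i).some
  obtain ⟨P, hD, hJ⟩ := hP p s
  have hga : Associated g P := hD.unique hf hF hg
  have hfI : f ∈ I := hsing (Ideal.subset_span (Or.inl rfl))
  refine ⟨k', p, s, P, g, hk, hD, hga, hE', ?_⟩
  exact comps_mem s hf hI hfI
    (diff_mem s (p.img I) (hJ k' g (p.img I) hga (p.img_isRadical I) hE'))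

end Pool.Agent.Helper38.ED
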