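import Pool.Agent.Helper38.ED.Mild
import Pool.Agent.Helper38.ED.Term
import Pool.Agent.Helper38.ED.Calc0B

/-! The discriminant of `V` at a point with `z = x₁ = x₂ = 0`, where `x₃`, `a₀`, `a₁` are arbitrary
(`1 + a₁` and `2 + a₁` are units). -/

namespace Pool.Agent.Helper38.ED

open MvPowerSeries Pool.Agent.Helper38.EQ

variable {m : ℕ} {K : Type} [Field K] [CharZero K]
  {z x1 x2 x3 a0 a1 : MvPowerSeries (Fin (m + 1)) K}

private def MildCalcM {R : Type} [CommRing R] (x1 x2 x3 a0 a1 : R) : Fin 6 → R :=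
  ![0, x1, 1, 1 + x1 + x2 * x3, 2 + a1, 2 + a1 + x1 + 2 * x2 * x3 + a0 * x2 ^ 2]

private def MildCalcC {R : Type} [CommRing R] (a1 : R) : Fin 6 → R :=
  ![0, 0, 1, 1, 2 + a1, 2 + a1]

private theorem MildCalc_comps {R : Type} [CommRing R] (z x1 x2 x3 a0 a1 : R) (i : Fin 6) :
    comps0 z x1 x2 x3 a0 a1 i = z - x2 ^ 2 * MildCalcM x1 x2 x3 a0 a1 i := by
  fin_cases i <;> simp [comps0, MildCalcM]

omit [CharZero K] in
private theorem MildCalc_mem (h : Mild z x1 x2 a1) (i : Fin 6) :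
    MildCalcM x1 x2 x3 a0 a1 i - MildCalcC a1 i ∈
      IsLocalRing.maximalIdeal (MvPowerSeries (Fin (m + 1)) K) := by
  have h1 : x1 ∈ IsLocalRing.maximalIdeal (MvPowerSeries (Fin (m + 1)) K) := h.li.mem 1
  have h2 : x2 ∈ IsLocalRing.maximalIdeal (MvPowerSeries (Fin (m + 1)) K) := h.li.mem 2
  fin_cases i
  · simp [MildCalcM, MildCalcC]
  · simpa [MildCalcM, MildCalcC] using h1
  · simp [MildCalcM, MildCalcC]
  · have e : MildCalcM x1 x2 x3 a0 a1 3 - MildCalcC a1 3 = x1 + x2 * x3 := by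
      simp only [MildCalcM, MildCalcC]
      simp
      ring
    change MildCalcM x1 x2 x3 a0 a1 3 - MildCalcC a1 3 ∈ _
    rw [e]
    exact Ideal.add_mem _ h1 (Ideal.mul_mem_right _ _ h2)
  · simp [MildCalcM, MildCalcC]
  · have e : MildCalcM x1 x2 x3 a0 a1 5 - MildCalcC a1 5 = x1 + x2 * (2 * x3 + a0 * x2) := by
      simp only [MildCalcM, MildCalcC]
      simp
      ring
    change MildCalcM x1 x2 x3 a0 a1 5 - MildCalcC a1 5 ∈ _
    rw [e]
    exact Ideal.add_mem _ h1 (Ideal.mul_mem_right _ _ h2)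

omit [CharZero K] in
private theorem MildCalc_unit_add {u t : MvPowerSeries (Fin (m + 1)) K} (hu : IsUnit u)
    (ht : t ∈ IsLocalRing.maximalIdeal (MvPowerSeries (Fin (m + 1)) K)) : IsUnit (u + t) := by
  rw [MvPowerSeries.isUnit_iff_constantCoeff] at hu ⊢
  rw [mem_maximalIdeal_iff_constantCoeff] at ht
  rw [map_add, ht, add_zero]
  exact hu

omit [CharZero K] in
private theorem MildCalc_unit (h : Mild z x1 x2 a1) (i j : Fin 6) (hij : i < j)
    (h01 : ¬ (i = 0 ∧ j = 1)) (h23 : ¬ (i = 2 ∧ j = 3)) (h45 : ¬ (i = 4 ∧ j = 5)) :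
    IsUnit (MildCalcM x1 x2 x3 a0 a1 j - MildCalcM x1 x2 x3 a0 a1 i) := by
  have hc : IsUnit (MildCalcC a1 j - MildCalcC a1 i) := by
    fin_cases i <;> fin_cases j
    all_goals first
      | exact absurd hij (by decide)
      | exact absurd (And.intro rfl rfl) h01
      | exact absurd (And.intro rfl rfl) h23
      | exact absurd (And.intro rfl rfl) h45
      | skip
    all_goals simp only [MildCalcC]
    all_goals simp
    all_goals first
      | exact h.unit2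
      | skip
    all_goals
      have e : 2 + a1 - 1 = 1 + a1 := by ring
      rw [e]
      exact h.unit1
  have hm := Ideal.sub_mem _ (MildCalc_mem (x3 := x3) (a0 := a0) h j)
    (MildCalc_mem (x3 := x3) (a0 := a0) h i)
  have h1 := MildCalc_unit_add hc hm
  have e : MildCalcC a1 j - MildCalcC a1 i +
      (MildCalcM x1 x2 x3 a0 a1 j - MildCalcC a1 j - (MildCalcM x1 x2 x3 a0 a1 i -
        MildCalcC a1 i)) = MildCalcM x1 x2 x3 a0 a1 j - MildCalcM x1 x2 x3 a0 a1 i := by ring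
  rwa [e] at h1

/-- The restriction of `z`. -/
private theorem MildCalc_z (p : Proj m K)
    (s : ∀ i, Sec p (comps0 z x1 x2 x3 a0 a1 i)) (i : Fin 6) :
    (s i).pull z = (s i).pull x2 ^ 2 * (s i).pull (MildCalcM x1 x2 x3 a0 a1 i) := by
  have h := (s i).pull_self
  have h2 := congrArg (s i).pull (MildCalc_comps z x1 x2 x3 a0 a1 i)
  rw [h, map_sub, map_mul, map_pow] at h2
  exact sub_eq_zero.1 h2.symm

private theorem MildCalc_pull (p : Proj m K)
    (s : ∀ i, Sec p (comps0 z x1 x2 x3 a0 a1 i)) (i j : Fin 6) :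
    (s i).pull (comps0 z x1 x2 x3 a0 a1 j) = - ((s i).pull x2 ^ 2 *
      (s i).pull (MildCalcM x1 x2 x3 a0 a1 j - MildCalcM x1 x2 x3 a0 a1 i)) := by
  have h2 := congrArg (s i).pull (MildCalc_comps z x1 x2 x3 a0 a1 j)
  rw [h2, map_sub, map_mul, map_pow, MildCalc_z p s i, map_sub]
  ring

theorem Mild.comps_mem (h : Mild z x1 x2 a1) (i : Fin 6) :
    comps0 z x1 x2 x3 a0 a1 i ∈ IsLocalRing.maximalIdeal (MvPowerSeries (Fin (m + 1)) K) ∧
    comps0 z x1 x2 x3 a0 a1 i ∉ IsLocalRing.maximalIdeal (MvPowerSeries (Fin (m + 1)) K) ^ 2 := by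
  have hz : z ∈ IsLocalRing.maximalIdeal (MvPowerSeries (Fin (m + 1)) K) := h.li.mem 0
  have hx2 : x2 ∈ IsLocalRing.maximalIdeal (MvPowerSeries (Fin (m + 1)) K) := h.li.mem 2
  have hz2 : z ∉ IsLocalRing.maximalIdeal (MvPowerSeries (Fin (m + 1)) K) ^ 2 := h.li.notMem_sq 0
  have h1 : x2 ^ 2 * MildCalcM x1 x2 x3 a0 a1 i ∈
      IsLocalRing.maximalIdeal (MvPowerSeries (Fin (m + 1)) K) ^ 2 :=
    Ideal.mul_mem_right _ _ (Ideal.pow_mem_pow hx2 2)
  rw [MildCalc_comps]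
  refine ⟨Ideal.sub_mem _ hz (Ideal.pow_le_self two_ne_zero h1), fun h2 => hz2 ?_⟩
  have h3 := Ideal.add_mem _ h2 h1
  rwa [sub_add_cancel] at h3

/-- See `Good.x2_assoc` in Calc0A.lean (the statement there is under a stronger hypothesis, the
proof is the same). -/
theorem Mild.x2_assoc (h : Mild z x1 x2 a1) (p : Proj m K)
    (s : ∀ i, Sec p (comps0 z x1 x2 x3 a0 a1 i)) (i : Fin 6) :
    Associated ((s i).pull x2) ((s 0).pull x2) ∧
    (s 0).pull x2 ^ 2 ∣ (s i).r - (s 0).r := by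
  have h1 : (s 0).pull x2 ^ 2 ∣ (s i).r - (s 0).r := by
    have h2 := (s 0).assoc (s i)
    have h3 : (s 0).pull x2 ^ 2 ∣ (s 0).pull (comps0 z x1 x2 x3 a0 a1 i) := by
      rw [MildCalc_pull p s 0 i]
      exact (Dvd.intro _ rfl).neg_right
    have h4 : (s 0).pull x2 ^ 2 ∣ (s 0).r - (s i).r := h3.trans h2.dvd
    have h5 := h4.neg_right
    rwa [neg_sub] at h5
  refine ⟨?_, h1⟩
  have hb : (s 0).pull x2 ∈ IsLocalRing.maximalIdeal (R1 m K) := (s 0).pull_mem (h.li.mem 2)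
  obtain ⟨t, ht⟩ := h1.trans ((s 0).pull_sub_dvd (s i) x2)
  have hu : IsUnit (1 + (s 0).pull x2 * t) :=
    isUnit_one_add (K := GenField m K) (Ideal.mul_mem_right _ _ hb)
  have heq : (s i).pull x2 = (s 0).pull x2 * (1 + (s 0).pull x2 * t) := by
    linear_combination ht
  rw [heq]
  exact associated_mul_unit_left _ _ hu

/-- See `Good.pull_assoc` in Calc0A.lean. -/
theorem Mild.pull_assoc (h : Mild z x1 x2 a1) (p : Proj m K)
    (s : ∀ i, Sec p (comps0 z x1 x2 x3 a0 a1 i)) :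
    Associated ((s 0).pull (comps0 z x1 x2 x3 a0 a1 1)) ((s 0).pull x2 ^ 2 * (s 0).pull x1) ∧
    Associated ((s 2).pull (comps0 z x1 x2 x3 a0 a1 3))
      ((s 0).pull x2 ^ 2 * (s 2).pull (x1 + x2 * x3)) ∧
    Associated ((s 4).pull (comps0 z x1 x2 x3 a0 a1 5))
      ((s 0).pull x2 ^ 2 * (s 4).pull (x1 + 2 * x2 * x3 + a0 * x2 ^ 2)) ∧
    ∀ i j, i < j → ¬ (i = 0 ∧ j = 1) → ¬ (i = 2 ∧ j = 3) → ¬ (i = 4 ∧ j = 5) →
      Associated ((s i).pull (comps0 z x1 x2 x3 a0 a1 j)) ((s 0).pull x2 ^ 2) := by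
  have key : ∀ (i j : Fin 6) (L : MvPowerSeries (Fin (m + 1)) K),
      MildCalcM x1 x2 x3 a0 a1 j - MildCalcM x1 x2 x3 a0 a1 i = L →
      Associated ((s i).pull (comps0 z x1 x2 x3 a0 a1 j)) ((s 0).pull x2 ^ 2 * (s i).pull L) := by
    intro i j L hL
    rw [MildCalc_pull p s i j, hL]
    have h1 := ((h.x2_assoc p s i).1.pow_pow (n := 2)).mul_right ((s i).pull L)
    exact (Associated.neg_left (Associated.refl _)).trans h1
  refine ⟨key 0 1 x1 ?_, key 2 3 _ ?_, key 4 5 _ ?_, ?_⟩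
  · simp [MildCalcM]
  · simp only [MildCalcM]
    simp
    ring
  · simp only [MildCalcM]
    simp
    ring
  · intro i j hij h01 h23 h45
    exact (key i j _ rfl).trans
      (associated_mul_unit_left _ _ ((MildCalc_unit h i j hij h01 h23 h45).map _))

/-- See `calc0_main` in Calc0B.lean; here the last formula has the additional term
`(2 + 2 a1) w2 x3`, which is a multiple of `x3`, as before. -/
theorem calc0_main_mild (h : Mild z x1 x2 a1) (p : Proj m K)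
    (s : ∀ i, Sec p (comps0 z x1 x2 x3 a0 a1 i)) :
    ∃ (c d w : R1 m K) (q : PowerSeries (R1 m K)),
      (s 2).pull (x1 + x2 * x3) = (s 0).pull x1 + (s 0).pull x2 * c ∧
      (s 4).pull (x1 + 2 * x2 * x3 + a0 * x2 ^ 2) =
        (s 0).pull x1 + 2 * (s 0).pull x2 * c + (s 0).pull x2 ^ 2 * d ∧
      (s 0).pull x2 ∣ c - (s 0).pull x3 ∧
      p.σ (ex x1) = PowerSeries.C ((s 0).pull x1) + (PowerSeries.X - PowerSeries.C (s 0).r) * q ∧
      w * (s 0).ε (s 0).U = (s 0).ε q ∧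
      d - ((s 0).pull a0 + w * (s 0).pull a1) ∈
        Ideal.span {(s 0).pull x2, (s 0).pull x3} :=
  calc0B_gen p s (h.x2_assoc p s 2).2 (h.x2_assoc p s 4).2

private theorem MildCalc_prod {R : Type} [CommRing R] (g : Fin 6 → Fin 6 → R) :
    g 0 1 * g 2 3 * g 4 5 ∣ ∏ i, ∏ j ∈ Finset.univ.filter (fun j => i < j), g i j := by
  rw [Fin.prod_univ_six]
  have h01 : g 0 1 ∣ ∏ j ∈ Finset.univ.filter (fun j : Fin 6 => 0 < j), g 0 j :=
    Finset.dvd_prod_of_mem (fun j => g 0 j) (by decide)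
  have h23 : g 2 3 ∣ ∏ j ∈ Finset.univ.filter (fun j : Fin 6 => 2 < j), g 2 j :=
    Finset.dvd_prod_of_mem (fun j => g 2 j) (by decide)
  have h45 : g 4 5 ∣ ∏ j ∈ Finset.univ.filter (fun j : Fin 6 => 4 < j), g 4 j :=
    Finset.dvd_prod_of_mem (fun j => g 4 j) (by decide)
  refine Dvd.dvd.trans (mul_dvd_mul (mul_dvd_mul h01 h23) h45) ?_
  exact ⟨(∏ j ∈ Finset.univ.filter (fun j : Fin 6 => 1 < j), g 1 j) *
    (∏ j ∈ Finset.univ.filter (fun j : Fin 6 => 3 < j), g 3 j) *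
    (∏ j ∈ Finset.univ.filter (fun j : Fin 6 => 5 < j), g 5 j), by ring⟩

/-- Everything together: the critical variety of `V` is `∏ comps1 = 0` if this product is
radical. -/
theorem calc0_mild (h : Mild z x1 x2 a1) (p : Proj m K)
    (s : ∀ i, Sec p (comps0 z x1 x2 x3 a0 a1 i)) :
    ∃ (c d w : R1 m K) (q : PowerSeries (R1 m K)),
      LI ![(s 0).pull x1, (s 0).pull x2] ∧
      (Rad (∏ i, comps1 ((s 0).pull x1) ((s 0).pull x2) c d i) →
        IsDisc s (∏ i, comps1 ((s 0).pull x1) ((s 0).pull x2) c d i)) ∧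
      (∀ i j, i < j → (s 0).pull x2 ∣ (s i).pull (comps0 z x1 x2 x3 a0 a1 j)) ∧
      (s 0).pull x2 ∣ c - (s 0).pull x3 ∧
      p.σ (ex x1) = PowerSeries.C ((s 0).pull x1) + (PowerSeries.X - PowerSeries.C (s 0).r) * q ∧
      w * (s 0).ε (s 0).U = (s 0).ε q ∧
      d - ((s 0).pull a0 + w * (s 0).pull a1) ∈
        Ideal.span {(s 0).pull x2, (s 0).pull x3} := by
  obtain ⟨c, d, w, q, e2, e4, hc, hq, hw, hd⟩ := calc0_main_mild h p s
  obtain ⟨a01, a23, a45, arest⟩ := h.pull_assoc p s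
  rw [e2] at a23
  rw [e4] at a45
  have hLI : LI ![(s 0).pull x1, (s 0).pull x2] := by
    have h1 : LI (Fin.cons (comps0 z x1 x2 x3 a0 a1 0) ![x1, x2] :
        Fin 3 → MvPowerSeries (Fin (m + 1)) K) := h.li
    have h2 := (s 0).LI_pull ![x1, x2] h1
    have h3 : (fun i => (s 0).pull ((![x1, x2] : Fin 2 → MvPowerSeries (Fin (m + 1)) K) i)) =
        ![(s 0).pull x1, (s 0).pull x2] := by
      funext i
      fin_cases i <;> rfl
    rwa [h3] at h2
  set a := (s 0).pull x1 with ha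
  set b := (s 0).pull x2 with hb
  have hP : ∏ i, comps1 a b c d i = a * b * (a + b * c) * (a + 2 * b * c + b ^ 2 * d) := by
    rw [Fin.prod_univ_four]
    rfl
  have key : ∀ i j, i < j → ((s i).pull (comps0 z x1 x2 x3 a0 a1 j) ∣
      (a * b * (a + b * c) * (a + 2 * b * c + b ^ 2 * d)) ^ 2) ∧
      b ∣ (s i).pull (comps0 z x1 x2 x3 a0 a1 j) := by
    intro i j hij
    by_cases h01 : i = 0 ∧ j = 1
    · obtain ⟨rfl, rfl⟩ := h01
      refine ⟨a01.dvd.trans ⟨a * ((a + b * c) * (a + 2 * b * c + b ^ 2 * d)) ^ 2, by ring⟩, ?_⟩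
      exact Dvd.dvd.trans ⟨b * a, by ring⟩ a01.symm.dvd
    by_cases h23 : i = 2 ∧ j = 3
    · obtain ⟨rfl, rfl⟩ := h23
      refine ⟨a23.dvd.trans ⟨a ^ 2 * (a + b * c) * (a + 2 * b * c + b ^ 2 * d) ^ 2, by ring⟩, ?_⟩
      exact Dvd.dvd.trans ⟨b * (a + b * c), by ring⟩ a23.symm.dvd
    by_cases h45 : i = 4 ∧ j = 5
    · obtain ⟨rfl, rfl⟩ := h45
      refine ⟨a45.dvd.trans ⟨a ^ 2 * (a + b * c) ^ 2 * (a + 2 * b * c + b ^ 2 * d), by ring⟩, ?_⟩
      exact Dvd.dvd.trans ⟨b * (a + 2 * b * c + b ^ 2 * d), by ring⟩ a45.symm.dvd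
    · have h1 := arest i j hij h01 h23 h45
      refine ⟨h1.dvd.trans ⟨(a * (a + b * c) * (a + 2 * b * c + b ^ 2 * d)) ^ 2, by ring⟩, ?_⟩
      exact Dvd.dvd.trans ⟨b, by ring⟩ h1.symm.dvd
  refine ⟨c, d, w, q, hLI, fun hrad => ⟨hrad, fun i j hij => ⟨2, ?_⟩, ⟨1, ?_⟩⟩,
    fun i j hij => (key i j hij).2, hc, hq, hw, hd⟩
  · rw [hP]
    exact (key i j hij).1
  · rw [pow_one, hP]
    refine Dvd.dvd.trans ?_
      (MildCalc_prod fun i j => (s i).pull (comps0 z x1 x2 x3 a0 a1 j))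
    have h1 := mul_dvd_mul (mul_dvd_mul a01.symm.dvd a23.symm.dvd) a45.symm.dvd
    exact Dvd.dvd.trans ⟨b ^ 5, by ring⟩ h1

end Pool.Agent.Helper38.ED
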