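import Pool.Agent.Helper38.ED.OpenDefs

/-! Abbreviations for the final statement. -/

namespace Pool.Agent.Helper38.ED

open MvPolynomial Pool.Agent.Helper38.EQ

section

variable {n : ℕ} {K : Type} [Field K]

/-- `V : f = 0` is equisingular along the closed set `M` at every point of `M`, with a recursion that
runs through `k` critical varieties. -/
def EquiAlong (B : BasisClass) (k : ℕ) (f : MvPolynomial (Fin n) K) (M : Set (Fin n → K)) : Prop :=
  ∀ Q ∈ M, EqAlong B k f Q (idealOf M)

/-- If `V : f = 0` is equisingular at a point `Q` of the closed set `M` along an irreducible variety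
`N = V(P)` through `Q`, then `N` is contained in `M`. -/
def EquiMax (B : BasisClass) (f : MvPolynomial (Fin n) K) (M : Set (Fin n → K)) : Prop :=
  ∀ Q ∈ M, ∀ P : Ideal (MvPolynomial (Fin n) K), P.IsPrime → Q ∈ zeroLocus K P →
    (∃ k, EqAlong B k f Q P) → idealOf M ≤ P

/-- The closed set `M` is irreducible, and `Q` is a singular point of `M`. -/
def IsSingularPoint (M : Set (Fin n → K)) (Q : Fin n → K) : Prop :=
  closureOf M = M ∧ (idealOf M).IsPrime ∧ Q ∈ M ∧ ¬ IsSimple (idealOf M) Q

/-- Some stratum `E i`, `i ≠ 0`, contains the point `Q`, its closure is `M`, and `Q` is not a simple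
point of this closure. -/
def StratOn.SingularAt {B : BasisClass} {f h : MvPolynomial (Fin n) K} (S : StratOn B f h)
    (M : Set (Fin n → K)) (Q : Fin n → K) : Prop :=
  ∃ i, i ≠ 0 ∧ Q ∈ S.E i ∧ closureOf (S.E i) = M ∧ ¬ IsSimple (idealOf (S.E i)) Q

end

end Pool.Agent.Helper38.ED
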