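import Pool.Agent.Helper38.EQ.StmtEquiv

/-! Retractions of affine space onto a graph. -/

namespace Pool.Agent.Helper38.ED

open MvPolynomial Pool.Agent.Helper38.EQ

variable {n : ℕ} {K : Type} [Field K]

/-- The fixed points of the map `R ↦ (φ(X_i)(R))_i`. -/
def Fix (φ : MvPolynomial (Fin n) K →ₐ[K] MvPolynomial (Fin n) K) : Set (Fin n → K) :=
  {R | ∀ i, eval R (φ (X i)) = R i}

variable {φ : MvPolynomial (Fin n) K →ₐ[K] MvPolynomial (Fin n) K}

private theorem Retr_ae (R : Fin n → K) (f : MvPolynomial (Fin n) K) :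
    aeval R f = eval R f := DFunLike.congr_fun (coe_aeval_eq_eval R) f

/-- `f(Φ(R)) = (φ f)(R)`. -/
theorem eval_retr (R : Fin n → K) (f : MvPolynomial (Fin n) K) :
    eval R (φ f) = eval (fun i => eval R (φ (X i))) f := by
  have h : (eval R).comp (φ : MvPolynomial (Fin n) K →+* MvPolynomial (Fin n) K) =
      eval (fun i => eval R (φ (X i))) := by
    apply MvPolynomial.ringHom_ext
    · intro a
      rw [RingHom.comp_apply, eval_C]
      change eval R (φ (C a)) = a
      rw [algHom_C, algebraMap_eq, eval_C]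
    · intro i
      rw [RingHom.comp_apply, eval_X]
      rfl
  exact DFunLike.congr_fun h f

theorem Fix.eval_eq {R : Fin n → K} (hR : R ∈ Fix φ) (f : MvPolynomial (Fin n) K) :
    eval R (φ f) = eval R f := by
  rw [eval_retr]
  congr 1
  congr 1
  funext i
  exact hR i

/-- Let `φ` be idempotent, and let `E` be between `Fix φ ∩ {g ≠ 0}` (nonempty) and `Fix φ`. Then
the ideal of `E` is the kernel of `φ`. Proof: if `φ f = 0`, then `f(R) = (φ f)(R) = 0` on
`Fix φ`. Conversely, if `f` vanishes on `E`, then `φ f * φ g` vanishes at every point `T` (as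
`Φ(T) ∈ Fix φ`), so it is `0` (`K` is infinite), and `φ g ≠ 0`. -/
theorem Fix.mem_idealOf [Infinite K] (hφ : ∀ i, φ (φ (X i)) = φ (X i)) {E : Set (Fin n → K)}
    {g : MvPolynomial (Fin n) K} (h1 : E ⊆ Fix φ) (h2 : ∀ R ∈ Fix φ, eval R g ≠ 0 → R ∈ E)
    (h3 : ∃ R ∈ Fix φ, eval R g ≠ 0) (f : MvPolynomial (Fin n) K) :
    f ∈ idealOf E ↔ φ f = 0 := by
  constructor
  · intro hf
    rw [mem_vanishingIdeal_iff] at hf
    have hprod : φ f * φ g = 0 := by
      apply MvPolynomial.funext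
      intro T
      rw [map_mul, map_zero]
      have hT : (fun i => eval T (φ (X i))) ∈ Fix φ := by
        intro i
        rw [← eval_retr, hφ]
      by_cases hg : eval (fun i => eval T (φ (X i))) g = 0
      · rw [eval_retr T g, hg, mul_zero]
      · have h4 := hf _ (h2 _ hT hg)
        rw [Retr_ae] at h4
        rw [eval_retr T f, h4, zero_mul]
    have hg : φ g ≠ 0 := by
      obtain ⟨R, hR, hR'⟩ := h3
      intro h
      apply hR'
      rw [← Fix.eval_eq hR, h, map_zero]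
    rcases mul_eq_zero.1 hprod with h | h
    · exact h
    · exact absurd h hg
  · intro hf
    rw [mem_vanishingIdeal_iff]
    intro R hR
    rw [Retr_ae, ← Fix.eval_eq (h1 hR), hf, map_zero]

theorem Fix.isPrime [Infinite K] (hφ : ∀ i, φ (φ (X i)) = φ (X i)) {E : Set (Fin n → K)}
    {g : MvPolynomial (Fin n) K} (h1 : E ⊆ Fix φ) (h2 : ∀ R ∈ Fix φ, eval R g ≠ 0 → R ∈ E)
    (h3 : ∃ R ∈ Fix φ, eval R g ≠ 0) : (idealOf E).IsPrime := by
  have h : idealOf E = RingHom.ker (φ : MvPolynomial (Fin n) K →+* MvPolynomial (Fin n) K) := by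
    ext f
    rw [Fix.mem_idealOf hφ h1 h2 h3, RingHom.mem_ker]
    rfl
  rw [h]
  exact RingHom.ker_isPrime _

/-- The closure of `E` is `Fix φ`. -/
theorem Fix.closure [Infinite K] (hφ : ∀ i, φ (φ (X i)) = φ (X i)) {E : Set (Fin n → K)}
    {g : MvPolynomial (Fin n) K} (h1 : E ⊆ Fix φ) (h2 : ∀ R ∈ Fix φ, eval R g ≠ 0 → R ∈ E)
    (h3 : ∃ R ∈ Fix φ, eval R g ≠ 0) : closureOf E = Fix φ := by
  ext R
  unfold closureOf
  rw [mem_zeroLocus_iff]
  constructor
  · intro h i
    have h4 := h (X i - φ (X i)) (by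
      rw [Fix.mem_idealOf hφ h1 h2 h3, map_sub, hφ, sub_self])
    rw [Retr_ae, map_sub, eval_X, sub_eq_zero] at h4
    exact h4.symm
  · intro hR f hf
    rw [Fix.mem_idealOf hφ h1 h2 h3] at hf
    rw [Retr_ae, ← Fix.eval_eq hR, hf, map_zero]

/-- The ideal of `E` is generated by the `X_i - φ(X_i)`. -/
theorem Fix.le [Infinite K] (hφ : ∀ i, φ (φ (X i)) = φ (X i)) {E : Set (Fin n → K)}
    {g : MvPolynomial (Fin n) K} (h1 : E ⊆ Fix φ) (h2 : ∀ R ∈ Fix φ, eval R g ≠ 0 → R ∈ E)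
    (h3 : ∃ R ∈ Fix φ, eval R g ≠ 0) {P : Ideal (MvPolynomial (Fin n) K)}
    (hP : ∀ i, X i - φ (X i) ∈ P) : idealOf E ≤ P := by
  intro f hf
  rw [Fix.mem_idealOf hφ h1 h2 h3] at hf
  have h : (Ideal.Quotient.mk P).comp (φ : MvPolynomial (Fin n) K →+* MvPolynomial (Fin n) K) =
      Ideal.Quotient.mk P := by
    apply MvPolynomial.ringHom_ext
    · intro a
      rw [RingHom.comp_apply]
      change Ideal.Quotient.mk P (φ (C a)) = _
      rw [algHom_C, algebraMap_eq]
    · intro i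
      rw [RingHom.comp_apply]
      exact ((Ideal.Quotient.mk_eq_mk_iff_sub_mem _ _).2 (hP i)).symm
  have h4 : Ideal.Quotient.mk P (φ f) = Ideal.Quotient.mk P f := DFunLike.congr_fun h f
  rw [hf, map_zero] at h4
  exact Ideal.Quotient.eq_zero_iff_mem.1 h4.symm

end Pool.Agent.Helper38.ED
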