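import Pool.Agent.Helper38.ED.Defs
import Pool.Agent.Helper38.EQ.Transversal
import Pool.Agent.Helper38.EQ.AdicComplete
import Pool.Agent.Helper38.EQ.Psi

/-! A smooth germ is transversal to the generic projection. -/

namespace Pool.Agent.Helper38.ED

open MvPowerSeries Pool.Agent.Helper38.EQ

private noncomputable def rootRho {n : ℕ} {K : Type} [Field K] (p : Proj n K) :
    MvPowerSeries (Fin (n + 1)) K →+* PowerSeries (GenField n K) :=
  ((PowerSeries.map (constantCoeff (σ := Fin n) (R := GenField n K))).comp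
    (p.σ : SL n K →+* PowerSeries (R1 n K))).comp ex

private theorem rootRho_apply {n : ℕ} {K : Type} [Field K] (p : Proj n K)
    (y : MvPowerSeries (Fin (n + 1)) K) :
    rootRho p y = PowerSeries.map constantCoeff (p.σ (ex y)) := rfl

/-- Elements of the maximal ideal go to multiples of `z`. -/
private theorem root_X_dvd {n : ℕ} {K : Type} [Field K] (p : Proj n K)
    (y : MvPowerSeries (Fin (n + 1)) K)
    (hy : y ∈ IsLocalRing.maximalIdeal (MvPowerSeries (Fin (n + 1)) K)) :
    (PowerSeries.X : PowerSeries (GenField n K)) ∣ rootRho p y := by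
  rw [PowerSeries.X_dvd_iff]
  by_contra hne
  rw [rootRho_apply] at hne
  have h1 : PowerSeries.constantCoeff (PowerSeries.map constantCoeff (p.σ (ex y))) =
      constantCoeff (PowerSeries.constantCoeff (p.σ (ex y))) := by
    rw [← PowerSeries.coeff_zero_eq_constantCoeff_apply, PowerSeries.coeff_map,
      PowerSeries.coeff_zero_eq_constantCoeff_apply]
  rw [h1] at hne
  have h2 : IsUnit (p.σ (ex y)) := by
    rw [PowerSeries.isUnit_iff_constantCoeff, MvPowerSeries.isUnit_iff_constantCoeff]
    exact isUnit_iff_ne_zero.mpr hne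
  have h3 : IsUnit (ex y : SL n K) := by
    have h4 := h2.map p.σ.symm
    rwa [AlgEquiv.symm_apply_apply] at h4
  rw [MvPowerSeries.isUnit_iff_constantCoeff] at h3
  apply h3.ne_zero
  rw [mem_maximalIdeal_iff_constantCoeff] at hy
  have h5 : constantCoeff (ex y : SL n K) = algebraMap K (GenField n K) (constantCoeff y) := by
    simp [ex, EQ.ext]
  rw [h5, hy, map_zero]

/-- Some basis element does not vanish on the `z`-line. -/
private theorem root_exists_ne {n : ℕ} {K : Type} [Field K] (p : Proj n K) :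
    ∃ j, rootRho p (p.x j) ≠ 0 := by
  by_contra hcon
  push Not at hcon
  have h0 : Ideal.span (Set.range p.x) ≤ RingHom.ker (rootRho p) := by
    rw [Ideal.span_le]
    rintro _ ⟨j, rfl⟩
    exact hcon j
  rw [p.hx] at h0
  have h1 : IsLocalRing.maximalIdeal (SL n K) ≤
      RingHom.ker ((PowerSeries.map (constantCoeff (σ := Fin n) (R := GenField n K))).comp
        (p.σ : SL n K →+* PowerSeries (R1 n K))) := by
    rw [maximalIdeal_eq_span_X, Ideal.span_le]
    rintro _ ⟨i, rfl⟩
    have h3 : (X i : MvPowerSeries (Fin (n + 1)) K) ∈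
        IsLocalRing.maximalIdeal (MvPowerSeries (Fin (n + 1)) K) := by
      rw [mem_maximalIdeal_iff_constantCoeff]
      simp
    have h4 := h0 h3
    have h6 : (ex (X i : MvPowerSeries (Fin (n + 1)) K) : SL n K) = X i := by simp [ex, EQ.ext]
    rw [RingHom.mem_ker, rootRho_apply, h6] at h4
    exact h4
  have h2 : p.σ.symm PowerSeries.X ∈ IsLocalRing.maximalIdeal (SL n K) := by
    rw [IsLocalRing.mem_maximalIdeal, mem_nonunits_iff]
    intro h2
    have h3 := h2.map p.σ
    rw [AlgEquiv.apply_symm_apply, PowerSeries.isUnit_iff_constantCoeff] at h3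
    simp at h3
  have h3 := h1 h2
  rw [RingHom.mem_ker] at h3
  have h4 : (PowerSeries.map (constantCoeff (σ := Fin n) (R := GenField n K))).comp
        (p.σ : SL n K →+* PowerSeries (R1 n K)) (p.σ.symm PowerSeries.X) =
        (PowerSeries.X : PowerSeries (GenField n K)) := by
    rw [RingHom.comp_apply, RingHom.coe_coe, AlgEquiv.apply_symm_apply, PowerSeries.map_X]
  rw [h4] at h3
  exact PowerSeries.X_ne_zero h3

/-- The result when `e` does not vanish on the `z`-line. -/
private theorem root_of_ne {n : ℕ} {K : Type} [Field K] [CharZero K] (p : Proj n K)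
    (e : MvPowerSeries (Fin (n + 1)) K)
    (h1 : e ∈ IsLocalRing.maximalIdeal (MvPowerSeries (Fin (n + 1)) K))
    (h2 : e ∉ IsLocalRing.maximalIdeal (MvPowerSeries (Fin (n + 1)) K) ^ 2)
    (h3 : rootRho p e ≠ 0) :
    ∃ (r : R1 n K) (U : PowerSeries (R1 n K)),
      r ∈ IsLocalRing.maximalIdeal (R1 n K) ∧ IsUnit U ∧
      p.σ (ex e) = U * (PowerSeries.X - PowerSeries.C r) := by
  have hcomp := isAdicComplete_mvPowerSeries n (GenField n K)
  have hne : (p.σ (ex e)).map (IsLocalRing.residue (R1 n K)) ≠ 0 := by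
    intro h0
    apply h3
    rw [rootRho_apply]
    ext k
    have h4 := congrArg (PowerSeries.coeff k) h0
    rw [PowerSeries.coeff_map, map_zero, IsLocalRing.residue_eq_zero_iff,
      mem_maximalIdeal_iff_constantCoeff] at h4
    rw [PowerSeries.coeff_map, h4, map_zero]
  obtain ⟨F, U, hF⟩ := PowerSeries.exists_isWeierstrassFactorization hne
  have hdeg : F.natDegree = 1 :=
    natDegree_eq_order e p.x p.hx p.σ p.hσ F U hF 1 (by rwa [pow_one]) h2
  have hmon : F.coeff 1 = 1 := by
    have := hF.isDistinguishedAt.monic.coeff_natDegree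
    rwa [hdeg] at this
  have h0 : F.coeff 0 ∈ IsLocalRing.maximalIdeal (R1 n K) :=
    hF.isDistinguishedAt.mem (by rw [hdeg]; exact Nat.zero_lt_one)
  refine ⟨-F.coeff 0, U, Ideal.neg_mem_iff _ |>.mpr h0, hF.isUnit, ?_⟩
  rw [hF.eq_mul]
  have h5 : F = Polynomial.X + Polynomial.C (F.coeff 0) := by
    have h6 := Polynomial.eq_X_add_C_of_natDegree_le_one hdeg.le
    rw [hmon] at h6
    simpa using h6
  have h6 : (F : PowerSeries (R1 n K)) = PowerSeries.X + PowerSeries.C (F.coeff 0) := by
    conv_lhs => rw [h5]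
    rw [Polynomial.coe_add, Polynomial.coe_X, Polynomial.coe_C]
  rw [h6, map_neg, sub_neg_eq_add, mul_comm]

/-- In the coordinates `(y, z)` of a generic projection, a series `e ∈ 𝔪`, `e ∉ 𝔪 ^ 2` is a unit
times `z - r(y)`.

Proof: when `e` does not vanish on the `z`-line, this is the Weierstrass preparation theorem
(`PowerSeries.exists_isWeierstrassFactorization`, for the complete ring `R1`) and
`natDegree_eq_order` for `m = 1`.  The remaining case does not occur: take a basis element `x j`
which does not vanish on the `z`-line and apply the first case to `e + (x j) ^ 2`, whose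
restriction to the `z`-line is divisible by `z ^ 2`. -/
theorem exists_root {n : ℕ} {K : Type} [Field K] [CharZero K] (p : Proj n K)
    (e : MvPowerSeries (Fin (n + 1)) K)
    (h1 : e ∈ IsLocalRing.maximalIdeal (MvPowerSeries (Fin (n + 1)) K))
    (h2 : e ∉ IsLocalRing.maximalIdeal (MvPowerSeries (Fin (n + 1)) K) ^ 2) :
    ∃ (r : R1 n K) (U : PowerSeries (R1 n K)),
      r ∈ IsLocalRing.maximalIdeal (R1 n K) ∧ IsUnit U ∧
      p.σ (ex e) = U * (PowerSeries.X - PowerSeries.C r) := by
  by_cases h3 : rootRho p e = 0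
  · exfalso
    obtain ⟨j, hj⟩ := root_exists_ne p
    have hxj : p.x j ∈ IsLocalRing.maximalIdeal (MvPowerSeries (Fin (n + 1)) K) := by
      rw [← p.hx]
      exact Ideal.subset_span ⟨j, rfl⟩
    have hxj2 : p.x j ^ 2 ∈ IsLocalRing.maximalIdeal (MvPowerSeries (Fin (n + 1)) K) ^ 2 :=
      Ideal.pow_mem_pow hxj 2
    obtain ⟨r, U, hr, hU, hrU⟩ := root_of_ne p (e + p.x j ^ 2)
      (Ideal.add_mem _ h1 (Ideal.pow_le_self two_ne_zero hxj2))
      (fun h => h2 ((Ideal.add_mem_iff_left _ hxj2).mp h))
      (by rw [map_add, h3, zero_add, map_pow]; exact pow_ne_zero 2 hj)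
    have h4 : rootRho p (e + p.x j ^ 2) =
        PowerSeries.map constantCoeff U * PowerSeries.X := by
      rw [rootRho_apply, hrU, map_mul, map_sub, PowerSeries.map_X, PowerSeries.map_C,
        (mem_maximalIdeal_iff_constantCoeff r).mp hr, map_zero, sub_zero]
    have h5 : rootRho p (e + p.x j ^ 2) = rootRho p (p.x j) ^ 2 := by
      rw [map_add, h3, zero_add, map_pow]
    have h6 : (PowerSeries.X : PowerSeries (GenField n K)) ^ 2 ∣
        PowerSeries.map constantCoeff U * PowerSeries.X := by
      rw [← h4, h5]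
      exact pow_dvd_pow_of_dvd (root_X_dvd p _ hxj) 2
    rw [pow_two] at h6
    have h7 : (PowerSeries.X : PowerSeries (GenField n K)) ∣
        PowerSeries.map constantCoeff U :=
      (mul_dvd_mul_iff_right PowerSeries.X_ne_zero).mp h6
    rw [PowerSeries.X_dvd_iff] at h7
    have h8 : IsUnit (PowerSeries.map (constantCoeff (σ := Fin n) (R := GenField n K)) U) :=
      hU.map _
    rw [PowerSeries.isUnit_iff_constantCoeff, h7] at h8
    exact not_isUnit_zero h8
  · exact root_of_ne p e h1 h2 h3

end Pool.Agent.Helper38.ED
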