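import Pool.Agent.Helper38.ED.SecBasic
import Pool.Agent.Helper38.EQ.LenTwo
import Pool.Agent.Helper38.EQ.Formal

/-! The ideal of the image of a subvariety contained in the sections. -/

namespace Pool.Agent.Helper38.ED

open MvPowerSeries Pool.Agent.Helper38.EQ

variable {n : ℕ} {K : Type} [Field K] {p : Proj n K}
  {e : MvPowerSeries (Fin (n + 1)) K} {I : Ideal (MvPowerSeries (Fin (n + 1)) K)}

/-- `map σ` of the radical ideal `(map ex I).radical`. -/
noncomputable def Proj.big (p : Proj n K) (I : Ideal (MvPowerSeries (Fin (n + 1)) K)) :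
    Ideal (PowerSeries (R1 n K)) := Ideal.map p.σ (Ideal.map ex I).radical

theorem Proj.mem_img (p : Proj n K) (I : Ideal (MvPowerSeries (Fin (n + 1)) K)) (h : R1 n K) :
    h ∈ p.img I ↔ PowerSeries.C h ∈ p.big I := Iff.rfl

/-- See `mem_map_algEquiv`. -/
theorem Proj.mem_big (p : Proj n K) (h : SL n K) :
    p.σ h ∈ p.big I ↔ h ∈ (Ideal.map ex I).radical :=
  mem_map_algEquiv p.σ _ _

theorem Proj.big_isRadical (p : Proj n K) (I : Ideal (MvPowerSeries (Fin (n + 1)) K)) :
    (p.big I).IsRadical := by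
  rintro y ⟨N, hN⟩
  obtain ⟨h, rfl⟩ := p.σ.surjective y
  rw [← map_pow, Proj.mem_big] at hN
  rw [Proj.mem_big]
  exact Ideal.radical_isRadical _ ⟨N, hN⟩

theorem Proj.img_isRadical (p : Proj n K) (I : Ideal (MvPowerSeries (Fin (n + 1)) K)) :
    (p.img I).IsRadical := by
  rintro y ⟨N, hN⟩
  rw [Proj.mem_img, map_pow] at hN
  rw [Proj.mem_img]
  exact Proj.big_isRadical p I ⟨N, hN⟩

theorem Proj.img_ne_top (p : Proj n K) (hI : I ≠ ⊤) : p.img I ≠ ⊤ :=
  comap_ne_top p.σ I hI

/-- See `mem_of_ext_mem_radical` in `EQ/Formal.lean`. -/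
theorem Proj.mem_big_ex (p : Proj n K) (hI : I.IsRadical) (h : MvPowerSeries (Fin (n + 1)) K) :
    p.σ (ex h) ∈ p.big I ↔ h ∈ I := by
  rw [Proj.mem_big]
  constructor
  · exact mem_of_ext_mem_radical I hI h
  · intro hh
    exact Ideal.le_radical (Ideal.mem_map_of_mem _ hh)

/-- If `e ∈ I`, then `z - r ∈ big I`. -/
theorem Sec.X_sub_mem (s : Sec p e) (he : e ∈ I) :
    PowerSeries.X - PowerSeries.C s.r ∈ p.big I := by
  have h1 : p.σ (ex e) ∈ p.big I := by
    rw [Proj.mem_big]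
    exact Ideal.le_radical (Ideal.mem_map_of_mem _ he)
  rw [s.eq] at h1
  exact (Ideal.unit_mul_mem_iff_mem _ s.isUnit).mp h1

theorem Sec.mem_of_X_sub_mem (s : Sec p e) (hI : I.IsRadical)
    (he : PowerSeries.X - PowerSeries.C s.r ∈ p.big I) : e ∈ I := by
  rw [← Proj.mem_big_ex p hI, s.eq]
  exact Ideal.mul_mem_left _ _ he

/-- If `z - r ∈ big I`, evaluation at the section is congruent to the identity. -/
theorem Sec.C_ε_mem_iff (s : Sec p e) (he : PowerSeries.X - PowerSeries.C s.r ∈ p.big I)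
    (φ : PowerSeries (R1 n K)) : s.ε φ ∈ p.img I ↔ φ ∈ p.big I := by
  rw [Proj.mem_img]
  obtain ⟨q, hq⟩ := s.ε_dvd φ
  have h1 : (PowerSeries.X - PowerSeries.C s.r) * q ∈ p.big I := Ideal.mul_mem_right _ _ he
  constructor
  · intro h
    rw [hq]
    exact Ideal.add_mem _ h h1
  · intro h
    rw [hq] at h
    exact (Ideal.add_mem_iff_left _ h1).mp h

/-- Restriction: if `e, h ∈ I`, then the restriction of `h` to `e = 0` is in `img I`. -/
theorem Sec.pull_mem_img (s : Sec p e) (he : e ∈ I) {h : MvPowerSeries (Fin (n + 1)) K}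
    (hh : h ∈ I) : s.pull h ∈ p.img I := by
  rw [Sec.pull_apply, Sec.C_ε_mem_iff s (s.X_sub_mem he), Proj.mem_big]
  exact Ideal.le_radical (Ideal.mem_map_of_mem _ hh)

/-- Conversely. -/
theorem Sec.mem_of_pull_mem (s : Sec p e) (hI : I.IsRadical) (he : e ∈ I)
    {h : MvPowerSeries (Fin (n + 1)) K} (hh : s.pull h ∈ p.img I) : h ∈ I := by
  rw [Sec.pull_apply, Sec.C_ε_mem_iff s (s.X_sub_mem he), Proj.mem_big_ex p hI] at hh
  exact hh

/-- If `f ~ ∏ e_i ∈ I` and all differences of the roots are in `img I`, all `e_i` are in `I`.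
Proof: `∏ (X - C r_j) ∈ big I`; modulo `big I` all the factors are equal, so
`(X - C r_i) ^ m ∈ big I`, and `big I` is radical. -/
theorem comps_mem {m : ℕ} {e : Fin m → MvPowerSeries (Fin (n + 1)) K}
    (s : ∀ i, Sec p (e i)) {f : MvPowerSeries (Fin (n + 1)) K} (hf : Associated f (∏ i, e i))
    (hI : I.IsRadical) (hfI : f ∈ I)
    (hd : ∀ i j, (s i).r - (s j).r ∈ p.img I) (i : Fin m) : e i ∈ I := by
  apply (s i).mem_of_X_sub_mem hI
  have h1 : ∏ i, e i ∈ I := by
    obtain ⟨u, hu⟩ := hf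
    rw [← hu]
    exact Ideal.mul_mem_right _ _ hfI
  have h2 : ∏ j, p.σ (ex (e j)) ∈ p.big I := by
    rw [← map_prod, ← map_prod, Proj.mem_big_ex p hI]
    exact h1
  have h3 : ∏ j, (PowerSeries.X - PowerSeries.C (s j).r) ∈ p.big I := by
    have h4 : ∏ j, p.σ (ex (e j)) =
        (∏ j, (s j).U) * ∏ j, (PowerSeries.X - PowerSeries.C (s j).r) := by
      rw [← Finset.prod_mul_distrib]
      exact Finset.prod_congr rfl (fun j _ => (s j).eq)
    rw [h4] at h2
    refine (Ideal.unit_mul_mem_iff_mem _ ?_).mp h2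
    rw [IsUnit.prod_iff]
    exact fun j _ => (s j).isUnit
  have h5 : (PowerSeries.X - PowerSeries.C (s i).r) ^ m ∈ p.big I := by
    have h6 : ∀ j, Ideal.Quotient.mk (p.big I) (PowerSeries.X - PowerSeries.C (s j).r) =
        Ideal.Quotient.mk (p.big I) (PowerSeries.X - PowerSeries.C (s i).r) := by
      intro j
      rw [Ideal.Quotient.eq]
      have h7 := hd i j
      rw [Proj.mem_img] at h7
      rw [map_sub] at h7
      have h8 : PowerSeries.X - PowerSeries.C (s j).r - (PowerSeries.X - PowerSeries.C (s i).r) =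
          PowerSeries.C (s i).r - PowerSeries.C (s j).r := by ring
      rw [h8]
      exact h7
    rw [← Ideal.Quotient.eq_zero_iff_mem] at h3 ⊢
    rw [map_prod] at h3
    rw [map_pow, ← h3]
    rw [Finset.prod_congr rfl (fun j _ => h6 j)]
    rw [Finset.prod_const, Finset.card_univ, Fintype.card_fin]
  exact Proj.big_isRadical p I ⟨m, h5⟩

end Pool.Agent.Helper38.ED
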