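import Pool.Agent.Helper38.ED.Factor
import Pool.Agent.Helper38.ED.DiscrProd
import Pool.Agent.Helper38.ED.Radical
import Pool.Agent.Helper38.ED.UpDown

/-! The critical variety of the generic projection of a union of smooth hypersurfaces. -/

namespace Pool.Agent.Helper38.ED

open MvPowerSeries Pool.Agent.Helper38.EQ

variable {n : ℕ} {K : Type} [Field K] {p : Proj n K}

/-- `P` is the equation of the reduced discriminant of the union of the `e_i = 0`: all the
restrictions of `e_j` to `e_i = 0` divide powers of `P`, `P` is radical and divides a power of their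
product. -/
structure IsDisc {m : ℕ} {e : Fin m → MvPowerSeries (Fin (n + 1)) K}
    (s : ∀ i, Sec p (e i)) (P : R1 n K) : Prop where
  rad : Rad P
  dvd : ∀ i j, i < j → ∃ N, (s i).pull (e j) ∣ P ^ N
  dvd' : ∃ N, P ∣ (∏ i, ∏ j ∈ Finset.univ.filter (fun j => i < j), (s i).pull (e j)) ^ N

/-- A product of divisors of powers divides a power. -/
private theorem Step_prod_dvd {R : Type} [CommRing R] {ι : Type} (t : Finset ι) (a : ι → R) (P : R)
    (h : ∀ i ∈ t, ∃ N, a i ∣ P ^ N) : ∃ N, (∏ i ∈ t, a i) ∣ P ^ N := by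
  classical
  induction t using Finset.induction_on with
  | empty => exact ⟨0, by simp⟩
  | insert x s hx ih =>
    obtain ⟨N, hN⟩ := ih fun i hi => h i (Finset.mem_insert_of_mem hi)
    obtain ⟨M, hM⟩ := h x (Finset.mem_insert_self x s)
    refine ⟨M + N, ?_⟩
    rw [Finset.prod_insert hx, pow_add]
    exact mul_dvd_mul hM hN

private theorem Step_discr {m : ℕ} {e : Fin m → MvPowerSeries (Fin (n + 1)) K}
    {s : ∀ i, Sec p (e i)} {P : R1 n K} (h : IsDisc s P) :
    (∃ N, P ∣ (∏ i, (Polynomial.X - Polynomial.C (s i).r)).discr ^ N) ∧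
      ∃ N, (∏ i, (Polynomial.X - Polynomial.C (s i).r)).discr ∣ P ^ N := by
  classical
  have hd := discr_prod fun i => (s i).r
  constructor
  · obtain ⟨N, hN⟩ := h.dvd'
    refine ⟨N, hN.trans (pow_dvd_pow_of_dvd ?_ N)⟩
    refine Dvd.dvd.trans ?_ hd.symm.dvd
    refine Finset.prod_dvd_prod_of_dvd _ _ fun i _ => ?_
    refine Dvd.dvd.trans (Finset.prod_dvd_prod_of_dvd _ (fun j => (s i).r - (s j).r)
      fun j _ => (Sec.assoc (s i) (s j)).dvd) ?_
    refine Finset.prod_dvd_prod_of_subset _ _ _ fun j hj => ?_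
    rw [Finset.mem_filter] at hj ⊢
    exact ⟨hj.1, ne_of_gt hj.2⟩
  · have h1 : ∀ i j, i ≠ j → ∃ N, (s i).r - (s j).r ∣ P ^ N := by
      intro i j hij
      rcases lt_or_gt_of_ne hij with hlt | hlt
      · obtain ⟨N, hN⟩ := h.dvd i j hlt
        exact ⟨N, (Sec.assoc (s i) (s j)).symm.dvd.trans hN⟩
      · obtain ⟨N, hN⟩ := h.dvd j i hlt
        refine ⟨N, ?_⟩
        rw [← neg_sub, neg_dvd]
        exact (Sec.assoc (s j) (s i)).symm.dvd.trans hN
    obtain ⟨N, hN⟩ := Step_prod_dvd Finset.univ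
      (fun i => ∏ j ∈ Finset.univ.filter (fun j => j ≠ i), ((s i).r - (s j).r)) P
      fun i _ => Step_prod_dvd _ _ P fun j hj => h1 i j (by
        rw [Finset.mem_filter] at hj
        exact hj.2.symm)
    exact ⟨N, hd.dvd.trans hN⟩

/-- Uniqueness: `factor_unique`, `discr_prod`, `Rad.associated`, `Sec.assoc`. -/
theorem IsDisc.unique {m : ℕ} {e : Fin m → MvPowerSeries (Fin (n + 1)) K}
    {s : ∀ i, Sec p (e i)} {P : R1 n K} (h : IsDisc s P)
    {f : MvPowerSeries (Fin (n + 1)) K} (hf : Associated f (∏ i, e i))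
    {F : Polynomial (R1 n K)} {U : PowerSeries (R1 n K)}
    (hF : (p.σ (ex f)).IsWeierstrassFactorization F U) {g : R1 n K}
    (hg : Ideal.span {g} = (Ideal.span {F.discr}).radical) : Associated g P := by
  have hFe := factor_unique s hf hF
  rw [hFe] at hg
  obtain ⟨h1, h2⟩ := Step_discr h
  exact Rad.associated h.rad h1 h2 hg

/-- Existence: `factor_exists`, `discr_prod`, `Rad.span_eq`, `Sec.assoc`. -/
theorem IsDisc.exists {m : ℕ} {e : Fin m → MvPowerSeries (Fin (n + 1)) K}
    {s : ∀ i, Sec p (e i)} {P : R1 n K} (h : IsDisc s P)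
    {f : MvPowerSeries (Fin (n + 1)) K} (hf : Associated f (∏ i, e i)) :
    ∃ F U, (p.σ (ex f)).IsWeierstrassFactorization F U ∧
      Ideal.span {P} = (Ideal.span {F.discr}).radical := by
  obtain ⟨U, hU⟩ := factor_exists s hf
  obtain ⟨h1, h2⟩ := Step_discr h
  exact ⟨_, U, hU, Rad.span_eq h.rad h1 h2⟩

/-- All differences of the roots are in a radical ideal that contains the restrictions. -/
theorem diff_mem {m : ℕ} {e : Fin m → MvPowerSeries (Fin (n + 1)) K}
    (s : ∀ i, Sec p (e i)) (J : Ideal (R1 n K))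
    (h : ∀ i j, i < j → (s i).pull (e j) ∈ J) (i j : Fin m) : (s i).r - (s j).r ∈ J := by
  rcases lt_trichotomy i j with hlt | rfl | hlt
  · exact Ideal.mem_of_dvd _ (Sec.assoc (s i) (s j)).dvd (h i j hlt)
  · rw [sub_self]
    exact J.zero_mem
  · rw [← neg_sub]
    exact J.neg_mem (Ideal.mem_of_dvd _ (Sec.assoc (s j) (s i)).dvd (h j i hlt))

/-- One step of the recursion, in one direction. -/
theorem eqLen_unpack {B : BasisClass} {k : ℕ} {f : MvPowerSeries (Fin (n + 1)) K}
    {I : Ideal (MvPowerSeries (Fin (n + 1)) K)} (h : EqLen B k (n + 1) K f I)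
    (hf : f ∈ IsLocalRing.maximalIdeal (MvPowerSeries (Fin (n + 1)) K) ^ 2) :
    ∃ (k' : ℕ) (p : Proj n K) (F : Polynomial (R1 n K)) (U : PowerSeries (R1 n K)) (g : R1 n K),
      k = k' + 1 ∧ singIdeal f ≤ I ∧ (p.σ (ex f)).IsWeierstrassFactorization F U ∧
      Ideal.span {g} = (Ideal.span {F.discr}).radical ∧
      EqLen B k' n (GenField n K) g (p.img I) := by
  cases h with
  | simple n K f I hI h1 h2 => exact absurd hf h2
  | step k n K f I hI x hx hB σ hσ F U hF g hg h =>
    exact ⟨k, ⟨x, hx, σ, hσ⟩, F, U, g, rfl, hI, hF, hg, h⟩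

/-- A class of bases that contains the standard bases. -/
def HasStd (B : BasisClass) : Prop :=
  ∀ (n : ℕ) (K : Type) [Field K] (f : MvPowerSeries (Fin n) K), B n K f (fun j => X j)

/-- One step of the recursion, in the other direction. -/
theorem eqLen_pack {B : BasisClass} (hB : HasStd B) {k : ℕ} {f : MvPowerSeries (Fin (n + 1)) K}
    {I : Ideal (MvPowerSeries (Fin (n + 1)) K)} {p : Proj n K} (hp : p.x = fun j => X j)
    (hI : singIdeal f ≤ I) {F : Polynomial (R1 n K)} {U : PowerSeries (R1 n K)}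
    (hF : (p.σ (ex f)).IsWeierstrassFactorization F U) {g : R1 n K}
    (hg : Ideal.span {g} = (Ideal.span {F.discr}).radical)
    (h : EqLen B k n (GenField n K) g (p.img I)) : EqLen B (k + 1) (n + 1) K f I := by
  refine EqLen.step k n K f I hI p.x p.hx ?_ p.σ p.hσ F U hF g hg h
  rw [hp]
  exact hB (n + 1) K f

/-- The end of the recursion, at a simple point. -/
theorem eqLen_simple {B : BasisClass} [CharZero K] {n : ℕ} {g P : MvPowerSeries (Fin n) K}
    (hg : Associated g P)
    (h1 : P ∈ IsLocalRing.maximalIdeal (MvPowerSeries (Fin n) K))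
    (h2 : P ∉ IsLocalRing.maximalIdeal (MvPowerSeries (Fin n) K) ^ 2)
    {I : Ideal (MvPowerSeries (Fin n) K)} (hI : I ≠ ⊤) : EqLen B 0 n K g I := by
  have h1' : g ∈ IsLocalRing.maximalIdeal (MvPowerSeries (Fin n) K) :=
    Ideal.mem_of_dvd _ hg.symm.dvd h1
  have h2' : g ∉ IsLocalRing.maximalIdeal (MvPowerSeries (Fin n) K) ^ 2 := fun h =>
    h2 (Ideal.mem_of_dvd _ hg.dvd h)
  refine EqLen.simple n K g I ?_ h1' h2'
  rw [singIdeal_eq, multIdeal_eq_top g 2 h2', top_le_iff]
  exact hI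

end Pool.Agent.Helper38.ED
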