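import Pool.Agent.Helper38.ED.Local1
import Pool.Agent.Helper38.ED.Local3
import Pool.Agent.Helper38.ED.Local4
import Pool.Agent.Helper38.ED.Local5
import Pool.Agent.Helper38.ED.Final
import Pool.Agent.Helper38.ED.Classify

/-! The eight strata of the open subset `exH ≠ 0` of `V`. -/

namespace Pool.Agent.Helper38.ED

open Pool.Agent.Helper38.EQ

variable {K : Type} [Field K]

/-- The eight strata: the simple points, the six strata `strE`, and the curve. -/
def allE (K : Type) [Field K] : Fin 8 → Set (Fin 7 → K) :=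
  Fin.cons {Q | Q ∈ openPoints (exV K) (exH K) ∧ ¬ IsSing (exV K) Q}
    (Fin.snoc (strE K) (curve K) : Fin 7 → Set (Fin 7 → K))

private theorem StrA_last : allE K (Fin.last 6).succ = curve K := by
  unfold allE
  rw [Fin.cons_succ, Fin.snoc_last]

private theorem StrA_cast (j : Fin 6) : allE K j.castSucc.succ = strE K j := by
  unfold allE
  rw [Fin.cons_succ, Fin.snoc_castSucc]

/-- Case distinction for the indices of the strata. -/
private theorem StrA_ind {C : Set (Fin 7 → K) → Prop} (h1 : ∀ j, C (strE K j))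
    (h2 : C (curve K)) {i : Fin 8} (hi : i ≠ 0) : C (allE K i) := by
  obtain ⟨j, rfl⟩ := Fin.exists_succ_eq.2 hi
  induction j using Fin.lastCases with
  | last => rw [StrA_last]; exact h2
  | cast j => rw [StrA_cast]; exact h1 j

theorem allE_pos [IsAlgClosed K] [CharZero K] {B : BasisClass} (hB : HasStd B) {i : Fin 8}
    (hi : i ≠ 0) {R : Fin 7 → K} (hR : R ∈ allE K i) :
    ∃ k, EqAlong B k (exV K) R (idealOf (allE K i)) := by
  refine StrA_ind (C := fun E => R ∈ E → ∃ k, EqAlong B k (exV K) R (idealOf E)) ?_ ?_ hi hR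
  · intro j
    fin_cases j
    · exact fun h => ⟨1, local1_pos hB (j := 0) h⟩
    · exact fun h => ⟨1, local1_pos hB (j := 1) h⟩
    · exact fun h => ⟨1, local1_pos hB (j := 2) h⟩
    · exact fun h => ⟨1, local3_pos hB h⟩
    · exact fun h => ⟨2, local4_pos hB h⟩
    · exact fun h => ⟨3, local5_pos hB h⟩
  · exact fun h => ⟨4, eqAlong_iff.2 (final_pos hB h)⟩

theorem allE_neg [IsAlgClosed K] [CharZero K] {B : BasisClass} {i : Fin 8}
    (hi : i ≠ 0) {R : Fin 7 → K} (hR : R ∈ allE K i)
    (P : Ideal (MvPolynomial (Fin 7) K)) (hP : P.IsPrime) (hPR : P ≤ pointIdeal R) {k : ℕ}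
    (hE : EqAlong B k (exV K) R P) : idealOf (allE K i) ≤ P := by
  refine StrA_ind (C := fun E => R ∈ E → idealOf E ≤ P) ?_ ?_ hi hR
  · intro j
    fin_cases j
    · exact fun h => local1_neg (j := 0) h P hP hPR hE
    · exact fun h => local1_neg (j := 1) h P hP hPR hE
    · exact fun h => local1_neg (j := 2) h P hP hPR hE
    · exact fun h => local3_neg h P hP hPR hE
    · exact fun h => local4_neg h P hP hPR hE
    · exact fun h => local5_neg h P hP hPR hE
  · exact fun h => final_neg h P hP hPR (eqAlong_iff.1 hE)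

theorem allE_prime [IsAlgClosed K] [CharZero K] {i : Fin 8} (hi : i ≠ 0) :
    (idealOf (allE K i)).IsPrime :=
  StrA_ind (C := fun E => (idealOf E).IsPrime) strE_isPrime curve_isPrime hi

end Pool.Agent.Helper38.ED
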