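import Pool.Agent.Helper38.ED.StrA

/-! The strata are disjoint and cover the variety; their closures. -/

namespace Pool.Agent.Helper38.ED

open Pool.Agent.Helper38.EQ

variable {K : Type} [Field K]

theorem StrB_zero : allE K 0 = {Q | Q ∈ openPoints (exV K) (exH K) ∧ ¬ IsSing (exV K) Q} := rfl

theorem StrB_mid (j : Fin 6) : allE K j.castSucc.succ = strE K j := by
  rw [allE, Fin.cons_succ]
  exact Fin.snoc_castSucc (α := fun _ => Set (Fin 7 → K)) _ _ _

theorem StrB_last : allE K (Fin.last 6).succ = curve K := by
  rw [allE, Fin.cons_succ]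
  exact Fin.snoc_last (α := fun _ => Set (Fin 7 → K)) _ _

theorem StrB_sing [IsAlgClosed K] [CharZero K] {i : Fin 7} {R : Fin 7 → K}
    (hR : R ∈ allE K i.succ) : R ∈ openPoints (exV K) (exH K) ∧ IsSing (exV K) R := by
  induction i using Fin.lastCases with
  | last =>
    rw [StrB_last] at hR
    exact ⟨⟨(curve_isSing hR).1, exH_curve hR⟩, (curve_isSing hR).2⟩
  | cast j =>
    rw [StrB_mid] at hR
    exact ⟨⟨(strE_sing hR).1, hR.2.1⟩, (strE_sing hR).2⟩

theorem allE_cover [IsAlgClosed K] [CharZero K] :
    ⋃ i, allE K i = openPoints (exV K) (exH K) := by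
  apply Set.Subset.antisymm
  · refine Set.iUnion_subset fun i => ?_
    induction i using Fin.cases with
    | zero => exact fun R hR => hR.1
    | succ i => exact fun R hR => (StrB_sing hR).1
  · intro R hR
    rw [Set.mem_iUnion]
    by_cases hs : IsSing (exV K) R
    · rcases classify hR.1 hR.2 hs with ⟨j, hj⟩ | hc
      · exact ⟨j.castSucc.succ, by rwa [StrB_mid]⟩
      · exact ⟨(Fin.last 6).succ, by rwa [StrB_last]⟩
    · exact ⟨0, hR, hs⟩

theorem allE_disj [IsAlgClosed K] [CharZero K] (i j : Fin 8) (hij : i ≠ j) :
    Disjoint (allE K i) (allE K j) := by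
  induction i using Fin.cases with
  | zero =>
    induction j using Fin.cases with
    | zero => exact absurd rfl hij
    | succ j =>
      rw [Set.disjoint_left]
      exact fun R h1 h2 => h1.2 (StrB_sing h2).2
  | succ i =>
    induction j using Fin.cases with
    | zero =>
      rw [Set.disjoint_left]
      exact fun R h1 h2 => h2.2 (StrB_sing h1).2
    | succ j =>
      induction i using Fin.lastCases with
      | last =>
        induction j using Fin.lastCases with
        | last => exact absurd rfl hij
        | cast j =>
          rw [StrB_last, StrB_mid]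
          exact (strE_curve_disjoint j).symm
      | cast i =>
        induction j using Fin.lastCases with
        | last =>
          rw [StrB_last, StrB_mid]
          exact strE_curve_disjoint i
        | cast j =>
          rw [StrB_mid, StrB_mid]
          exact strE_disjoint fun h => hij (by rw [h])

/-- The closures of the strata. -/
theorem allE_closure [IsAlgClosed K] [CharZero K] :
    relClosure (exH K) (allE K 0) = openPoints (exV K) (exH K) ∧
    (∀ j : Fin 6, relClosure (exH K) (allE K j.succ.castSucc) =
      {R | R ∈ Fix (retr K j) ∧ MvPolynomial.eval R (exH K) ≠ 0}) ∧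
    relClosure (exH K) (allE K 7) = curve K := by
  refine ⟨?_, ?_, ?_⟩
  · ext R
    constructor
    · rintro ⟨h1, h2⟩
      refine ⟨?_, h2⟩
      have h3 : exV K ∈ idealOf (allE K 0) := by
        rw [MvPolynomial.mem_vanishingIdeal_iff]
        intro Q hQ
        rw [MvPolynomial.aeval_eq_eval]
        exact hQ.1.1
      have h4 := MvPolynomial.mem_zeroLocus_iff.1 h1 _ h3
      rwa [MvPolynomial.aeval_eq_eval] at h4
    · rintro ⟨h1, h2⟩
      exact ⟨closure_simple h1, h2⟩
  · intro j
    have h : j.succ.castSucc = j.castSucc.succ := rfl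
    rw [h, StrB_mid]
    ext R
    change R ∈ closureOf (strE K j) ∧ _ ↔ _
    rw [closureOf_strE]
    exact Iff.rfl
  · have h : (7 : Fin 8) = (Fin.last 6).succ := rfl
    rw [h, StrB_last]
    ext R
    change R ∈ closureOf (curve K) ∧ _ ↔ _
    rw [closureOf_curve]
    exact ⟨fun h1 => h1.1, fun h1 => ⟨h1, exH_curve h1⟩⟩

end Pool.Agent.Helper38.ED
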