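import Pool.Agent.Helper38.ED.StrB

/-! The frontiers of the strata. -/

namespace Pool.Agent.Helper38.ED

open Pool.Agent.Helper38.EQ

variable {K : Type} [Field K]

private theorem StrC_E (j : Fin 6) : allE K j.succ.castSucc = strE K j := by
  fin_cases j <;> rfl

private theorem StrC_7 : allE K 7 = curve K := rfl

private theorem StrC_P (R : Fin 7 → K) : MvPolynomial.eval R (polyP K) = R 1 + R 2 * R 3 := by
  simp [polyP]

private theorem StrC_Q (R : Fin 7 → K) :
    MvPolynomial.eval R (polyQ K) = R 1 + 2 * R 2 * R 3 + R 6 * R 2 ^ 2 := by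
  simp [polyQ]

private theorem StrC_A (R : Fin 7 → K) :
    MvPolynomial.eval R (polyA K) = R 4 ^ 2 - R 5 ^ 3 := by
  simp [polyA]

private theorem StrC_mem5 (R : Fin 7 → K) :
    R ∈ strE K 4 ↔ (R 0 = 0 ∧ R 1 = 0 ∧ R 2 = 0) ∧ MvPolynomial.eval R (exH K) ≠ 0 ∧
      R 3 ≠ 0 := by
  have h := (mem_Fix_retr R).2.2.2.2.1
  constructor
  · rintro ⟨h1, h2, h3⟩
    refine ⟨h.1 h1, h2, ?_⟩
    rcases h3 with h3 | ⟨h3, _⟩
    · simpa [openPoly] using h3
    · exact absurd h3 (by decide)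
  · rintro ⟨h1, h2, h3⟩
    refine ⟨h.2 h1, h2, Or.inl ?_⟩
    simpa [openPoly] using h3

private theorem StrC_mem6 (R : Fin 7 → K) :
    R ∈ strE K 5 ↔ (R 0 = 0 ∧ R 1 = 0 ∧ R 2 = 0 ∧ R 3 = 0) ∧
      MvPolynomial.eval R (exH K) ≠ 0 ∧ (R 6 ≠ 0 ∨ R 4 ^ 2 ≠ R 5 ^ 3) := by
  have h := (mem_Fix_retr R).2.2.2.2.2
  constructor
  · rintro ⟨h1, h2, h3⟩
    refine ⟨h.1 h1, h2, ?_⟩
    rcases h3 with h3 | ⟨_, h3⟩
    · left
      simpa [openPoly] using h3
    · right
      rw [StrC_A] at h3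
      exact fun h4 => h3 (by rw [h4, sub_self])
  · rintro ⟨h1, h2, h3⟩
    refine ⟨h.2 h1, h2, ?_⟩
    rcases h3 with h3 | h3
    · left
      simpa [openPoly] using h3
    · right
      refine ⟨rfl, ?_⟩
      rw [StrC_A]
      exact sub_ne_zero.2 h3

private theorem StrC_67 [CharZero K] (R : Fin 7 → K) :
    (R ∈ strE K 5 ∨ R ∈ curve K) ↔ (R 0 = 0 ∧ R 1 = 0 ∧ R 2 = 0 ∧ R 3 = 0) ∧
      MvPolynomial.eval R (exH K) ≠ 0 := by
  rw [StrC_mem6]
  constructor
  · rintro (⟨h1, h2, _⟩ | h)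
    · exact ⟨h1, h2⟩
    · exact ⟨⟨h.1, h.2.1, h.2.2.1, h.2.2.2.1⟩, exH_curve h⟩
  · rintro ⟨h1, h2⟩
    by_cases h6 : R 6 = 0
    · by_cases h45 : R 4 ^ 2 = R 5 ^ 3
      · exact Or.inr ⟨h1.1, h1.2.1, h1.2.2.1, h1.2.2.2, h6, h45⟩
      · exact Or.inl ⟨h1, h2, Or.inr h45⟩
    · exact Or.inl ⟨h1, h2, Or.inl h6⟩

private theorem StrC_567 [CharZero K] (R : Fin 7 → K) :
    (R ∈ strE K 4 ∨ R ∈ strE K 5 ∨ R ∈ curve K) ↔ (R 0 = 0 ∧ R 1 = 0 ∧ R 2 = 0) ∧
      MvPolynomial.eval R (exH K) ≠ 0 := by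
  rw [StrC_67, StrC_mem5]
  constructor
  · rintro (⟨h1, h2, _⟩ | ⟨h1, h2⟩)
    · exact ⟨h1, h2⟩
    · exact ⟨⟨h1.1, h1.2.1, h1.2.2.1⟩, h2⟩
  · rintro ⟨h1, h2⟩
    by_cases h3 : R 3 = 0
    · exact Or.inr ⟨⟨h1.1, h1.2.1, h1.2.2, h3⟩, h2⟩
    · exact Or.inl ⟨h1, h2, h3⟩

/-- the first four strata -/
private theorem StrC_first [CharZero K] [IsAlgClosed K] (j : Fin 6) (hj : j.val < 4)
    (R : Fin 7 → K) :
    (R ∈ relClosure (exH K) (allE K j.succ.castSucc) ∧ R ∉ allE K j.succ.castSucc) ↔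
      (R 0 = 0 ∧ R 1 = 0 ∧ R 2 = 0) ∧ MvPolynomial.eval R (exH K) ≠ 0 := by
  rw [allE_closure.2.1 j, StrC_E]
  obtain ⟨m0, m1, m2, m3, m4, m5⟩ := mem_Fix_retr R
  have hj5 : j ≠ 5 := by
    intro h
    rw [h] at hj
    exact absurd hj (by decide)
  have key : (R ∈ {R | R ∈ Fix (retr K j) ∧ MvPolynomial.eval R (exH K) ≠ 0} ∧
      R ∉ strE K j) ↔ (R ∈ Fix (retr K j) ∧ MvPolynomial.eval R (openPoly K j) = 0) ∧
        MvPolynomial.eval R (exH K) ≠ 0 := by
    constructor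
    · rintro ⟨⟨h1, h2⟩, h3⟩
      refine ⟨⟨h1, ?_⟩, h2⟩
      by_contra h4
      exact h3 ⟨h1, h2, Or.inl h4⟩
    · rintro ⟨⟨h1, h2⟩, h3⟩
      refine ⟨⟨h1, h3⟩, ?_⟩
      rintro ⟨_, _, h4 | ⟨h4, _⟩⟩
      · exact h4 h2
      · exact hj5 h4
  rw [key]
  refine and_congr_left fun _ => ?_
  have hc : j = 0 ∨ j = 1 ∨ j = 2 ∨ j = 3 := by
    have : j.val = 0 ∨ j.val = 1 ∨ j.val = 2 ∨ j.val = 3 := by omega
    rcases this with h | h | h | h
    · exact Or.inl (Fin.ext h)
    · exact Or.inr (Or.inl (Fin.ext h))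
    · exact Or.inr (Or.inr (Or.inl (Fin.ext h)))
    · exact Or.inr (Or.inr (Or.inr (Fin.ext h)))
  rcases hc with rfl | rfl | rfl | rfl
  · have e : MvPolynomial.eval R (openPoly K 0) = R 2 := by simp [openPoly]
    rw [e, m0]
    exact and_assoc
  · have e : MvPolynomial.eval R (openPoly K 1) = R 2 := by simp [openPoly]
    rw [e, m1, StrC_P]
    constructor
    · rintro ⟨⟨h1, h2⟩, h3⟩
      rw [h3] at h1 h2
      refine ⟨by simpa using h1, by simpa using h2, h3⟩
    · rintro ⟨h1, h2, h3⟩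
      rw [h1, h2, h3]
      simp
  · have e : MvPolynomial.eval R (openPoly K 2) = R 2 := by simp [openPoly]
    rw [e, m2, StrC_Q]
    constructor
    · rintro ⟨⟨h1, h2⟩, h3⟩
      rw [h3] at h1 h2
      refine ⟨by simpa using h1, by simpa using h2, h3⟩
    · rintro ⟨h1, h2, h3⟩
      rw [h1, h2, h3]
      simp
  · have e : MvPolynomial.eval R (openPoly K 3) = R 1 := by simp [openPoly]
    rw [e, m3]
    exact ⟨fun h => ⟨h.1.1, h.2, h.1.2⟩, fun h => ⟨⟨h.1, h.2.2⟩, h.2.1⟩⟩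

/-- The frontiers of the strata: that of the set of the simple points is the union of all others;
that of the strata `1, 2, 3, 4` (`strE 0, 1, 2, 3`) is `E 5 ∪ E 6 ∪ E 7`, that of `E 5` is
`E 6 ∪ E 7`, that of `E 6` is `E 7`, that of `E 7` is empty. -/
theorem allE_frontier_eq [IsAlgClosed K] [CharZero K] (i : Fin 8) :
    relClosure (exH K) (allE K i) \ allE K i =
      ⋃ j ∈ {j : Fin 8 | (i = 0 ∧ j ≠ 0) ∨ (i ≠ 0 ∧ 5 ≤ j ∧ i < j)}, allE K j := by
  ext R
  simp only [Set.mem_sdiff, Set.mem_iUnion, Set.mem_ofPred_eq, exists_prop]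
  have h567 : (∃ j : Fin 8, 5 ≤ j ∧ R ∈ allE K j) ↔
      (R 0 = 0 ∧ R 1 = 0 ∧ R 2 = 0) ∧ MvPolynomial.eval R (exH K) ≠ 0 := by
    rw [← StrC_567]
    constructor
    · rintro ⟨j, hj, hR⟩
      fin_cases j
      · exact absurd hj (by decide)
      · exact absurd hj (by decide)
      · exact absurd hj (by decide)
      · exact absurd hj (by decide)
      · exact absurd hj (by decide)
      · exact Or.inl hR
      · exact Or.inr (Or.inl hR)
      · exact Or.inr (Or.inr hR)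
    · rintro (h | h | h)
      · exact ⟨5, le_refl _, h⟩
      · exact ⟨6, by decide, h⟩
      · exact ⟨7, by decide, h⟩
  by_cases hi0 : i = 0
  · subst hi0
    rw [allE_closure.1, ← allE_cover]
    constructor
    · rintro ⟨h1, h2⟩
      obtain ⟨j, hj⟩ := Set.mem_iUnion.1 h1
      refine ⟨j, Or.inl ⟨rfl, ?_⟩, hj⟩
      rintro rfl
      exact h2 hj
    · rintro ⟨j, hj, hR⟩
      rcases hj with ⟨_, hj⟩ | ⟨hj, _⟩
      · exact ⟨Set.mem_iUnion.2 ⟨j, hR⟩, fun h0 =>
          Set.disjoint_left.1 (allE_disj j 0 hj) hR h0⟩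
      · exact absurd rfl hj
  · by_cases hi4 : i.val < 5
    · have hex : ∃ j : Fin 6, j.val < 4 ∧ i = j.succ.castSucc := by
        refine ⟨⟨i.val - 1, by omega⟩, ?_, ?_⟩
        · have : i.val ≠ 0 := fun h => hi0 (Fin.ext h)
          simp only
          omega
        · apply Fin.ext
          have : i.val ≠ 0 := fun h => hi0 (Fin.ext h)
          simp only [Fin.val_castSucc, Fin.val_succ]
          omega
      obtain ⟨j, hj, rfl⟩ := hex
      rw [StrC_first j hj R, ← h567]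
      constructor
      · rintro ⟨k, hk, hR⟩
        refine ⟨k, Or.inr ⟨hi0, hk, ?_⟩, hR⟩
        exact lt_of_lt_of_le (Fin.lt_def.2 hi4) hk
      · rintro ⟨k, (⟨h, _⟩ | ⟨_, hk, _⟩), hR⟩
        · exact absurd h hi0
        · exact ⟨k, hk, hR⟩
    · have hcases : i = 5 ∨ i = 6 ∨ i = 7 := by
        have h8 := i.isLt
        have : i.val = 5 ∨ i.val = 6 ∨ i.val = 7 := by omega
        rcases this with h | h | h
        · exact Or.inl (Fin.ext h)
        · exact Or.inr (Or.inl (Fin.ext h))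
        · exact Or.inr (Or.inr (Fin.ext h))
      rcases hcases with rfl | rfl | rfl
      · have hc := allE_closure (K := K) |>.2.1 4
        have e5 : ((4 : Fin 6).succ.castSucc : Fin 8) = 5 := rfl
        rw [e5] at hc
        rw [hc]
        have hE : allE K 5 = strE K 4 := rfl
        rw [hE, StrC_mem5]
        have h67 : (∃ j : Fin 8, ((5 : Fin 8) = 0 ∧ j ≠ 0 ∨ (5 : Fin 8) ≠ 0 ∧ 5 ≤ j ∧ 5 < j) ∧
            R ∈ allE K j) ↔ (R ∈ strE K 5 ∨ R ∈ curve K) := by
          constructor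
          · rintro ⟨j, hj, hR⟩
            fin_cases j
            · exact absurd hj (by decide)
            · exact absurd hj (by decide)
            · exact absurd hj (by decide)
            · exact absurd hj (by decide)
            · exact absurd hj (by decide)
            · exact absurd hj (by decide)
            · exact Or.inl hR
            · exact Or.inr hR
          · rintro (h | h)
            · exact ⟨6, by decide, h⟩
            · exact ⟨7, by decide, h⟩
        rw [h67, StrC_67]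
        have m4 := (mem_Fix_retr R).2.2.2.2.1
        constructor
        · rintro ⟨⟨h1, h2⟩, h3⟩
          have h1' := m4.1 h1
          refine ⟨⟨h1'.1, h1'.2.1, h1'.2.2, ?_⟩, h2⟩
          by_contra h4
          exact h3 ⟨h1', h2, h4⟩
        · rintro ⟨h1, h2⟩
          refine ⟨⟨m4.2 ⟨h1.1, h1.2.1, h1.2.2.1⟩, h2⟩, ?_⟩
          rintro ⟨_, _, h4⟩
          exact h4 h1.2.2.2
      · have hc := allE_closure (K := K) |>.2.1 5
        have e6 : ((5 : Fin 6).succ.castSucc : Fin 8) = 6 := rfl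
        rw [e6] at hc
        rw [hc]
        have hE : allE K 6 = strE K 5 := rfl
        rw [hE, StrC_mem6]
        have h7 : (∃ j : Fin 8, ((6 : Fin 8) = 0 ∧ j ≠ 0 ∨ (6 : Fin 8) ≠ 0 ∧ 5 ≤ j ∧ 6 < j) ∧
            R ∈ allE K j) ↔ R ∈ curve K := by
          constructor
          · rintro ⟨j, hj, hR⟩
            fin_cases j
            · exact absurd hj (by decide)
            · exact absurd hj (by decide)
            · exact absurd hj (by decide)
            · exact absurd hj (by decide)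
            · exact absurd hj (by decide)
            · exact absurd hj (by decide)
            · exact absurd hj (by decide)
            · exact hR
          · intro h
            exact ⟨7, by decide, h⟩
        rw [h7]
        have m5 := (mem_Fix_retr R).2.2.2.2.2
        constructor
        · rintro ⟨⟨h1, h2⟩, h3⟩
          have h1' := m5.1 h1
          refine ⟨h1'.1, h1'.2.1, h1'.2.2.1, h1'.2.2.2, ?_, ?_⟩
          · by_contra h4
            exact h3 ⟨h1', h2, Or.inl h4⟩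
          · by_contra h4
            exact h3 ⟨h1', h2, Or.inr h4⟩
        · intro h
          refine ⟨⟨m5.2 ⟨h.1, h.2.1, h.2.2.1, h.2.2.2.1⟩, exH_curve h⟩, ?_⟩
          rintro ⟨_, _, h4 | h4⟩
          · exact h4 h.2.2.2.2.1
          · exact h4 h.2.2.2.2.2
      · rw [allE_closure.2.2, StrC_7]
        constructor
        · rintro ⟨h1, h2⟩
          exact absurd h1 h2
        · rintro ⟨j, (⟨h, _⟩ | ⟨_, _, h⟩), _⟩
          · exact absurd h (by decide)
          · have h8 := j.isLt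
            have h9 := Fin.lt_def.1 h
            have h10 : ((7 : Fin 8) : ℕ) = 7 := rfl
            omega

theorem allE_frontier [IsAlgClosed K] [CharZero K] (i j : Fin 8)
    (h : (allE K j ∩ (relClosure (exH K) (allE K i) \ allE K i)).Nonempty) :
    allE K j ⊆ relClosure (exH K) (allE K i) \ allE K i := by
  rw [allE_frontier_eq] at h ⊢
  obtain ⟨R, hRj, hR⟩ := h
  obtain ⟨k, hk⟩ := Set.mem_iUnion.1 hR
  obtain ⟨hk1, hk2⟩ := Set.mem_iUnion.1 hk
  have hkj : k = j := by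
    by_contra hne
    exact Set.disjoint_left.1 (allE_disj k j hne) hk2 hRj
  subst hkj
  intro x hx
  exact Set.mem_iUnion.2 ⟨k, Set.mem_iUnion.2 ⟨hk1, hx⟩⟩

end Pool.Agent.Helper38.ED
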