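import Pool.Agent.Helper38.ED.StrC

/-! The strata are the sets of equisingular points. -/

namespace Pool.Agent.Helper38.ED

open Pool.Agent.Helper38.EQ

variable {K : Type} [Field K]

private theorem StrD_nonempty [IsAlgClosed K] [CharZero K] {j : Fin 8} (hj : j ≠ 0) :
    (allE K j).Nonempty := by
  rw [Set.nonempty_iff_ne_empty]
  intro h
  apply (allE_prime (K := K) hj).ne_top
  rw [h, Ideal.eq_top_iff_one]
  exact MvPolynomial.mem_vanishingIdeal_iff.2 fun x hx => absurd hx (Set.notMem_empty x)

/-- Let `Q` be in the closure of `E i` and not in `E i`, so `Q ∈ E j` with `j ≠ i` in the frontier.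
If `V` were equisingular at `Q` along `idealOf (E i)`, then `idealOf (E j) ≤ idealOf (E i)` by
`allE_neg`, so the closure of `E i` would be contained in that of `E j`: a contradiction to
`allE_frontier_eq` (`E i` would be in the closure of `E j`). -/
theorem allE_eqs [IsAlgClosed K] [CharZero K] {B : BasisClass} (hB : HasStd B) (i : Fin 8)
    (hi : i ≠ 0) :
    allE K i = {Q | Q ∈ relClosure (exH K) (allE K i) ∧
      ∃ k, EqAlong B k (exV K) Q (idealOf (allE K i))} := by
  have hH : ∀ (l : Fin 8) (R : Fin 7 → K), R ∈ allE K l → MvPolynomial.eval R (exH K) ≠ 0 := by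
    intro l R hR
    have h2 : R ∈ openPoints (exV K) (exH K) := by
      rw [← allE_cover]
      exact Set.mem_iUnion.2 ⟨l, hR⟩
    exact h2.2
  ext Q
  constructor
  · intro hQ
    refine ⟨⟨?_, hH i Q hQ⟩, allE_pos hB hi hQ⟩
    unfold closureOf
    rw [MvPolynomial.mem_zeroLocus_iff]
    intro f hf
    exact MvPolynomial.mem_vanishingIdeal_iff.1 hf Q hQ
  · rintro ⟨hQ, k, hk⟩
    by_contra hne
    have h1 : Q ∈ relClosure (exH K) (allE K i) \ allE K i := ⟨hQ, hne⟩
    rw [allE_frontier_eq] at h1
    obtain ⟨j, hj, hQj⟩ := Set.mem_iUnion₂.1 h1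
    have hj' : 5 ≤ j ∧ i < j := by
      rcases hj with h | h
      · exact absurd h.1 hi
      · exact h.2
    have hj0 : j ≠ 0 := by
      rintro rfl
      exact absurd hj'.1 (by decide)
    have h2 : idealOf (allE K i) ≤ pointIdeal Q := by
      intro f hf
      have h3 := hQ.1
      unfold closureOf at h3
      rw [MvPolynomial.mem_zeroLocus_iff] at h3
      have h4 := h3 f hf
      rw [MvPolynomial.aeval_eq_eval] at h4
      exact (RingHom.mem_ker).2 h4
    have h3 : idealOf (allE K j) ≤ idealOf (allE K i) :=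
      allE_neg hj0 hQj _ (allE_prime hi) h2 hk
    obtain ⟨R, hR⟩ := StrD_nonempty (K := K) hi
    have hij : i ≠ j := ne_of_lt hj'.2
    have h4 : R ∈ closureOf (allE K j) := by
      unfold closureOf
      rw [MvPolynomial.mem_zeroLocus_iff]
      intro f hf
      exact MvPolynomial.mem_vanishingIdeal_iff.1 (h3 hf) R hR
    have h5 : R ∉ allE K j := fun h => Set.disjoint_left.1 (allE_disj i j hij) hR h
    have h6 : R ∈ relClosure (exH K) (allE K j) \ allE K j := ⟨⟨h4, hH i R hR⟩, h5⟩
    rw [allE_frontier_eq] at h6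
    obtain ⟨l, hl, hRl⟩ := Set.mem_iUnion₂.1 h6
    have hl' : j < l := by
      rcases hl with h | h
      · exact absurd h.1 hj0
      · exact h.2.2
    exact Set.disjoint_left.1 (allE_disj i l (ne_of_lt (lt_trans hj'.2 hl'))) hR hRl

end Pool.Agent.Helper38.ED
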