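import Pool.Agent.Helper38.ED.StrC

/-! The closures of the strata are components of frontiers. -/

namespace Pool.Agent.Helper38.ED

open Pool.Agent.Helper38.EQ

variable {K : Type} [Field K]

private theorem StrE_nonempty [IsAlgClosed K] [CharZero K] {j : Fin 8} (hj : j ≠ 0) :
    (allE K j).Nonempty := by
  rw [Set.nonempty_iff_ne_empty]
  intro h
  apply (allE_prime (K := K) hj).ne_top
  rw [h, Ideal.eq_top_iff_one]
  exact MvPolynomial.mem_vanishingIdeal_iff.2 fun x hx => absurd hx (Set.notMem_empty x)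

private theorem StrE_le [IsAlgClosed K] [CharZero K] {i j : Fin 8} (hi : i ≠ 0) (hj : j ≠ 0)
    (h : idealOf (allE K i) ≤ idealOf (allE K j)) : i = j ∨ (5 ≤ j ∧ i < j) := by
  by_cases hij : i = j
  · exact Or.inl hij
  right
  obtain ⟨R, hR⟩ := StrE_nonempty (K := K) hj
  have h1 : R ∈ closureOf (allE K i) := by
    unfold closureOf
    rw [MvPolynomial.mem_zeroLocus_iff]
    intro f hf
    exact MvPolynomial.mem_vanishingIdeal_iff.1 (h hf) R hR
  have h2 : R ∈ openPoints (exV K) (exH K) := by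
    rw [← allE_cover]
    exact Set.mem_iUnion.2 ⟨j, hR⟩
  have h3 : R ∉ allE K i := fun h4 => Set.disjoint_left.1 (allE_disj i j hij) h4 hR
  have h4 : R ∈ relClosure (exH K) (allE K i) \ allE K i := ⟨⟨h1, h2.2⟩, h3⟩
  rw [allE_frontier_eq] at h4
  obtain ⟨j', hj', hR'⟩ := Set.mem_iUnion₂.1 h4
  have h5 : j' = j := by
    by_contra hne
    exact Set.disjoint_left.1 (allE_disj j' j hne) hR' hR
  rw [h5] at hj'
  rcases hj' with hj' | hj'
  · exact absurd hj'.1 hi
  · exact hj'.2

/-- Components of a finite union. -/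
private theorem StrE_comp [IsAlgClosed K] [CharZero K] {j : Fin 8} (hj : j ≠ 0) (i : Fin 8)
    (h1 : (i = 0 ∧ j ≠ 0) ∨ (i ≠ 0 ∧ 5 ≤ j ∧ i < j))
    (h2 : ∀ l : Fin 8, (i = 0 ∧ l ≠ 0) ∨ (i ≠ 0 ∧ 5 ≤ l ∧ i < l) → ¬ (5 ≤ j ∧ l < j)) :
    IsComponent (idealOf (allE K j)) (relClosure (exH K) (allE K i) \ allE K i) := by
  classical
  unfold IsComponent
  rw [allE_frontier_eq]
  refine ⟨⟨allE_prime hj, ?_⟩, ?_⟩
  · intro f hf
    rw [MvPolynomial.mem_vanishingIdeal_iff] at hf ⊢
    intro x hx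
    exact hf x (Set.mem_iUnion₂.2 ⟨j, h1, hx⟩)
  · rintro Q ⟨hQ, hQ1⟩ hQ2
    set S : Finset (Fin 8) := Finset.univ.filter fun l =>
      (i = 0 ∧ l ≠ 0) ∨ (i ≠ 0 ∧ 5 ≤ l ∧ i < l) with hS
    have h3 : S.inf (fun l => idealOf (allE K l)) ≤ Q := by
      refine le_trans ?_ hQ1
      intro f hf
      rw [MvPolynomial.mem_vanishingIdeal_iff]
      intro x hx
      obtain ⟨l, hl, hx'⟩ := Set.mem_iUnion₂.1 hx
      have hlS : l ∈ S := Finset.mem_filter.2 ⟨Finset.mem_univ _, hl⟩
      have hf' : f ∈ idealOf (allE K l) := (Finset.inf_le (f := fun l => idealOf (allE K l)) hlS) hf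
      exact MvPolynomial.mem_vanishingIdeal_iff.1 hf' x hx'
    obtain ⟨l, hlS, hl⟩ := (hQ.inf_le').1 h3
    have hl1 := (Finset.mem_filter.1 hlS).2
    have hl0 : l ≠ 0 := by
      rcases hl1 with h | h
      · exact h.2
      · rintro rfl
        exact absurd h.2.1 (by decide)
    rcases StrE_le hl0 hj (hl.trans hQ2) with h | h
    · rw [← h]
      exact hl
    · exact absurd h (h2 l hl1)

/-- The component of the frontier: `E 7` in that of `E 6`, `E 6` in that of `E 5`, `E 5` in that of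
`E 4`, and `E 1, …, E 4` in that of `E 0` (the ideal of the frontier of `E 0` is the intersection of the
four incomparable primes `idealOf (E 1), …, idealOf (E 4)`). -/
theorem allE_component [IsAlgClosed K] [CharZero K] (j : Fin 8) (hj : j ≠ 0) :
    ∃ i, IsComponent (idealOf (allE K j)) (relClosure (exH K) (allE K i) \ allE K i) := by
  by_cases h5 : 5 ≤ j
  · have hj1 : 5 ≤ j.val := h5
    have hj2 := j.isLt
    refine ⟨⟨j.val - 1, by omega⟩, StrE_comp hj _ ?_ ?_⟩
    · right
      refine ⟨?_, h5, ?_⟩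
      · intro h
        have h' : j.val - 1 = 0 := congrArg Fin.val h
        omega
      · change j.val - 1 < j.val
        omega
    · rintro l hl ⟨_, hlj⟩
      have h6 : l.val < j.val := hlj
      rcases hl with h | h
      · have h' : j.val - 1 = 0 := congrArg Fin.val h.1
        omega
      · have h7 : j.val - 1 < l.val := h.2.2
        omega
  · exact ⟨0, StrE_comp hj 0 (Or.inl ⟨rfl, hj⟩) fun l _ h => h5 h.1⟩

end Pool.Agent.Helper38.ED
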