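import Pool.Agent.Helper38.ED.StrD
import Pool.Agent.Helper38.ED.StrE

/-! The stratification of the open subset `exH ≠ 0` of `V`. -/

namespace Pool.Agent.Helper38.ED

open Pool.Agent.Helper38.EQ

variable {K : Type} [Field K]

theorem exists_strat [IsAlgClosed K] [CharZero K] {B : BasisClass} (hB : HasStd B) :
    Nonempty (StratOn B (exV K) (exH K)) :=
  ⟨{ N := 7
     E := allE K
     E_zero := rfl
     cover := allE_cover
     disj := allE_disj
     prime := fun _ hi => allE_prime hi
     eqs := fun i hi => allE_eqs hB i hi
     frontier := allE_frontier
     component := allE_component }⟩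

end Pool.Agent.Helper38.ED
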