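import Pool.Agent.Helper38.ED.Retr
import Pool.Agent.Helper38.ED.OpenDefs
import Pool.Agent.Helper38.ED.Curve

/-! The strata of the open subset `exH ≠ 0` of `V`. -/

namespace Pool.Agent.Helper38.ED

open MvPolynomial Pool.Agent.Helper38.EQ

/-- The images of the variables under the six retractions. -/
noncomputable def retrVec (K : Type) [Field K] : Fin 6 → Fin 7 → MvPolynomial (Fin 7) K :=
  ![![0, 0, X 2, X 3, X 4, X 5, X 6],
    ![X 2 ^ 2, -(X 2 * X 3), X 2, X 3, X 4, X 5, X 6],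
    ![X 2 ^ 2 * (2 + polyA K), -(2 * X 2 * X 3 + X 6 * X 2 ^ 2), X 2, X 3, X 4, X 5, X 6],
    ![0, X 1, 0, X 3, X 4, X 5, X 6],
    ![0, 0, 0, X 3, X 4, X 5, X 6],
    ![0, 0, 0, 0, X 4, X 5, X 6]]

/-- The six retractions (onto the closures of the strata other than the curve). -/
noncomputable def retr (K : Type) [Field K] (j : Fin 6) :
    MvPolynomial (Fin 7) K →ₐ[K] MvPolynomial (Fin 7) K := aeval (retrVec K j)

/-- The polynomials that define the open conditions. -/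
noncomputable def openPoly (K : Type) [Field K] : Fin 6 → MvPolynomial (Fin 7) K :=
  ![X 2, X 2, X 2, X 1, X 3, X 6]

/-- The six strata other than the curve and the set of simple points: the fixed points of the
retraction (in `exH ≠ 0`) with `x₂ ≠ 0` (for the first three), `x₁ ≠ 0`, `x₃ ≠ 0`, and
`y₃ ≠ 0` or `a₁ ≠ 0`. -/
def strE (K : Type) [Field K] (j : Fin 6) : Set (Fin 7 → K) :=
  {R | R ∈ Fix (retr K j) ∧ eval R (exH K) ≠ 0 ∧
    (eval R (openPoly K j) ≠ 0 ∨ (j = 5 ∧ eval R (polyA K) ≠ 0))}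

variable {K : Type} [Field K]

private theorem SD_retr_X (j : Fin 6) (i : Fin 7) : retr K j (X i) = retrVec K j i := by
  unfold retr
  rw [aeval_X]

private theorem SD_retr_C (j : Fin 6) (a : K) : retr K j (C a) = C a := by
  rw [algHom_C, algebraMap_eq]

theorem retr_idem (j : Fin 6) (i : Fin 7) : retr K j (retr K j (X i)) = retr K j (X i) := by
  rw [SD_retr_X]
  fin_cases j <;> fin_cases i <;>
    simp [retrVec, polyA, SD_retr_X, map_ofNat]

/-- `exH` at a point: all the differences of the values `m_i(R)`, `m_j(R)` in different blocks are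
nonzero. -/
theorem eval_exH_ne_zero (R : Fin 7 → K) :
    eval R (exH K) ≠ 0 ↔
      ∀ i j : Fin 6, i.val / 2 < j.val / 2 → eval R (polyM K j) ≠ eval R (polyM K i) := by
  unfold exH
  rw [map_prod, Finset.prod_ne_zero_iff]
  constructor
  · intro h i j hij
    have h1 := h i (Finset.mem_univ i)
    rw [map_prod, Finset.prod_ne_zero_iff] at h1
    have h2 := h1 j (Finset.mem_univ j)
    rw [if_pos hij, map_sub, sub_ne_zero] at h2
    exact h2
  · intro h i _
    rw [map_prod, Finset.prod_ne_zero_iff]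
    intro j _
    by_cases hij : i.val / 2 < j.val / 2
    · rw [if_pos hij, map_sub, sub_ne_zero]
      exact h i j hij
    · rw [if_neg hij, map_one]
      exact one_ne_zero

/-- Membership in `Fix (retr K j)` in coordinates. -/
theorem mem_Fix_retr (R : Fin 7 → K) :
    (R ∈ Fix (retr K 0) ↔ R 0 = 0 ∧ R 1 = 0) ∧
    (R ∈ Fix (retr K 1) ↔ R 0 = R 2 ^ 2 ∧ eval R (polyP K) = 0) ∧
    (R ∈ Fix (retr K 2) ↔ R 0 = R 2 ^ 2 * (2 + eval R (polyA K)) ∧ eval R (polyQ K) = 0) ∧
    (R ∈ Fix (retr K 3) ↔ R 0 = 0 ∧ R 2 = 0) ∧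
    (R ∈ Fix (retr K 4) ↔ R 0 = 0 ∧ R 1 = 0 ∧ R 2 = 0) ∧
    (R ∈ Fix (retr K 5) ↔ R 0 = 0 ∧ R 1 = 0 ∧ R 2 = 0 ∧ R 3 = 0) := by
  have key : ∀ j, R ∈ Fix (retr K j) ↔ ∀ i, eval R (retrVec K j i) = R i := by
    intro j
    unfold Fix
    rw [Set.mem_ofPred_eq]
    simp only [SD_retr_X]
  have eP : eval R (polyP K) = R 1 + R 2 * R 3 := by
    simp [polyP]
  have eQ : eval R (polyQ K) = R 1 + 2 * R 2 * R 3 + R 6 * R 2 ^ 2 := by
    simp [polyQ, map_ofNat]
  refine ⟨?_, ?_, ?_, ?_, ?_, ?_⟩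
  · rw [key]
    constructor
    · intro h
      have h0 := h 0
      have h1 := h 1
      simp [retrVec] at h0 h1
      exact ⟨h0.symm, h1.symm⟩
    · rintro ⟨h0, h1⟩ i
      fin_cases i <;> simp [retrVec, h0, h1]
  · rw [key, eP]
    constructor
    · intro h
      have h0 := h 0
      have h1 := h 1
      simp [retrVec] at h0 h1
      exact ⟨h0.symm, by rw [← h1]; ring⟩
    · rintro ⟨h0, h1⟩ i
      have h2 : R 1 = -(R 2 * R 3) := by linear_combination h1
      fin_cases i <;> simp [retrVec, h0, h2]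
  · rw [key, eQ]
    constructor
    · intro h
      have h0 := h 0
      have h1 := h 1
      simp [retrVec, map_ofNat] at h0 h1
      exact ⟨h0.symm, by rw [← h1]; ring⟩
    · rintro ⟨h0, h1⟩ i
      have h2 : R 1 = -(2 * R 2 * R 3 + R 6 * R 2 ^ 2) := by linear_combination h1
      fin_cases i
      · simp [retrVec, h0, map_ofNat]
      · rw [show ((⟨1, by decide⟩ : Fin 7)) = 1 from rfl, h2]
        simp [retrVec, map_ofNat]
      all_goals simp [retrVec]
  · rw [key]
    constructor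
    · intro h
      have h0 := h 0
      have h1 := h 2
      simp [retrVec] at h0 h1
      exact ⟨h0.symm, h1.symm⟩
    · rintro ⟨h0, h1⟩ i
      fin_cases i <;> simp [retrVec, h0, h1]
  · rw [key]
    constructor
    · intro h
      have h0 := h 0
      have h1 := h 1
      have h2 := h 2
      simp [retrVec] at h0 h1 h2
      exact ⟨h0.symm, h1.symm, h2.symm⟩
    · rintro ⟨h0, h1, h2⟩ i
      fin_cases i <;> simp [retrVec, h0, h1, h2]
  · rw [key]
    constructor
    · intro h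
      have h0 := h 0
      have h1 := h 1
      have h2 := h 2
      have h3 := h 3
      simp [retrVec] at h0 h1 h2 h3
      exact ⟨h0.symm, h1.symm, h2.symm, h3.symm⟩
    · rintro ⟨h0, h1, h2, h3⟩ i
      fin_cases i <;> simp [retrVec, h0, h1, h2, h3]

private theorem SD_exH (R : Fin 7 → K) (v : Fin 6 → K)
    (hv : ∀ i, eval R (polyM K i) = v i)
    (h : ∀ i j : Fin 6, i.val / 2 < j.val / 2 → v j ≠ v i) : eval R (exH K) ≠ 0 := by
  rw [eval_exH_ne_zero]
  intro i j hij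
  rw [hv, hv]
  exact h i j hij

private theorem SD_eval_polyM (R : Fin 7 → K) (i : Fin 6) :
    eval R (polyM K i) = ![0, R 1, 1, 1 + (R 1 + R 2 * R 3), 2 + (R 4 ^ 2 - R 5 ^ 3),
      2 + (R 4 ^ 2 - R 5 ^ 3) + (R 1 + 2 * R 2 * R 3 + R 6 * R 2 ^ 2)] i := by
  fin_cases i <;> simp [polyM, polyP, polyA, polyQ, map_ofNat]

/-- The curve is in the open set. -/
theorem exH_curve [CharZero K] {R : Fin 7 → K} (hR : R ∈ curve K) : eval R (exH K) ≠ 0 := by
  obtain ⟨h0, h1, h2, h3, h6, h45⟩ := hR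
  refine SD_exH R ![0, 0, 1, 1, 2, 2] (fun i => ?_) (fun i j hij => ?_)
  · rw [SD_eval_polyM]
    fin_cases i <;> simp [h1, h2, h6, h45]
  · fin_cases i <;> fin_cases j <;> simp at hij ⊢

/-- The points `(0,0,1,0,0,0,0)`, `(1,0,1,0,0,0,0)`, `(2,0,1,0,0,0,0)`, `(0,3,0,0,0,0,0)`,
`(0,0,0,1,0,0,0)`, `(0,0,0,0,0,0,1)`. -/
theorem exists_witness [CharZero K] (j : Fin 6) :
    ∃ R ∈ Fix (retr K j), eval R (openPoly K j * exH K) ≠ 0 := by
  have h01 : ∀ v : Fin 6 → K, (v = ![0, 0, 1, 1, 2, 2] ∨ v = ![0, 3, 1, 4, 2, 5]) →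
      ∀ i j : Fin 6, i.val / 2 < j.val / 2 → v j ≠ v i := by
    rintro v (rfl | rfl) i j hij
    · fin_cases i <;> fin_cases j <;> simp at hij ⊢
    · fin_cases i <;> fin_cases j <;> simp at hij ⊢
  have key : ∀ (R : Fin 7 → K) (v : Fin 6 → K), R ∈ Fix (retr K j) →
      (v = ![0, 0, 1, 1, 2, 2] ∨ v = ![0, 3, 1, 4, 2, 5]) → eval R (openPoly K j) ≠ 0 →
      (∀ i, eval R (polyM K i) = v i) →
      ∃ R ∈ Fix (retr K j), eval R (openPoly K j * exH K) ≠ 0 := by
    intro R v hR hv ho hm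
    refine ⟨R, hR, ?_⟩
    rw [map_mul]
    exact mul_ne_zero ho (SD_exH R v hm (h01 v hv))
  fin_cases j
  · refine key ![0, 0, 1, 0, 0, 0, 0] ![0, 0, 1, 1, 2, 2] ?_ (Or.inl rfl) ?_ ?_
    · exact (mem_Fix_retr _).1.2 ⟨rfl, rfl⟩
    · simp [openPoly]
    · intro i
      rw [SD_eval_polyM]
      fin_cases i <;> simp
  · refine key ![1, 0, 1, 0, 0, 0, 0] ![0, 0, 1, 1, 2, 2] ?_ (Or.inl rfl) ?_ ?_
    · exact (mem_Fix_retr _).2.1.2 ⟨by simp, by simp [polyP]⟩
    · simp [openPoly]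
    · intro i
      rw [SD_eval_polyM]
      fin_cases i <;> simp
  · refine key ![2, 0, 1, 0, 0, 0, 0] ![0, 0, 1, 1, 2, 2] ?_ (Or.inl rfl) ?_ ?_
    · exact (mem_Fix_retr _).2.2.1.2 ⟨by simp [polyA], by simp [polyQ]⟩
    · simp [openPoly]
    · intro i
      rw [SD_eval_polyM]
      fin_cases i <;> simp
  · refine key ![0, 3, 0, 0, 0, 0, 0] ![0, 3, 1, 4, 2, 5] ?_ (Or.inr rfl) ?_ ?_
    · exact (mem_Fix_retr _).2.2.2.1.2 ⟨rfl, rfl⟩
    · simp [openPoly]
    · intro i
      rw [SD_eval_polyM]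
      fin_cases i <;> simp <;> norm_num
  · refine key ![0, 0, 0, 1, 0, 0, 0] ![0, 0, 1, 1, 2, 2] ?_ (Or.inl rfl) ?_ ?_
    · exact (mem_Fix_retr _).2.2.2.2.1.2 ⟨rfl, rfl, rfl⟩
    · simp [openPoly]
    · intro i
      rw [SD_eval_polyM]
      fin_cases i <;> simp
  · refine key ![0, 0, 0, 0, 0, 0, 1] ![0, 0, 1, 1, 2, 2] ?_ (Or.inl rfl) ?_ ?_
    · exact (mem_Fix_retr _).2.2.2.2.2.2 ⟨rfl, rfl, rfl, rfl⟩
    · simp [openPoly]
    · intro i
      rw [SD_eval_polyM]
      fin_cases i <;> simp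

private theorem SD_infinite [CharZero K] : Infinite K :=
  Infinite.of_injective (fun n : ℕ => (n : K)) Nat.cast_injective

private theorem SD_sub (j : Fin 6) : strE K j ⊆ Fix (retr K j) := fun _ hR => hR.1

private theorem SD_open (j : Fin 6) : ∀ R ∈ Fix (retr K j), eval R (openPoly K j * exH K) ≠ 0 →
    R ∈ strE K j := by
  intro R hR h
  rw [map_mul] at h
  exact ⟨hR, right_ne_zero_of_mul h, Or.inl (left_ne_zero_of_mul h)⟩

theorem strE_isPrime [CharZero K] (j : Fin 6) : (idealOf (strE K j)).IsPrime := by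
  have := SD_infinite (K := K)
  exact Fix.isPrime (retr_idem j) (SD_sub j) (SD_open j) (exists_witness j)

theorem mem_idealOf_strE [CharZero K] (j : Fin 6) (f : MvPolynomial (Fin 7) K) :
    f ∈ idealOf (strE K j) ↔ retr K j f = 0 := by
  have := SD_infinite (K := K)
  exact Fix.mem_idealOf (retr_idem j) (SD_sub j) (SD_open j) (exists_witness j) f

theorem closureOf_strE [CharZero K] (j : Fin 6) : closureOf (strE K j) = Fix (retr K j) := by
  have := SD_infinite (K := K)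
  exact Fix.closure (retr_idem j) (SD_sub j) (SD_open j) (exists_witness j)

theorem idealOf_strE_le [CharZero K] (j : Fin 6) {P : Ideal (MvPolynomial (Fin 7) K)}
    (hP : ∀ i, X i - retr K j (X i) ∈ P) : idealOf (strE K j) ≤ P := by
  have := SD_infinite (K := K)
  exact Fix.le (retr_idem j) (SD_sub j) (SD_open j) (exists_witness j) hP

end Pool.Agent.Helper38.ED
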